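import Mathlib

set_option autoImplicit false

/-!
Orders of the finite cyclic groups.
-/

namespace Pool.Agent.SHAF

/-- The admitted odd prime powers: the powers of `3`, fourteen further numbers, and the primes of
the form `2 * 3 ^ j + 1`. -/
def GoodPP (m : ℕ) : Prop :=
  (∃ k, 1 ≤ k ∧ m = 3 ^ k) ∨ m ∈ [5, 25, 7, 49, 11, 13, 17, 23, 29, 31, 37, 43, 47, 59] ∨
    (m.Prime ∧ ∃ j, 1 ≤ j ∧ m = 2 * 3 ^ j + 1)

/-- The admitted orders of cyclic groups. -/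
def Good (n : ℕ) : Prop :=
  n ∈ [1, 2, 4, 8, 16, 12, 20, 28, 36, 15, 21, 30, 42] ∨ ∃ m, GoodPP m ∧ (n = m ∨ n = 2 * m)

end Pool.Agent.SHAF
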