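import Mathlib
import Pool.Agent.SHAF.GoodDefs

set_option autoImplicit false

/-!
The list of finite soluble groups.
-/

namespace Pool.Agent.SHAF

/-- Admitted parameters: `q` is a prime, `c` the order of the centraliser and `d` its index. -/
def Params (q c d : ℕ) : Prop :=
  (c = 1 ∧ GoodPP q) ∨ (c = 2 ∧ GoodPP q ∧ d % 2 = 1) ∨ (c = 2 ∧ (q = 3 ∨ q = 5 ∨ q = 7)) ∨
    (q = 7 ∧ c = 4 ∧ d = 3) ∨ (q = 5 ∧ c = 3) ∨ (q = 7 ∧ c = 3 ∧ d = 2)

/-- `G` is a nonabelian semidirect product of a normal subgroup `N` of prime order `q` and an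
abelian subgroup `H`; the centraliser of `N` in `H` has order `c` and index `d` in `H`, and these
numbers are admitted (if `c = 4` then `H` is cyclic). -/
def MetaList (G : Type) [Group G] : Prop :=
  ∃ (q c d : ℕ) (N H : Subgroup G), q.Prime ∧ N.Normal ∧ Nat.card N = q ∧ N.IsComplement' H ∧
    (∀ x ∈ H, ∀ y ∈ H, x * y = y * x) ∧
    Nat.card (H ⊓ Subgroup.centralizer (N : Set G) : Subgroup G) = c ∧ Nat.card H = c * d ∧
    1 < d ∧ Params q c d ∧ (c = 4 → IsCyclic H)

/-- `G` has order 24 and a normal subgroup isomorphic to the quaternion group of order 8 that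
contains its centraliser (this describes the group `SL(2,3)`). -/
def BinTet (G : Type) [Group G] : Prop :=
  Nat.card G = 24 ∧ ∃ Q : Subgroup G, Q.Normal ∧ Nonempty (Q ≃* QuaternionGroup 2) ∧
    Subgroup.centralizer (Q : Set G) ≤ Q

/-- The list of finite soluble groups. -/
def SolList (G : Type) [Group G] : Prop :=
  Finite G ∧
    ((IsCyclic G ∧ Good (Nat.card G)) ∨
      Nonempty (G ≃* Multiplicative (ZMod 2 × ZMod 4)) ∨
      Nonempty (G ≃* Multiplicative (ZMod 2 × ZMod 6)) ∨
      (∃ f : G →* Equiv.Perm (Fin 4), Function.Injective f) ∨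
      Nonempty (G ≃* QuaternionGroup 2) ∨ BinTet G ∨ MetaList G)

end Pool.Agent.SHAF
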