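import Mathlib

set_option autoImplicit false

/-!
A maximal normal nilpotent subgroup of a finite soluble group contains its centraliser.
-/

namespace Pool.Agent.SHAF

section

variable {G : Type} [Group G]

/-- derived series of a subgroup -/
def dser (C : Subgroup G) : ℕ → Subgroup G
  | 0 => C
  | n + 1 => ⁅dser C n, dser C n⁆

lemma dser_normal (C : Subgroup G) [hC : C.Normal] (n : ℕ) : (dser C n).Normal := by
  induction n with
  | zero => exact hC
  | succ n ih =>
    haveI := ih
    exact Subgroup.commutator_normal _ _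

lemma dser_le (C : Subgroup G) (n : ℕ) : dser C n ≤ derivedSeries G n := by
  induction n with
  | zero => exact le_top
  | succ n ih => exact Subgroup.commutator_mono ih ih

lemma dser_le_self (C : Subgroup G) [hC : C.Normal] (n : ℕ) : dser C n ≤ C := by
  induction n with
  | zero => exact le_rfl
  | succ n ih =>
    haveI := dser_normal C n
    exact (Subgroup.commutator_le_left _ _).trans ih

end

theorem exists_fit (G : Type) [Group G] [Finite G] [hs : Group.IsSolvable G] :
    ∃ F : Subgroup G, F.Normal ∧ Group.IsNilpotent F ∧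
      Subgroup.centralizer (F : Set G) ≤ F ∧
      ∀ M : Subgroup G, M.Normal → Group.IsNilpotent M → F ≤ M → M = F := by
  obtain ⟨⟨F, hFn, hFnil⟩, hmax⟩ : ∃ F : {F : Subgroup G // F.Normal ∧ Group.IsNilpotent F},
      ∀ M : {F : Subgroup G // F.Normal ∧ Group.IsNilpotent F}, Nat.card M.1 ≤ Nat.card F.1 := by
    haveI : Nonempty {F : Subgroup G // F.Normal ∧ Group.IsNilpotent F} :=
      ⟨⟨⊥, inferInstance, inferInstance⟩⟩
    exact Finite.exists_max _
  have hmax' : ∀ M : Subgroup G, M.Normal → Group.IsNilpotent M → F ≤ M → M = F := by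
    intro M h1 h2 h3
    exact (Subgroup.eq_of_le_of_card_ge h3 (hmax ⟨M, h1, h2⟩)).symm
  refine ⟨F, hFn, hFnil, ?_, hmax'⟩
  set C := Subgroup.centralizer (F : Set G) with hC
  haveI hCn : C.Normal := Subgroup.normal_centralizer
  have hex : ∃ k, dser C k ≤ F := by
    obtain ⟨n, hn⟩ := (Group.isSolvable_def G).mp hs
    exact ⟨n, (dser_le C n).trans (hn ▸ bot_le)⟩
  classical
  have hk := Nat.find_spec hex
  have hmin := fun m => Nat.find_min hex (m := m)
  rcases Nat.eq_zero_or_pos (Nat.find hex) with h0 | h0
  · rw [h0] at hk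
    exact hk
  · exfalso
    obtain ⟨j, hj⟩ : ∃ j, Nat.find hex = j + 1 := ⟨Nat.find hex - 1, by omega⟩
    have h1 : ¬ dser C j ≤ F := hmin j (by omega)
    rw [hj] at hk
    set A := dser C j with hA
    haveI hAn : A.Normal := dser_normal C j
    have hAC : A ≤ C := dser_le_self C j
    have hAA : ⁅A, A⁆ ≤ F := hk
    have hcomm : ∀ (a : A) (f : F), Commute (A.subtype a) (F.subtype f) := by
      intro a f
      exact ((Subgroup.mem_centralizer_iff.mp (hAC a.2)) f.1 f.2).symm
    haveI hAnil : Group.IsNilpotent A := by
      refine Subgroup.isNilpotent_of_ker_le_center (Abelianization.of (G := A)) ?_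
      rw [Abelianization.ker_of]
      intro x hx
      rw [Subgroup.mem_center_iff]
      intro y
      have h2 : (x : G) ∈ ⁅A, A⁆ := by
        have h3 : (x : G) ∈ (commutator A).map A.subtype := ⟨x, hx, rfl⟩
        rwa [Subgroup.map_subtype_commutator] at h3
      exact Subtype.ext (hcomm y ⟨x, hAA h2⟩)
    haveI : Group.IsNilpotent F := hFnil
    have hnil : Group.IsNilpotent (A ⊔ F : Subgroup G) := by
      have hr : (MonoidHom.noncommCoprod A.subtype F.subtype hcomm).range = A ⊔ F := by
        rw [MonoidHom.noncommCoprod_range, Subgroup.range_subtype, Subgroup.range_subtype]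
      rw [← hr]
      exact Group.nilpotent_of_surjective _ (MonoidHom.rangeRestrict_surjective _)
    have h2 := hmax' (A ⊔ F) inferInstance hnil le_sup_right
    exact h1 (le_sup_left.trans h2.le)

end Pool.Agent.SHAF
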