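import Mathlib
import Pool.Agent.SHAF.GoodDefs

set_option autoImplicit false

/-!
Number theory of the admitted orders.
-/

namespace Pool.Agent.SHAF

/-- lower bound for the totient -/
lemma totient_bound (n : ℕ) (hn : 0 < n) :
    n ≤ (if 2 ∣ n then 2 else 1) * n.totient ^ 2 := by
  induction n using Nat.recOnPosPrimePosCoprime with
  | prime_pow p k hp hk =>
    rw [Nat.totient_prime_pow hp hk]
    obtain ⟨j, rfl⟩ : ∃ j, k = j + 1 := ⟨k - 1, by omega⟩
    simp only [Nat.add_sub_cancel]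
    by_cases h2 : p = 2
    · subst h2
      rw [if_pos (dvd_pow_self 2 (by omega))]
      have : 1 ≤ 2 ^ j := Nat.one_le_two_pow
      rw [pow_succ]
      nlinarith
    · have h3 : 3 ≤ p := by
        have := hp.two_le
        omega
      obtain ⟨q, rfl⟩ : ∃ q, p = q + 1 := ⟨p - 1, by omega⟩
      have h4 : 1 ≤ (q + 1) ^ j := Nat.one_le_pow _ _ (by omega)
      have h5 : q + 1 ≤ q ^ 2 := by nlinarith
      have h6 : 1 ≤ (if 2 ∣ (q + 1) ^ (j + 1) then 2 else 1) := by split_ifs <;> omega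
      calc (q + 1) ^ (j + 1) = (q + 1) ^ j * (q + 1) := pow_succ _ _
        _ ≤ ((q + 1) ^ j * (q + 1) ^ j) * q ^ 2 :=
          Nat.mul_le_mul (Nat.le_mul_of_pos_left _ (by omega)) h5
        _ = 1 * ((q + 1) ^ j * (q + 1 - 1)) ^ 2 := by rw [Nat.add_sub_cancel]; ring
        _ ≤ _ := Nat.mul_le_mul_right _ h6
  | zero => omega
  | one => simp
  | coprime a b ha hb hab iha ihb =>
    rw [Nat.totient_mul hab]
    have h1 := iha (by omega)
    have h2 := ihb (by omega)
    have h3 : (if 2 ∣ a then 2 else 1) * (if 2 ∣ b then 2 else 1) ≤ (if 2 ∣ a * b then 2 else 1) := by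
      by_cases ha2 : 2 ∣ a
      · have hb2 : ¬ 2 ∣ b := by
          intro hb2
          have := Nat.dvd_gcd ha2 hb2
          rw [hab] at this
          omega
        rw [if_pos ha2, if_neg hb2, if_pos (Dvd.dvd.mul_right ha2 b)]
      · by_cases hb2 : 2 ∣ b
        · rw [if_neg ha2, if_pos hb2, if_pos (Dvd.dvd.mul_left hb2 a)]
        · rw [if_neg ha2, if_neg hb2]
          split_ifs <;> omega
    calc a * b ≤ ((if 2 ∣ a then 2 else 1) * a.totient ^ 2) * ((if 2 ∣ b then 2 else 1) * b.totient ^ 2) :=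
          Nat.mul_le_mul h1 h2
      _ = ((if 2 ∣ a then 2 else 1) * (if 2 ∣ b then 2 else 1)) * (a.totient * b.totient) ^ 2 := by ring
      _ ≤ _ := Nat.mul_le_mul_right _ h3

lemma totient_le_six (a : ℕ) (ha : 2 < a) (h : a.totient ≤ 6) :
    a ∈ [3, 4, 5, 6, 7, 8, 9, 10, 12, 14, 18] := by
  have h1 := totient_bound a (by omega)
  have h2 : (if 2 ∣ a then 2 else 1) ≤ 2 := by split_ifs <;> omega
  have h3 : a ≤ 72 := by
    calc a ≤ (if 2 ∣ a then 2 else 1) * a.totient ^ 2 := h1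
      _ ≤ 2 * 6 ^ 2 := Nat.mul_le_mul h2 (Nat.pow_le_pow_left h 2)
      _ = 72 := by norm_num
  have key : ∀ a < 73, 2 < a → a.totient ≤ 6 → a ∈ [3, 4, 5, 6, 7, 8, 9, 10, 12, 14, 18] := by
    decide +kernel
  exact key a (by omega) ha h

lemma coprime_pairs (a b : ℕ) (ha : 2 < a) (hb : 2 < b) (hab : a.Coprime b)
    (h : a.totient * b.totient = 4 ∨ a.totient * b.totient = 8 ∨ a.totient * b.totient = 12) :
    a * b = 24 ∨ Good (a * b) := by
  have h2 : ∀ c, 2 < c → 2 ≤ c.totient := by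
    intro c hc
    have h1 := Nat.totient_even hc
    have h3 : 0 < c.totient := Nat.totient_pos.mpr (by omega)
    obtain ⟨k, hk⟩ := h1
    omega
  have h3 := h2 a ha
  have h4 := h2 b hb
  have h5 : a.totient ≤ 6 := by
    by_contra hlt
    have : 7 * 2 ≤ a.totient * b.totient := Nat.mul_le_mul (by omega) h4
    omega
  have h6 : b.totient ≤ 6 := by
    by_contra hlt
    have : 2 * 7 ≤ a.totient * b.totient := Nat.mul_le_mul h3 (by omega)
    omega
  have key : ∀ a ∈ [3, 4, 5, 6, 7, 8, 9, 10, 12, 14, 18], ∀ b ∈ [3, 4, 5, 6, 7, 8, 9, 10, 12, 14, 18],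
      Nat.gcd a b = 1 →
      (a.totient * b.totient = 4 ∨ a.totient * b.totient = 8 ∨ a.totient * b.totient = 12) →
      a * b = 24 ∨ a * b ∈ [1, 2, 4, 8, 16, 12, 20, 28, 36, 15, 21, 30, 42] := by
    decide +kernel
  rcases key a (totient_le_six a ha h5) b (totient_le_six b hb h6) hab h with h | h
  · exact Or.inl h
  · exact Or.inr (Or.inl h)

lemma goodPP_odd {m : ℕ} (h : GoodPP m) : m % 2 = 1 := by
  rcases h with ⟨k, _, rfl⟩ | h | ⟨_, j, _, rfl⟩
  · have : Odd (3 ^ k) := Odd.pow (by decide)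
    exact Nat.odd_iff.mp this
  · have : ∀ m ∈ [5, 25, 7, 49, 11, 13, 17, 23, 29, 31, 37, 43, 47, 59], m % 2 = 1 := by decide
    exact this m h
  · omega

/-- prime test -/
def pt (p : ℕ) : Bool := (List.range p).all fun m => m < 2 || p % m != 0

lemma pt_of_prime {p : ℕ} (hp : p.Prime) : pt p = true := by
  rw [pt, List.all_eq_true]
  intro m hm
  rw [List.mem_range] at hm
  by_cases h2 : m < 2
  · simp [h2]
  · have : p % m ≠ 0 := by
      intro h
      rcases (Nat.dvd_prime hp).mp (Nat.dvd_of_mod_eq_zero h) with h | h <;> omega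
    simp [this]

def badL : List ℕ := [2, 4, 8, 16, 12, 20, 28, 36, 30, 42, 10, 50, 14, 98, 22, 26, 34, 46, 58, 62,
  74, 86, 94, 118]

lemma check1' : ∀ p ∈ List.range 120, ∀ j ∈ List.range 7,
    (!(pt p && decide (2 < p) && decide (p ^ j * (p - 1) ∈ badL)) ||
    (decide (p = 3) || decide (p ^ (j + 1) ∈ [5, 25, 7, 49, 11, 13, 17, 23, 29, 31, 37, 43, 47, 59]))) = true := by
  decide +kernel

lemma check1 (p : ℕ) (hp : p < 120) (j : ℕ) (hj : j < 7) (h1 : pt p = true) (h2 : 2 < p)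
    (h3 : (p ^ j * (p - 1)) ∈ badL) :
    p = 3 ∨ p ^ (j + 1) ∈ [5, 25, 7, 49, 11, 13, 17, 23, 29, 31, 37, 43, 47, 59] := by
  have := check1' p (List.mem_range.mpr hp) j (List.mem_range.mpr hj)
  rw [h1, decide_eq_true h2, decide_eq_true h3] at this
  simp only [Bool.and_self, Bool.not_true, Bool.false_or, Bool.or_eq_true, decide_eq_true_eq] at this
  exact this

lemma check2' : ∀ p ∈ List.range 60, ∀ k ∈ List.range 6,
    (!(pt p && decide (2 < p) && decide (p ^ (k + 1) ∈ [5, 25, 7, 49, 11, 13, 17, 23, 29, 31, 37, 43, 47, 59])) ||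
    (decide (p ^ k * (p - 1) ∈ [1, 2, 4, 8, 16, 12, 20, 28, 36, 15, 21, 30, 42]) ||
     decide (p ^ k * (p - 1) ∈ [6, 10, 22, 46, 58]))) = true := by
  decide +kernel

lemma check2 (p : ℕ) (hp : p < 60) (k : ℕ) (hk : k < 6) (h1 : pt p = true) (h2 : 2 < p)
    (h3 : p ^ (k + 1) ∈ [5, 25, 7, 49, 11, 13, 17, 23, 29, 31, 37, 43, 47, 59]) :
    p ^ k * (p - 1) ∈ [1, 2, 4, 8, 16, 12, 20, 28, 36, 15, 21, 30, 42] ∨
     p ^ k * (p - 1) ∈ [6, 10, 22, 46, 58] := by
  have := check2' p (List.mem_range.mpr hp) k (List.mem_range.mpr hk)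
  rw [h1, decide_eq_true h2, decide_eq_true h3] at this
  simp only [Bool.and_self, Bool.not_true, Bool.false_or, Bool.or_eq_true, decide_eq_true_eq] at this
  exact this

lemma good_units_imp (p k : ℕ) (hp : p.Prime) (hp2 : p ≠ 2) (h : Good (p ^ k * (p - 1))) :
    GoodPP (p ^ (k + 1)) := by
  have hp3 : 3 ≤ p := by
    have := hp.two_le
    omega
  have h3 : p = 3 → GoodPP (p ^ (k + 1)) := by
    rintro rfl
    exact Or.inl ⟨k + 1, by omega, rfl⟩
  have hpodd : p % 2 = 1 := by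
    rcases hp.eq_two_or_odd with h | h
    · exact absurd h hp2
    · exact h
  have heven : (p ^ k * (p - 1)) % 2 = 0 := by
    obtain ⟨c, hc⟩ : ∃ c, p - 1 = 2 * c := ⟨(p - 1) / 2, by omega⟩
    rw [hc, ← mul_assoc, mul_comm (p ^ k), mul_assoc]
    exact Nat.mul_mod_right 2 _
  have small : (p ^ k * (p - 1)) ∈ badL → GoodPP (p ^ (k + 1)) := by
    intro hmem
    have hle : p ^ k * (p - 1) ≤ 118 := by
      have : ∀ x ∈ badL, x ≤ 118 := by decide
      exact this _ hmem
    have hpk : 1 ≤ p ^ k := Nat.one_le_pow _ _ (by omega)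
    have hp120 : p < 120 := by
      have : 1 * (p - 1) ≤ p ^ k * (p - 1) := Nat.mul_le_mul_right _ hpk
      omega
    have hk7 : k < 7 := by
      by_contra hlt
      have h1 : 3 ^ 7 ≤ p ^ k := (Nat.pow_le_pow_left hp3 7).trans
        (Nat.pow_le_pow_right (by omega) (by omega))
      have h2 : 3 ^ 7 * 1 ≤ p ^ k * (p - 1) := Nat.mul_le_mul h1 (by omega)
      norm_num at h2
      omega
    rcases check1 p hp120 k hk7 (pt_of_prime hp) (by omega) hmem with h | h
    · exact h3 h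
    · exact Or.inr (Or.inl h)
  rcases h with h | ⟨m, hm, h | h⟩
  · apply small
    have : ∀ x ∈ [1, 2, 4, 8, 16, 12, 20, 28, 36, 15, 21, 30, 42], x % 2 = 0 → x ∈ badL := by decide
    exact this _ h heven
  · have := goodPP_odd hm
    omega
  · rcases hm with ⟨j, hj, rfl⟩ | hm | ⟨hmp, j, hj, hmj⟩
    · rcases Nat.eq_zero_or_pos k with hk | hk
      · subst hk
        rw [pow_zero, one_mul] at h
        right; right
        rw [zero_add, pow_one]
        exact ⟨hp, j, hj, by omega⟩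
      · apply h3
        have h1 : p ∣ 2 * 3 ^ j := by
          rw [← h]
          exact Dvd.dvd.mul_right (dvd_pow_self p (by omega)) _
        rcases (Nat.Prime.dvd_mul hp).mp h1 with h2 | h2
        · have := Nat.le_of_dvd (by norm_num) h2
          omega
        · exact (Nat.prime_dvd_prime_iff_eq hp Nat.prime_three).mp (hp.dvd_of_dvd_pow h2)
    · apply small
      have : ∀ x ∈ [5, 25, 7, 49, 11, 13, 17, 23, 29, 31, 37, 43, 47, 59], 2 * x ∈ badL := by decide
      rw [h]
      exact this m hm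
    · apply h3
      rcases Nat.eq_zero_or_pos k with hk | hk
      · subst hk
        rw [pow_zero, one_mul] at h
        have hp' : p = 3 * (4 * 3 ^ (j - 1) + 1) := by
          obtain ⟨i, rfl⟩ : ∃ i, j = i + 1 := ⟨j - 1, by omega⟩
          rw [Nat.add_sub_cancel]
          rw [hmj, pow_succ] at h
          omega
        have : 3 ∣ p := ⟨_, hp'⟩
        exact ((Nat.prime_dvd_prime_iff_eq Nat.prime_three hp).mp this).symm
      · have h1 : p ∣ 2 * m := by
          rw [← h]
          exact Dvd.dvd.mul_right (dvd_pow_self p (by omega)) _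
        have h2 : p = m := by
          rcases (Nat.Prime.dvd_mul hp).mp h1 with h2 | h2
          · have := Nat.le_of_dvd (by norm_num) h2
            omega
          · exact (Nat.prime_dvd_prime_iff_eq hp hmp).mp h2
        rw [← h2] at h
        obtain ⟨i, rfl⟩ : ∃ i, k = i + 1 := ⟨k - 1, by omega⟩
        rw [pow_succ, mul_assoc, mul_comm p (p - 1), ← mul_assoc] at h
        have h4 : p ^ i * (p - 1) = 2 := Nat.eq_of_mul_eq_mul_right (by omega) h
        have h5 : p - 1 ≤ 2 := Nat.le_of_dvd (by norm_num) ⟨_, by rw [← h4, mul_comm]⟩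
        omega

/-- divisors -/
lemma good_dvd {n d : ℕ} (h : Good n) (hd : d ∣ n) : Good d := by
  rcases h with h | ⟨m, hm, h⟩
  · have key : ∀ n ∈ [1, 2, 4, 8, 16, 12, 20, 28, 36, 15, 21, 30, 42], ∀ d < 43, d ∣ n →
        d ∈ [1, 2, 4, 8, 16, 12, 20, 28, 36, 15, 21, 30, 42] ∨ d = 3 ∨ d = 5 ∨ d = 7 ∨ d = 6 ∨
          d = 10 ∨ d = 14 ∨ d = 9 ∨ d = 18 := by decide
    have hle : n ≤ 42 := by
      have : ∀ n ∈ [1, 2, 4, 8, 16, 12, 20, 28, 36, 15, 21, 30, 42], n ≤ 42 := by decide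
      exact this n h
    have hn0 : 0 < n := by
      have : ∀ n ∈ [1, 2, 4, 8, 16, 12, 20, 28, 36, 15, 21, 30, 42], 0 < n := by decide
      exact this n h
    have hdle := Nat.le_of_dvd hn0 hd
    have g3 : GoodPP 3 := Or.inl ⟨1, by norm_num, by norm_num⟩
    have g5 : GoodPP 5 := Or.inr (Or.inl (by decide))
    have g7 : GoodPP 7 := Or.inr (Or.inl (by decide))
    have g9 : GoodPP 9 := Or.inl ⟨2, by norm_num, by norm_num⟩
    rcases key n h d (by omega) hd with h | rfl | rfl | rfl | rfl | rfl | rfl | rfl | rfl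
    · exact Or.inl h
    · exact Or.inr ⟨3, g3, Or.inl rfl⟩
    · exact Or.inr ⟨5, g5, Or.inl rfl⟩
    · exact Or.inr ⟨7, g7, Or.inl rfl⟩
    · exact Or.inr ⟨3, g3, Or.inr rfl⟩
    · exact Or.inr ⟨5, g5, Or.inr rfl⟩
    · exact Or.inr ⟨7, g7, Or.inr rfl⟩
    · exact Or.inr ⟨9, g9, Or.inl rfl⟩
    · exact Or.inr ⟨9, g9, Or.inr rfl⟩
  · -- divisors of an odd prime power or its double
    have hodd := goodPP_odd hm
    have hd2 : d ∣ 2 * m := by
      rcases h with rfl | rfl
      · exact Dvd.dvd.mul_left hd 2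
      · exact hd
    have key : ∀ e, e ∣ m → e = 1 ∨ GoodPP e := by
      intro e he
      rcases hm with ⟨k, hk, rfl⟩ | hm | ⟨hmp, j, hj, hmj⟩
      · obtain ⟨i, hi, rfl⟩ := (Nat.dvd_prime_pow Nat.prime_three).mp he
        rcases Nat.eq_zero_or_pos i with h0 | h0
        · left; rw [h0, pow_zero]
        · right; exact Or.inl ⟨i, h0, rfl⟩
      · have key2 : ∀ m ∈ [5, 25, 7, 49, 11, 13, 17, 23, 29, 31, 37, 43, 47, 59], ∀ e < 60, e ∣ m →
            e = 1 ∨ e ∈ [5, 25, 7, 49, 11, 13, 17, 23, 29, 31, 37, 43, 47, 59] := by decide +kernel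
        have hle : 0 < m ∧ m ≤ 59 := by
          have : ∀ m ∈ [5, 25, 7, 49, 11, 13, 17, 23, 29, 31, 37, 43, 47, 59], 0 < m ∧ m ≤ 59 := by decide
          exact this m hm
        have := Nat.le_of_dvd hle.1 he
        rcases key2 m hm e (by omega) he with h | h
        · exact Or.inl h
        · exact Or.inr (Or.inr (Or.inl h))
      · rcases (Nat.dvd_prime hmp).mp he with h | h
        · exact Or.inl h
        · right; rw [h]; exact Or.inr (Or.inr ⟨hmp, j, hj, hmj⟩)
    by_cases h2 : 2 ∣ d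
    · obtain ⟨e, rfl⟩ := h2
      have he : e ∣ m := (Nat.mul_dvd_mul_iff_left (by norm_num)).mp hd2
      rcases key e he with rfl | h
      · exact Or.inl (by decide)
      · exact Or.inr ⟨e, h, Or.inr rfl⟩
    · have hcop : Nat.Coprime d 2 := ((Nat.Prime.coprime_iff_not_dvd Nat.prime_two).mpr h2).symm
      have he : d ∣ m := hcop.dvd_of_dvd_mul_left hd2
      rcases key d he with rfl | h
      · exact Or.inl (by decide)
      · exact Or.inr ⟨d, h, Or.inl rfl⟩

/-- the orders of unit groups -/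
lemma good_units {p k : ℕ} (hp : p.Prime) (hp2 : p ≠ 2) (h : GoodPP (p ^ (k + 1))) :
    Good (p ^ k * (p - 1)) := by
  have hpos : 0 < p := hp.pos
  have hp3 : 3 ≤ p := by
    have := hp.two_le
    omega
  rcases h with ⟨j, hj, h⟩ | h | ⟨hpr, j, hj, h⟩
  · have h3 : p = 3 := by
      have : p ∣ 3 ^ j := by rw [← h]; exact dvd_pow_self p (by omega)
      exact (Nat.prime_dvd_prime_iff_eq hp Nat.prime_three).mp (hp.dvd_of_dvd_pow this)
    subst h3
    rcases Nat.eq_zero_or_pos k with h0 | h0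
    · subst h0; exact Or.inl (by decide)
    · exact Or.inr ⟨3 ^ k, Or.inl ⟨k, h0, rfl⟩, Or.inr (by rw [mul_comm])⟩
  · have hle : p ^ (k + 1) ≤ 59 := by
      have : ∀ m ∈ [5, 25, 7, 49, 11, 13, 17, 23, 29, 31, 37, 43, 47, 59], m ≤ 59 := by decide
      exact this _ h
    have h1 : p ≤ p ^ (k + 1) := by
      rw [pow_succ]
      exact Nat.le_mul_of_pos_left _ (pow_pos hpos k)
    have h2 : k < 6 := by
      by_contra hlt
      have h1 : 3 ^ 6 ≤ p ^ (k + 1) := (Nat.pow_le_pow_left hp3 6).trans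
        (Nat.pow_le_pow_right (by omega) (by omega))
      norm_num at h1
      omega
    rcases check2 p (by omega) k h2 (pt_of_prime hp) (by omega) h with h | h
    · exact Or.inl h
    simp only [List.mem_cons, List.not_mem_nil, or_false] at h
    rcases h with h | h | h | h | h
    · rw [h]; exact Or.inr ⟨3, Or.inl ⟨1, by norm_num, by norm_num⟩, Or.inr rfl⟩
    · rw [h]; exact Or.inr ⟨5, Or.inr (Or.inl (by decide)), Or.inr rfl⟩
    · rw [h]; exact Or.inr ⟨11, Or.inr (Or.inl (by decide)), Or.inr rfl⟩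
    · rw [h]; exact Or.inr ⟨23, Or.inr (Or.inl (by decide)), Or.inr rfl⟩
    · rw [h]; exact Or.inr ⟨29, Or.inr (Or.inl (by decide)), Or.inr rfl⟩
  · have hk0 : k = 0 := by
      by_contra hne
      have := Nat.Prime.eq_one_of_pow hpr
      omega
    subst hk0
    rw [zero_add, pow_one] at h
    right
    exact ⟨3 ^ j, Or.inl ⟨j, hj, rfl⟩, Or.inr (by rw [pow_zero, one_mul]; omega)⟩

end Pool.Agent.SHAF
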