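import Mathlib
import Pool.Agent.SHA.Defs

set_option autoImplicit false

/-!
Finite members of classes of groups closed under subgroups, images and automorphism groups:
elementary abelian 2-groups, central automorphisms, all finite groups.
-/

namespace Pool.Agent.SHAF

open Pool.Agent.SHA

/-- The elementary abelian `2`-group of rank `n`. -/
abbrev E (n : ℕ) : Type := Fin n → ℤˣ

variable {K : (G : Type) → [Group G] → Prop}

lemma iso (hK : SHAClosed K) {G H : Type} [Group G] [Group H] (e : G ≃* H) (h : K G) : K H :=
  hK.sub G H e.symm.toMonoidHom e.symm.injective h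

/-- the homomorphism from the signs given by an involution -/
def inv2 {Γ : Type} [Group Γ] (x : Γ) (hx : x * x = 1) : ℤˣ →* Γ where
  toFun u := if u = 1 then 1 else x
  map_one' := by simp
  map_mul' u v := by
    rcases Int.units_eq_one_or u with rfl | rfl <;> rcases Int.units_eq_one_or v with rfl | rfl <;>
      simp [hx]

lemma inv2_comm {Γ : Type} [Group Γ] (x y : Γ) (hx : x * x = 1) (hy : y * y = 1)
    (hxy : x * y = y * x) (u v : ℤˣ) : inv2 x hx u * inv2 y hy v = inv2 y hy v * inv2 x hx u := by
  simp only [inv2, MonoidHom.coe_mk, OneHom.coe_mk]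
  split_ifs <;> simp [hxy]

/-- Three independent commuting involutions. -/
theorem K_E3_of (hK : SHAClosed K) {Γ : Type} [Group Γ] (h : K Γ) (x y z : Γ)
    (hx : x * x = 1) (hy : y * y = 1) (hz : z * z = 1)
    (hxy : x * y = y * x) (hxz : x * z = z * x) (hyz : y * z = z * y)
    (h1 : x ≠ 1) (h2 : y ≠ 1) (h3 : z ≠ 1) (h12 : x ≠ y) (h13 : x ≠ z) (h23 : y ≠ z)
    (h123 : x * y ≠ z) : K (E 3) := by
  let f : E 3 →* Γ :=
    { toFun := fun a => inv2 x hx (a 0) * inv2 y hy (a 1) * inv2 z hz (a 2)
      map_one' := by simp
      map_mul' := fun a b => by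
        simp only [Pi.mul_apply, map_mul]
        have e1 := inv2_comm x y hx hy hxy (b 0) (a 1)
        have e2 := inv2_comm x z hx hz hxz (b 0) (a 2)
        have e3 := inv2_comm y z hy hz hyz (b 1) (a 2)
        generalize inv2 x hx (a 0) = A0 at *
        generalize inv2 x hx (b 0) = B0 at *
        generalize inv2 y hy (a 1) = A1 at *
        generalize inv2 y hy (b 1) = B1 at *
        generalize inv2 z hz (a 2) = A2 at *
        generalize inv2 z hz (b 2) = B2 at *
        calc A0 * B0 * (A1 * B1) * (A2 * B2) = A0 * (B0 * A1) * (B1 * A2) * B2 := by group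
          _ = A0 * (A1 * B0) * (A2 * B1) * B2 := by rw [e1, e3]
          _ = A0 * A1 * (B0 * A2) * B1 * B2 := by group
          _ = A0 * A1 * (A2 * B0) * B1 * B2 := by rw [e2]
          _ = A0 * A1 * A2 * (B0 * B1 * B2) := by group }
  refine hK.sub _ _ f ?_ h
  rw [injective_iff_map_eq_one]
  intro a ha
  have ha' : inv2 x hx (a 0) * inv2 y hy (a 1) * inv2 z hz (a 2) = 1 := ha
  have inv_of : ∀ p q : Γ, q * q = 1 → p * q = 1 → p = q := by
    intro p q hq hpq
    have : p = q⁻¹ := eq_inv_of_mul_eq_one_left hpq
    rw [this]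
    exact (eq_inv_of_mul_eq_one_left hq).symm
  funext i
  rcases Int.units_eq_one_or (a 0) with h0 | h0 <;>
    rcases Int.units_eq_one_or (a 1) with h1' | h1' <;>
    rcases Int.units_eq_one_or (a 2) with h2' | h2' <;>
    rw [h0, h1', h2'] at ha' <;>
    simp [inv2] at ha'
  · fin_cases i <;> simp [h0, h1', h2']
  · exact absurd ha' h3
  · exact absurd ha' h2
  · exact absurd (inv_of _ _ hz ha') h23
  · exact absurd ha' h1
  · exact absurd (inv_of _ _ hz ha') h13
  · exact absurd (inv_of _ _ hy ha') h12
  · exact absurd (inv_of _ _ hz ha') h123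

/-- Central automorphisms. -/
theorem K_hom_of_central (hK : SHAClosed K) {G Q W : Type} [Group G] [Group Q] [CommGroup W]
    (hG : K G) (p : G →* Q) (hp : Function.Surjective p) (ι : W →* G) (hι : Function.Injective ι)
    (hc : ∀ w g, ι w * g = g * ι w) (h1 : ∀ w, p (ι w) = 1) : K (Q →* W) := by
  have key : ∀ f : Q →* W, ∀ g, p (g * ι (f (p g))) = p g := fun f g => by simp [h1]
  let φ : (Q →* W) →* MulAut G :=
    { toFun := fun f =>
        { toFun := fun g => g * ι (f (p g))
          invFun := fun g => g * ι ((f⁻¹ : Q →* W) (p g))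
          left_inv := fun g => by
            show g * ι (f (p g)) * ι ((f⁻¹ : Q →* W) (p (g * ι (f (p g))))) = g
            rw [key, mul_assoc, ← map_mul]
            simp
          right_inv := fun g => by
            show g * ι ((f⁻¹ : Q →* W) (p g)) * ι (f (p (g * ι ((f⁻¹ : Q →* W) (p g))))) = g
            rw [key, mul_assoc, ← map_mul]
            simp
          map_mul' := fun g g' => by
            show g * g' * ι (f (p (g * g'))) = g * ι (f (p g)) * (g' * ι (f (p g')))
            rw [map_mul, map_mul, map_mul]
            calc g * g' * (ι (f (p g)) * ι (f (p g')))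
                = g * (g' * ι (f (p g))) * ι (f (p g')) := by group
              _ = g * (ι (f (p g)) * g') * ι (f (p g')) := by rw [hc]
              _ = _ := by group }
      map_one' := by
        refine MulEquiv.ext fun g => ?_
        show g * ι ((1 : Q →* W) (p g)) = g
        simp
      map_mul' := fun f f' => by
        refine MulEquiv.ext fun g => ?_
        show g * ι ((f * f') (p g)) = g * ι (f' (p g)) * ι (f (p (g * ι (f' (p g)))))
        rw [key, MonoidHom.mul_apply, map_mul, mul_assoc, ← map_mul, ← map_mul, mul_comm (f (p g))] }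
  refine hK.sub _ _ φ ?_ (hK.aut _ hG)
  intro f f' h
  ext q
  obtain ⟨g, rfl⟩ := hp q
  have h2 : g * ι (f (p g)) = g * ι (f' (p g)) := DFunLike.congr_fun h g
  exact hι (mul_left_cancel h2)

/-- the bilinear map on the signs -/
def band (u v : ℤˣ) : ℤˣ := if u = 1 then 1 else v

lemma band_mul_left : ∀ u u' v : ℤˣ, band (u * u') v = band u v * band u' v := by decide

lemma band_mul_right : ∀ u v v' : ℤˣ, band u (v * v') = band u v * band u v' := by decide

lemma band_one_left : ∀ v : ℤˣ, band 1 v = 1 := by decide

lemma band_one_right : ∀ u : ℤˣ, band u 1 = 1 := by decide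

lemma band_neg : ∀ v : ℤˣ, band (-1) v = v := by decide

/-- matrices as homomorphisms -/
def matHom (a b : ℕ) : (Fin a × Fin b → ℤˣ) →* (E a →* E b) where
  toFun M :=
    { toFun := fun x j => ∏ i, band (x i) (M (i, j))
      map_one' := by
        funext j
        simp [band_one_left]
      map_mul' := fun x y => by
        funext j
        simp [band_mul_left, Finset.prod_mul_distrib] }
  map_one' := by
    ext x j
    simp [band_one_right]
  map_mul' M M' := by
    ext x j
    simp [band_mul_right, Finset.prod_mul_distrib]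

lemma matHom_injective (a b : ℕ) : Function.Injective (matHom a b) := by
  intro M M' h
  funext ⟨i, j⟩
  have h1 := congrFun (DFunLike.congr_fun h (Pi.mulSingle i (-1))) j
  have key : ∀ N : Fin a × Fin b → ℤˣ,
      (∏ i', band ((Pi.mulSingle i (-1 : ℤˣ) : E a) i') (N (i', j))) = N (i, j) := by
    intro N
    rw [Finset.prod_eq_single i]
    · simp [band_neg]
    · intro i' _ hne
      rw [Pi.mulSingle_eq_of_ne hne, band_one_left]
    · simp
  have h2 : (∏ i', band ((Pi.mulSingle i (-1 : ℤˣ) : E a) i') (M (i', j)))
      = ∏ i', band ((Pi.mulSingle i (-1 : ℤˣ) : E a) i') (M' (i', j)) := h1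
  rwa [key, key] at h2

/-- `C_2^(ab)` embeds in the homomorphisms from `C_2^a` to `C_2^b` -/
lemma K_E_mul (hK : SHAClosed K) (a b : ℕ) (h : K (E a →* E b)) : K (E (a * b)) := by
  have h1 : K (Fin a × Fin b → ℤˣ) := hK.sub _ _ (matHom a b) (matHom_injective a b) h
  refine hK.sub _ _ (MonoidHom.mk' (fun (x : E (a * b)) (c : Fin a × Fin b) => x (finProdFinEquiv c))
    (fun x y => rfl)) ?_ h1
  intro x y hxy
  funext c
  have h2 : x (finProdFinEquiv (finProdFinEquiv.symm c)) = y (finProdFinEquiv (finProdFinEquiv.symm c)) :=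
    congrFun hxy (finProdFinEquiv.symm c)
  rwa [Equiv.apply_symm_apply] at h2

/-- embedding of smaller rank -/
lemma K_E_le (hK : SHAClosed K) {m n : ℕ} (hmn : m ≤ n) (h : K (E n)) : K (E m) := by
  refine hK.sub _ _ (MonoidHom.mk' (fun (x : E m) (c : Fin n) =>
    if hc : (c : ℕ) < m then x ⟨c, hc⟩ else 1) ?_) ?_ h
  · intro x y
    funext c
    by_cases hc : (c : ℕ) < m <;> simp [hc]
  · intro x y hxy
    funext c
    have := congrFun hxy ⟨c, lt_of_lt_of_le c.2 hmn⟩
    simpa using this

/-- a group acts on the functions on it with values in the signs -/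
def translAut (C : Type) [Group C] : C →* MulAut (C → ℤˣ) where
  toFun c :=
    { toFun := fun f x => f (c⁻¹ * x)
      invFun := fun f x => f (c * x)
      left_inv := fun f => by funext x; simp
      right_inv := fun f => by funext x; simp
      map_mul' := fun f g => rfl }
  map_one' := by
    refine MulEquiv.ext fun f => ?_
    funext x
    simp
  map_mul' a b := by
    refine MulEquiv.ext fun f => ?_
    funext x
    simp [mul_assoc]

lemma translAut_injective (C : Type) [Group C] : Function.Injective (translAut C) := by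
  classical
  intro a b h
  have h1 := DFunLike.congr_fun h (fun x => if x = 1 then (-1 : ℤˣ) else 1)
  have h2 := congrFun h1 a
  have h3 : (if a⁻¹ * a = 1 then (-1 : ℤˣ) else 1) = if b⁻¹ * a = 1 then (-1 : ℤˣ) else 1 := h2
  rw [inv_mul_cancel, if_pos rfl] at h3
  by_contra hne
  rw [if_neg (fun h => hne (inv_mul_eq_one.mp h).symm)] at h3
  exact absurd h3 (by decide)

/-- if all elementary abelian 2-groups are in the class, all finite groups are -/
theorem finite_of_E (hK : SHAClosed K) (h : ∀ n, K (E n)) (C : Type) [Group C] [Finite C] :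
    K C := by
  obtain ⟨n, ⟨e⟩⟩ := Finite.exists_equiv_fin C
  have h1 : K (C → ℤˣ) :=
    hK.sub _ _ (MonoidHom.mk' (fun (x : C → ℤˣ) (i : Fin n) => x (e.symm i)) (fun _ _ => rfl))
      (fun x y hxy => by
        funext c
        have := congrFun hxy (e c)
        simpa using this) (h n)
  exact hK.sub _ _ (translAut C) (translAut_injective C) (hK.aut _ h1)

end Pool.Agent.SHAF
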