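import Mathlib
import Pool.Agent.SHAF.Basic

set_option autoImplicit false

/-!
A class that contains the elementary abelian group of order 8 contains all finite groups.
-/

namespace Pool.Agent.SHAF

open Pool.Agent.SHA

variable {K : (G : Type) → [Group G] → Prop}

/-! ### dihedral groups -/

section dih

variable {Γ : Type} [Group Γ] (n : ℕ) (r s : Γ)

/-- powers with exponents modulo `n` -/
def zpw (hr : r ^ n = 1) : Multiplicative (ZMod n) →* Γ :=
  AddMonoidHom.toMultiplicativeLeft (ZMod.lift n ⟨zmultiplesHom (Additive Γ) (Additive.ofMul r), by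
    simp only [zmultiplesHom_apply, natCast_zsmul, ← ofMul_pow, hr, ofMul_one]⟩)

lemma zpw_coe (hr : r ^ n = 1) (k : ℤ) : zpw n r hr (Multiplicative.ofAdd (k : ZMod n)) = r ^ k := by
  show Additive.toMul (ZMod.lift n ⟨zmultiplesHom (Additive Γ) (Additive.ofMul r), _⟩ (k : ZMod n)) = _
  rw [ZMod.lift_coe]
  rfl

lemma zpw_injective (hr : r ^ n = 1) (hord : orderOf r = n) : Function.Injective (zpw n r hr) := by
  rw [injective_iff_map_eq_one]
  intro a ha
  obtain ⟨k, hk⟩ := ZMod.intCast_surjective (Multiplicative.toAdd a)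
  have h1 : a = Multiplicative.ofAdd (k : ZMod n) := by rw [hk]; rfl
  rw [h1, zpw_coe] at ha
  rw [h1, ← ofAdd_zero]
  congr 1
  rw [← orderOf_dvd_iff_zpow_eq_one, hord] at ha
  exact (ZMod.intCast_zmod_eq_zero_iff_dvd k n).mpr ha

lemma zpw_conj (hr : r ^ n = 1) (hs : s * s = 1) (hsr : s * r * s = r⁻¹) (a : Multiplicative (ZMod n)) :
    zpw n r hr a * s = s * zpw n r hr a⁻¹ := by
  obtain ⟨k, hk⟩ := ZMod.intCast_surjective (Multiplicative.toAdd a)
  have h1 : a = Multiplicative.ofAdd (k : ZMod n) := by rw [hk]; rfl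
  have h2 : a⁻¹ = Multiplicative.ofAdd ((-k : ℤ) : ZMod n) := by rw [h1]; simp
  rw [h2, h1, zpw_coe, zpw_coe]
  have hs' : s⁻¹ = s := (eq_inv_of_mul_eq_one_left hs).symm
  have h3 : (s * r * s⁻¹) ^ k = s * r ^ k * s⁻¹ := conj_zpow
  rw [hs', hsr] at h3
  calc r ^ k * s = s * (s * r ^ k * s) := by
        rw [← mul_assoc, ← mul_assoc, hs, one_mul]
    _ = s * (r⁻¹) ^ k := by rw [h3]
    _ = s * r ^ (-k) := by rw [inv_zpow']

/-- homomorphisms from dihedral groups -/
def dihLift (hr : r ^ n = 1) (hs : s * s = 1) (hsr : s * r * s = r⁻¹) : DihedralGroup n →* Γ :=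
  MonoidHom.mk' (fun x => match x with
    | DihedralGroup.r i => zpw n r hr (Multiplicative.ofAdd i)
    | DihedralGroup.sr i => s * zpw n r hr (Multiplicative.ofAdd i)) (by
    rintro (i | i) (j | j)
    · show zpw n r hr (Multiplicative.ofAdd (i + j)) = _
      rw [ofAdd_add, map_mul]
    · show s * zpw n r hr (Multiplicative.ofAdd (j - i)) = zpw n r hr (Multiplicative.ofAdd i) *
        (s * zpw n r hr (Multiplicative.ofAdd j))
      rw [← mul_assoc, zpw_conj n r s hr hs hsr, mul_assoc, ← map_mul]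
      congr 2
      rw [sub_eq_neg_add, ofAdd_add, ofAdd_neg]
    · show s * zpw n r hr (Multiplicative.ofAdd (i + j)) = s * zpw n r hr (Multiplicative.ofAdd i) *
        (zpw n r hr (Multiplicative.ofAdd j))
      rw [ofAdd_add, map_mul, mul_assoc]
    · show zpw n r hr (Multiplicative.ofAdd (j - i)) = s * zpw n r hr (Multiplicative.ofAdd i) *
        (s * zpw n r hr (Multiplicative.ofAdd j))
      rw [mul_assoc s, ← mul_assoc _ s, zpw_conj n r s hr hs hsr, ← mul_assoc, ← mul_assoc, hs,
        one_mul, ← map_mul]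
      congr 1
      rw [sub_eq_neg_add, ofAdd_add, ofAdd_neg])

lemma dihLift_injective (hn : 2 < n) (hord : orderOf r = n) (hs : s * s = 1)
    (hsr : s * r * s = r⁻¹) :
    Function.Injective (dihLift n r s (hord ▸ pow_orderOf_eq_one r) hs hsr) := by
  have hr : r ^ n = 1 := hord ▸ pow_orderOf_eq_one r
  rw [injective_iff_map_eq_one]
  rintro (i | i) h
  · have h1 : zpw n r hr (Multiplicative.ofAdd i) = 1 := h
    have h2 := (injective_iff_map_eq_one _).mp (zpw_injective n r hr hord) _ h1
    rw [show i = 0 from h2, DihedralGroup.r_zero]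
  · exfalso
    have h1 : s * zpw n r hr (Multiplicative.ofAdd i) = 1 := h
    obtain ⟨k, hk⟩ := ZMod.intCast_surjective i
    rw [← hk, zpw_coe] at h1
    have h2 : s = r ^ (-k) := by rw [zpow_neg]; exact eq_inv_of_mul_eq_one_left h1
    have h3 : s * r = r * s := by rw [h2, ← zpow_add_one, ← zpow_one_add, add_comm]
    rw [h3, mul_assoc, hs, mul_one] at hsr
    have h4 : r ^ 2 = 1 := by rw [pow_two]; nth_rewrite 1 [hsr]; simp
    have h5 := orderOf_dvd_of_pow_eq_one h4
    rw [hord] at h5
    exact absurd (Nat.le_of_dvd (by norm_num) h5) (by omega)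

lemma K_dih (hK : SHAClosed K) (h : K Γ) (hn : 2 < n) (hord : orderOf r = n) (hs : s * s = 1)
    (hsr : s * r * s = r⁻¹) : K (DihedralGroup n) :=
  hK.sub _ _ _ (dihLift_injective n r s hn hord hs hsr) h

end dih

end Pool.Agent.SHAF
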