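import Mathlib
import Pool.Agent.SHAF.Two

set_option autoImplicit false

/-!
From the elementary abelian group of order 8 to the dihedral group of order 16.
-/

namespace Pool.Agent.SHAF

open Pool.Agent.SHA

variable {K : (G : Type) → [Group G] → Prop}

/-- signs and residues modulo 2 -/
def sgnIso : ℤˣ ≃* Multiplicative (ZMod 2) where
  toFun u := if u = 1 then Multiplicative.ofAdd 0 else Multiplicative.ofAdd 1
  invFun x := if Multiplicative.toAdd x = 0 then 1 else -1
  left_inv := by decide
  right_inv := by decide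
  map_mul' := by decide

/-- `E n` additively -/
def eIso (n : ℕ) : E n ≃* Multiplicative (Fin n → ZMod 2) where
  toFun x := Multiplicative.ofAdd fun i => Multiplicative.toAdd (sgnIso (x i))
  invFun y := fun i => sgnIso.symm (Multiplicative.ofAdd (Multiplicative.toAdd y i))
  left_inv x := by funext i; simp
  right_inv y := by simp
  map_mul' x y := by
    apply Multiplicative.toAdd.injective
    funext i
    simp

section mat

variable {m : Type} [Fintype m] [DecidableEq m] {R : Type} [CommRing R]

/-- invertible matrices as automorphisms -/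
def matAut : (Matrix m m R)ˣ →* MulAut (Multiplicative (m → R)) where
  toFun A :=
    { toFun := fun x => Multiplicative.ofAdd ((A : Matrix m m R).mulVec (Multiplicative.toAdd x))
      invFun := fun x =>
        Multiplicative.ofAdd (((A⁻¹ : (Matrix m m R)ˣ) : Matrix m m R).mulVec (Multiplicative.toAdd x))
      left_inv := fun x => by simp [Matrix.mulVec_mulVec]
      right_inv := fun x => by simp [Matrix.mulVec_mulVec]
      map_mul' := fun x y => by
        apply Multiplicative.toAdd.injective
        simp [Matrix.mulVec_add] }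
  map_one' := by
    refine MulEquiv.ext fun x => ?_
    apply Multiplicative.toAdd.injective
    simp
  map_mul' A B := by
    refine MulEquiv.ext fun x => ?_
    apply Multiplicative.toAdd.injective
    simp [Matrix.mulVec_mulVec]

lemma matAut_injective : Function.Injective (matAut (m := m) (R := R)) := by
  intro A B h
  ext i j
  have h1 := DFunLike.congr_fun h (Multiplicative.ofAdd (Pi.single j 1))
  have h2 : (A : Matrix m m R).mulVec (Pi.single j 1) = (B : Matrix m m R).mulVec (Pi.single j 1) :=
    congrArg Multiplicative.toAdd h1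
  have h3 := congrFun h2 i
  simpa using h3

/-- transposed inverse -/
def tinv : MulAut (Matrix m m R)ˣ where
  toFun A := ⟨((A⁻¹ : (Matrix m m R)ˣ) : Matrix m m R).transpose, (A : Matrix m m R).transpose,
    by rw [← Matrix.transpose_mul]; simp, by rw [← Matrix.transpose_mul]; simp⟩
  invFun A := ⟨((A⁻¹ : (Matrix m m R)ˣ) : Matrix m m R).transpose, (A : Matrix m m R).transpose,
    by rw [← Matrix.transpose_mul]; simp, by rw [← Matrix.transpose_mul]; simp⟩
  left_inv A := by ext i j; rfl
  right_inv A := by ext i j; rfl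
  map_mul' A B := by
    apply Units.ext
    show ((((A * B)⁻¹ : (Matrix m m R)ˣ)) : Matrix m m R).transpose =
      ((A⁻¹ : (Matrix m m R)ˣ) : Matrix m m R).transpose *
      ((B⁻¹ : (Matrix m m R)ˣ) : Matrix m m R).transpose
    rw [← Matrix.transpose_mul, mul_inv_rev, Units.val_mul]

lemma tinv_mul_self : (tinv : MulAut (Matrix m m R)ˣ) * tinv = 1 := by
  refine MulEquiv.ext fun A => ?_
  ext i j; rfl

lemma conj_apply_eq {G : Type} [Group G] (f : MulAut G) (g : G) :
    f * MulAut.conj g = MulAut.conj (f g) * f := by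
  refine MulEquiv.ext fun x => ?_
  simp [MulAut.mul_apply]

end mat

abbrev GL3 : Type := (Matrix (Fin 3) (Fin 3) (ZMod 2))ˣ

def mM : GL3 := ⟨!![0,0,1;1,0,0;0,1,1], !![0,1,0;1,0,1;1,0,0], by decide, by decide⟩

def mR : GL3 := ⟨!![0,1,0;1,0,0;0,0,1], !![0,1,0;1,0,0;0,0,1], by decide, by decide⟩

def mN : GL3 := mM * tinv mM

lemma mN_four : mN ^ 4 = 1 := by
  apply Units.ext
  decide

lemma mN_two : ∃ A : GL3, MulAut.conj (mN ^ 2) A ≠ A := by
  refine ⟨mM, ?_⟩
  intro h
  have h1 : mN ^ 2 * mM = mM * mN ^ 2 := by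
    have : mN ^ 2 * mM * (mN ^ 2)⁻¹ = mM := h
    exact mul_inv_eq_iff_eq_mul.mp this
  have h2 := congrArg (fun A : GL3 => (A : Matrix (Fin 3) (Fin 3) (ZMod 2))) h1
  revert h2
  decide

lemma mR_rel : mR * mM * tinv mR = tinv mM⁻¹ := by
  apply Units.ext
  decide

lemma mR_sq : mR * mR = 1 := by
  apply Units.ext
  decide

/-- the outer automorphism of order 8 -/
def phi : MulAut GL3 := MulAut.conj mM * tinv

lemma phi_sq : phi ^ 2 = MulAut.conj mN := by
  rw [pow_two, phi, mN, map_mul]
  calc MulAut.conj mM * tinv * (MulAut.conj mM * tinv)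
      = MulAut.conj mM * (tinv * MulAut.conj mM) * tinv := by group
    _ = MulAut.conj mM * (MulAut.conj (tinv mM) * tinv) * tinv := by rw [conj_apply_eq tinv mM]
    _ = MulAut.conj mM * MulAut.conj (tinv mM) * (tinv * tinv) := by group
    _ = _ := by rw [tinv_mul_self, mul_one]

lemma phi_order : orderOf phi = 8 := by
  have h : orderOf phi = 2 ^ (2 + 1) := by
    apply orderOf_eq_prime_pow
    · intro h
      have h1 : phi ^ 2 ^ 2 = MulAut.conj (mN ^ 2) := by
        rw [show (2 ^ 2 : ℕ) = 2 * 2 by norm_num, pow_mul, phi_sq, ← map_pow]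
      rw [h1] at h
      obtain ⟨A, hA⟩ := mN_two
      exact hA (by rw [h]; rfl)
    · rw [show (2 ^ (2 + 1) : ℕ) = 2 * 4 by norm_num, pow_mul, phi_sq, ← map_pow, mN_four, map_one]
  rw [h]; norm_num

lemma phi_conj : MulAut.conj mR * phi * MulAut.conj mR = phi⁻¹ := by
  have h1 : MulAut.conj mR * phi * MulAut.conj mR = MulAut.conj (mR * mM * tinv mR) * tinv := by
    rw [phi, map_mul, map_mul]
    calc MulAut.conj mR * (MulAut.conj mM * tinv) * MulAut.conj mR
        = MulAut.conj mR * MulAut.conj mM * (tinv * MulAut.conj mR) := by group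
      _ = MulAut.conj mR * MulAut.conj mM * (MulAut.conj (tinv mR) * tinv) := by
          rw [conj_apply_eq tinv mR]
      _ = _ := by group
  rw [h1, mR_rel]
  have h2 : phi * (MulAut.conj (tinv mM⁻¹) * tinv) = 1 := by
    rw [← conj_apply_eq, phi]
    calc MulAut.conj mM * tinv * (tinv * MulAut.conj mM⁻¹)
        = MulAut.conj mM * (tinv * tinv) * MulAut.conj mM⁻¹ := by group
      _ = 1 := by rw [tinv_mul_self, mul_one, ← map_mul, mul_inv_cancel, map_one]
  exact (inv_eq_of_mul_eq_one_right h2).symm

theorem K_D16 (hK : SHAClosed K) (h : K (E 3)) : K (DihedralGroup 8) := by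
  have h1 : K (MulAut (Multiplicative (Fin 3 → ZMod 2))) := hK.aut _ (iso hK (eIso 3) h)
  have h2 : K GL3 := hK.sub _ _ matAut matAut_injective h1
  exact K_dih 8 phi (MulAut.conj mR) hK (hK.aut _ h2) (by norm_num) phi_order
    (by rw [← map_mul, mR_sq, map_one]) phi_conj

end Pool.Agent.SHAF
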