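import Mathlib
import Pool.Agent.SHAF.GL3

set_option autoImplicit false

/-!
From the dihedral group of order 16 to the elementary abelian group of order 16, and to all
elementary abelian 2-groups.
-/

namespace Pool.Agent.SHAF

open Pool.Agent.SHA

variable {K : (G : Type) → [Group G] → Prop}

/-! ### affine automorphisms of dihedral groups -/

/-- the underlying map -/
def affFun (n : ℕ) (u j : ZMod n) : DihedralGroup n → DihedralGroup n
  | DihedralGroup.r k => DihedralGroup.r (u * k)
  | DihedralGroup.sr k => DihedralGroup.sr (u * k + j)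

lemma affFun_mul (n : ℕ) (u j : ZMod n) (x y : DihedralGroup n) :
    affFun n u j (x * y) = affFun n u j x * affFun n u j y := by
  rcases x with i | i <;> rcases y with k | k <;>
    simp only [affFun, DihedralGroup.r_mul_r, DihedralGroup.r_mul_sr, DihedralGroup.sr_mul_r,
      DihedralGroup.sr_mul_sr] <;> congr 1 <;> ring

lemma affFun_comp (n : ℕ) (u j u' j' : ZMod n) (x : DihedralGroup n) :
    affFun n u j (affFun n u' j' x) = affFun n (u * u') (u * j' + j) x := by
  rcases x with i | i <;> simp only [affFun] <;> congr 1 <;> ring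

lemma affFun_one (n : ℕ) (x : DihedralGroup n) : affFun n 1 0 x = x := by
  rcases x with i | i <;> simp [affFun]

/-- affine automorphisms with linear part of square one -/
def affAut (n : ℕ) (u j : ZMod n) (hu : u * u = 1) : MulAut (DihedralGroup n) where
  toFun := affFun n u j
  invFun := affFun n u (-(u * j))
  left_inv x := by
    rw [affFun_comp, hu, add_neg_cancel, affFun_one]
  right_inv x := by
    rw [affFun_comp, hu, mul_neg, ← mul_assoc, hu, one_mul, neg_add_cancel, affFun_one]
  map_mul' := affFun_mul n u j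

lemma affAut_mul (n : ℕ) (u j u' j' : ZMod n) (hu : u * u = 1) (hu' : u' * u' = 1)
    (h : (u * u') * (u * u') = 1) :
    affAut n u j hu * affAut n u' j' hu' = affAut n (u * u') (u * j' + j) h :=
  MulEquiv.ext fun x => affFun_comp n u j u' j' x

lemma affAut_congr (n : ℕ) (u j u' j' : ZMod n) (hu : u * u = 1) (hu' : u' * u' = 1)
    (h1 : u = u') (h2 : j = j') : affAut n u j hu = affAut n u' j' hu' := by
  subst h1; subst h2; rfl

lemma affAut_inj (n : ℕ) (u j u' j' : ZMod n) (hu : u * u = 1) (hu' : u' * u' = 1)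
    (h : affAut n u j hu = affAut n u' j' hu') : u = u' ∧ j = j' := by
  have h1 : affFun n u j (DihedralGroup.r 1) = affFun n u' j' (DihedralGroup.r 1) :=
    DFunLike.congr_fun h (DihedralGroup.r 1)
  have h2 : affFun n u j (DihedralGroup.sr 0) = affFun n u' j' (DihedralGroup.sr 0) :=
    DFunLike.congr_fun h (DihedralGroup.sr 0)
  simp only [affFun, mul_one, mul_zero, zero_add, DihedralGroup.r.injEq,
    DihedralGroup.sr.injEq] at h1 h2
  exact ⟨h1, h2⟩

/-! ### from order 16 to rank 4 -/

/-- linear part -/
def linP : DihedralGroup 4 × ℤˣ → ZMod 8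
  | (DihedralGroup.r _, c) => if c = 1 then 1 else 5
  | (DihedralGroup.sr _, c) => if c = 1 then -1 else -5

/-- translation part -/
def trP : DihedralGroup 4 × ℤˣ → ZMod 8
  | (DihedralGroup.r i, _) => 2 * (i.val : ZMod 8)
  | (DihedralGroup.sr i, _) => -(2 * (i.val : ZMod 8))

lemma linP_sq : ∀ x, linP x * linP x = 1 := by decide

lemma linP_mul : ∀ x y, linP (x * y) = linP x * linP y := by decide

lemma trP_mul : ∀ x y, trP (x * y) = linP x * trP y + trP x := by decide

lemma linP_trP_inj : ∀ x, linP x = 1 → trP x = 0 → x = 1 := by decide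

lemma linP_trP_one : linP 1 = 1 ∧ trP 1 = 0 := by decide

theorem K_D8C2 (hK : SHAClosed K) (h : K (DihedralGroup 8)) : K (DihedralGroup 4 × ℤˣ) := by
  let f : DihedralGroup 4 × ℤˣ →* MulAut (DihedralGroup 8) :=
    MonoidHom.mk' (fun x => affAut 8 (linP x) (trP x) (linP_sq x)) (fun x y => by
      rw [affAut_mul _ _ _ _ _ _ _ (by rw [← linP_mul]; exact linP_sq _)]
      exact affAut_congr _ _ _ _ _ _ _ (linP_mul x y) (trP_mul x y))
  refine hK.sub _ _ f ?_ (hK.aut _ h)
  rw [injective_iff_map_eq_one]
  intro x hx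
  have h1 : affAut 8 (linP x) (trP x) (linP_sq x) = affAut 8 1 0 (by decide) := by
    have : affAut 8 1 0 (by decide) = 1 := MulEquiv.ext fun y => affFun_one 8 y
    rw [this]; exact hx
  obtain ⟨h2, h3⟩ := affAut_inj _ _ _ _ _ _ _ h1
  exact linP_trP_inj x h2 h3

/-- abelianisation of the dihedral group of order 8 -/
def abD : DihedralGroup 4 → ℤˣ × ℤˣ
  | DihedralGroup.r i => (if i.val % 2 = 0 then 1 else -1, 1)
  | DihedralGroup.sr i => (if i.val % 2 = 0 then 1 else -1, -1)

lemma abD_mul : ∀ x y, abD (x * y) = abD x * abD y := by decide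

lemma abD_surj : ∀ v, ∃ x, abD x = v := by decide

/-- the quotient map -/
def pD : DihedralGroup 4 × ℤˣ →* E 2 :=
  MonoidHom.mk' (fun x => ![(abD x.1).1, (abD x.1).2]) (fun x y => by
    funext i
    fin_cases i <;> simp [abD_mul])

/-- the central subgroup -/
def iD : E 2 →* DihedralGroup 4 × ℤˣ :=
  MonoidHom.mk' (fun w => (if w 0 = 1 then 1 else DihedralGroup.r 2, w 1)) (fun x y => by
    rcases Int.units_eq_one_or (x 0) with h | h <;> rcases Int.units_eq_one_or (y 0) with h' | h' <;>
      simp [h, h', Prod.ext_iff] <;> decide)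

theorem K_E4 (hK : SHAClosed K) (h : K (E 3)) : K (E 4) := by
  have h1 : K (DihedralGroup 4 × ℤˣ) := K_D8C2 hK (K_D16 hK h)
  have h2 : K (E 2 →* E 2) := by
    refine K_hom_of_central hK h1 pD ?_ iD ?_ ?_ ?_
    · intro v
      obtain ⟨x, hx⟩ := abD_surj (v 0, v 1)
      refine ⟨(x, 1), ?_⟩
      funext i
      fin_cases i <;> simp [pD, hx]
    · intro v w hvw
      have h3 : ((if v 0 = 1 then 1 else DihedralGroup.r 2 : DihedralGroup 4), v 1) =
        ((if w 0 = 1 then 1 else DihedralGroup.r 2 : DihedralGroup 4), w 1) := hvw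
      rw [Prod.ext_iff] at h3
      obtain ⟨h4, h5⟩ := h3
      simp only at h4 h5
      funext i
      fin_cases i
      · show v 0 = w 0
        rcases Int.units_eq_one_or (v 0) with h | h <;>
          rcases Int.units_eq_one_or (w 0) with h' | h' <;> rw [h, h'] at h4 ⊢ <;>
          revert h4 <;> decide
      · exact h5
    · intro w g
      have key : ∀ (u c : ℤˣ) (g : DihedralGroup 4 × ℤˣ),
          ((if u = 1 then 1 else DihedralGroup.r 2 : DihedralGroup 4), c) * g =
          g * ((if u = 1 then 1 else DihedralGroup.r 2 : DihedralGroup 4), c) := by decide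
      exact key _ _ _
    · intro w
      have key : ∀ (u : ℤˣ), abD (if u = 1 then 1 else DihedralGroup.r 2) = 1 := by decide
      funext i
      have := key (w 0)
      fin_cases i
      · exact congrArg Prod.fst this
      · exact congrArg Prod.snd this
  exact K_E_mul hK 2 2 h2

end Pool.Agent.SHAF
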