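import Mathlib
import Pool.Agent.SHAF.Rank4

set_option autoImplicit false

/-!
From the elementary abelian group of order 16 to all finite groups.
-/

namespace Pool.Agent.SHAF

open Pool.Agent.SHA

variable {K : (G : Type) → [Group G] → Prop}

/-- Klein four group of signs -/
abbrev V4 : Type := ℤˣ × ℤˣ

/-- pairing of the four group with itself -/
def pair (r y : V4) : ℤˣ := band r.1 y.1 * band r.2 y.2

lemma pair_mul_left : ∀ r s y : V4, pair (r * s) y = pair r y * pair s y := by decide

lemma pair_mul_right : ∀ r x y : V4, pair r (x * y) = pair r x * pair r y := by decide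

lemma pair_nondeg : ∀ r : V4, (∀ y : V4, pair r y = 1) → r = 1 := by decide

/-- shears -/
def shear : V4 × V4 →* MulAut (V4 × V4) where
  toFun r :=
    { toFun := fun x => ((x.1.1 * pair r.1 x.2, x.1.2 * pair r.2 x.2), x.2)
      invFun := fun x => ((x.1.1 * pair r.1 x.2, x.1.2 * pair r.2 x.2), x.2)
      left_inv := fun x => by simp [mul_assoc]
      right_inv := fun x => by simp [mul_assoc]
      map_mul' := fun x y => by
        simp only [Prod.fst_mul, Prod.snd_mul, pair_mul_right, Prod.mk_mul_mk, Prod.mk.injEq,
          and_true]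
        constructor <;> exact mul_mul_mul_comm _ _ _ _ }
  map_one' := by
    refine MulEquiv.ext fun x => ?_
    have h : ∀ y : V4, pair 1 y = 1 := by decide
    show ((x.1.1 * pair 1 x.2, x.1.2 * pair 1 x.2), x.2) = x
    simp [h]
  map_mul' r s := by
    refine MulEquiv.ext fun x => ?_
    show ((x.1.1 * pair (r.1 * s.1) x.2, x.1.2 * pair (r.2 * s.2) x.2), x.2) =
      ((x.1.1 * pair s.1 x.2 * pair r.1 x.2, x.1.2 * pair s.2 x.2 * pair r.2 x.2), x.2)
    rw [pair_mul_left, pair_mul_left]
    simp only [Prod.mk.injEq, and_true]
    constructor <;> rw [mul_assoc, mul_comm (pair _ _) (pair _ _)]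

/-- exchange of the first two coordinates -/
def exch : MulAut (V4 × V4) where
  toFun x := ((x.1.2, x.1.1), x.2)
  invFun x := ((x.1.2, x.1.1), x.2)
  left_inv _ := rfl
  right_inv _ := rfl
  map_mul' _ _ := rfl

/-- exchange of two factors -/
def swp : MulAut (V4 × V4) where
  toFun x := (x.2, x.1)
  invFun x := (x.2, x.1)
  left_inv _ := rfl
  right_inv _ := rfl
  map_mul' _ _ := rfl

/-- the action of the signs by exchange of two factors -/
def swpHom : ℤˣ →* MulAut (V4 × V4) := inv2 swp (by refine MulEquiv.ext fun x => rfl)

/-- the wreath product of the four group by a group of order two -/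
abbrev X32 : Type := (V4 × V4) ⋊[swpHom] ℤˣ

lemma swpHom_apply (u : ℤˣ) (x : V4 × V4) : swpHom u x = if u = 1 then x else (x.2, x.1) := by
  rcases Int.units_eq_one_or u with rfl | rfl
  · simp
  · rfl

/-- embedding into the automorphisms of the elementary abelian group of order 16 -/
def embX : X32 →* MulAut (V4 × V4) :=
  SemidirectProduct.lift shear (inv2 exch (by refine MulEquiv.ext fun x => rfl)) (fun u => by
    rcases Int.units_eq_one_or u with rfl | rfl
    · ext r : 1
      simp
    · ext r : 1
      refine MulEquiv.ext fun x => ?_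
      rfl)

lemma embX_injective : Function.Injective embX := by
  rw [injective_iff_map_eq_one]
  intro x hx
  have h1 : ∀ y, embX x y = y := fun y => by rw [hx]; rfl
  have h2 : ∀ y, shear x.left (inv2 exch (by refine MulEquiv.ext fun x => rfl) x.right y) = y := h1
  rcases Int.units_eq_one_or x.right with hr | hr
  · rw [hr] at h2
    have h3 : ∀ y : V4 × V4,
        ((y.1.1 * pair x.left.1 y.2, y.1.2 * pair x.left.2 y.2), y.2) = y := h2
    have h4 : x.left.1 = 1 := pair_nondeg _ fun y => by
      have := congrArg (fun z : V4 × V4 => z.1.1) (h3 ((1, 1), y))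
      simpa using this
    have h5 : x.left.2 = 1 := pair_nondeg _ fun y => by
      have := congrArg (fun z : V4 × V4 => z.1.2) (h3 ((1, 1), y))
      simpa using this
    exact SemidirectProduct.ext (Prod.ext h4 h5) hr
  · exfalso
    rw [hr] at h2
    have h3 : ∀ y : V4 × V4,
        ((y.1.2 * pair x.left.1 y.2, y.1.1 * pair x.left.2 y.2), y.2) = y := h2
    have h4 := congrArg (fun z : V4 × V4 => z.1.1) (h3 ((-1, 1), (1, 1)))
    have h5 : ∀ r : V4, pair r (1, 1) = 1 := by decide
    simp [h5] at h4

/-- quotient of rank 3 -/
def pX : X32 →* E 3 :=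
  MonoidHom.mk' (fun x => ![x.left.1.1 * x.left.2.1, x.left.1.2 * x.left.2.2, x.right])
    (fun x y => by
      have h0 : (x * y).left = x.left * swpHom x.right y.left := rfl
      have h1 : (x * y).right = x.right * y.right := rfl
      rw [h0, h1, swpHom_apply]
      rcases Int.units_eq_one_or x.right with hr | hr
      · rw [hr]
        funext i
        fin_cases i <;> simp <;> ac_rfl
      · rw [hr]
        funext i
        fin_cases i <;> simp <;> ac_rfl)

/-- central subgroup of rank 2 -/
def iX : E 2 →* X32 :=
  SemidirectProduct.inl.comp (MonoidHom.mk' (fun w : E 2 => (((w 0, w 1), (w 0, w 1)) : V4 × V4))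
    (fun _ _ => rfl))

theorem K_E6 (hK : SHAClosed K) (h : K (E 4)) : K (E 6) := by
  have h0 : K (V4 × V4) := hK.sub _ _
    (MonoidHom.mk' (fun x : V4 × V4 => (![x.1.1, x.1.2, x.2.1, x.2.2] : E 4)) (fun x y => by
      funext i; fin_cases i <;> rfl)) (fun x y hxy => by
        have e0 := congrFun hxy 0
        have e1 := congrFun hxy 1
        have e2 := congrFun hxy 2
        have e3 := congrFun hxy 3
        simp at e0 e1 e2 e3
        exact Prod.ext (Prod.ext e0 e1) (Prod.ext e2 e3)) h
  have h1 : K X32 := hK.sub _ _ embX embX_injective (hK.aut _ h0)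
  have h2 : K (E 3 →* E 2) := by
    refine K_hom_of_central hK h1 pX ?_ iX ?_ ?_ ?_
    · intro v
      refine ⟨⟨((v 0, v 1), (1, 1)), v 2⟩, ?_⟩
      funext i
      fin_cases i <;> simp [pX]
    · intro v w hvw
      have h3 : (((v 0, v 1), (v 0, v 1)) : V4 × V4) = ((w 0, w 1), (w 0, w 1)) :=
        congrArg SemidirectProduct.left hvw
      have h4 := congrArg Prod.fst h3
      funext i
      fin_cases i
      · exact congrArg Prod.fst h4
      · exact congrArg Prod.snd h4
    · intro w g
      refine SemidirectProduct.ext ?_ ?_
      · show (((w 0, w 1), (w 0, w 1)) : V4 × V4) * swpHom 1 g.left =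
          g.left * swpHom g.right ((w 0, w 1), (w 0, w 1))
        rw [swpHom_apply, swpHom_apply]
        simp [mul_comm]
      · show (1 : ℤˣ) * g.right = g.right * 1
        simp
    · intro w
      funext i
      fin_cases i <;> simp [pX, iX]
  exact K_E_mul hK 3 2 h2

/-- ranks grow -/
theorem K_E_step (hK : SHAClosed K) (a b : ℕ) (h : K (E (a + b))) : K (E (a * b)) := by
  have h1 : K (E a × E b) := hK.sub _ _
    (MonoidHom.mk' (fun x : E a × E b => (Fin.addCases x.1 x.2 : E (a + b))) (fun x y => by
      funext i
      refine Fin.addCases (fun i => ?_) (fun i => ?_) i <;> simp)) (fun x y hxy => by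
        refine Prod.ext ?_ ?_
        · funext i
          have := congrFun hxy (Fin.castAdd b i)
          simpa using this
        · funext i
          have := congrFun hxy (Fin.natAdd a i)
          simpa using this) h
  have h2 : K (E a →* E b) := K_hom_of_central hK h1 (MonoidHom.fst _ _) (fun x => ⟨(x, 1), rfl⟩)
    (MonoidHom.inr _ _) (fun x y hxy => congrArg Prod.snd hxy)
    (fun w g => Prod.ext (by simp) (by simp [mul_comm])) (fun w => rfl)
  exact K_E_mul hK a b h2

theorem K_E_all (hK : SHAClosed K) (h : K (E 3)) : ∀ n, K (E n) := by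
  have h6 : K (E 6) := K_E6 hK (K_E4 hK h)
  have key : ∀ n, 6 ≤ n → K (E n) := by
    intro n hn
    induction n, hn using Nat.le_induction with
    | base => exact h6
    | succ n hn ih =>
      have h1 : K (E (2 + (n - 2))) := by rwa [Nat.add_sub_cancel' (by omega)]
      exact K_E_le hK (by omega) (K_E_step hK 2 (n - 2) h1)
  intro n
  rcases le_total 6 n with hn | hn
  · exact key n hn
  · exact K_E_le hK hn h6

/-- A class closed under subgroups, images and automorphism groups that contains the elementary
abelian group of order 8 contains all finite groups. -/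
theorem all_finite (hK : SHAClosed K) (h : K (E 3)) (C : Type) [Group C] [Finite C] : K C :=
  finite_of_E hK (K_E_all hK h) C

end Pool.Agent.SHAF
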