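import Mathlib
import Pool.Agent.SHAF.AllE

set_option autoImplicit false

/-!
Tools: cyclic groups, units, products; direct exclusions of abelian groups.
-/

namespace Pool.Agent.SHAF

open Pool.Agent.SHA

variable {K : (G : Type) → [Group G] → Prop}

/-- cyclic group of order `n` -/
abbrev cyc (n : ℕ) : Type := Multiplicative (ZMod n)

lemma K_cyc_of (hK : SHAClosed K) {Γ : Type} [Group Γ] (h : K Γ) (x : Γ) {n : ℕ}
    (hx : orderOf x = n) : K (cyc n) :=
  hK.sub _ _ _ (zpw_injective n x (hx ▸ pow_orderOf_eq_one x) hx) h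

/-- multiplication by units -/
def unitsAut (n : ℕ) : (ZMod n)ˣ →* MulAut (cyc n) where
  toFun u :=
    { toFun := fun x => Multiplicative.ofAdd ((u : ZMod n) * Multiplicative.toAdd x)
      invFun := fun x => Multiplicative.ofAdd (((u⁻¹ : (ZMod n)ˣ) : ZMod n) * Multiplicative.toAdd x)
      left_inv := fun x => by simp
      right_inv := fun x => by simp
      map_mul' := fun x y => by
        apply Multiplicative.toAdd.injective
        simp [mul_add] }
  map_one' := by
    refine MulEquiv.ext fun x => ?_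
    apply Multiplicative.toAdd.injective
    simp
  map_mul' u v := by
    refine MulEquiv.ext fun x => ?_
    apply Multiplicative.toAdd.injective
    simp [mul_assoc]

lemma unitsAut_injective (n : ℕ) : Function.Injective (unitsAut n) := by
  intro u v h
  have h1 : Multiplicative.ofAdd ((u : ZMod n) * 1) = Multiplicative.ofAdd ((v : ZMod n) * 1) :=
    DFunLike.congr_fun h (Multiplicative.ofAdd 1)
  have h2 := Multiplicative.ofAdd.injective h1
  rw [mul_one, mul_one] at h2
  exact Units.ext h2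

lemma K_units (hK : SHAClosed K) {n : ℕ} (h : K (cyc n)) : K (ZMod n)ˣ :=
  hK.sub _ _ _ (unitsAut_injective n) (hK.aut _ h)

/-- automorphisms of products -/
def prodAut (A B : Type) [Group A] [Group B] : MulAut A × MulAut B →* MulAut (A × B) where
  toFun f := MulEquiv.prodCongr f.1 f.2
  map_one' := rfl
  map_mul' _ _ := rfl

lemma prodAut_injective (A B : Type) [Group A] [Group B] : Function.Injective (prodAut A B) := by
  intro f g h
  refine Prod.ext ?_ ?_
  · refine MulEquiv.ext fun x => ?_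
    exact congrArg Prod.fst (DFunLike.congr_fun h (x, (1 : B)))
  · refine MulEquiv.ext fun x => ?_
    exact congrArg Prod.snd (DFunLike.congr_fun h ((1 : A), x))

lemma K_prodAut (hK : SHAClosed K) {A B : Type} [Group A] [Group B] (h : K (A × B)) :
    K (MulAut A × MulAut B) :=
  hK.sub _ _ _ (prodAut_injective A B) (hK.aut _ h)

lemma K_fst (hK : SHAClosed K) {A B : Type} [Group A] [Group B] (h : K (A × B)) : K A :=
  hK.quo _ _ (MonoidHom.fst A B) Prod.fst_surjective h

lemma K_snd (hK : SHAClosed K) {A B : Type} [Group A] [Group B] (h : K (A × B)) : K B :=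
  hK.quo _ _ (MonoidHom.snd A B) Prod.snd_surjective h

/-- embeddings of products -/
lemma K_prod_sub (hK : SHAClosed K) {A B C D : Type} [Group A] [Group B] [Group C] [Group D]
    (h : K (A × B)) (f : C →* A) (hf : Function.Injective f) (g : D →* B)
    (hg : Function.Injective g) : K (C × D) :=
  hK.sub _ _ (f.prodMap g) (Function.Injective.prodMap hf hg) h

lemma K_prod_of (hK : SHAClosed K) {Γ A B : Type} [Group Γ] [Group A] [Group B] (h : K Γ)
    (f : A →* Γ) (g : B →* Γ) (hf : Function.Injective f) (hg : Function.Injective g)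
    (hc : ∀ a b, Commute (f a) (g b)) (hd : ∀ a b, f a = g b → f a = 1) : K (A × B) := by
  refine hK.sub _ _ (MonoidHom.noncommCoprod f g hc) ?_ h
  rw [injective_iff_map_eq_one]
  rintro ⟨a, b⟩ hab
  have h1 : f a * g b = 1 := hab
  have h2 : f a = g b⁻¹ := by rw [map_inv]; exact eq_inv_of_mul_eq_one_left h1
  have h3 := hd a b⁻¹ h2
  rw [h3, one_mul] at h1
  rw [(injective_iff_map_eq_one f).mp hf a h3, (injective_iff_map_eq_one g).mp hg b h1]
  rfl

/-- two commuting elements -/
lemma K_cyc2_of (hK : SHAClosed K) {Γ : Type} [Group Γ] (h : K Γ) (x y : Γ) {m n : ℕ}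
    (hx : orderOf x = m) (hy : orderOf y = n) (hxy : x * y = y * x)
    (hd : ∀ i j : ℤ, x ^ i = y ^ j → x ^ i = 1) : K (cyc m × cyc n) := by
  refine K_prod_of hK h (zpw m x (hx ▸ pow_orderOf_eq_one x)) (zpw n y (hy ▸ pow_orderOf_eq_one y))
    (zpw_injective _ _ _ hx) (zpw_injective _ _ _ hy) ?_ ?_
  · intro a b
    obtain ⟨i, hi⟩ := ZMod.intCast_surjective (Multiplicative.toAdd a)
    obtain ⟨j, hj⟩ := ZMod.intCast_surjective (Multiplicative.toAdd b)
    have h1 : a = Multiplicative.ofAdd (i : ZMod m) := by rw [hi]; rfl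
    have h2 : b = Multiplicative.ofAdd (j : ZMod n) := by rw [hj]; rfl
    rw [h1, h2, zpw_coe, zpw_coe]
    exact (Commute.zpow_zpow (show Commute x y from hxy) i j)
  · intro a b
    obtain ⟨i, hi⟩ := ZMod.intCast_surjective (Multiplicative.toAdd a)
    obtain ⟨j, hj⟩ := ZMod.intCast_surjective (Multiplicative.toAdd b)
    have h1 : a = Multiplicative.ofAdd (i : ZMod m) := by rw [hi]; rfl
    have h2 : b = Multiplicative.ofAdd (j : ZMod n) := by rw [hj]; rfl
    rw [h1, h2, zpw_coe, zpw_coe]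
    exact hd i j

/-- Two commuting involutory automorphisms on one factor and one on the other factor. -/
theorem K_E3_of_prod (hK : SHAClosed K) {A B : Type} [Group A] [Group B] (h : K (A × B))
    (f g : MulAut A) (hf : f * f = 1) (hg : g * g = 1) (hfg : f * g = g * f) (h1 : f ≠ 1)
    (h2 : g ≠ 1) (h3 : f ≠ g) (t : MulAut B) (ht : t * t = 1) (ht1 : t ≠ 1) : K (E 3) := by
  refine K_E3_of hK (K_prodAut hK h) (f, 1) (g, 1) (1, t) ?_ ?_ ?_ ?_ ?_ ?_ ?_ ?_ ?_ ?_ ?_ ?_ ?_
  · simp [hf]
  · simp [hg]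
  · simp [ht]
  · simp [hfg]
  · simp
  · simp
  · simp [h1]
  · simp [h2]
  · simp [ht1]
  · simp [h3]
  · simp [h1]
  · simp [h2]
  · intro h4
    have h5 := congrArg Prod.snd h4
    exact ht1 h5.symm

lemma inv_ne_one {m : ℕ} (hm : 2 < m) : unitsAut m (-1) ≠ 1 := by
  intro h
  have h1 : (-1 : (ZMod m)ˣ) = 1 := unitsAut_injective m (by rw [h, map_one])
  have : Fact (2 < m) := ⟨hm⟩
  exact ZMod.neg_one_ne_one (congrArg Units.val h1)

lemma inv_sq (m : ℕ) : unitsAut m (-1) * unitsAut m (-1) = 1 := by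
  rw [← map_mul]; simp

/-- order 8 times a group of order more than two -/
theorem no_C8_Cm (hK : SHAClosed K) {m : ℕ} (hm : 2 < m) (h : K (cyc 8 × cyc m)) : K (E 3) := by
  let u3 : (ZMod 8)ˣ := ⟨3, 3, by decide, by decide⟩
  let u5 : (ZMod 8)ˣ := ⟨5, 5, by decide, by decide⟩
  have e3 : u3 * u3 = 1 := by ext; decide
  have e5 : u5 * u5 = 1 := by ext; decide
  have n3 : u3 ≠ 1 := by intro h; exact absurd (congrArg Units.val h) (by decide)
  have n5 : u5 ≠ 1 := by intro h; exact absurd (congrArg Units.val h) (by decide)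
  have n35 : u3 ≠ u5 := by intro h; exact absurd (congrArg Units.val h) (by decide)
  have inj := unitsAut_injective 8
  refine K_E3_of_prod hK h (unitsAut 8 u3) (unitsAut 8 u5) ?_ ?_ ?_ ?_ ?_ ?_
    (unitsAut m (-1)) (inv_sq m) (inv_ne_one hm)
  · rw [← map_mul, e3, map_one]
  · rw [← map_mul, e5, map_one]
  · rw [← map_mul, ← map_mul, mul_comm]
  · exact fun h => n3 (inj (by rw [h, map_one]))
  · exact fun h => n5 (inj (by rw [h, map_one]))
  · exact fun h => n35 (inj h)

/-- involutory automorphisms -/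
def invol {G : Type} [Group G] (f : G → G) (h1 : ∀ x, f (f x) = x)
    (h2 : ∀ x y, f (x * y) = f x * f y) : MulAut G where
  toFun := f
  invFun := f
  left_inv := h1
  right_inv := h1
  map_mul' := h2

lemma invol_sq {G : Type} [Group G] (f : G → G) (h1 : ∀ x, f (f x) = x)
    (h2 : ∀ x y, f (x * y) = f x * f y) : invol f h1 h2 * invol f h1 h2 = 1 :=
  MulEquiv.ext h1

lemma invol_comm {G : Type} [Group G] (f g : G → G) (h1 : ∀ x, f (f x) = x)
    (h2 : ∀ x y, f (x * y) = f x * f y) (h3 : ∀ x, g (g x) = x)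
    (h4 : ∀ x y, g (x * y) = g x * g y) (h : ∀ x, f (g x) = g (f x)) :
    invol f h1 h2 * invol g h3 h4 = invol g h3 h4 * invol f h1 h2 :=
  MulEquiv.ext h

lemma invol_ne_one {G : Type} [Group G] (f : G → G) (h1 : ∀ x, f (f x) = x)
    (h2 : ∀ x y, f (x * y) = f x * f y) (h : ∃ x, f x ≠ x) : invol f h1 h2 ≠ 1 := by
  rintro e
  obtain ⟨x, hx⟩ := h
  exact hx (DFunLike.congr_fun e x)

lemma invol_ne {G : Type} [Group G] (f g : G → G) (h1 : ∀ x, f (f x) = x)
    (h2 : ∀ x y, f (x * y) = f x * f y) (h3 : ∀ x, g (g x) = x)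
    (h4 : ∀ x y, g (x * y) = g x * g y) (h : ∃ x, f x ≠ g x) :
    invol f h1 h2 ≠ invol g h3 h4 := by
  rintro e
  obtain ⟨x, hx⟩ := h
  exact hx (DFunLike.congr_fun e x)

/-- Three independent commuting involutory automorphisms given by functions. -/
theorem K_E3_fun (hK : SHAClosed K) {G : Type} [Group G] (h : K G) (f g k : G → G)
    (f1 : ∀ x, f (f x) = x) (f2 : ∀ x y, f (x * y) = f x * f y)
    (g1 : ∀ x, g (g x) = x) (g2 : ∀ x y, g (x * y) = g x * g y)
    (k1 : ∀ x, k (k x) = x) (k2 : ∀ x y, k (x * y) = k x * k y)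
    (hfg : ∀ x, f (g x) = g (f x)) (hfk : ∀ x, f (k x) = k (f x)) (hgk : ∀ x, g (k x) = k (g x))
    (n1 : ∃ x, f x ≠ x) (n2 : ∃ x, g x ≠ x) (n3 : ∃ x, k x ≠ x)
    (n12 : ∃ x, f x ≠ g x) (n13 : ∃ x, f x ≠ k x) (n23 : ∃ x, g x ≠ k x)
    (n123 : ∃ x, f (g x) ≠ k x) : K (E 3) := by
  refine K_E3_of hK (hK.aut _ h) (invol f f1 f2) (invol g g1 g2) (invol k k1 k2)
    (invol_sq _ _ _) (invol_sq _ _ _) (invol_sq _ _ _) (invol_comm _ _ _ _ _ _ hfg)
    (invol_comm _ _ _ _ _ _ hfk) (invol_comm _ _ _ _ _ _ hgk) (invol_ne_one _ _ _ n1)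
    (invol_ne_one _ _ _ n2) (invol_ne_one _ _ _ n3) (invol_ne _ _ _ _ _ _ n12)
    (invol_ne _ _ _ _ _ _ n13) (invol_ne _ _ _ _ _ _ n23) ?_
  intro e
  obtain ⟨x, hx⟩ := n123
  exact hx (DFunLike.congr_fun e x)

abbrev C24 : Type := Multiplicative (ZMod 2 × ZMod 4)
abbrev C28 : Type := Multiplicative (ZMod 2 × ZMod 8)
abbrev C44 : Type := Multiplicative (ZMod 4 × ZMod 4)

/-- `C_2 × C_8` -/
theorem no_C28 (hK : SHAClosed K) (h : K C28) : K (E 3) := by
  let f : C28 → C28 := fun x => Multiplicative.ofAdd ((Multiplicative.toAdd x).1, 3 * (Multiplicative.toAdd x).2)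
  let g : C28 → C28 := fun x => Multiplicative.ofAdd ((Multiplicative.toAdd x).1, 5 * (Multiplicative.toAdd x).2)
  let k : C28 → C28 := fun x => Multiplicative.ofAdd ((Multiplicative.toAdd x).1,
    (Multiplicative.toAdd x).2 + 4 * ((Multiplicative.toAdd x).1.val : ZMod 8))
  refine K_E3_fun hK h f g k ?_ ?_ ?_ ?_ ?_ ?_ ?_ ?_ ?_ ?_ ?_ ?_ ?_ ?_ ?_ ?_ <;> decide

/-- `C_4 × C_4` -/
theorem no_C44 (hK : SHAClosed K) (h : K C44) : K (E 3) := by
  let f : C44 → C44 := fun x => Multiplicative.ofAdd (-(Multiplicative.toAdd x).1, (Multiplicative.toAdd x).2)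
  let g : C44 → C44 := fun x => Multiplicative.ofAdd ((Multiplicative.toAdd x).1, -(Multiplicative.toAdd x).2)
  let k : C44 → C44 := fun x => Multiplicative.ofAdd ((Multiplicative.toAdd x).1 + 2 * (Multiplicative.toAdd x).2,
    (Multiplicative.toAdd x).2)
  refine K_E3_fun hK h f g k ?_ ?_ ?_ ?_ ?_ ?_ ?_ ?_ ?_ ?_ ?_ ?_ ?_ ?_ ?_ ?_ <;> decide

/-- `C_2 × C_4 × C_m` -/
theorem no_C24_Cm (hK : SHAClosed K) {m : ℕ} (hm : 2 < m) (h : K (C24 × cyc m)) : K (E 3) := by
  let f : C24 → C24 := fun x => Multiplicative.ofAdd ((Multiplicative.toAdd x).1, - (Multiplicative.toAdd x).2)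
  let g : C24 → C24 := fun x => Multiplicative.ofAdd ((Multiplicative.toAdd x).1,
    (Multiplicative.toAdd x).2 + 2 * ((Multiplicative.toAdd x).1.val : ZMod 4))
  have f1 : ∀ x, f (f x) = x := by decide
  have f2 : ∀ x y, f (x * y) = f x * f y := by decide
  have g1 : ∀ x, g (g x) = x := by decide
  have g2 : ∀ x y, g (x * y) = g x * g y := by decide
  exact K_E3_of_prod hK h (invol f f1 f2) (invol g g1 g2) (invol_sq _ _ _) (invol_sq _ _ _)
    (invol_comm _ _ _ _ _ _ (by decide)) (invol_ne_one _ _ _ (by decide))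
    (invol_ne_one _ _ _ (by decide)) (invol_ne _ _ _ _ _ _ (by decide))
    (unitsAut m (-1)) (inv_sq m) (inv_ne_one hm)

/-- the cyclic group of order 32 -/
theorem no_C32 (hK : SHAClosed K) (h : K (cyc 32)) : K (E 3) := by
  have h1 := K_units hK h
  let u3 : (ZMod 32)ˣ := ⟨3, 11, by decide, by decide⟩
  have h2 : orderOf u3 = 2 ^ (2 + 1) := by
    apply orderOf_eq_prime_pow
    · intro h
      exact absurd (congrArg Units.val h) (by decide)
    · ext; decide
  refine no_C28 hK (iso hK ?_ (K_cyc2_of hK h1 (-1) u3 (m := 2) (n := 8) ?_ (by rw [h2]; norm_num)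
    (mul_comm _ _) ?_))
  · exact
      { toFun := fun x => Multiplicative.ofAdd (Multiplicative.toAdd x.1, Multiplicative.toAdd x.2)
        invFun := fun x => (Multiplicative.ofAdd (Multiplicative.toAdd x).1,
          Multiplicative.ofAdd (Multiplicative.toAdd x).2)
        left_inv := fun x => rfl
        right_inv := fun x => rfl
        map_mul' := fun x y => rfl }
  · refine orderOf_eq_prime (by simp) ?_
    intro h
    exact absurd (congrArg Units.val h) (by decide)
  · intro i j hij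
    rcases Int.even_or_odd i with hi | hi
    · exact Even.neg_one_zpow hi
    · exfalso
      rw [Odd.neg_one_zpow hi] at hij
      have h3 : u3 ^ j = u3 ^ (j % 8) := by
        have := zpow_mod_orderOf u3 j
        rw [h2] at this
        exact_mod_cast this.symm
      rw [h3] at hij
      have h4 : 0 ≤ j % 8 := Int.emod_nonneg _ (by norm_num)
      have h5 : j % 8 < 8 := Int.emod_lt_of_pos _ (by norm_num)
      generalize j % 8 = r at *
      have : ∀ r : ℕ, r < 8 → (-1 : (ZMod 32)ˣ) ≠ u3 ^ r := by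
        intro r hr h
        have h' := congrArg Units.val h
        interval_cases r <;> exact absurd h' (by decide)
      obtain ⟨n, rfl⟩ := Int.eq_ofNat_of_zero_le h4
      exact this n (by omega) (by simpa using hij)

end Pool.Agent.SHAF
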