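import Mathlib
import Pool.Agent.SHAF.Excl

set_option autoImplicit false

/-!
Exclusion of `C_2 × C_2 × C_m`, and of `C_p × C_p` for odd `p`.
-/

namespace Pool.Agent.SHAF

open Pool.Agent.SHA

variable {K : (G : Type) → [Group G] → Prop}

/-- sign of elements of dihedral groups -/
def dsgn (n : ℕ) : DihedralGroup n →* ℤˣ :=
  MonoidHom.mk' (fun x => match x with
    | DihedralGroup.r _ => 1
    | DihedralGroup.sr _ => -1) (by
    rintro (i | i) (j | j) <;> simp)

/-- a dihedral group times an abelian group of exponent greater than two -/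
theorem no_dih_prod (hK : SHAClosed K) {n : ℕ} (hn : 2 < n) {U : Type} [CommGroup U]
    (h : K (DihedralGroup n × U)) (z : U) (hz : z * z = 1) (hz1 : z ≠ 1)
    (u : U) (hu : u * u ≠ 1) : K (E 3) := by
  have hs : (DihedralGroup.sr 0 : DihedralGroup n) * DihedralGroup.sr 0 = 1 := by simp
  have hn' : (1 : ZMod n) ≠ -1 := by
    have : Fact (2 < n) := ⟨hn⟩
    exact ZMod.neg_one_ne_one.symm
  let f : DihedralGroup n × U → DihedralGroup n × U :=
    fun x => (DihedralGroup.sr 0 * x.1 * DihedralGroup.sr 0, x.2)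
  let g : DihedralGroup n × U → DihedralGroup n × U :=
    fun x => (x.1, x.2 * inv2 z hz (dsgn n x.1))
  let k : DihedralGroup n × U → DihedralGroup n × U := fun x => (x.1, x.2⁻¹)
  have hg : ∀ e : ℤˣ, (inv2 z hz e) * (inv2 z hz e) = 1 := by
    intro e
    rw [← map_mul, Int.units_mul_self, map_one]
  have hg' : ∀ e : ℤˣ, (inv2 z hz e)⁻¹ = inv2 z hz e := fun e => inv_eq_of_mul_eq_one_left (hg e)
  have hsg : ∀ x : DihedralGroup n, dsgn n (DihedralGroup.sr 0 * x * DihedralGroup.sr 0)
      = dsgn n x := by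
    intro x
    rw [map_mul, map_mul, mul_comm, ← mul_assoc, ← map_mul, hs, map_one, one_mul]
  have hr : f (DihedralGroup.r 1, 1) = (DihedralGroup.r (-1), 1) := by
    simp [f]
  refine K_E3_fun hK h f g k ?_ ?_ ?_ ?_ ?_ ?_ ?_ ?_ ?_ ?_ ?_ ?_ ?_ ?_ ?_ ?_
  · intro x
    refine Prod.ext ?_ rfl
    show DihedralGroup.sr 0 * (DihedralGroup.sr 0 * x.1 * DihedralGroup.sr 0) * DihedralGroup.sr 0 = x.1
    rw [← mul_assoc, ← mul_assoc, hs, one_mul, mul_assoc, hs, mul_one]
  · intro x y
    refine Prod.ext ?_ rfl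
    show DihedralGroup.sr 0 * (x.1 * y.1) * DihedralGroup.sr 0 =
      (DihedralGroup.sr 0 * x.1 * DihedralGroup.sr 0) * (DihedralGroup.sr 0 * y.1 * DihedralGroup.sr 0)
    calc DihedralGroup.sr 0 * (x.1 * y.1) * DihedralGroup.sr 0
        = DihedralGroup.sr 0 * x.1 * 1 * y.1 * DihedralGroup.sr 0 := by group
      _ = DihedralGroup.sr 0 * x.1 * (DihedralGroup.sr 0 * DihedralGroup.sr 0) * y.1 *
          DihedralGroup.sr 0 := by rw [hs]
      _ = _ := by group
  · intro x
    refine Prod.ext rfl ?_
    show x.2 * inv2 z hz (dsgn n x.1) * inv2 z hz (dsgn n x.1) = x.2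
    rw [mul_assoc, hg, mul_one]
  · intro x y
    refine Prod.ext rfl ?_
    show x.2 * y.2 * inv2 z hz (dsgn n (x.1 * y.1)) =
      x.2 * inv2 z hz (dsgn n x.1) * (y.2 * inv2 z hz (dsgn n y.1))
    rw [map_mul, map_mul]
    exact mul_mul_mul_comm _ _ _ _
  · intro x
    refine Prod.ext rfl ?_
    exact inv_inv x.2
  · intro x y
    refine Prod.ext rfl ?_
    exact mul_inv x.2 y.2
  · intro x
    refine Prod.ext rfl ?_
    show x.2 * inv2 z hz (dsgn n x.1) =
      x.2 * inv2 z hz (dsgn n (DihedralGroup.sr 0 * x.1 * DihedralGroup.sr 0))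
    rw [hsg]
  · intro x
    rfl
  · intro x
    refine Prod.ext rfl ?_
    show x.2⁻¹ * inv2 z hz (dsgn n x.1) = (x.2 * inv2 z hz (dsgn n x.1))⁻¹
    rw [mul_inv, hg']
  · refine ⟨(DihedralGroup.r 1, 1), ?_⟩
    rw [hr]
    intro h
    have h1 := congrArg Prod.fst h
    simp only [DihedralGroup.r.injEq] at h1
    exact hn' h1.symm
  · refine ⟨(DihedralGroup.sr 0, 1), ?_⟩
    intro h
    have h1 : 1 * inv2 z hz (dsgn n (DihedralGroup.sr 0)) = (1 : U) := congrArg Prod.snd h
    rw [one_mul] at h1
    exact hz1 h1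
  · refine ⟨(1, u), ?_⟩
    intro h
    have h1 : u⁻¹ = u := congrArg Prod.snd h
    apply hu
    nth_rewrite 1 [← h1]
    simp
  · refine ⟨(DihedralGroup.r 1, 1), ?_⟩
    rw [hr]
    intro h
    have h1 := congrArg Prod.fst h
    simp only [g, DihedralGroup.r.injEq] at h1
    exact hn' h1.symm
  · refine ⟨(1, u), ?_⟩
    intro h
    have h1 : u = u⁻¹ := congrArg Prod.snd h
    apply hu
    nth_rewrite 2 [h1]
    simp
  · refine ⟨(1, u), ?_⟩
    intro h
    have h1 : u * inv2 z hz (dsgn n 1) = u⁻¹ := congrArg Prod.snd h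
    rw [map_one, map_one, mul_one] at h1
    apply hu
    nth_rewrite 2 [h1]
    simp
  · refine ⟨(1, u), ?_⟩
    intro h
    have h1 : u * inv2 z hz (dsgn n 1) = u⁻¹ := congrArg Prod.snd h
    rw [map_one, map_one, mul_one] at h1
    apply hu
    nth_rewrite 2 [h1]
    simp

/-- transposition -/
def v4s : MulAut V4 := invol (fun x => (x.2, x.1)) (by decide) (by decide)

/-- three cycle -/
def v4r : MulAut V4 where
  toFun x := (x.2, x.1 * x.2)
  invFun x := (x.1 * x.2, x.1)
  left_inv := by decide
  right_inv := by decide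
  map_mul' := by decide

lemma v4r_order : orderOf v4r = 3 := by
  apply orderOf_eq_prime
  · refine MulEquiv.ext fun x => ?_
    revert x
    decide
  · intro h
    have := DFunLike.congr_fun h ((1, -1) : V4)
    revert this
    decide

lemma v4_rel : v4s * v4r * v4s = v4r⁻¹ := by
  refine MulEquiv.ext fun x => ?_
  revert x
  decide

/-- `C_2 × C_2 × C_m` -/
theorem no_V4_Cm (hK : SHAClosed K) {m : ℕ} (hm : 2 < m) (u : (ZMod m)ˣ) (h1 : u ≠ 1)
    (h2 : u ≠ -1) (h : K (V4 × cyc m)) : K (E 3) := by
  have h3 : K (MulAut V4 × (ZMod m)ˣ) :=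
    K_prod_sub hK (K_prodAut hK h) (MonoidHom.id _) Function.injective_id (unitsAut m)
      (unitsAut_injective m)
  have h4 : K (DihedralGroup 3 × (ZMod m)ˣ) :=
    K_prod_sub hK h3 _ (dihLift_injective 3 v4r v4s (by norm_num) v4r_order
      (invol_sq _ _ _) v4_rel) (MonoidHom.id _) Function.injective_id
  have hne : (-1 : (ZMod m)ˣ) ≠ 1 := by
    intro h
    have : Fact (2 < m) := ⟨hm⟩
    exact ZMod.neg_one_ne_one (congrArg Units.val h)
  by_cases hu : u * u = 1
  · have hsr : (DihedralGroup.sr 0 : DihedralGroup 3) ≠ 1 := by decide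
    refine K_E3_of hK h4 (DihedralGroup.sr 0, 1) (1, -1) (1, u) (by simp) (by simp)
      (by simp [hu]) (by simp) (by simp) (by simp [mul_comm])
      (fun h => hsr (congrArg Prod.fst h)) (by simp [hne]) (by simp [h1])
      (fun h => hsr (congrArg Prod.fst h)) (fun h => hsr (congrArg Prod.fst h))
      (fun h => h2 (congrArg Prod.snd h).symm) (fun h => hsr ?_)
    have := congrArg Prod.fst h
    simpa using this
  · exact no_dih_prod hK (by norm_num) h4 (-1) (by simp) hne u hu

/-! ### `C_p × C_p` -/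

/-- passing to automorphisms -/
lemma cycp_units (hK : SHAClosed K) {p : ℕ} (h : K (cyc p × cyc p)) :
    K ((ZMod p)ˣ × (ZMod p)ˣ) :=
  K_prod_sub hK (K_prodAut hK h) (unitsAut p) (unitsAut_injective p) (unitsAut p)
    (unitsAut_injective p)

lemma cycp_order (hK : SHAClosed K) {p : ℕ} (h : K (cyc p × cyc p)) (u : (ZMod p)ˣ) {r : ℕ}
    (hu : orderOf u = r) : K (cyc r × cyc r) :=
  K_prod_sub hK (cycp_units hK h) (zpw r u (hu ▸ pow_orderOf_eq_one u)) (zpw_injective _ _ _ hu)
    (zpw r u (hu ▸ pow_orderOf_eq_one u)) (zpw_injective _ _ _ hu)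

lemma C44_iso (hK : SHAClosed K) (h : K (cyc 4 × cyc 4)) : K C44 :=
  iso hK
    { toFun := fun x => Multiplicative.ofAdd (Multiplicative.toAdd x.1, Multiplicative.toAdd x.2)
      invFun := fun x => (Multiplicative.ofAdd (Multiplicative.toAdd x).1,
        Multiplicative.ofAdd (Multiplicative.toAdd x).2)
      left_inv := fun x => rfl
      right_inv := fun x => rfl
      map_mul' := fun x y => rfl } h

abbrev GL2 : Type := (Matrix (Fin 2) (Fin 2) (ZMod 3))ˣ

def gd : GL2 := ⟨!![1,0;0,-1], !![1,0;0,-1], by decide, by decide⟩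
def gs : GL2 := ⟨!![0,1;1,0], !![0,1;1,0], by decide, by decide⟩
def gu : GL2 := ⟨!![1,1;0,1], !![1,-1;0,1], by decide, by decide⟩

lemma det_unit_sq : ∀ u : (ZMod 3)ˣ, u * u = 1 := by decide

/-- multiplication by the determinant -/
def gchi : MulAut GL2 := invol
  (fun A => Units.map (algebraMap (ZMod 3) (Matrix (Fin 2) (Fin 2) (ZMod 3))).toMonoidHom
    (Units.map Matrix.detMonoidHom A) * A)
  (fun A => by
    simp only [map_mul]
    have h1 : Units.map (Matrix.detMonoidHom : Matrix (Fin 2) (Fin 2) (ZMod 3) →* ZMod 3)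
        (Units.map (algebraMap (ZMod 3) (Matrix (Fin 2) (Fin 2) (ZMod 3))).toMonoidHom
          (Units.map Matrix.detMonoidHom A)) = 1 := by
      generalize Units.map (Matrix.detMonoidHom : Matrix (Fin 2) (Fin 2) (ZMod 3) →* ZMod 3) A = u
      revert u
      decide
    rw [h1, map_one, one_mul, ← mul_assoc, ← map_mul, ← map_mul]
    have h2 : Units.map (Matrix.detMonoidHom : Matrix (Fin 2) (Fin 2) (ZMod 3) →* ZMod 3) A *
        Units.map (Matrix.detMonoidHom : Matrix (Fin 2) (Fin 2) (ZMod 3) →* ZMod 3) A = 1 :=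
      det_unit_sq _
    rw [← map_mul] at h2
    rw [h2, map_one, one_mul])
  (fun A B => by
    simp only [map_mul]
    have hc : ∀ u : (ZMod 3)ˣ, ∀ C : GL2,
        Units.map (algebraMap (ZMod 3) (Matrix (Fin 2) (Fin 2) (ZMod 3))).toMonoidHom u * C =
        C * Units.map (algebraMap (ZMod 3) (Matrix (Fin 2) (Fin 2) (ZMod 3))).toMonoidHom u := by
      intro u C
      ext1
      exact Algebra.commutes _ _
    generalize Units.map (algebraMap (ZMod 3) (Matrix (Fin 2) (Fin 2) (ZMod 3))).toMonoidHom
      (Units.map Matrix.detMonoidHom A) = a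
    have hb := hc (Units.map Matrix.detMonoidHom B) A
    generalize Units.map (algebraMap (ZMod 3) (Matrix (Fin 2) (Fin 2) (ZMod 3))).toMonoidHom
      (Units.map Matrix.detMonoidHom B) = b at *
    calc a * b * (A * B) = a * (b * A) * B := by group
      _ = a * (A * b) * B := by rw [hb]
      _ = _ := by group)

lemma conj_neg (A : GL2) : MulAut.conj (-A) = MulAut.conj A := by
  refine MulEquiv.ext fun x => ?_
  show -A * x * (-A)⁻¹ = A * x * A⁻¹
  have h : (-A)⁻¹ = -A⁻¹ := by
    rw [inv_eq_iff_mul_eq_one, neg_mul_neg, mul_inv_cancel]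
  rw [h, neg_mul, neg_mul_neg]

lemma no_C33 (hK : SHAClosed K) (h : K (cyc 3 × cyc 3)) : K (E 3) := by
  have h0 : K (Multiplicative (Fin 2 → ZMod 3)) := iso hK
    { toFun := fun x => Multiplicative.ofAdd ![Multiplicative.toAdd x.1, Multiplicative.toAdd x.2]
      invFun := fun x => (Multiplicative.ofAdd (Multiplicative.toAdd x 0),
        Multiplicative.ofAdd (Multiplicative.toAdd x 1))
      left_inv := fun x => rfl
      right_inv := fun x => by
        apply Multiplicative.toAdd.injective
        funext i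
        fin_cases i <;> rfl
      map_mul' := fun x y => by
        apply Multiplicative.toAdd.injective
        funext i
        fin_cases i <;> rfl } h
  have h1 : K GL2 := hK.sub _ _ matAut matAut_injective (hK.aut _ h0)
  have hdd : gd * gd = 1 := by decide
  have hss : gs * gs = 1 := by decide
  have hds : gs * gd = -(gd * gs) := by decide
  have cd : gchi gd = -gd := by decide
  have cs : gchi gs = -gs := by decide
  refine K_E3_of hK (hK.aut _ h1) (MulAut.conj gd) (MulAut.conj gs) gchi ?_ ?_ ?_ ?_ ?_ ?_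
    ?_ ?_ ?_ ?_ ?_ ?_ ?_
  · rw [← map_mul, hdd, map_one]
  · rw [← map_mul, hss, map_one]
  · exact invol_sq _ _ _
  · rw [← map_mul, ← map_mul, hds, conj_neg]
  · rw [conj_apply_eq, cd, conj_neg]
  · rw [conj_apply_eq, cs, conj_neg]
  · intro h
    have := DFunLike.congr_fun h gu
    revert this
    decide
  · intro h
    have := DFunLike.congr_fun h gu
    revert this
    decide
  · intro h
    have := DFunLike.congr_fun h gd
    revert this
    decide
  · intro h
    have := DFunLike.congr_fun h gu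
    revert this
    decide
  · intro h
    have := DFunLike.congr_fun h gu
    revert this
    decide
  · intro h
    have := DFunLike.congr_fun h gu
    revert this
    decide
  · intro h
    have := DFunLike.congr_fun h gu
    revert this
    decide

/-- elementary abelian groups of order `p^2`, `p` odd -/
theorem no_Cpp (hK : SHAClosed K) (p : ℕ) (hp : p.Prime) (hp2 : p ≠ 2)
    (h : K (cyc p × cyc p)) : K (E 3) := by
  induction p using Nat.strong_induction_on with
  | _ p ih =>
    have : Fact p.Prime := ⟨hp⟩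
    have hp3 : 3 ≤ p := by
      have := hp.two_le
      omega
    have hcard : Nat.card (ZMod p)ˣ = p - 1 := by
      rw [Nat.card_eq_fintype_card, ZMod.card_units]
    rcases Nat.eq_or_lt_of_le hp3 with h3 | h3
    · subst h3
      exact no_C33 hK h
    · by_cases h4 : 4 ∣ p - 1
      · obtain ⟨g, hg⟩ := IsCyclic.exists_ofOrder_eq_natCard (α := (ZMod p)ˣ)
        rw [hcard] at hg
        obtain ⟨k, hk⟩ := h4
        have hk0 : k ≠ 0 := by rintro rfl; omega
        have h5 : orderOf (g ^ k) = 4 := by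
          rw [orderOf_pow_of_dvd hk0 (by rw [hg, hk]; exact Dvd.intro_left 4 rfl), hg, hk]
          exact Nat.mul_div_left 4 (Nat.pos_of_ne_zero hk0)
        exact no_C44 hK (C44_iso hK (cycp_order hK h _ h5))
      · have hodd : p % 2 = 1 := by
          rcases hp.eq_two_or_odd with h | h
          · exact absurd h hp2
          · exact h
        set q := (p - 1) / 2 with hq
        have hq1 : p - 1 = 2 * q := by omega
        have hq2 : q ≠ 1 := by omega
        have hqp := Nat.minFac_prime hq2
        have hqd := Nat.minFac_dvd q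
        set r := q.minFac with hr
        have hr2 : r ≠ 2 := by
          intro h2
          rw [h2] at hqd
          apply h4
          rw [hq1]
          obtain ⟨c, hc⟩ := hqd
          exact ⟨c, by rw [hc]; ring⟩
        have hrd : r ∣ Nat.card (ZMod p)ˣ := by
          rw [hcard, hq1]
          exact Dvd.dvd.mul_left hqd 2
        have : Fact r.Prime := ⟨hqp⟩
        obtain ⟨u, hu⟩ := exists_prime_orderOf_dvd_card' r hrd
        have hrlt : r < p := by
          have h1 : r ≤ p - 1 := Nat.le_of_dvd (by omega) (hcard ▸ hrd)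
          omega
        exact ih r hrlt hqp hr2 (cycp_order hK h u hu)

end Pool.Agent.SHAF
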