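import Mathlib
import Pool.Agent.SHAF.Excl2

set_option autoImplicit false

/-!
Elementary abelian 2-groups.
-/

namespace Pool.Agent.SHAF

open Pool.Agent.SHA

variable {K : (G : Type) → [Group G] → Prop}

lemma normal_of_center {P : Type} [Group P] {W : Subgroup P} (hW : W ≤ Subgroup.center P) :
    W.Normal :=
  ⟨fun n hn g => by
    rw [Subgroup.mem_center_iff.mp (hW hn) g, mul_inv_cancel_right]
    exact hn⟩

/-- a finite group of exponent 2 is elementary abelian -/
theorem exists_E (Q : Type) [Group Q] [Finite Q] (h : ∀ x : Q, x * x = 1) :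
    ∃ n, Nat.card Q = 2 ^ n ∧ Nonempty (E n ≃* Q) := by
  have hinv : ∀ x : Q, x⁻¹ = x := fun x => inv_eq_of_mul_eq_one_left (h x)
  have hcomm : ∀ x y : Q, x * y = y * x := by
    intro x y
    have h1 : (x * y)⁻¹ = x * y := hinv _
    rw [mul_inv_rev, hinv, hinv] at h1
    exact h1.symm
  letI : CommGroup Q := { (inferInstance : Group Q) with mul_comm := hcomm }
  letI : Module (ZMod 2) (Additive Q) := AddCommGroup.zmodModule (n := 2) (by
    intro x
    rw [two_nsmul]
    exact h x)
  haveI : Module.Finite (ZMod 2) (Additive Q) := Module.Finite.of_finite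
  let d := Module.finrank (ZMod 2) (Additive Q)
  let b := Module.finBasis (ZMod 2) (Additive Q)
  have e1 : Additive Q ≃+ (Fin d → ZMod 2) := b.equivFun.toAddEquiv
  have e2 : Q ≃* Multiplicative (Fin d → ZMod 2) := AddEquiv.toMultiplicativeRight e1
  refine ⟨d, ?_, ⟨(eIso d).trans e2.symm⟩⟩
  rw [Nat.card_congr e2.toEquiv]
  have : Nat.card (Multiplicative (Fin d → ZMod 2)) = Nat.card (Fin d → ZMod 2) := rfl
  rw [this, Nat.card_eq_fintype_card, Fintype.card_fun, ZMod.card, Fintype.card_fin]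

lemma E_of_card {Q : Type} [Group Q] [Finite Q] (h : ∀ x : Q, x * x = 1) {n : ℕ}
    (hn : Nat.card Q = 2 ^ n) : Nonempty (E n ≃* Q) := by
  obtain ⟨m, hm, e⟩ := exists_E Q h
  have : m = n := Nat.pow_right_injective le_rfl (hm.symm.trans hn)
  exact this ▸ e

/-- a group of exponent 2 and order at least 8 in the class -/
theorem K_E3_of_exp (hK : SHAClosed K) {Q : Type} [Group Q] [Finite Q] (hQ : K Q)
    (h : ∀ x : Q, x * x = 1) (hc : 8 ≤ Nat.card Q) : K (E 3) := by
  obtain ⟨n, hn, ⟨e⟩⟩ := exists_E Q h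
  have h1 : 3 ≤ n := by
    by_contra hlt
    have : 2 ^ n < 2 ^ 3 := Nat.pow_lt_pow_right (by norm_num) (by omega)
    omega
  exact K_E_le hK h1 (iso hK e.symm hQ)

/-- the same for elements of a subgroup -/
theorem K_E3_of_sub (hK : SHAClosed K) {P : Type} [Group P] [Finite P] (hP : K P)
    (H : Subgroup P) (h : ∀ x ∈ H, x * x = 1) (hc : 8 ≤ Nat.card H) : K (E 3) :=
  K_E3_of_exp hK (hK.sub _ _ H.subtype H.subtype_injective hP)
    (fun x => Subtype.ext (h x.1 x.2)) hc

/-- quotient version -/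
theorem K_E3_of_quot (hK : SHAClosed K) {P : Type} [Group P] [Finite P] (hP : K P)
    (N : Subgroup P) [N.Normal] (h : ∀ x : P, x * x ∈ N) (hc : 8 ≤ N.index) : K (E 3) := by
  refine K_E3_of_exp hK (hK.quo _ _ (QuotientGroup.mk' N) (QuotientGroup.mk'_surjective N) hP)
    ?_ hc
  intro x
  obtain ⟨y, rfl⟩ := QuotientGroup.mk'_surjective N x
  rw [← map_mul]
  exact (QuotientGroup.eq_one_iff _).mpr (h y)

/-- a central four-group with elementary abelian quotient of order 4 -/
theorem K_E3_of_center (hK : SHAClosed K) {P : Type} [Group P] [Finite P] (hP : K P)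
    (W : Subgroup P) (hW : W ≤ Subgroup.center P) (hW2 : ∀ x ∈ W, x * x = 1)
    (hc : Nat.card W = 4) (hsq : ∀ x : P, x * x ∈ W) (hi : W.index = 4) : K (E 3) := by
  haveI : W.Normal := normal_of_center hW
  obtain ⟨e⟩ := E_of_card (Q := W) (n := 2) (fun x => Subtype.ext (hW2 x.1 x.2)) (by rw [hc]; norm_num)
  have h1 : ∀ x : P ⧸ W, x * x = 1 := by
    intro x
    obtain ⟨y, rfl⟩ := QuotientGroup.mk'_surjective W x
    rw [← map_mul]
    exact (QuotientGroup.eq_one_iff _).mpr (hsq y)
  obtain ⟨e'⟩ := E_of_card (Q := P ⧸ W) (n := 2) h1 (by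
    show W.index = _
    rw [hi]; norm_num)
  have h2 : K (E 2 →* E 2) := by
    refine K_hom_of_central hK hP (e'.symm.toMonoidHom.comp (QuotientGroup.mk' W)) ?_
      (W.subtype.comp e.toMonoidHom) ?_ ?_ ?_
    · exact e'.symm.surjective.comp (QuotientGroup.mk'_surjective W)
    · exact W.subtype_injective.comp e.injective
    · intro w g
      exact (Subgroup.mem_center_iff.mp (hW (e w).2) g).symm
    · intro w
      show e'.symm (QuotientGroup.mk' W (e w : P)) = 1
      have : QuotientGroup.mk' W (e w : P) = 1 := (QuotientGroup.eq_one_iff _).mpr (e w).2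
      rw [this, map_one]
  exact K_E_le hK (by norm_num) (K_E_mul hK 2 2 h2)

end Pool.Agent.SHAF
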