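import Mathlib
import Pool.Agent.SHAF.Elem

set_option autoImplicit false

/-!
Groups of order 16 with an element of order 8.
-/

namespace Pool.Agent.SHAF

open Pool.Agent.SHA

variable {K : (G : Type) → [Group G] → Prop}

section idx2

open Classical in
/-- power maps on a subgroup of index two, extended by a shift -/
noncomputable def ixF {P : Type} [Group P] (N : Subgroup P) (b : P) (i : ℕ) (c : P) (g : P) : P :=
  if g ∈ N then g ^ i else (g * b⁻¹) ^ i * c * b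

variable {P : Type} [Group P] {N : Subgroup P} (hi2 : N.index = 2)
  (hN : ∀ x ∈ N, ∀ y ∈ N, x * y = y * x) {b : P} (hb : b ∉ N)

lemma ixF_mem {i : ℕ} {c g : P} (h : g ∈ N) : ixF N b i c g = g ^ i := by
  simp [ixF, h]

include hi2 hb in
lemma mem_of_not {g : P} (h : g ∉ N) : g * b⁻¹ ∈ N := by
  rw [Subgroup.mul_mem_iff_of_index_two hi2]
  simp [h, hb]

include hi2 hb in
lemma ixF_mul {i : ℕ} {c n : P} (h : n ∈ N) : ixF N b i c (n * b) = n ^ i * c * b := by
  have : n * b ∉ N := by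
    rw [Subgroup.mul_mem_iff_of_index_two hi2]
    simp [h, hb]
  simp [ixF, this]

include hi2 hb in
lemma cases_idx2 (g : P) : g ∈ N ∨ ∃ n ∈ N, g = n * b := by
  by_cases h : g ∈ N
  · exact Or.inl h
  · exact Or.inr ⟨g * b⁻¹, mem_of_not hi2 hb h, by simp⟩

include hi2 hN hb in
lemma ixF_hom {i : ℕ} {c : P} (hb2 : (b * b) ^ i = b * b) (hc : c ∈ N) (hcb : b * c = c * b)
    (hc2 : c * c = 1) (x y : P) :
    ixF N b i c (x * y) = ixF N b i c x * ixF N b i c y := by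
  have hnorm : N.Normal := Subgroup.normal_of_index_eq_two hi2
  have hconj : ∀ n ∈ N, b * n * b⁻¹ ∈ N := fun n hn => hnorm.conj_mem n hn b
  have hbb : b * b ∈ N := by
    rw [Subgroup.mul_mem_iff_of_index_two hi2]
  have hmp : ∀ x ∈ N, ∀ y ∈ N, (x * y) ^ i = x ^ i * y ^ i := fun x hx y hy =>
    (show Commute x y from hN x hx y hy).mul_pow i
  rcases cases_idx2 hi2 hb x with hx | ⟨n, hn, rfl⟩ <;>
    rcases cases_idx2 hi2 hb y with hy | ⟨m, hm, rfl⟩
  · rw [ixF_mem (N.mul_mem hx hy), ixF_mem hx, ixF_mem hy, hmp x hx y hy]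
  · rw [← mul_assoc, ixF_mul hi2 hb (N.mul_mem hx hm), ixF_mem hx, ixF_mul hi2 hb hm, hmp x hx m hm]
    group
  · have e1 : n * b * y = n * (b * y * b⁻¹) * b := by group
    rw [e1, ixF_mul hi2 hb (N.mul_mem hn (hconj y hy)), ixF_mul hi2 hb hn, ixF_mem hy,
      hmp n hn _ (hconj y hy), conj_pow]
    have e2 := hN c hc (b * y ^ i * b⁻¹) (hconj _ (N.pow_mem hy i))
    calc n ^ i * (b * y ^ i * b⁻¹) * c * b = n ^ i * ((b * y ^ i * b⁻¹) * c) * b := by group
      _ = n ^ i * (c * (b * y ^ i * b⁻¹)) * b := by rw [e2]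
      _ = _ := by group
  · have e1 : n * b * (m * b) = n * (b * m * b⁻¹) * (b * b) := by group
    rw [e1, ixF_mem (N.mul_mem (N.mul_mem hn (hconj m hm)) hbb), ixF_mul hi2 hb hn,
      ixF_mul hi2 hb hm, hmp _ (N.mul_mem hn (hconj m hm)) _ hbb, hmp n hn _ (hconj m hm), hb2,
      conj_pow]
    have e2 := hN c hc (b * m ^ i * b⁻¹) (hconj _ (N.pow_mem hm i))
    calc n ^ i * (b * m ^ i * b⁻¹) * (b * b)
        = n ^ i * ((b * m ^ i * b⁻¹) * (c * c)) * (b * b) := by rw [hc2, mul_one]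
      _ = n ^ i * (((b * m ^ i * b⁻¹) * c) * c) * (b * b) := by group
      _ = n ^ i * ((c * (b * m ^ i * b⁻¹)) * c) * (b * b) := by rw [e2]
      _ = n ^ i * c * b * m ^ i * b⁻¹ * (c * b) * b := by group
      _ = n ^ i * c * b * m ^ i * b⁻¹ * (b * c) * b := by rw [hcb]
      _ = _ := by group

open Classical in
include hi2 hb hN in
lemma ixF_comp {i j : ℕ} {c d : P} (hd : d ∈ N) (hdi : d ^ i = d) (x : P) :
    ixF N b i c (ixF N b j d x) = if x ∈ N then x ^ (j * i) else (x * b⁻¹) ^ (j * i) * d * c * b := by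
  classical
  rcases cases_idx2 hi2 hb x with hx | ⟨n, hn, rfl⟩
  · rw [ixF_mem hx, ixF_mem (N.pow_mem hx j), if_pos hx, pow_mul]
  · have hnb : n * b ∉ N := by
      rw [Subgroup.mul_mem_iff_of_index_two hi2]
      simp [hn, hb]
    rw [ixF_mul hi2 hb hn, ixF_mul hi2 hb (N.mul_mem (N.pow_mem hn j) hd), if_neg hnb,
      (show Commute (n ^ j) d from hN _ (N.pow_mem hn j) _ hd).mul_pow, hdi, ← pow_mul]
    simp

end idx2

/-- groups of order 16 with an element of order 8 -/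
theorem ord16_a (hK : SHAClosed K) {P : Type} [Group P] [Finite P] (hP : K P)
    (hc : Nat.card P = 16) (a : P) (ha : orderOf a = 8) (hn : ¬ IsCyclic P) : K (E 3) := by
  classical
  set N := Subgroup.zpowers a with hNdef
  have hcN : Nat.card N = 8 := by rw [Nat.card_zpowers, ha]
  have hi2 : N.index = 2 := by
    have := N.card_mul_index
    rw [hcN, hc] at this
    omega
  have hnorm : N.Normal := Subgroup.normal_of_index_eq_two hi2
  have haN : a ∈ N := Subgroup.mem_zpowers a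
  have hN : ∀ x ∈ N, ∀ y ∈ N, x * y = y * x := by
    intro x hx y hy
    obtain ⟨i, rfl⟩ := Subgroup.mem_zpowers_iff.mp hx
    obtain ⟨j, rfl⟩ := Subgroup.mem_zpowers_iff.mp hy
    rw [← zpow_add, ← zpow_add, add_comm]
  have hz : ∀ m : ℤ, a ^ m = 1 ↔ (8 : ℤ) ∣ m := by
    intro m
    rw [← orderOf_dvd_iff_zpow_eq_one, ha]
    rfl
  have hne : N ≠ ⊤ := by
    intro h
    rw [h, Subgroup.index_top] at hi2
    omega
  obtain ⟨b0, hb0⟩ : ∃ b0, b0 ∉ N := by
    by_contra h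
    push Not at h
    exact hne (eq_top_iff.mpr fun x _ => h x)
  obtain ⟨k, hk⟩ := Subgroup.mem_zpowers_iff.mp (hnorm.conj_mem a haN b0)
  have hb02 : b0 * b0 ∈ N := by
    rw [Subgroup.mul_mem_iff_of_index_two hi2]
  obtain ⟨s, hs⟩ := Subgroup.mem_zpowers_iff.mp hb02
  have hkm : ∀ m : ℤ, b0 * a ^ m * b0⁻¹ = a ^ (k * m) := by
    intro m
    rw [← conj_zpow, ← hk, zpow_mul]
  have h1 : (8 : ℤ) ∣ (k - 1) * s := by
    rw [← hz]
    have e1 : b0 * a ^ s * b0⁻¹ = a ^ s := by rw [hs]; group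
    rw [hkm] at e1
    rw [sub_mul, zpow_sub, e1, one_mul, mul_inv_cancel]
  have h2 : (8 : ℤ) ∣ k * k - 1 := by
    rw [← hz, zpow_sub, ← hkm, zpow_one]
    have e1 : b0 * a ^ k * b0⁻¹ = (b0 * b0) * a * (b0 * b0)⁻¹ := by rw [hk]; group
    have e2 := hN _ hb02 a haN
    rw [e1, e2]
    group
  have hkodd : k % 2 = 1 := by
    rcases Int.emod_two_eq_zero_or_one k with h | h
    · exfalso
      obtain ⟨c, hc'⟩ := h2
      obtain ⟨d, hd⟩ := Int.dvd_of_emod_eq_zero h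
      rw [hd] at hc'
      have : 2 * d * (2 * d) = 2 * (2 * d * d) := by ring
      omega
    · exact h
  have hseven : s % 2 = 0 := by
    by_contra hodd
    have hs1 : s % 2 = 1 := by omega
    apply hn
    -- `b0` has order 16
    have hord : orderOf b0 = 2 ^ (3 + 1) := by
      apply orderOf_eq_prime_pow
      · rw [show (2 ^ 3 : ℕ) = 2 * 4 by norm_num, pow_mul, pow_two, ← hs, ← zpow_natCast, ← zpow_mul,
          hz]
        push_cast
        omega
      · rw [show (2 ^ (3 + 1) : ℕ) = 2 * 8 by norm_num, pow_mul, pow_two, ← hs, ← zpow_natCast,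
          ← zpow_mul, hz]
        push_cast
        omega
    exact isCyclic_of_orderOf_eq_card b0 (by rw [hord, hc]; norm_num)
  have h4 : ∃ j : ℤ, ∃ t : ℤ, (k + 1) * j + s = 4 * t := by
    obtain ⟨c, hc'⟩ := h1
    have hk4 : k % 4 = 1 ∨ k % 4 = 3 := by omega
    rcases hk4 with h | h
    · -- choose j = s / 2 or so
      obtain ⟨l, hl⟩ : ∃ l, k = 4 * l + 1 := ⟨k / 4, by omega⟩
      obtain ⟨r, hr⟩ : ∃ r, s = 2 * r := ⟨s / 2, by omega⟩
      refine ⟨-r, -l * r, ?_⟩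
      rw [hl, hr]
      ring
    · obtain ⟨l, hl⟩ : ∃ l, k = 4 * l + 3 := ⟨k / 4, by omega⟩
      rw [hl] at hc'
      have : (4 * l + 3 - 1) * s = 2 * ((2 * l + 1) * s) := by ring
      rw [this] at hc'
      have h5 : (2 * l + 1) * s = 4 * c := by omega
      refine ⟨0, ?_⟩
      refine ⟨c - l * (s / 2), ?_⟩
      obtain ⟨r, hr⟩ : ∃ r, s = 2 * r := ⟨s / 2, by omega⟩
      rw [hr] at h5 ⊢
      have : 2 * r / 2 = r := by omega
      rw [this]
      linarith
  obtain ⟨j, t, hjt⟩ := h4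
  set b := b0 * a ^ j with hb
  have hbN : b ∉ N := by
    rw [hb, Subgroup.mul_mem_iff_of_index_two hi2]
    simp [hb0, N.zpow_mem haN j]
  have hbb : b * b = a ^ (4 * t) := by
    rw [← hjt]
    calc b * b = (b0 * a ^ j * b0⁻¹) * (b0 * b0) * a ^ j := by rw [hb]; group
      _ = a ^ (k * j) * a ^ s * a ^ j := by rw [hkm, hs]
      _ = _ := by rw [← zpow_add, ← zpow_add]; congr 1; ring
  set z := a ^ 4 with hzdef
  have hzN : z ∈ N := N.pow_mem haN 4
  have hz4 : ∀ n : ℕ, n % 2 = 1 → z ^ n = z := by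
    intro n hn'
    rw [hzdef, ← pow_mul]
    have : a ^ (4 * n) = a ^ 4 := by
      rw [pow_eq_pow_iff_modEq, ha]
      unfold Nat.ModEq
      omega
    exact this
  have hzz : z * z = 1 := by
    rw [hzdef, ← pow_add, ← zpow_natCast, hz]
    norm_num
  have hzne : z ≠ 1 := by
    intro h
    rw [hzdef, ← zpow_natCast, hz] at h
    norm_num at h
  have hbz : b * z = z * b := by
    have e0 : z = a ^ (4 : ℤ) := by rw [hzdef]; norm_cast
    have e1 : b0 * z = z * b0 := by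
      have e2 := hkm 4
      rw [← e0] at e2
      have e3 : a ^ (k * 4) = z := by
        rw [e0, ← mul_inv_eq_one, ← zpow_neg, ← zpow_add, hz]
        omega
      rw [e3] at e2
      exact mul_inv_eq_iff_eq_mul.mp e2
    have e4 : a ^ j * z = z * a ^ j := hN _ (N.zpow_mem haN j) _ hzN
    rw [hb, mul_assoc, e4, ← mul_assoc, e1, mul_assoc]
  have hbbi : ∀ i : ℕ, i % 2 = 1 → (b * b) ^ i = b * b := by
    intro i hi
    rw [hbb, ← zpow_natCast, ← zpow_mul, ← mul_inv_eq_one, ← zpow_neg, ← zpow_add, hz]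
    obtain ⟨l, hl⟩ : ∃ l : ℕ, i = 2 * l + 1 := ⟨i / 2, by omega⟩
    rw [hl]
    push_cast
    exact ⟨t * l, by ring⟩
  have hbb1 : ∀ i : ℕ, i % 2 = 1 → ∀ x y, ixF N b i 1 (x * y) = ixF N b i 1 x * ixF N b i 1 y :=
    fun i hi => ixF_hom hi2 hN hbN (hbbi i hi) N.one_mem (by simp) (by simp)
  have hpow : ∀ (g : P) (i : ℕ), g ∈ N → i % 8 = 1 → g ^ i = g := by
    intro g i hg hi
    obtain ⟨m, rfl⟩ := Subgroup.mem_zpowers_iff.mp hg
    rw [← zpow_natCast, ← zpow_mul, ← mul_inv_eq_one, ← zpow_neg, ← zpow_add, hz]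
    obtain ⟨l, hl⟩ : ∃ l : ℕ, i = 8 * l + 1 := ⟨i / 8, by omega⟩
    rw [hl]
    push_cast
    exact ⟨m * l, by ring⟩
  have hid : ∀ (x : P) (n : ℕ) (c d : P), n % 8 = 1 → d * c = 1 →
      (if x ∈ N then x ^ n else (x * b⁻¹) ^ n * d * c * b) = x := by
    intro x n c d hn' hdc
    by_cases hx : x ∈ N
    · rw [if_pos hx, hpow x n hx hn']
    · rw [if_neg hx, hpow _ n (mem_of_not hi2 hbN hx) hn', mul_assoc _ d c, hdc]
      simp
  have fa : ∀ i c, ixF N b i c a = a ^ i := fun i c => ixF_mem haN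
  have fb : ∀ i c, ixF N b i c b = c * b := fun i c => by
    have := ixF_mul hi2 hbN (i := i) (c := c) N.one_mem
    simpa using this
  have hane : ∀ i j : ℕ, (i : ℤ) % 8 ≠ j % 8 → a ^ i ≠ a ^ j := by
    intro i j hij h
    rw [pow_eq_pow_iff_modEq, ha] at h
    unfold Nat.ModEq at h
    omega
  refine K_E3_fun hK hP (ixF N b 3 1) (ixF N b 5 1) (ixF N b 1 z) ?_ (hbb1 3 rfl) ?_ (hbb1 5 rfl)
    ?_ (ixF_hom hi2 hN hbN (hbbi 1 rfl) hzN hbz hzz) ?_ ?_ ?_ ?_ ?_ ?_ ?_ ?_ ?_ ?_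
  · intro x
    rw [ixF_comp hi2 hN hbN N.one_mem (by simp)]
    exact hid x _ _ _ rfl (by simp)
  · intro x
    rw [ixF_comp hi2 hN hbN N.one_mem (by simp)]
    exact hid x _ _ _ rfl (by simp)
  · intro x
    rw [ixF_comp hi2 hN hbN hzN (by simp)]
    exact hid x _ _ _ rfl hzz
  · intro x
    rw [ixF_comp hi2 hN hbN N.one_mem (by simp), ixF_comp hi2 hN hbN N.one_mem (by simp)]
  · intro x
    rw [ixF_comp hi2 hN hbN hzN (hz4 3 rfl), ixF_comp hi2 hN hbN N.one_mem (by simp)]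
    simp
  · intro x
    rw [ixF_comp hi2 hN hbN hzN (hz4 5 rfl), ixF_comp hi2 hN hbN N.one_mem (by simp)]
    simp
  · exact ⟨a, by rw [fa]; simpa using hane 3 1 (by norm_num)⟩
  · exact ⟨a, by rw [fa]; simpa using hane 5 1 (by norm_num)⟩
  · exact ⟨b, by rw [fb]; simpa using hzne⟩
  · exact ⟨a, by rw [fa, fa]; exact hane 3 5 (by norm_num)⟩
  · exact ⟨a, by rw [fa, fa]; exact hane 3 1 (by norm_num)⟩
  · exact ⟨a, by rw [fa, fa]; exact hane 5 1 (by norm_num)⟩
  · refine ⟨a, ?_⟩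
    rw [fa, fa, ixF_mem (N.pow_mem haN 5), ← pow_mul]
    exact hane 15 1 (by norm_num)

end Pool.Agent.SHAF
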