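import Mathlib
import Pool.Agent.SHAF.Ord16

set_option autoImplicit false

/-!
Groups of order 16 of exponent 4, and consequences for 2-groups.
-/

namespace Pool.Agent.SHAF

open Pool.Agent.SHA

variable {K : (G : Type) → [Group G] → Prop}

/-- Abelian groups of order 16 and exponent 4. -/
theorem ord16_ab (hK : SHAClosed K) {P : Type} [CommGroup P] [Finite P] (hP : K P)
    (hc : Nat.card P = 16) (h4 : ∀ x : P, x ^ 4 = 1) : K (E 3) := by
  let f : P →* P := powMonoidHom 2
  have hf : ∀ x, f x = x * x := fun x => pow_two x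
  have hker : ∀ x ∈ f.ker, x * x = 1 := fun x hx => by rw [← hf]; exact hx
  have hle : f.range ≤ f.ker := by
    rintro _ ⟨x, rfl⟩
    show f (f x) = 1
    rw [hf, hf, ← pow_two, ← pow_two, ← pow_mul]
    exact h4 x
  have h1 : Nat.card f.ker * f.ker.index = 16 := by rw [f.ker.card_mul_index, hc]
  have h2 : f.ker.index = Nat.card f.range := Subgroup.index_ker f
  have h3 : Nat.card f.range ∣ Nat.card f.ker := Subgroup.card_dvd_of_le hle
  by_cases h8 : 8 ≤ Nat.card f.ker
  · exact K_E3_of_sub hK hP f.ker hker h8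
  · have h5 : Nat.card f.ker ∣ 16 := ⟨_, h1.symm⟩
    have h6 : Nat.card f.ker = 4 ∧ f.ker.index = 4 := by
      have hpos : 0 < Nat.card f.ker := Nat.card_pos
      rw [← h2] at h3
      generalize Nat.card f.ker = u at *
      generalize f.ker.index = v at *
      have hu : u < 8 := by omega
      interval_cases u
      · rw [Nat.dvd_one] at h3; omega
      · have : v = 8 := by omega
        subst this
        exact absurd h3 (by norm_num)
      · omega
      · omega
      · omega
      · omega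
      · omega
    refine K_E3_of_center hK hP f.ker ?_ hker h6.1 ?_ h6.2
    · intro x _
      rw [Subgroup.mem_center_iff]
      exact fun g => mul_comm g x
    · intro x
      have : f x ∈ f.ker := hle ⟨x, rfl⟩
      rwa [hf] at this

/-- In an abelian group of order 8 and exponent 4 without elementary subgroup of order 8
there is exactly one nontrivial square. -/
lemma squares8 (hK : SHAClosed K) {D : Type} [Group D] [Finite D] (hD : K D)
    (hcomm : ∀ x y : D, x * y = y * x) (hc : Nat.card D = 8) (h4 : ∀ x : D, x ^ 4 = 1)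
    (hE : ¬ K (E 3)) : ∃ s : D, ∀ x : D, x * x = 1 ∨ x * x = s := by
  letI : CommGroup D := { (inferInstance : Group D) with mul_comm := hcomm }
  let f : D →* D := powMonoidHom 2
  have hf : ∀ x, f x = x * x := fun x => pow_two x
  have hker : ∀ x ∈ f.ker, x * x = 1 := fun x hx => by rw [← hf]; exact hx
  have hle : f.range ≤ f.ker := by
    rintro _ ⟨x, rfl⟩
    show f (f x) = 1
    rw [hf, hf, ← pow_two, ← pow_two, ← pow_mul]
    exact h4 x
  have h1 : Nat.card f.ker * f.ker.index = 8 := by rw [f.ker.card_mul_index, hc]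
  have h2 : f.ker.index = Nat.card f.range := Subgroup.index_ker f
  have h3 : Nat.card f.range ∣ Nat.card f.ker := Subgroup.card_dvd_of_le hle
  have h8 : ¬ 8 ≤ Nat.card f.ker := fun h8 => hE (K_E3_of_sub hK hD f.ker hker h8)
  have h6 : Nat.card f.range = 2 := by
    have hpos : 0 < Nat.card f.ker := Nat.card_pos
    rw [h2] at h1
    generalize Nat.card f.ker = u at *
    generalize Nat.card f.range = v at *
    have hu : u < 8 := by omega
    interval_cases u
    · rw [Nat.dvd_one] at h3; omega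
    · have : v = 4 := by omega
      subst this
      exact absurd h3 (by norm_num)
    · omega
    · omega
    · omega
    · omega
    · omega
  obtain ⟨s, hs1, hs2⟩ := (Nat.card_eq_two_iff' (1 : f.range)).mp h6
  refine ⟨s.1, fun x => ?_⟩
  by_cases hx : x * x = 1
  · exact Or.inl hx
  · right
    have h7 := hs2 ⟨f x, ⟨x, rfl⟩⟩ (by
      intro h
      apply hx
      have := congrArg Subtype.val h
      rw [← hf]
      exact this)
    have := congrArg Subtype.val h7
    rw [← hf]
    exact this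

/-- a group with an abelian subgroup of order 8 and index 2, exponent 4, has a center of
order at least 4 -/
lemma center_big (hK : SHAClosed K) {P : Type} [Group P] [Finite P] (hP : K P)
    (hc : Nat.card P = 16) (h4 : ∀ x : P, x ^ 4 = 1) (hE : ¬ K (E 3))
    (D : Subgroup P) (hDc : ∀ x ∈ D, ∀ y ∈ D, x * y = y * x) (hD8 : Nat.card D = 8) :
    2 < Nat.card (Subgroup.center P) := by
  have hi2 : D.index = 2 := by
    have := D.card_mul_index
    rw [hD8, hc] at this
    omega
  have hnorm : D.Normal := Subgroup.normal_of_index_eq_two hi2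
  have hne : D ≠ ⊤ := by
    intro h
    rw [h, Subgroup.index_top] at hi2
    omega
  obtain ⟨t, ht⟩ : ∃ t, t ∉ D := by
    by_contra h
    push Not at h
    exact hne (eq_top_iff.mpr fun x _ => h x)
  have htt : t * t ∈ D := by
    rw [Subgroup.mul_mem_iff_of_index_two hi2]
  obtain ⟨s, hs⟩ := squares8 hK (D := D) (hK.sub _ _ D.subtype D.subtype_injective hP)
    (fun x y => Subtype.ext (hDc x.1 x.2 y.1 y.2)) hD8 (fun x => Subtype.ext (h4 x.1)) hE
  have hs' : ∀ x ∈ D, x * x = 1 ∨ x * x = s.1 := by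
    intro x hx
    rcases hs ⟨x, hx⟩ with h | h
    · exact Or.inl (congrArg Subtype.val h)
    · exact Or.inr (congrArg Subtype.val h)
  have hconj : ∀ n ∈ D, t * n * t⁻¹ ∈ D := fun n hn => hnorm.conj_mem n hn t
  -- squares commute with t
  have hsq : ∀ x ∈ D, t * (x * x) * t⁻¹ = x * x := by
    intro x hx
    have e1 : t * (x * x) * t⁻¹ = (t * x * t⁻¹) * (t * x * t⁻¹) := by group
    rw [e1]
    rcases hs' x hx with h | h
    · rw [← e1, h]; group
    · rcases hs' _ (hconj x hx) with h' | h'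
      · rw [← e1] at h'
        have : x * x = 1 := by
          have h5 : t * (x * x) * t⁻¹ = t * 1 * t⁻¹ := by rw [h']; group
          exact mul_left_cancel (mul_right_cancel h5)
        rw [← e1, this]; group
      · rw [h', h]
  let δ : D →* P := MonoidHom.mk' (fun d => d.1⁻¹ * (t * d.1 * t⁻¹)) (by
    intro x y
    show (x.1 * y.1)⁻¹ * (t * (x.1 * y.1) * t⁻¹) = x.1⁻¹ * (t * x.1 * t⁻¹) * (y.1⁻¹ * (t * y.1 * t⁻¹))
    have e1 := hDc _ (D.inv_mem y.2) _ (D.mul_mem (D.inv_mem x.2) (hconj x.1 x.2))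
    have e0 := hDc _ (D.inv_mem y.2) _ (D.inv_mem x.2)
    calc (x.1 * y.1)⁻¹ * (t * (x.1 * y.1) * t⁻¹)
        = y.1⁻¹ * (x.1⁻¹ * (t * x.1 * t⁻¹)) * (t * y.1 * t⁻¹) := by group
      _ = (x.1⁻¹ * (t * x.1 * t⁻¹)) * y.1⁻¹ * (t * y.1 * t⁻¹) := by rw [e1]
      _ = _ := by group)
  have hδD : ∀ d : D, δ d ∈ D := fun d => D.mul_mem (D.inv_mem d.2) (hconj d.1 d.2)
  have hδ2 : ∀ d : D, δ d * δ d = 1 := by
    intro d
    rw [← map_mul]
    show (d.1 * d.1)⁻¹ * (t * (d.1 * d.1) * t⁻¹) = 1
    rw [hsq d.1 d.2, inv_mul_cancel]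
  have hδt : ∀ d : D, t * δ d * t⁻¹ = δ d := by
    intro d
    have e1 : t * δ d * t⁻¹ = (δ d)⁻¹ := by
      show t * (d.1⁻¹ * (t * d.1 * t⁻¹)) * t⁻¹ = (d.1⁻¹ * (t * d.1 * t⁻¹))⁻¹
      have e2 := hDc _ htt _ d.2
      calc t * (d.1⁻¹ * (t * d.1 * t⁻¹)) * t⁻¹
          = (t * d.1⁻¹ * t⁻¹) * ((t * t) * d.1) * (t * t)⁻¹ := by group
        _ = (t * d.1⁻¹ * t⁻¹) * (d.1 * (t * t)) * (t * t)⁻¹ := by rw [e2]
        _ = _ := by group
    rw [e1]
    exact inv_eq_of_mul_eq_one_left (hδ2 d)
  have hcen : ∀ x ∈ D, t * x * t⁻¹ = x → x ∈ Subgroup.center P := by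
    intro x hx hxt
    rw [Subgroup.mem_center_iff]
    intro g
    have e1 : t * x = x * t := mul_inv_eq_iff_eq_mul.mp hxt
    rcases cases_idx2 hi2 ht g with hg | ⟨n, hn, rfl⟩
    · exact hDc _ hg _ hx
    · rw [mul_assoc, e1, ← mul_assoc, hDc n hn x hx, mul_assoc]
  have hrange : δ.range ≤ Subgroup.center P := by
    rintro _ ⟨d, rfl⟩
    exact hcen _ (hδD d) (hδt d)
  have hker : (δ.ker.map D.subtype) ≤ Subgroup.center P := by
    rintro _ ⟨d, hd, rfl⟩
    apply hcen _ d.2
    have : d.1⁻¹ * (t * d.1 * t⁻¹) = 1 := hd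
    exact (inv_mul_eq_one.mp this).symm
  have c1 : Nat.card δ.range ≤ Nat.card (Subgroup.center P) :=
    Nat.le_of_dvd Nat.card_pos (Subgroup.card_dvd_of_le hrange)
  have c2 : Nat.card δ.ker ≤ Nat.card (Subgroup.center P) := by
    have := Nat.le_of_dvd Nat.card_pos (Subgroup.card_dvd_of_le hker)
    rwa [Subgroup.card_map_of_injective D.subtype_injective] at this
  have c3 : Nat.card δ.ker * Nat.card δ.range = 8 := by
    rw [← Subgroup.index_ker, Subgroup.card_mul_index, hD8]
  by_contra hlt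
  have : Nat.card δ.ker * Nat.card δ.range ≤ 2 * 2 := Nat.mul_le_mul (by omega) (by omega)
  omega

end Pool.Agent.SHAF
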