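import Mathlib
import Pool.Agent.SHAF.Ord16b

set_option autoImplicit false

/-!
Noncyclic groups of order 16, groups of order 32.
-/

namespace Pool.Agent.SHAF

open Pool.Agent.SHA

variable {K : (G : Type) → [Group G] → Prop}

lemma comm_of_index {P : Type} [Group P] [Finite P] (h : (Subgroup.center P).index ≤ 2)
    (x y : P) : x * y = y * x := by
  have h1 : Nat.card (P ⧸ Subgroup.center P) ∣ 2 := by
    have h2 : (Subgroup.center P).index ≠ 0 := Subgroup.FiniteIndex.index_ne_zero
    show (Subgroup.center P).index ∣ 2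
    generalize (Subgroup.center P).index = n at *
    interval_cases n
    · exact absurd rfl h2
    · norm_num
    · norm_num
  haveI : Fact (Nat.Prime 2) := ⟨Nat.prime_two⟩
  haveI : IsCyclic (P ⧸ Subgroup.center P) := isCyclic_of_card_dvd_prime h1
  exact commutative_of_cyclic_center_quotient (QuotientGroup.mk' (Subgroup.center P))
    (by rw [QuotientGroup.ker_mk']) x y

/-- groups of order 16 and exponent 4 -/
theorem ord16_b (hK : SHAClosed K) {P : Type} [Group P] [Finite P] (hP : K P)
    (hc : Nat.card P = 16) (h4 : ∀ x : P, x ^ 4 = 1) : K (E 3) := by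
  by_contra hE
  haveI : Fact (Nat.Prime 2) := ⟨Nat.prime_two⟩
  have hpg : IsPGroup 2 P := IsPGroup.of_card (n := 4) (by rw [hc]; norm_num)
  have hnc : ¬ ∀ x y : P, x * y = y * x := by
    intro h
    letI : CommGroup P := { (inferInstance : Group P) with mul_comm := h }
    exact hE (ord16_ab hK hP hc h4)
  set Z := Subgroup.center P with hZ
  have hmul : Nat.card Z * Z.index = 16 := by rw [Z.card_mul_index, hc]
  have hind : 2 < Z.index := by
    by_contra h
    exact hnc (comm_of_index (not_lt.mp h))
  have hnt : Nontrivial P := by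
    apply Finite.one_lt_card_iff_nontrivial.mp
    omega
  have hZ1 : 1 < Nat.card Z := by
    haveI := hpg.center_nontrivial
    exact Finite.one_lt_card
  have hcase : Nat.card Z = 2 ∨ Nat.card Z = 4 := by
    have hd : Nat.card Z ∣ 16 := ⟨_, hmul.symm⟩
    generalize Nat.card Z = u at *
    generalize Z.index = v at *
    have hu : u < 8 := by
      by_contra h
      have : 8 * 3 ≤ u * v := Nat.mul_le_mul (by omega) (by omega)
      omega
    interval_cases u <;> omega
  rcases hcase with h2 | h4c
  · -- center of order 2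
    have hcq : Nat.card (P ⧸ Z) = 8 := by
      show Z.index = 8
      rw [h2] at hmul
      omega
    haveI : Nontrivial (P ⧸ Z) := by
      apply Finite.one_lt_card_iff_nontrivial.mp
      omega
    have hq : IsPGroup 2 (P ⧸ Z) := IsPGroup.of_card (n := 3) (by rw [hcq]; norm_num)
    obtain ⟨w, hw⟩ := (Subgroup.nontrivial_iff_exists_ne_one _).mp hq.center_nontrivial
    obtain ⟨hw1, hw2⟩ := hw
    obtain ⟨x, rfl⟩ := QuotientGroup.mk'_surjective Z w
    have hxZ : x ∉ Z := fun h => hw2 ((QuotientGroup.eq_one_iff _).mpr h)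
    have hcomm : ∀ g : P, g * x * g⁻¹ * x⁻¹ ∈ Z := by
      intro g
      have h1 := Subgroup.mem_center_iff.mp hw1 (QuotientGroup.mk' Z g)
      rw [← map_mul, ← map_mul] at h1
      have h2 : QuotientGroup.mk' Z (g * x * g⁻¹ * x⁻¹) = 1 := by
        have e : g * x * g⁻¹ * x⁻¹ = (g * x) * (x * g)⁻¹ := by group
        rw [e, map_mul, map_inv, h1, mul_inv_cancel]
      exact (QuotientGroup.eq_one_iff _).mp h2
    let γ : P →* Z := MonoidHom.mk' (fun g => ⟨g * x * g⁻¹ * x⁻¹, hcomm g⟩) (by
      intro g h
      apply Subtype.ext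
      show g * h * x * (g * h)⁻¹ * x⁻¹ = g * x * g⁻¹ * x⁻¹ * (h * x * h⁻¹ * x⁻¹)
      have e1 := Subgroup.mem_center_iff.mp (hcomm h) g
      have e2 := Subgroup.mem_center_iff.mp (hcomm h) (g * x * g⁻¹ * x⁻¹)
      calc g * h * x * (g * h)⁻¹ * x⁻¹ = (g * (h * x * h⁻¹ * x⁻¹)) * x * g⁻¹ * x⁻¹ := by group
        _ = ((h * x * h⁻¹ * x⁻¹) * g) * x * g⁻¹ * x⁻¹ := by rw [e1]
        _ = (h * x * h⁻¹ * x⁻¹) * (g * x * g⁻¹ * x⁻¹) := by group
        _ = _ := e2.symm)
    have hkerx : ∀ g, g ∈ γ.ker ↔ g * x = x * g := by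
      intro g
      rw [MonoidHom.mem_ker]
      constructor
      · intro h
        have h1 : g * x * g⁻¹ * x⁻¹ = 1 := congrArg Subtype.val h
        have h2 : (g * x) * (x * g)⁻¹ = 1 := by rw [← h1]; group
        exact mul_inv_eq_one.mp h2
      · intro h
        apply Subtype.ext
        show g * x * g⁻¹ * x⁻¹ = 1
        rw [h]
        group
    have hidx : γ.ker.index = 2 := by
      have h1 : γ.ker.index ∣ 2 := by
        rw [Subgroup.index_ker, ← h2]
        exact Subgroup.card_subgroup_dvd_card _
      rcases (Nat.dvd_prime Nat.prime_two).mp h1 with h | h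
      · exfalso
        apply hxZ
        rw [Subgroup.index_eq_one] at h
        rw [hZ, Subgroup.mem_center_iff]
        intro g
        exact (hkerx g).mp (by rw [h]; trivial)
      · exact h
    set C := γ.ker with hCdef
    have hC8 : Nat.card C = 8 := by
      have := C.card_mul_index
      rw [hidx, hc] at this
      omega
    have hZC : Z ≤ C := by
      intro z hz
      rw [hkerx]
      exact (Subgroup.mem_center_iff.mp hz x).symm
    have hxC : x ∈ C := by rw [hkerx]
    have hCcomm : ∀ a b : C, a * b = b * a := by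
      have hlt : Z.subgroupOf C < Subgroup.center C := by
        refine lt_of_le_of_ne ?_ ?_
        · intro z hz
          rw [Subgroup.mem_center_iff]
          intro g
          exact Subtype.ext (Subgroup.mem_center_iff.mp hz g.1)
        · intro h
          have h3 : (⟨x, hxC⟩ : C) ∈ Subgroup.center C := by
            rw [Subgroup.mem_center_iff]
            intro g
            exact Subtype.ext ((hkerx g.1).mp g.2)
          rw [← h] at h3
          exact hxZ h3
      have h3 : Nat.card (Z.subgroupOf C) = 2 := by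
        rw [← h2]
        exact Nat.card_congr (Subgroup.subgroupOfEquivOfLe hZC).toEquiv
      have h5 : Nat.card (Z.subgroupOf C) ∣ Nat.card (Subgroup.center C) :=
        Subgroup.card_dvd_of_le hlt.le
      have h6 : Nat.card (Subgroup.center C) ≠ 2 := by
        intro h
        have := Subgroup.eq_of_le_of_card_ge hlt.le (by rw [h, h3])
        exact hlt.ne this
      have h7 := (Subgroup.center C).card_mul_index
      rw [hC8] at h7
      apply comm_of_index
      rw [h3] at h5
      obtain ⟨k, hk⟩ := h5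
      have hpos : 0 < Nat.card (Subgroup.center C) := Nat.card_pos
      by_contra hgt
      have hk2 : 2 ≤ k := by omega
      have : (2 * 2) * 3 ≤ Nat.card (Subgroup.center C) * (Subgroup.center C).index :=
        Nat.mul_le_mul (by omega) (by omega)
      omega
    have := center_big hK hP hc h4 hE C
      (fun a ha b hb => congrArg Subtype.val (hCcomm ⟨a, ha⟩ ⟨b, hb⟩)) hC8
    rw [← hZ, h2] at this
    omega
  · -- center of order 4
    have hi4 : Z.index = 4 := by
      rw [h4c] at hmul
      omega
    have hsq : ∀ x : P, x * x ∈ Z := by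
      intro x
      have h1 : orderOf (QuotientGroup.mk' Z x) ∣ 4 := by
        rw [← hi4]
        exact orderOf_dvd_natCard _
      have h3 : orderOf (QuotientGroup.mk' Z x) ≠ 4 := by
        intro h
        apply hnc
        haveI : IsCyclic (P ⧸ Z) := isCyclic_of_orderOf_eq_card (QuotientGroup.mk' Z x)
          (by rw [h]; exact hi4.symm)
        exact commutative_of_cyclic_center_quotient (QuotientGroup.mk' Z)
          (by rw [QuotientGroup.ker_mk'])
      have h5 : orderOf (QuotientGroup.mk' Z x) ∣ 2 := by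
        have h6 : orderOf (QuotientGroup.mk' Z x) ≤ 4 := Nat.le_of_dvd (by norm_num) h1
        generalize orderOf (QuotientGroup.mk' Z x) = n at *
        interval_cases n <;> omega
      have h6 : QuotientGroup.mk' Z (x * x) = 1 := by
        rw [← pow_two, map_pow]
        exact orderOf_dvd_iff_pow_eq_one.mp h5
      exact (QuotientGroup.eq_one_iff _).mp h6
    by_cases hz2 : ∀ z ∈ Z, z * z = 1
    · exact hE (K_E3_of_center hK hP Z le_rfl hz2 h4c hsq hi4)
    · push Not at hz2
      obtain ⟨f, hf, hff⟩ := hz2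
      have hof : orderOf f = 2 ^ (1 + 1) := by
        apply orderOf_eq_prime_pow
        · rw [pow_one, pow_two]
          exact hff
        · exact h4 f
      have hzf : Subgroup.zpowers f = Z := by
        refine Subgroup.eq_of_le_of_card_ge ((Subgroup.zpowers_le).mpr hf) ?_
        rw [Nat.card_zpowers, hof, h4c]
        norm_num
      have hle : Subgroup.zpowers (f * f) ≤ Z := (Subgroup.zpowers_le).mpr (Z.mul_mem hf hf)
      haveI : (Subgroup.zpowers (f * f)).Normal := normal_of_center hle
      refine hE (K_E3_of_quot hK hP (Subgroup.zpowers (f * f)) ?_ ?_)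
      · intro x
        have h1 := hsq x
        rw [← hzf] at h1
        obtain ⟨m, hm⟩ := Subgroup.mem_zpowers_iff.mp h1
        have h3 : (f : P) ^ (2 * m) = 1 := by
          rw [mul_comm, zpow_mul, hm]
          have := h4 x
          rw [show (2 : ℤ) = ((2 : ℕ) : ℤ) by rfl, zpow_natCast, ← pow_two, ← pow_mul]
          exact this
        rw [← orderOf_dvd_iff_zpow_eq_one, hof] at h3
        have h5 : m = 2 * (m / 2) := by
          norm_num at h3
          omega
        rw [Subgroup.mem_zpowers_iff]
        refine ⟨m / 2, ?_⟩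
        rw [← hm]
        nth_rewrite 2 [h5]
        rw [zpow_mul]
        congr 1
        exact (zpow_two f).symm
      · have h1 : Nat.card (Subgroup.zpowers (f * f)) ∣ 2 := by
          rw [Nat.card_zpowers]
          apply orderOf_dvd_of_pow_eq_one
          rw [← pow_two, ← pow_mul]
          exact h4 f
        have h3 := (Subgroup.zpowers (f * f)).card_mul_index
        rw [hc] at h3
        have h5 := Nat.le_of_dvd (by norm_num) h1
        by_contra hlt
        have : Nat.card (Subgroup.zpowers (f * f)) * (Subgroup.zpowers (f * f)).index ≤ 2 * 7 :=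
          Nat.mul_le_mul h5 (by omega)
        omega

/-- noncyclic groups of order 16 -/
theorem ord16 (hK : SHAClosed K) {P : Type} [Group P] [Finite P] (hP : K P)
    (hc : Nat.card P = 16) (hn : ¬ IsCyclic P) : K (E 3) := by
  by_cases h8 : ∃ a : P, orderOf a = 8
  · obtain ⟨a, ha⟩ := h8
    exact ord16_a hK hP hc a ha hn
  · refine ord16_b hK hP hc fun x => ?_
    have h1 : orderOf x ∣ 16 := hc ▸ orderOf_dvd_natCard x
    have h2 : orderOf x ≠ 8 := fun h => h8 ⟨x, h⟩
    have h3 : orderOf x ≠ 16 := fun h => hn (isCyclic_of_orderOf_eq_card x (by rw [h, hc]))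
    have h4 : orderOf x ∣ 4 := by
      have h5 : orderOf x ≤ 16 := Nat.le_of_dvd (by norm_num) h1
      generalize orderOf x = n at *
      interval_cases n <;> omega
    exact orderOf_dvd_iff_pow_eq_one.mp h4

/-- groups of order 32 -/
theorem ord32 (hK : SHAClosed K) {P : Type} [Group P] [Finite P] (hP : K P)
    (hc : Nat.card P = 32) : K (E 3) := by
  by_contra hE
  haveI : Fact (Nat.Prime 2) := ⟨Nat.prime_two⟩
  have hcyc : ∀ H : Subgroup P, Nat.card H = 16 → IsCyclic H := by
    intro H hH
    by_contra h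
    exact hE (ord16 hK (hK.sub _ _ H.subtype H.subtype_injective hP) hH h)
  obtain ⟨H, hH⟩ := Sylow.exists_subgroup_card_pow_prime 2 (n := 4) (G := P) (by rw [hc]; norm_num)
  have hH16 : Nat.card H = 16 := by rw [hH]; norm_num
  haveI := hcyc H hH16
  have hi2 : H.index = 2 := by
    have := H.card_mul_index
    rw [hH16, hc] at this
    omega
  haveI hnorm : H.Normal := Subgroup.normal_of_index_eq_two hi2
  obtain ⟨a', ha'⟩ := IsCyclic.exists_ofOrder_eq_natCard (α := H)
  set a : P := a'.1 with hadef
  have hao : orderOf a = 16 := by rw [hadef, Subgroup.orderOf_coe, ha', hH16]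
  have hza : Subgroup.zpowers a = H := by
    refine Subgroup.eq_of_le_of_card_ge ((Subgroup.zpowers_le).mpr a'.2) ?_
    rw [Nat.card_zpowers, hao, hH16]
  set z := a ^ 8 with hz
  have hzo : orderOf z = 2 := by
    rw [hz, orderOf_pow_of_dvd (by norm_num) (by rw [hao]; norm_num), hao]
  have haz : ∀ m : ℤ, a ^ m = 1 ↔ (16 : ℤ) ∣ m := by
    intro m
    rw [← orderOf_dvd_iff_zpow_eq_one, hao]
    rfl
  have hzc : z ∈ Subgroup.center P := by
    rw [Subgroup.mem_center_iff]
    intro g
    have h1 : g * a * g⁻¹ ∈ Subgroup.zpowers a := by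
      rw [hza]; exact hnorm.conj_mem a a'.2 g
    obtain ⟨k, hk⟩ := Subgroup.mem_zpowers_iff.mp h1
    have h2 : g * z * g⁻¹ = a ^ (k * 8) := by
      rw [hz, ← conj_pow, ← hk, zpow_mul]
      exact (zpow_natCast (a ^ k) 8).symm
    have h3 : g * z * g⁻¹ ≠ 1 := by
      intro h
      have : z = 1 := by
        have h5 : g * z * g⁻¹ = g * 1 * g⁻¹ := by rw [h]; group
        exact mul_left_cancel (mul_right_cancel h5)
      rw [this, orderOf_one] at hzo
      omega
    have h4 : g * z * g⁻¹ = z := by
      rw [h2] at h3 ⊢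
      rw [hz]
      rw [Ne, haz] at h3
      rw [← zpow_natCast, ← mul_inv_eq_one, ← zpow_neg, ← zpow_add, haz]
      push_cast
      omega
    exact mul_inv_eq_iff_eq_mul.mp h4
  haveI : (Subgroup.zpowers z).Normal := normal_of_center ((Subgroup.zpowers_le).mpr hzc)
  have hq16 : Nat.card (P ⧸ Subgroup.zpowers z) = 16 := by
    show (Subgroup.zpowers z).index = 16
    have := (Subgroup.zpowers z).card_mul_index
    rw [Nat.card_zpowers, hzo, hc] at this
    omega
  have hqc : IsCyclic (P ⧸ Subgroup.zpowers z) := by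
    by_contra h
    exact hE (ord16 hK (hK.quo _ _ (QuotientGroup.mk' _) (QuotientGroup.mk'_surjective _) hP) hq16 h)
  obtain ⟨gq, hgq⟩ := hqc.exists_generator
  obtain ⟨g, rfl⟩ := QuotientGroup.mk'_surjective _ gq
  have hgen : ∀ x : P, ∃ i j : ℤ, x = g ^ i * z ^ j := by
    intro x
    obtain ⟨i, hi⟩ := Subgroup.mem_zpowers_iff.mp (hgq (QuotientGroup.mk' _ x))
    rw [← map_zpow] at hi
    have h1 : (g ^ i)⁻¹ * x ∈ Subgroup.zpowers z := QuotientGroup.eq.mp hi
    obtain ⟨j, hj⟩ := Subgroup.mem_zpowers_iff.mp h1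
    exact ⟨i, j, by rw [hj]; group⟩
  obtain ⟨i, j, hij⟩ := hgen a
  have hcz : Commute (g ^ i) (z ^ j) :=
    (show Commute g z from Subgroup.mem_center_iff.mp hzc g).zpow_zpow i j
  have hz8 : z = g ^ (i * 8) := by
    rw [hz]
    rw [hij]
    rw [hcz.mul_pow]
    have : (z ^ j) ^ 8 = 1 := by
      rw [← zpow_natCast, ← zpow_mul]
      rw [← orderOf_dvd_iff_zpow_eq_one, hzo]
      push_cast
      exact ⟨j * 4, by ring⟩
    rw [this, mul_one, zpow_mul]
    exact (zpow_natCast (g ^ i) 8).symm
  have hPc : IsCyclic P := by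
    refine ⟨⟨g, fun x => ?_⟩⟩
    obtain ⟨i', j', hx⟩ := hgen x
    refine ⟨i' + i * 8 * j', ?_⟩
    show g ^ (i' + i * 8 * j') = x
    rw [zpow_add, zpow_mul, ← hz8, ← hx]
  obtain ⟨g', hg'⟩ := IsCyclic.exists_ofOrder_eq_natCard (α := P)
  rw [hc] at hg'
  exact hE (no_C32 hK (K_cyc_of hK hP g' hg'))

/-- 2-groups in the class -/
theorem two_groups (hK : SHAClosed K) (hE : ¬ K (E 3)) {P : Type} [Group P] [Finite P] (hP : K P)
    (hp : IsPGroup 2 P) : Nat.card P ≤ 8 ∨ (Nat.card P = 16 ∧ IsCyclic P) := by
  haveI : Fact (Nat.Prime 2) := ⟨Nat.prime_two⟩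
  obtain ⟨n, hn⟩ := IsPGroup.iff_card.mp hp
  by_cases h5 : 5 ≤ n
  · exfalso
    obtain ⟨H, hH⟩ := Sylow.exists_subgroup_card_pow_prime 2 (n := 5) (G := P)
      (by rw [hn]; exact pow_dvd_pow 2 h5)
    exact hE (ord32 hK (hK.sub _ _ H.subtype H.subtype_injective hP) (by rw [hH]; norm_num))
  · by_cases h4 : n = 4
    · right
      subst h4
      have : Nat.card P = 16 := by rw [hn]; norm_num
      refine ⟨this, ?_⟩
      by_contra h
      exact hE (ord16 hK hP this h)
    · left
      have : n ≤ 3 := by omega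
      rw [hn]
      calc 2 ^ n ≤ 2 ^ 3 := Nat.pow_le_pow_right (by norm_num) this
        _ = 8 := by norm_num

end Pool.Agent.SHAF
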