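import Mathlib
import Pool.Agent.SHAF.Ord16c

set_option autoImplicit false

/-!
Odd Sylow subgroups are cyclic.
-/

namespace Pool.Agent.SHAF

open Pool.Agent.SHA

variable {K : (G : Type) → [Group G] → Prop}

/-- reduction of cyclic groups -/
lemma cyc_surj {m n : ℕ} (h : m ∣ n) :
    Function.Surjective (AddMonoidHom.toMultiplicative (ZMod.castHom h (ZMod m)).toAddMonoidHom :
      cyc n →* cyc m) :=
  ZMod.castHom_surjective h

/-- abelian noncyclic p-groups -/
lemma ab_p_groups (hK : SHAClosed K) (hE : ¬ K (E 3)) {p : ℕ} (hp : p.Prime) (hp2 : p ≠ 2)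
    {P : Type} [CommGroup P] [Finite P] (hP : K P) (hpg : IsPGroup p P) : IsCyclic P := by
  haveI : Fact p.Prime := ⟨hp⟩
  obtain ⟨ι, hι, n, hn, ⟨e⟩⟩ := CommGroup.equiv_prod_multiplicative_zmod_of_finite P
  by_cases hs : ∃ i j : ι, i ≠ j
  · exfalso
    obtain ⟨i, j, hij⟩ := hs
    have hd : ∀ i, p ∣ n i := by
      intro i
      haveI : NeZero (n i) := ⟨by have := hn i; omega⟩
      haveI : Fintype ι := hι
      have h1 : Function.Surjective (fun x : P => e x i) := by
        intro y
        classical
        refine ⟨e.symm (Pi.mulSingle i y), ?_⟩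
        simp
      have hf : Function.Surjective ((Pi.evalMonoidHom (fun i => Multiplicative (ZMod (n i))) i).comp
          e.toMonoidHom) := h1
      have h2 : IsPGroup p (Multiplicative (ZMod (n i))) := hpg.of_surjective _ hf
      obtain ⟨k, hk⟩ := IsPGroup.iff_card.mp h2
      have h3 : Nat.card (Multiplicative (ZMod (n i))) = n i := by
        rw [Nat.card_congr Multiplicative.toAdd, Nat.card_zmod]
      rw [h3] at hk
      rcases Nat.eq_zero_or_pos k with hk0 | hk0
      · rw [hk0, pow_zero] at hk
        have := hn i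
        omega
      · rw [hk]
        exact dvd_pow_self p (by omega)
    let g : P →* cyc p × cyc p :=
      MonoidHom.prod
        ((AddMonoidHom.toMultiplicative (ZMod.castHom (hd i) (ZMod p)).toAddMonoidHom).comp
          ((Pi.evalMonoidHom (fun i => Multiplicative (ZMod (n i))) i).comp e.toMonoidHom))
        ((AddMonoidHom.toMultiplicative (ZMod.castHom (hd j) (ZMod p)).toAddMonoidHom).comp
          ((Pi.evalMonoidHom (fun i => Multiplicative (ZMod (n i))) j).comp e.toMonoidHom))
    have hg : Function.Surjective g := by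
      rintro ⟨x, y⟩
      classical
      obtain ⟨x', hx'⟩ := cyc_surj (hd i) x
      obtain ⟨y', hy'⟩ := cyc_surj (hd j) y
      refine ⟨e.symm (Pi.mulSingle i x' * Pi.mulSingle j y'), ?_⟩
      refine Prod.ext ?_ ?_
      · show (AddMonoidHom.toMultiplicative (ZMod.castHom (hd i) (ZMod p)).toAddMonoidHom)
          ((e (e.symm (Pi.mulSingle i x' * Pi.mulSingle j y'))) i) = x
        rw [MulEquiv.apply_symm_apply, Pi.mul_apply, Pi.mulSingle_eq_same,
          Pi.mulSingle_eq_of_ne hij, mul_one, hx']
      · show (AddMonoidHom.toMultiplicative (ZMod.castHom (hd j) (ZMod p)).toAddMonoidHom)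
          ((e (e.symm (Pi.mulSingle i x' * Pi.mulSingle j y'))) j) = y
        rw [MulEquiv.apply_symm_apply, Pi.mul_apply, Pi.mulSingle_eq_same,
          Pi.mulSingle_eq_of_ne hij.symm, one_mul, hy']
    exact hE (no_Cpp hK p hp hp2 (hK.quo _ _ g hg hP))
  · push Not at hs
    rcases isEmpty_or_nonempty ι with h0 | ⟨⟨i⟩⟩
    · haveI : Subsingleton P := e.toEquiv.subsingleton
      infer_instance
    · have hinj : Function.Injective ((Pi.evalMonoidHom (fun i => Multiplicative (ZMod (n i))) i).comp
          e.toMonoidHom) := by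
        intro x y hxy
        apply e.injective
        funext j
        rw [← hs i j]
        exact hxy
      exact isCyclic_of_injective _ hinj

/-- finite p-groups in the class, p odd -/
theorem odd_p_groups (hK : SHAClosed K) (hE : ¬ K (E 3)) {p : ℕ} (hp : p.Prime) (hp2 : p ≠ 2)
    {P : Type} [Group P] [Finite P] (hP : K P) (hpg : IsPGroup p P) : IsCyclic P := by
  haveI : Fact p.Prime := ⟨hp⟩
  induction hn : Nat.card P using Nat.strong_induction_on generalizing P with
  | _ n ih =>
    by_cases hc : ∀ x y : P, x * y = y * x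
    · letI : CommGroup P := { (inferInstance : Group P) with mul_comm := hc }
      exact ab_p_groups hK hE hp hp2 hP hpg
    · exfalso
      apply hc
      have hnt : Nontrivial P := by
        by_contra h
        rw [not_nontrivial_iff_subsingleton] at h
        exact hc fun x y => Subsingleton.elim _ _
      haveI := hpg.center_nontrivial
      have h1 : 1 < Nat.card (Subgroup.center P) := Finite.one_lt_card
      have h2 := (Subgroup.center P).card_mul_index
      have h3 : (Subgroup.center P).index < n := by
        rw [← hn, ← h2]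
        have : 0 < (Subgroup.center P).index := Nat.pos_of_ne_zero Subgroup.FiniteIndex.index_ne_zero
        nlinarith
      haveI : IsCyclic (P ⧸ Subgroup.center P) :=
        ih _ h3 (hK.quo _ _ (QuotientGroup.mk' _) (QuotientGroup.mk'_surjective _) hP)
          (hpg.to_quotient _) rfl
      exact commutative_of_cyclic_center_quotient (QuotientGroup.mk' (Subgroup.center P))
        (by rw [QuotientGroup.ker_mk'])

/-- odd order groups in the class are Z-groups -/
theorem odd_isZGroup (hK : SHAClosed K) (hE : ¬ K (E 3)) {G : Type} [Group G] [Finite G]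
    (hG : K G) (hodd : ¬ 2 ∣ Nat.card G) : IsZGroup G := by
  refine ⟨fun p hp P => ?_⟩
  haveI : Fact p.Prime := ⟨hp⟩
  by_cases h2 : p = 2
  · subst h2
    have h1 : Nat.card P = 1 := by
      obtain ⟨n, hn⟩ := IsPGroup.iff_card.mp P.2
      rcases Nat.eq_zero_or_pos n with h0 | h0
      · rw [hn, h0, pow_zero]
      · exfalso
        apply hodd
        have h3 : Nat.card P ∣ Nat.card G := Subgroup.card_subgroup_dvd_card _
        exact (dvd_pow_self 2 (by omega)).trans (hn ▸ h3)
    haveI : Subsingleton P := (Nat.card_eq_one_iff_unique.mp h1).1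
    infer_instance
  · exact odd_p_groups hK hE hp h2 (hK.sub _ _ P.1.subtype P.1.subtype_injective hG) P.2

/-- if all Sylow 2-subgroups are cyclic -/
theorem isZGroup_of_two (hK : SHAClosed K) (hE : ¬ K (E 3)) {G : Type} [Group G] [Finite G]
    (hG : K G) (P : Sylow 2 G) (hP : IsCyclic P) : IsZGroup G := by
  refine ⟨fun p hp Q => ?_⟩
  haveI : Fact p.Prime := ⟨hp⟩
  by_cases h2 : p = 2
  · subst h2
    obtain ⟨e⟩ : Nonempty (P ≃* Q) := ⟨Sylow.equiv P Q⟩
    exact isCyclic_of_surjective e e.surjective
  · exact odd_p_groups hK hE hp h2 (hK.sub _ _ Q.1.subtype Q.1.subtype_injective hG) Q.2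

end Pool.Agent.SHAF
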