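import Mathlib
import Pool.Agent.SHAF.Odd

set_option autoImplicit false

/-!
Groups of order 8 acting with a kernel of index two.
-/

namespace Pool.Agent.SHAF

open Pool.Agent.SHA

variable {K : (G : Type) → [Group G] → Prop}

/-- two commuting involutory automorphisms of `H` that are trivial modulo `M` -/
def TwoAuts (H : Type) [Group H] (M : Subgroup H) : Prop :=
  ∃ f g : H → H, (∀ x, f (f x) = x) ∧ (∀ x y, f (x * y) = f x * f y) ∧
    (∀ x, g (g x) = x) ∧ (∀ x y, g (x * y) = g x * g y) ∧ (∀ x, f (g x) = g (f x)) ∧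
    (∃ x, f x ≠ x) ∧ (∃ x, g x ≠ x) ∧ (∃ x, f x ≠ g x) ∧ (∀ x, f x * x⁻¹ ∈ M) ∧
    (∀ x, g x * x⁻¹ ∈ M)

lemma ixF_mod {P : Type} [Group P] {N : Subgroup P} (hi2 : N.index = 2) {b : P} (hb : b ∉ N)
    {i : ℕ} {c : P} (hc : c ∈ N) (x : P) : ixF N b i c x * x⁻¹ ∈ N := by
  rcases cases_idx2 hi2 hb x with hx | ⟨n, hn, rfl⟩
  · rw [ixF_mem hx]
    exact N.mul_mem (N.pow_mem hx i) (N.inv_mem hx)
  · rw [ixF_mul hi2 hb hn]
    have : n ^ i * c * b * (n * b)⁻¹ = n ^ i * c * n⁻¹ := by group
    rw [this]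
    exact N.mul_mem (N.mul_mem (N.pow_mem hn i) hc) (N.inv_mem hn)

lemma ixF_inv {P : Type} [Group P] {N : Subgroup P} (hi2 : N.index = 2)
    (hN : ∀ x ∈ N, ∀ y ∈ N, x * y = y * x) {b : P} (hb : b ∉ N)
    {i : ℕ} {c : P} (hc : c ∈ N) (hci : c ^ i = c) (hcc : c * c = 1)
    (hii : ∀ x ∈ N, x ^ (i * i) = x) (x : P) : ixF N b i c (ixF N b i c x) = x := by
  classical
  rw [ixF_comp hi2 hN hb hc hci]
  by_cases hx : x ∈ N
  · rw [if_pos hx, hii x hx]
  · rw [if_neg hx, hii _ (mem_of_not hi2 hb hx), mul_assoc _ c c, hcc]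
    simp

lemma ixF_swap {P : Type} [Group P] {N : Subgroup P} (hi2 : N.index = 2)
    (hN : ∀ x ∈ N, ∀ y ∈ N, x * y = y * x) {b : P} (hb : b ∉ N)
    {i j : ℕ} {c d : P} (hc : c ∈ N) (hd : d ∈ N) (hcj : c ^ j = c) (hdi : d ^ i = d) (x : P) :
    ixF N b i c (ixF N b j d x) = ixF N b j d (ixF N b i c x) := by
  rw [ixF_comp hi2 hN hb hd hdi, ixF_comp hi2 hN hb hc hcj, mul_comm i j, mul_assoc _ d c,
    mul_assoc _ c d, hN c hc d hd]

theorem ord8_auts {H : Type} [Group H] [Finite H] (h8 : Nat.card H = 8) (M : Subgroup H)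
    (hM : M.index = 2) : TwoAuts H M := by
  have hM4 : Nat.card M = 4 := by
    have := M.card_mul_index
    rw [hM, h8] at this
    omega
  haveI hnorm : M.Normal := Subgroup.normal_of_index_eq_two hM
  have hne : M ≠ ⊤ := by
    intro h
    rw [h, Subgroup.index_top] at hM
    omega
  obtain ⟨b, hb⟩ : ∃ b, b ∉ M := by
    by_contra h
    push Not at h
    exact hne (eq_top_iff.mpr fun x _ => h x)
  haveI : Fact (Nat.Prime 2) := ⟨Nat.prime_two⟩
  have hMc : ∀ x ∈ M, ∀ y ∈ M, x * y = y * x := by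
    have h1 : ∀ x y : M, x * y = y * x := by
      have : Nat.card M = 2 ^ 2 := by rw [hM4]; norm_num
      exact IsPGroup.commutative_of_card_eq_prime_sq this
    intro x hx y hy
    exact congrArg Subtype.val (h1 ⟨x, hx⟩ ⟨y, hy⟩)
  have hbb : b * b ∈ M := by
    rw [Subgroup.mul_mem_iff_of_index_two hM]
  have hconj : ∀ n ∈ M, b * n * b⁻¹ ∈ M := fun n hn => hnorm.conj_mem n hn b
  have hM4' : ∀ x ∈ M, x ^ 4 = 1 := by
    intro x hx
    have : (⟨x, hx⟩ : M) ^ Nat.card M = 1 := pow_card_eq_one'
    rw [hM4] at this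
    exact congrArg Subtype.val this
  have hsqM : ∀ x : H, x * x ∈ M := fun x => by
    rw [Subgroup.mul_mem_iff_of_index_two hM]
  have hfb : ∀ i c, ixF M b i c b = c * b := fun i c => by
    have := ixF_mul hM hb (i := i) (c := c) M.one_mem
    simpa using this
  by_cases h4 : ∃ a ∈ M, a * a ≠ 1
  · obtain ⟨a, haM, haa⟩ := h4
    have hao : orderOf a = 2 ^ (1 + 1) := by
      apply orderOf_eq_prime_pow
      · rw [pow_one, pow_two]; exact haa
      · exact hM4' a haM
    by_cases hb4 : (b * b) * (b * b) = 1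
    · have hza : Subgroup.zpowers a = M := by
        refine Subgroup.eq_of_le_of_card_ge ((Subgroup.zpowers_le).mpr haM) ?_
        rw [Nat.card_zpowers, hao, hM4]
        norm_num
      set z := a * a with hz
      have hzM : z ∈ M := M.mul_mem haM haM
      have hzz : z * z = 1 := by
        have := hM4' a haM
        rw [hz, ← pow_two, ← pow_two, ← pow_mul]
        exact this
      have hbz : b * z = z * b := by
        have h1 : b * a * b⁻¹ ∈ Subgroup.zpowers a := by rw [hza]; exact hconj a haM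
        obtain ⟨k, hk⟩ := Subgroup.mem_zpowers_iff.mp h1
        have hk' : ∀ m : ℤ, a ^ m = 1 ↔ (4 : ℤ) ∣ m := by
          intro m
          rw [← orderOf_dvd_iff_zpow_eq_one, hao]
          rfl
        have h2 : b * z * b⁻¹ = a ^ (k * 2) := by
          rw [zpow_mul, hk, zpow_two, hz]
          group
        have h3 : ¬ (4 : ℤ) ∣ k * 2 := by
          rw [← hk', ← h2]
          intro h
          apply haa
          have h5 : b * z * b⁻¹ = b * 1 * b⁻¹ := by rw [h]; group
          exact mul_left_cancel (mul_right_cancel h5)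
        have h4 : b * z * b⁻¹ = z := by
          rw [h2, hz, ← zpow_two, ← mul_inv_eq_one, ← zpow_neg, ← zpow_add, hk']
          omega
        exact mul_inv_eq_iff_eq_mul.mp h4
      have hb3 : (b * b) ^ 3 = b * b := by
        rw [pow_succ, pow_two, hb4, one_mul]
      have h9 : ∀ x ∈ M, x ^ (3 * 3) = x := by
        intro x hx
        have := hM4' x hx
        rw [show 3 * 3 = 4 * 2 + 1 by norm_num, pow_succ, pow_mul, this, one_pow, one_mul]
      have hz3 : z ^ 3 = z := by
        rw [pow_succ, pow_two, hzz, one_mul]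
      refine ⟨ixF M b 3 1, ixF M b 1 z, ?_, ?_, ?_, ?_, ?_, ?_, ?_, ?_, ?_, ?_⟩
      · exact ixF_inv hM hMc hb M.one_mem (by simp) (by simp) h9
      · exact ixF_hom hM hMc hb hb3 M.one_mem (by simp) (by simp)
      · exact ixF_inv hM hMc hb hzM (by simp) hzz (by simp)
      · exact ixF_hom hM hMc hb (by simp) hzM hbz hzz
      · exact ixF_swap hM hMc hb M.one_mem hzM (by simp) hz3
      · refine ⟨a, ?_⟩
        rw [ixF_mem haM]
        intro h
        apply haa
        rw [pow_succ, pow_two] at h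
        exact mul_right_cancel (h.trans (one_mul a).symm)
      · exact ⟨b, by rw [hfb]; simpa using haa⟩
      · refine ⟨a, ?_⟩
        rw [ixF_mem haM, ixF_mem haM]
        intro h
        apply haa
        rw [pow_succ, pow_two, pow_one] at h
        exact mul_right_cancel (h.trans (one_mul a).symm)
      · exact ixF_mod hM hb M.one_mem
      · exact ixF_mod hM hb hzM
    · -- cyclic of order 8
      have hbo : orderOf b = 2 ^ (2 + 1) := by
        apply orderOf_eq_prime_pow
        · intro h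
          apply hb4
          rw [← pow_two, ← pow_two, ← pow_mul]
          exact h
        · have := pow_card_eq_one' (x := b)
          rw [h8] at this
          exact this
      haveI hcyc : IsCyclic H := isCyclic_of_orderOf_eq_card b (by rw [hbo, h8]; norm_num)
      have hcomm : ∀ x y : H, x * y = y * x := fun x y => by
        letI := IsCyclic.commGroup (α := H)
        exact mul_comm x y
      have h8' : ∀ x : H, x ^ 8 = 1 := fun x => by
        have := pow_card_eq_one' (x := x)
        rwa [h8] at this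
      have hbp : ∀ i j : ℕ, i % 8 ≠ j % 8 → b ^ i ≠ b ^ j := by
        intro i j hij h
        rw [pow_eq_pow_iff_modEq, hbo] at h
        exact hij h
      refine ⟨fun x => x ^ 3, fun x => x ^ 5, ?_, ?_, ?_, ?_, ?_, ?_, ?_, ?_, ?_, ?_⟩
      · intro x
        show (x ^ 3) ^ 3 = x
        rw [← pow_mul, show 3 * 3 = 8 + 1 by norm_num, pow_succ, h8', one_mul]
      · intro x y
        exact (show Commute x y from hcomm x y).mul_pow 3
      · intro x
        show (x ^ 5) ^ 5 = x
        rw [← pow_mul, show 5 * 5 = 8 * 3 + 1 by norm_num, pow_succ, pow_mul, h8', one_pow, one_mul]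
      · intro x y
        exact (show Commute x y from hcomm x y).mul_pow 5
      · intro x
        show (x ^ 5) ^ 3 = (x ^ 3) ^ 5
        rw [← pow_mul, ← pow_mul]
      · exact ⟨b, by simpa using hbp 3 1 (by norm_num)⟩
      · exact ⟨b, by simpa using hbp 5 1 (by norm_num)⟩
      · exact ⟨b, hbp 3 5 (by norm_num)⟩
      · intro x
        show x ^ 3 * x⁻¹ ∈ M
        rw [pow_succ, pow_two, mul_inv_cancel_right]
        exact hsqM x
      · intro x
        show x ^ 5 * x⁻¹ ∈ M
        rw [pow_succ, mul_inv_cancel_right, show 4 = 2 * 2 by norm_num, pow_mul, pow_two (x ^ 2)]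
        exact hsqM _
  · push Not at h4
    by_cases hbc : ∀ m ∈ M, b * m = m * b
    · -- abelian
      obtain ⟨c, hc1⟩ : ∃ c : M, c ≠ 1 := by
        haveI : Nontrivial M := Finite.one_lt_card_iff_nontrivial.mp (by omega)
        exact exists_ne 1
      obtain ⟨d, hd1⟩ : ∃ d : M, d ≠ 1 ∧ d ≠ c := by
        by_contra h
        push Not at h
        have : Nat.card M ≤ 2 := by
          have hs : (Set.univ : Set M) ⊆ {1, c} := by
            intro x _
            by_cases hx : x = 1
            · exact Or.inl hx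
            · exact Or.inr (h x hx)
          have h1 := Set.ncard_le_ncard hs (Set.toFinite _)
          rw [Set.ncard_univ] at h1
          exact h1.trans (Set.ncard_insert_le _ _ |>.trans (by rw [Set.ncard_singleton]))
        omega
      refine ⟨ixF M b 1 c, ixF M b 1 d, ?_, ?_, ?_, ?_, ?_, ?_, ?_, ?_, ?_, ?_⟩
      · exact ixF_inv hM hMc hb c.2 (by simp) (h4 _ c.2) (by simp)
      · exact ixF_hom hM hMc hb (by simp) c.2 (hbc _ c.2) (h4 _ c.2)
      · exact ixF_inv hM hMc hb d.2 (by simp) (h4 _ d.2) (by simp)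
      · exact ixF_hom hM hMc hb (by simp) d.2 (hbc _ d.2) (h4 _ d.2)
      · exact ixF_swap hM hMc hb c.2 d.2 (by simp) (by simp)
      · exact ⟨b, by rw [hfb]; simpa using hc1⟩
      · exact ⟨b, by rw [hfb]; simpa using hd1.1⟩
      · refine ⟨b, ?_⟩
        rw [hfb, hfb]
        intro h
        exact hd1.2 (Subtype.ext (mul_right_cancel h).symm)
      · exact ixF_mod hM hb c.2
      · exact ixF_mod hM hb d.2
    · push Not at hbc
      obtain ⟨m, hm, hbm⟩ := hbc
      set m' := b * m * b⁻¹ with hm'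
      have hmM' : m' ∈ M := hconj m hm
      set z := m * m' with hz
      have hzM : z ∈ M := M.mul_mem hm hmM'
      have hbb' : ∀ x : H, b * (b * x * b⁻¹) * b⁻¹ = x := by
        intro x
        rcases cases_idx2 hM hb x with hx | ⟨n, hn, rfl⟩
        · have e := hMc _ hbb x hx
          calc b * (b * x * b⁻¹) * b⁻¹ = (b * b * x) * (b * b)⁻¹ := by group
            _ = (x * (b * b)) * (b * b)⁻¹ := by rw [e]
            _ = x := by group
        · have e := hMc _ hbb n hn
          calc b * (b * (n * b) * b⁻¹) * b⁻¹ = ((b * b) * n) * (b * b)⁻¹ * b := by group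
            _ = (n * (b * b)) * (b * b)⁻¹ * b := by rw [e]
            _ = n * b := by group
      have hbz : b * z = z * b := by
        have h1 : b * z * b⁻¹ = z := by
          calc b * z * b⁻¹ = (b * m * b⁻¹) * (b * (b * m * b⁻¹) * b⁻¹) := by rw [hz, hm']; group
            _ = m' * m := by rw [hbb']
            _ = z := hMc _ hmM' _ hm
        exact mul_inv_eq_iff_eq_mul.mp h1
      have hz1 : z ≠ 1 := by
        intro h
        apply hbm
        have h1 : m' = m := by
          have h2 : m' = m⁻¹ := eq_inv_of_mul_eq_one_right h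
          rw [h2]
          exact inv_eq_of_mul_eq_one_left (h4 m hm)
        exact mul_inv_eq_iff_eq_mul.mp h1
      have hzz := h4 z hzM
      refine ⟨fun x => b * x * b⁻¹, ixF M b 1 z, ?_, ?_, ?_, ?_, ?_, ?_, ?_, ?_, ?_, ?_⟩
      · exact hbb'
      · intro x y
        group
      · exact ixF_inv hM hMc hb hzM (by simp) hzz (by simp)
      · exact ixF_hom hM hMc hb (by simp) hzM hbz hzz
      · intro x
        rcases cases_idx2 hM hb x with hx | ⟨n, hn, rfl⟩
        · rw [ixF_mem hx]
          show b * x ^ 1 * b⁻¹ = ixF M b 1 z (b * x * b⁻¹)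
          rw [ixF_mem (hconj x hx)]
          simp
        · rw [ixF_mul hM hb hn]
          show b * (n ^ 1 * z * b) * b⁻¹ = ixF M b 1 z (b * (n * b) * b⁻¹)
          have e1 : b * (n * b) * b⁻¹ = (b * n * b⁻¹) * b := by group
          rw [e1, ixF_mul hM hb (hconj n hn)]
          calc b * (n ^ 1 * z * b) * b⁻¹ = b * n * z := by group
            _ = b * n * b⁻¹ * (b * z) := by group
            _ = b * n * b⁻¹ * (z * b) := by rw [hbz]
            _ = _ := by group
      · refine ⟨m, ?_⟩
        intro h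
        exact hbm (mul_inv_eq_iff_eq_mul.mp h)
      · exact ⟨b, by rw [hfb]; simpa using hz1⟩
      · refine ⟨m, ?_⟩
        rw [ixF_mem hm, pow_one]
        intro h
        exact hbm (mul_inv_eq_iff_eq_mul.mp h)
      · intro x
        show b * x * b⁻¹ * x⁻¹ ∈ M
        rcases cases_idx2 hM hb x with hx | ⟨n, hn, rfl⟩
        · exact M.mul_mem (hconj x hx) (M.inv_mem hx)
        · have e1 : b * (n * b) * b⁻¹ * (n * b)⁻¹ = (b * n * b⁻¹) * n⁻¹ := by group
          rw [e1]
          exact M.mul_mem (hconj n hn) (M.inv_mem hn)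
      · exact ixF_mod hM hb hzM

/-- the semidirect product with a group of order 8 acting through a quotient of order at most 2 -/
theorem no_semi8 (hK : SHAClosed K) {N H : Type} [Group N] [Group H] [Finite H]
    (φ : H →* MulAut N) (h : K (N ⋊[φ] H)) (h8 : Nat.card H = 8) (M : Subgroup H)
    (hM : M.index = 2) (hMk : ∀ m ∈ M, φ m = 1) (t : N → N) (t1 : ∀ n, t (t n) = n)
    (t2 : ∀ n n', t (n * n') = t n * t n') (t3 : ∃ n, t n ≠ n)
    (t4 : ∀ x n, t (φ x n) = φ x (t n)) : K (E 3) := by
  obtain ⟨f, g, f1, f2, g1, g2, hfg, nf, ng, nfg, fM, gM⟩ := ord8_auts h8 M hM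
  have lift : ∀ u : H → H, (∀ x, u x * x⁻¹ ∈ M) → ∀ x, φ (u x) = φ x := by
    intro u hu x
    have h1 := hMk _ (hu x)
    rw [map_mul, map_inv] at h1
    exact mul_inv_eq_one.mp h1
  refine K_E3_fun hK h (fun x => ⟨t x.left, x.right⟩) (fun x => ⟨x.left, f x.right⟩)
    (fun x => ⟨x.left, g x.right⟩) ?_ ?_ ?_ ?_ ?_ ?_ ?_ ?_ ?_ ?_ ?_ ?_ ?_ ?_ ?_ ?_
  · intro x
    exact SemidirectProduct.ext (t1 _) rfl
  · intro x y
    refine SemidirectProduct.ext ?_ rfl
    show t (x.left * φ x.right y.left) = t x.left * φ x.right (t y.left)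
    rw [t2, t4]
  · intro x
    exact SemidirectProduct.ext rfl (f1 _)
  · intro x y
    refine SemidirectProduct.ext ?_ (f2 _ _)
    show x.left * φ x.right y.left = x.left * φ (f x.right) y.left
    rw [lift f fM]
  · intro x
    exact SemidirectProduct.ext rfl (g1 _)
  · intro x y
    refine SemidirectProduct.ext ?_ (g2 _ _)
    show x.left * φ x.right y.left = x.left * φ (g x.right) y.left
    rw [lift g gM]
  · intro x
    rfl
  · intro x
    rfl
  · intro x
    exact SemidirectProduct.ext rfl (hfg _)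
  · obtain ⟨n, hn⟩ := t3
    exact ⟨⟨n, 1⟩, fun h => hn (congrArg SemidirectProduct.left h)⟩
  · obtain ⟨x, hx⟩ := nf
    exact ⟨⟨1, x⟩, fun h => hx (congrArg SemidirectProduct.right h)⟩
  · obtain ⟨x, hx⟩ := ng
    exact ⟨⟨1, x⟩, fun h => hx (congrArg SemidirectProduct.right h)⟩
  · obtain ⟨x, hx⟩ := nf
    exact ⟨⟨1, x⟩, fun h => hx (congrArg SemidirectProduct.right h).symm⟩
  · obtain ⟨x, hx⟩ := ng
    exact ⟨⟨1, x⟩, fun h => hx (congrArg SemidirectProduct.right h).symm⟩
  · obtain ⟨x, hx⟩ := nfg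
    exact ⟨⟨1, x⟩, fun h => hx (congrArg SemidirectProduct.right h)⟩
  · obtain ⟨n, hn⟩ := t3
    exact ⟨⟨n, 1⟩, fun h => hn (congrArg SemidirectProduct.left h)⟩

end Pool.Agent.SHAF
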