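import Mathlib
import Pool.Agent.SHAF.Ord8

set_option autoImplicit false

/-!
Nilpotent members.
-/

namespace Pool.Agent.SHAF

open Pool.Agent.SHA

variable {K : (G : Type) → [Group G] → Prop}

/-- a finite nilpotent group is the product of its Sylow 2-subgroup and a group of odd order -/
theorem nilp_split (F : Type) [Group F] [Finite F] [Group.IsNilpotent F] :
    ∃ (P : Sylow 2 F) (Q : Subgroup F), ¬ 2 ∣ Nat.card Q ∧ Nonempty (P × Q ≃* F) := by
  haveI : Fact (Nat.Prime 2) := ⟨Nat.prime_two⟩
  let P : Sylow 2 F := default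
  haveI hPn : P.Normal := inferInstance
  obtain ⟨Q, hQ⟩ := Subgroup.exists_right_complement'_of_coprime (N := P.1) P.card_coprime_index
  have hcardQ : Nat.card Q = P.1.index := by
    rw [← hQ.symm.index_eq_card]
  have hodd : ¬ 2 ∣ Nat.card Q := by
    rw [hcardQ]
    exact P.not_dvd_index
  refine ⟨P, Q, hodd, ?_⟩
  set C := Subgroup.centralizer (P.1 : Set F) with hC
  haveI : C.Normal := Subgroup.normal_centralizer
  -- the index of the centralizer is a power of 2
  have hidx : ∀ p : ℕ, p.Prime → p ≠ 2 → ¬ p ∣ C.index := by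
    intro p hp hp2 hdvd
    haveI : Fact p.Prime := ⟨hp⟩
    let S : Sylow p F := default
    haveI hSn : S.Normal := inferInstance
    have hSC : S.1 ≤ C := by
      intro x hx
      rw [hC, Subgroup.mem_centralizer_iff]
      intro y hy
      have hdisj : Disjoint P.1 S.1 := by
        apply IsPGroup.disjoint_of_ne 2 p (Ne.symm hp2) _ _ P.2 S.2
      exact Subgroup.commute_of_normal_of_disjoint P.1 S.1 hPn hSn hdisj y x hy hx
    exact S.not_dvd_index (hdvd.trans (Subgroup.index_dvd_of_le hSC))
  have hQC : ∀ y ∈ Q, y ∈ C := by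
    intro y hy
    have h1 : orderOf (QuotientGroup.mk' C y) ∣ C.index := orderOf_dvd_natCard _
    have h2 : orderOf (QuotientGroup.mk' C y) ∣ Nat.card Q := by
      refine (orderOf_map_dvd _ y).trans ?_
      exact Subgroup.orderOf_dvd_natCard Q hy
    have h3 : orderOf (QuotientGroup.mk' C y) = 1 := by
      by_contra hne
      have hp := Nat.minFac_prime hne
      have hd := Nat.minFac_dvd (orderOf (QuotientGroup.mk' C y))
      by_cases h2' : (orderOf (QuotientGroup.mk' C y)).minFac = 2
      · exact hodd ((h2' ▸ hd).trans h2)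
      · exact hidx _ hp h2' (hd.trans h1)
    exact (QuotientGroup.eq_one_iff y).mp (orderOf_eq_one_iff.mp h3)
  have hcomm : ∀ (a : P.1) (b : Q), Commute (P.1.subtype a) (Q.subtype b) := by
    intro a b
    exact (Subgroup.mem_centralizer_iff.mp (hQC b.1 b.2)) a.1 a.2
  exact ⟨MulEquiv.ofBijective (MonoidHom.noncommCoprod P.1.subtype Q.subtype hcomm) hQ⟩

/-- groups of order 8 times groups of odd order -/
theorem no_ord8_odd (hK : SHAClosed K) {P Q : Type} [Group P] [Finite P] [Group Q] [Finite Q]
    (h : K (P × Q)) (h8 : Nat.card P = 8) (hQ : IsCyclic Q) (hodd : ¬ 2 ∣ Nat.card Q)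
    (h1 : Nat.card Q ≠ 1) : K (E 3) := by
  haveI : Fact (Nat.Prime 2) := ⟨Nat.prime_two⟩
  obtain ⟨M, hM⟩ := Sylow.exists_subgroup_card_pow_prime 2 (n := 2) (G := P) (by rw [h8]; norm_num)
  have hM2 : M.index = 2 := by
    have := M.card_mul_index
    rw [hM, h8] at this
    omega
  have e : P × Q ≃* (Q ⋊[(1 : P →* MulAut Q)] P) := MulEquiv.prodComm.trans
    SemidirectProduct.mulEquivProd.symm
  letI := IsCyclic.commGroup (α := Q)
  refine no_semi8 hK (1 : P →* MulAut Q) (iso hK e h) h8 M hM2 (fun _ _ => rfl) (fun x => x⁻¹)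
    (fun x => inv_inv x) (fun x y => mul_inv x y) ?_ (fun _ _ => rfl)
  by_contra hall
  push Not at hall
  haveI : Nontrivial Q := Finite.one_lt_card_iff_nontrivial.mp (by
    have : 0 < Nat.card Q := Nat.card_pos
    omega)
  obtain ⟨x, hx⟩ := exists_ne (1 : Q)
  have h2 : orderOf x = 2 := by
    apply orderOf_eq_prime _ hx
    rw [pow_two]
    nth_rewrite 1 [← hall x]
    simp
  exact hodd (h2 ▸ orderOf_dvd_natCard x)

/-- a group of order 4 that is not cyclic -/
lemma klein_of {P : Type} [Group P] [Finite P] (h4 : Nat.card P = 4) (hn : ¬ IsCyclic P) :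
    Nonempty (E 2 ≃* P) := by
  apply E_of_card _ (by rw [h4]; norm_num)
  intro x
  have h1 : orderOf x ∣ 4 := h4 ▸ orderOf_dvd_natCard x
  have h2 : orderOf x ≠ 4 := fun h => hn (isCyclic_of_orderOf_eq_card x (by rw [h, h4]))
  have h3 : orderOf x ∣ 2 := by
    have h6 : orderOf x ≤ 4 := Nat.le_of_dvd (by norm_num) h1
    generalize orderOf x = n at *
    interval_cases n <;> omega
  rw [← pow_two]
  exact orderOf_dvd_iff_pow_eq_one.mp h3

/-- `E 2` and `V4` -/
def e2V4 : E 2 ≃* V4 where
  toFun x := (x 0, x 1)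
  invFun x := ![x.1, x.2]
  left_inv x := by funext i; fin_cases i <;> rfl
  right_inv x := rfl
  map_mul' x y := rfl

/-- cyclic groups -/
lemma cyc_iso {Q : Type} [Group Q] [Finite Q] (hQ : IsCyclic Q) :
    Nonempty (cyc (Nat.card Q) ≃* Q) := by
  haveI : NeZero (Nat.card Q) := ⟨Nat.card_pos.ne'⟩
  refine ⟨mulEquivOfCyclicCardEq ?_⟩
  rw [Nat.card_congr Multiplicative.toAdd, Nat.card_zmod]

/-- nilpotent members of the class -/
theorem nilp_members (hK : SHAClosed K) (hE : ¬ K (E 3)) {F : Type} [Group F] [Finite F]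
    [Group.IsNilpotent F] (hF : K F) (hn : ¬ IsCyclic F) :
    (Nat.card F = 8) ∨ Nonempty (F ≃* V4) ∨ Nonempty (F ≃* V4 × cyc 3) := by
  haveI : Fact (Nat.Prime 2) := ⟨Nat.prime_two⟩
  obtain ⟨P, Q, hodd, ⟨e⟩⟩ := nilp_split F
  have hKP : K P := hK.sub _ _ P.1.subtype P.1.subtype_injective hF
  have hKQ : K Q := hK.sub _ _ Q.subtype Q.subtype_injective hF
  have hPn : ¬ IsCyclic P := by
    intro hP
    apply hn
    haveI := isZGroup_of_two hK hE hF P hP
    infer_instance
  haveI : Group.IsNilpotent Q := inferInstance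
  haveI hQZ : IsZGroup Q := odd_isZGroup hK hE hKQ hodd
  have hQc : IsCyclic Q := inferInstance
  have hKPQ : K (P × Q) := iso hK e.symm hF
  have hcard : Nat.card F = Nat.card P * Nat.card Q := by
    rw [← Nat.card_congr e.toEquiv, Nat.card_prod]
  have hP8 : Nat.card P = 4 ∨ Nat.card P = 8 := by
    rcases two_groups hK hE hKP P.2 with h | h
    · obtain ⟨n, hn'⟩ := IsPGroup.iff_card.mp P.2
      have h0 : n ≠ 0 := by
        rintro rfl
        apply hPn
        haveI : Subsingleton P := (Nat.card_eq_one_iff_unique.mp hn').1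
        infer_instance
      have h1 : n ≠ 1 := by
        rintro rfl
        exact hPn (isCyclic_of_prime_card (p := 2) (by rw [hn', pow_one]))
      have h4 : n ≤ 3 := by
        by_contra hlt
        have : 2 ^ 4 ≤ 2 ^ n := Nat.pow_le_pow_right (by norm_num) (by omega)
        rw [← hn'] at this
        omega
      interval_cases n
      · omega
      · omega
      · left; rw [hn']; norm_num
      · right; rw [hn']; norm_num
    · exact absurd h.2 hPn
  rcases hP8 with h4 | h8
  · right
    obtain ⟨e4⟩ := klein_of h4 hPn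
    obtain ⟨eQ⟩ := cyc_iso hQc
    set m := Nat.card Q with hm
    have e' : F ≃* V4 × cyc m := e.symm.trans (MulEquiv.prodCongr (e4.symm.trans e2V4) eQ.symm)
    have hKV : K (V4 × cyc m) := iso hK e' hF
    by_cases h1 : m = 1
    · left
      have hs : Subsingleton (cyc m) := by rw [h1]; exact inferInstanceAs (Subsingleton (ZMod 1))
      exact ⟨e'.trans
        { toFun := fun x => x.1
          invFun := fun x => (x, 1)
          left_inv := fun x => Prod.ext rfl (Subsingleton.elim _ _)
          right_inv := fun x => rfl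
          map_mul' := fun x y => rfl }⟩
    · by_cases h3 : m = 3
      · right
        rw [h3] at e'
        exact ⟨e'⟩
      · exfalso
        have hm5 : 5 ≤ m := by
          have : 0 < m := Nat.card_pos
          omega
        have hcop : Nat.Coprime 2 m := (Nat.Prime.coprime_iff_not_dvd Nat.prime_two).mpr hodd
        let u : (ZMod m)ˣ := ZMod.unitOfCoprime 2 hcop
        have hu : (u : ZMod m) = 2 := by simp [u]
        have hcast : ∀ k : ℕ, 0 < k → k < m → ((k : ℕ) : ZMod m) ≠ 0 := by
          intro k hk1 hk2 h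
          rw [ZMod.natCast_eq_zero_iff] at h
          exact absurd (Nat.le_of_dvd hk1 h) (by omega)
        refine hE (no_V4_Cm hK (by omega) u ?_ ?_ hKV)
        · intro h
          have h' := congrArg Units.val h
          rw [hu, Units.val_one] at h'
          apply hcast 1 (by norm_num) (by omega)
          have : (1 : ZMod m) = 2 - 1 := by ring
          rw [Nat.cast_one, this, h', sub_self]
        · intro h
          have h' := congrArg Units.val h
          rw [hu, Units.val_neg, Units.val_one] at h'
          apply hcast 3 (by norm_num) (by omega)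
          have : ((3 : ℕ) : ZMod m) = 2 + 1 := by norm_num
          rw [this, h', neg_add_cancel]
  · left
    by_cases h1 : Nat.card Q = 1
    · rw [hcard, h8, h1]
    · exact absurd (no_ord8_odd hK hKPQ h8 hQc hodd h1) hE

end Pool.Agent.SHAF
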