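import Mathlib
import Pool.Agent.SHAF.Nilp
import Pool.Agent.SHAF.GoodNT

set_option autoImplicit false

/-!
Cyclic members have admitted order.
-/

namespace Pool.Agent.SHAF

open Pool.Agent.SHA

variable {K : (G : Type) → [Group G] → Prop}

lemma K_cyc_dvd (hK : SHAClosed K) {m n : ℕ} (h : m ∣ n) (hn : K (cyc n)) : K (cyc m) :=
  hK.quo _ _ _ (cyc_surj h) hn

/-- the Chinese remainder theorem -/
lemma K_cyc_mul (hK : SHAClosed K) {a b : ℕ} (hab : a.Coprime b) (h : K (cyc (a * b))) :
    K (cyc a × cyc b) := by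
  refine iso hK ?_ h
  exact
    { toFun := fun x => (Multiplicative.ofAdd (ZMod.chineseRemainder hab (Multiplicative.toAdd x)).1,
        Multiplicative.ofAdd (ZMod.chineseRemainder hab (Multiplicative.toAdd x)).2)
      invFun := fun y => Multiplicative.ofAdd ((ZMod.chineseRemainder hab).symm
        (Multiplicative.toAdd y.1, Multiplicative.toAdd y.2))
      left_inv := fun x => by simp
      right_inv := fun y => by simp
      map_mul' := fun x y => by
        refine Prod.ext ?_ ?_ <;> apply Multiplicative.toAdd.injective <;> simp }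

lemma K_units_mul (hK : SHAClosed K) {a b : ℕ} (h : K (cyc a × cyc b)) :
    K ((ZMod a)ˣ × (ZMod b)ˣ) :=
  K_prod_sub hK (K_prodAut hK h) (unitsAut a) (unitsAut_injective a) (unitsAut b)
    (unitsAut_injective b)

/-- orders of noncyclic abelian members -/
lemma ab_card (hK : SHAClosed K) (hE : ¬ K (E 3)) {A : Type} [CommGroup A] [Finite A]
    (hA : K A) (hn : ¬ IsCyclic A) : Nat.card A = 4 ∨ Nat.card A = 8 ∨ Nat.card A = 12 := by
  have hV : Nat.card V4 = 4 := by
    rw [Nat.card_eq_fintype_card]; rfl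
  rcases nilp_members hK hE hA hn with h | ⟨⟨e⟩⟩ | ⟨⟨e⟩⟩
  · exact Or.inr (Or.inl h)
  · left
    rw [Nat.card_congr e.toEquiv, hV]
  · right; right
    rw [Nat.card_congr e.toEquiv, Nat.card_prod, hV, Nat.card_congr Multiplicative.toAdd,
      Nat.card_zmod]

theorem cyc_good (hK : SHAClosed K) (hE : ¬ K (E 3)) (n : ℕ) (hn : 0 < n) (h : K (cyc n)) :
    Good n := by
  induction n using Nat.strong_induction_on with
  | _ n ih =>
    -- coprime factors
    have caseA : ∀ a b : ℕ, 2 < a → 2 < b → a.Coprime b → n = a * b → Good n := by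
      intro a b ha hb hab hnab
      have h1 : K (cyc a × cyc b) := K_cyc_mul hK hab (hnab ▸ h)
      have h2 := K_units_mul hK h1
      haveI : NeZero a := ⟨by omega⟩
      haveI : NeZero b := ⟨by omega⟩
      haveI : Fact (2 < a) := ⟨ha⟩
      haveI : Fact (2 < b) := ⟨hb⟩
      have hca : Nat.card (ZMod a)ˣ = a.totient := by
        rw [Nat.card_eq_fintype_card, ZMod.card_units_eq_totient]
      have hcb : Nat.card (ZMod b)ˣ = b.totient := by
        rw [Nat.card_eq_fintype_card, ZMod.card_units_eq_totient]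
      have hnc : ¬ IsCyclic ((ZMod a)ˣ × (ZMod b)ˣ) := by
        intro hc
        have h3 := coprime_card_of_isCyclic_prod (ZMod a)ˣ (ZMod b)ˣ
        rw [hca, hcb] at h3
        have h4 := Nat.dvd_gcd (even_iff_two_dvd.mp (Nat.totient_even ha))
          (even_iff_two_dvd.mp (Nat.totient_even hb))
        rw [h3] at h4
        omega
      have h3 := ab_card hK hE h2 hnc
      rw [Nat.card_prod, hca, hcb] at h3
      rcases coprime_pairs a b ha hb hab h3 with h4 | h4
      · exfalso
        rw [hnab, h4] at h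
        exact hE (no_C8_Cm hK (by norm_num) (K_cyc_mul hK (a := 8) (b := 3) (by norm_num) h))
      · rw [hnab]; exact h4
    by_cases hodd : ∃ p, p.Prime ∧ p ≠ 2 ∧ p ∣ n
    · obtain ⟨p, hp, hp2, hpn⟩ := hodd
      haveI : Fact p.Prime := ⟨hp⟩
      obtain ⟨k, b, hb, hkb⟩ : ∃ k b, ¬ p ∣ b ∧ n = p ^ k * b := by
        obtain ⟨k, b, hb, hkb⟩ := Nat.exists_eq_pow_mul_and_not_dvd hn.ne' p hp.ne_one
        exact ⟨k, b, hb, hkb⟩
      have hk : k ≠ 0 := by
        rintro rfl
        rw [pow_zero, one_mul] at hkb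
        exact hb (hkb ▸ hpn)
      have hp3 : 3 ≤ p := by
        have := hp.two_le
        omega
      have hcop : Nat.Coprime (p ^ k) b := Nat.Coprime.pow_left k
        ((Nat.Prime.coprime_iff_not_dvd hp).mpr hb)
      have hpk : 2 < p ^ k := by
        have : p ^ 1 ≤ p ^ k := Nat.pow_le_pow_right (by omega) (by omega)
        rw [pow_one] at this
        omega
      by_cases hb2 : 2 < b
      · exact caseA _ _ hpk hb2 hcop hkb
      · obtain ⟨j, rfl⟩ : ∃ j, k = j + 1 := ⟨k - 1, by omega⟩
        have h1 : K (cyc (p ^ (j + 1))) := K_cyc_dvd hK ⟨b, hkb⟩ h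
        have h2 := K_units hK h1
        haveI : IsCyclic (ZMod (p ^ (j + 1)))ˣ := ZMod.isCyclic_units_of_prime_pow p hp hp2 (j + 1)
        haveI : NeZero (p ^ (j + 1)) := ⟨by positivity⟩
        have hc : Nat.card (ZMod (p ^ (j + 1)))ˣ = p ^ j * (p - 1) := by
          rw [Nat.card_eq_fintype_card, ZMod.card_units_eq_totient,
            Nat.totient_prime_pow_succ hp]
        obtain ⟨g, hg⟩ := IsCyclic.exists_ofOrder_eq_natCard (α := (ZMod (p ^ (j + 1)))ˣ)
        rw [hc] at hg
        have h3 : K (cyc (p ^ j * (p - 1))) := K_cyc_of hK h2 g hg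
        have hb0 : b ≠ 0 := by
          rintro rfl
          rw [mul_zero] at hkb
          omega
        have hlt : p ^ j * (p - 1) < n := by
          rw [hkb, pow_succ]
          have h4 : 0 < p ^ j := pow_pos hp.pos j
          calc p ^ j * (p - 1) < p ^ j * p := Nat.mul_lt_mul_of_pos_left (by omega) h4
            _ ≤ p ^ j * p * b := Nat.le_mul_of_pos_right _ (by omega)
        have hpos : 0 < p ^ j * (p - 1) := Nat.mul_pos (pow_pos hp.pos j) (by omega)
        have h4 := good_units_imp p j hp hp2 (ih _ hlt hpos h3)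
        have hb12 : b = 1 ∨ b = 2 := by omega
        rcases hb12 with rfl | rfl
        · exact Or.inr ⟨_, h4, Or.inl (by rw [hkb, mul_one])⟩
        · exact Or.inr ⟨_, h4, Or.inr (by rw [hkb, mul_comm])⟩
    · -- powers of two
      push Not at hodd
      have h2n : ∃ k, n = 2 ^ k := by
        refine ⟨_, Nat.eq_prime_pow_of_unique_prime_dvd hn.ne' ?_⟩
        intro d hd hdn
        by_contra hd2
        exact hodd d hd hd2 hdn
      obtain ⟨k, rfl⟩ := h2n
      have hk : k < 5 := by
        by_contra hlt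
        exact hE (no_C32 hK (K_cyc_dvd hK (m := 32)
          (by rw [show 32 = 2 ^ 5 by norm_num]; exact pow_dvd_pow 2 (by omega)) h))
      left
      interval_cases k <;> decide

end Pool.Agent.SHAF
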