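import Mathlib
import Pool.Agent.SHAF.CycClass

set_option autoImplicit false

/-!
Automorphisms of semidirect products and exclusions.
-/

namespace Pool.Agent.SHAF

open Pool.Agent.SHA

variable {K : (G : Type) → [Group G] → Prop}

section T1

variable {N H : Type} [Group N] [Group H] (φ : H →* MulAut N)

/-- diagonal automorphisms of a semidirect product -/
def semiAut (α : MulAut N) (θ : MulAut H) (h1 : ∀ h n, α (φ h n) = φ h (α n))
    (h2 : ∀ h, φ (θ h) = φ h) : MulAut (N ⋊[φ] H) where
  toFun x := ⟨α x.left, θ x.right⟩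
  invFun x := ⟨α.symm x.left, θ.symm x.right⟩
  left_inv x := by simp
  right_inv x := by simp
  map_mul' x y := by
    refine SemidirectProduct.ext ?_ ?_
    · show α (x.left * φ x.right y.left) = α x.left * φ (θ x.right) (α y.left)
      rw [map_mul, h1, h2]
    · exact map_mul θ _ _

variable {A B : Type} [Group A] [Group B] (f : A →* MulAut N) (g : B →* MulAut H)
  (h1 : ∀ a h n, f a (φ h n) = φ h (f a n)) (h2 : ∀ b h, φ (g b h) = φ h)

/-- the homomorphism of diagonal automorphisms -/
def semiHom : A × B →* MulAut (N ⋊[φ] H) where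
  toFun x := semiAut φ (f x.1) (g x.2) (h1 x.1) (h2 x.2)
  map_one' := by
    refine MulEquiv.ext fun y => ?_
    refine SemidirectProduct.ext ?_ ?_
    · show f 1 y.left = y.left
      rw [map_one]; rfl
    · show g 1 y.right = y.right
      rw [map_one]; rfl
  map_mul' x x' := by
    refine MulEquiv.ext fun y => ?_
    refine SemidirectProduct.ext ?_ ?_
    · show f (x.1 * x'.1) y.left = f x.1 (f x'.1 y.left)
      rw [map_mul]; rfl
    · show g (x.2 * x'.2) y.right = g x.2 (g x'.2 y.right)
      rw [map_mul]; rfl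

lemma semiHom_injective (hf : Function.Injective f) (hg : Function.Injective g) :
    Function.Injective (semiHom φ f g h1 h2) := by
  intro x y hxy
  refine Prod.ext (hf ?_) (hg ?_)
  · refine MulEquiv.ext fun n => ?_
    exact congrArg SemidirectProduct.left (DFunLike.congr_fun hxy (⟨n, 1⟩ : N ⋊[φ] H))
  · refine MulEquiv.ext fun h => ?_
    exact congrArg SemidirectProduct.right (DFunLike.congr_fun hxy (⟨1, h⟩ : N ⋊[φ] H))

include h1 h2 in
theorem K_T1 (hK : SHAClosed K) (h : K (N ⋊[φ] H)) (hf : Function.Injective f)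
    (hg : Function.Injective g) : K (A × B) :=
  hK.sub _ _ _ (semiHom_injective φ f g h1 h2 hf hg) (hK.aut _ h)

end T1

/-- restriction to a subgroup of the acting group -/
lemma K_semi_sub (hK : SHAClosed K) {N H : Type} [Group N] [Group H] (φ : H →* MulAut N)
    (h : K (N ⋊[φ] H)) (S : Subgroup H) : K (N ⋊[φ.comp S.subtype] S) := by
  refine hK.sub _ _ (SemidirectProduct.map (MonoidHom.id N) S.subtype (fun g => rfl)) ?_ h
  intro x y hxy
  have h1 := congrArg SemidirectProduct.left hxy
  have h2 := congrArg SemidirectProduct.right hxy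
  exact SemidirectProduct.ext h1 (Subtype.ext h2)

lemma cyc_aut_comm {N : Type} [Group N] (hN : IsCyclic N) (α β : MulAut N) (n : N) :
    α (β n) = β (α n) := by
  obtain ⟨a, ha⟩ := MonoidHom.map_cyclic α.toMonoidHom
  obtain ⟨b, hb⟩ := MonoidHom.map_cyclic β.toMonoidHom
  have ha' : ∀ n, α n = n ^ a := ha
  have hb' : ∀ n, β n = n ^ b := hb
  rw [hb', ha', ha', hb', ← zpow_mul, ← zpow_mul, mul_comm]

/-- inversion on a cyclic group -/
lemma cyc_inv {N : Type} [Group N] (hN : IsCyclic N) :
    (∀ n : N, (n⁻¹)⁻¹ = n) ∧ (∀ n n' : N, (n * n')⁻¹ = n⁻¹ * n'⁻¹) := by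
  letI := IsCyclic.commGroup (α := N)
  exact ⟨fun n => inv_inv n, fun n n' => mul_inv n n'⟩

lemma cyc_inv_ne {N : Type} [Group N] [Finite N] (hodd : ¬ 2 ∣ Nat.card N)
    (h1 : Nat.card N ≠ 1) : ∃ n : N, n⁻¹ ≠ n := by
  by_contra hall
  push Not at hall
  haveI : Nontrivial N := Finite.one_lt_card_iff_nontrivial.mp (by
    have : 0 < Nat.card N := Nat.card_pos
    omega)
  obtain ⟨x, hx⟩ := exists_ne (1 : N)
  have h2 : orderOf x = 2 := by
    apply orderOf_eq_prime _ hx
    rw [pow_two]
    nth_rewrite 1 [← hall x]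
    simp
  exact hodd (h2 ▸ orderOf_dvd_natCard x)

/-- Exclusion a: a nontrivial coprime action on a cyclic group of order divisible by `q ^ 2`. -/
theorem no_pp (hK : SHAClosed K) {N H : Type} [Group N] [Finite N] [Group H] [Finite H]
    (hN : IsCyclic N) (φ : H →* MulAut N) (h : K (N ⋊[φ] H)) {q k : ℕ} (hq : q.Prime)
    (hq2 : q ≠ 2) (hc : Nat.card N = q ^ (k + 2)) (hcop : ¬ q ∣ Nat.card H) (x : H)
    (hx : φ x ≠ 1) : K (E 3) := by
  haveI : Fact q.Prime := ⟨hq⟩
  -- an automorphism of order q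
  have hcA : Nat.card (MulAut N) = q ^ (k + 1) * (q - 1) := by
    rw [IsCyclic.card_mulAut, hc, Nat.totient_prime_pow_succ hq]
  haveI : Finite (MulAut N) := Nat.finite_of_card_ne_zero (by
    rw [hcA]
    have := hq.two_le
    exact Nat.mul_ne_zero (pow_ne_zero _ hq.ne_zero) (by omega))
  obtain ⟨α, hα⟩ := exists_prime_orderOf_dvd_card' (G := MulAut N) q
    (by rw [hcA]; exact Dvd.dvd.mul_right (dvd_pow_self q (by omega)) _)
  obtain ⟨g, hg⟩ := IsCyclic.exists_ofOrder_eq_natCard (α := N)
  rw [hc] at hg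
  have hpow : ∀ m : ℤ, g ^ m = 1 ↔ ((q ^ (k + 2) : ℕ) : ℤ) ∣ m := by
    intro m
    rw [← orderOf_dvd_iff_zpow_eq_one, hg]
  set g0 := g ^ (q ^ (k + 1)) with hg0
  have hg0o : orderOf g0 = q := by
    rw [hg0, orderOf_pow_of_dvd (pow_ne_zero _ hq.ne_zero) (by rw [hg]; exact pow_dvd_pow q (by omega)),
      hg, Nat.pow_div (by omega) hq.pos]
    have : k + 2 - (k + 1) = 1 := by omega
    rw [this, pow_one]
  have hg0p : ∀ m : ℤ, g0 ^ m = 1 ↔ (q : ℤ) ∣ m := by
    intro m
    rw [← orderOf_dvd_iff_zpow_eq_one, hg0o]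
  -- α fixes g0
  obtain ⟨a, ha⟩ := MonoidHom.map_cyclic α.toMonoidHom
  have ha' : ∀ n, α n = n ^ a := ha
  have hiter : ∀ (β : MulAut N) (b : ℤ), (∀ n, β n = n ^ b) → ∀ (m : ℕ) (n : N),
      (β ^ m) n = n ^ (b ^ m) := by
    intro β b hb m
    induction m with
    | zero => intro n; simp
    | succ m ih =>
      intro n
      rw [pow_succ, MulAut.mul_apply, ih, hb, ← zpow_mul, pow_succ, mul_comm]
  have hαg0 : α g0 = g0 := by
    have h1 : g ^ (a ^ q - 1) = 1 := by
      have h2 := hiter α a ha' q g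
      rw [← hα, pow_orderOf_eq_one, MulAut.one_apply, hα] at h2
      rw [zpow_sub, ← h2, zpow_one, mul_inv_cancel]
    rw [hpow] at h1
    have h2 : (q : ℤ) ∣ a ^ q - 1 := by
      refine dvd_trans ?_ h1
      push_cast
      exact dvd_pow_self (q : ℤ) (by omega)
    have h3 : (q : ℤ) ∣ a - 1 := by
      have h4 : ((a ^ q - 1 : ℤ) : ZMod q) = 0 := (ZMod.intCast_zmod_eq_zero_iff_dvd _ q).mpr h2
      have h5 : ((a - 1 : ℤ) : ZMod q) = 0 := by
        push_cast at h4 ⊢
        rwa [ZMod.pow_card] at h4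
      exact (ZMod.intCast_zmod_eq_zero_iff_dvd _ q).mp h5
    rw [ha']
    have h4 := (hg0p (a - 1)).mpr h3
    rw [zpow_sub, zpow_one] at h4
    exact mul_inv_eq_one.mp h4
  -- x does not fix g0
  have hxg0 : φ x g0 ≠ g0 := by
    intro hfix
    apply hx
    obtain ⟨b, hb⟩ := MonoidHom.map_cyclic (φ x).toMonoidHom
    have hb' : ∀ n, φ x n = n ^ b := hb
    rw [hb'] at hfix
    have h3 : (q : ℤ) ∣ b - 1 := by
      rw [← hg0p, zpow_sub, zpow_one, hfix, mul_inv_cancel]
    have h4 := dvd_sub_pow_of_dvd_sub (R := ℤ) (p := q) (a := b) (b := 1) h3 (k + 1)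
    rw [one_pow] at h4
    have h5 : (φ x) ^ (q ^ (k + 1)) = 1 := by
      refine MulEquiv.ext fun n => ?_
      rw [hiter _ b hb', MulAut.one_apply]
      obtain ⟨m, rfl⟩ : ∃ m : ℤ, g ^ m = n := by
        have h6 : n ∈ Subgroup.zpowers g := by
          have : Subgroup.zpowers g = ⊤ := by
            rw [← Subgroup.card_eq_iff_eq_top, Nat.card_zpowers, hg, hc]
          rw [this]; trivial
        exact Subgroup.mem_zpowers_iff.mp h6
      rw [← zpow_mul, ← mul_inv_eq_one, ← zpow_neg, ← zpow_add, hpow]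
      obtain ⟨c, hc'⟩ := h4
      refine ⟨m * c, ?_⟩
      push_cast
      have : m * b ^ q ^ (k + 1) + -m = m * (b ^ q ^ (k + 1) - 1) := by ring
      rw [this, hc']
      ring
    have h6 : (φ x) ^ (Nat.card H) = 1 := by
      rw [← map_pow, pow_card_eq_one', map_one]
    have h7 : orderOf (φ x) ∣ Nat.gcd (q ^ (k + 1)) (Nat.card H) :=
      Nat.dvd_gcd (orderOf_dvd_of_pow_eq_one h5) (orderOf_dvd_of_pow_eq_one h6)
    have h8 : Nat.gcd (q ^ (k + 1)) (Nat.card H) = 1 :=
      Nat.Coprime.pow_left _ ((Nat.Prime.coprime_iff_not_dvd hq).mpr hcop)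
    rw [h8, Nat.dvd_one, orderOf_eq_one_iff] at h7
    exact h7
  -- the two automorphisms
  let X : MulAut (N ⋊[φ] H) := MulAut.conj (SemidirectProduct.inl g0)
  let Y : MulAut (N ⋊[φ] H) := semiAut φ α 1 (fun h n => cyc_aut_comm hN _ _ _) (fun h => rfl)
  have hXi : ∀ i : ℤ, X ^ i = MulAut.conj (SemidirectProduct.inl (g0 ^ i)) := by
    intro i
    show (MulAut.conj (SemidirectProduct.inl g0)) ^ i = _
    rw [map_zpow, map_zpow]
  have hXval : ∀ (n : N) , (MulAut.conj (SemidirectProduct.inl n : N ⋊[φ] H))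
      (SemidirectProduct.inr x) = SemidirectProduct.inr x → φ x n = n := by
    intro n hn
    have h1 : (SemidirectProduct.inl n : N ⋊[φ] H) * SemidirectProduct.inr x *
      (SemidirectProduct.inl n)⁻¹ = SemidirectProduct.inr x := hn
    have h2 := congrArg SemidirectProduct.left h1
    simp only [SemidirectProduct.mul_left, SemidirectProduct.left_inl,
      SemidirectProduct.right_inl, SemidirectProduct.left_inr, map_one, mul_one,
      SemidirectProduct.mul_right, SemidirectProduct.right_inr, one_mul,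
      SemidirectProduct.inv_left, inv_one, MulAut.one_apply, map_inv] at h2
    exact (mul_inv_eq_one.mp h2).symm
  have hXo : orderOf X = q := by
    apply orderOf_eq_prime
    · rw [← zpow_natCast, hXi, zpow_natCast, ← hg0o, pow_orderOf_eq_one, map_one, map_one]
    · intro h1
      exact hxg0 (hXval g0 (DFunLike.congr_fun h1 _))
  have hYm : ∀ (m : ℕ) (y : N ⋊[φ] H), (Y ^ m) y = ⟨(α ^ m) y.left, y.right⟩ := by
    intro m
    induction m with
    | zero => intro y; rfl
    | succ m ih =>
      intro y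
      rw [pow_succ, MulAut.mul_apply, ih, pow_succ, MulAut.mul_apply]
      rfl
  have hYo : orderOf Y = q := by
    apply orderOf_eq_prime
    · refine MulEquiv.ext fun y => ?_
      rw [hYm, ← hα, pow_orderOf_eq_one]
      rfl
    · intro h1
      have : α = 1 := by
        refine MulEquiv.ext fun n => ?_
        exact congrArg SemidirectProduct.left (DFunLike.congr_fun h1 (SemidirectProduct.inl n))
      rw [this, orderOf_one] at hα
      exact hq.one_lt.ne hα
  refine no_Cpp hK q hq hq2 (K_cyc2_of hK (hK.aut _ h) X Y hXo hYo ?_ ?_)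
  · have h1 : Y * X = X * Y := by
      show Y * MulAut.conj (SemidirectProduct.inl g0) = _
      rw [conj_apply_eq]
      have : Y (SemidirectProduct.inl g0) = SemidirectProduct.inl g0 := by
        refine SemidirectProduct.ext ?_ rfl
        exact hαg0
      rw [this]
    exact h1.symm
  · intro i j hij
    rw [hXi] at hij ⊢
    have hYr : ∀ j : ℤ, (Y ^ j) (SemidirectProduct.inr x) = SemidirectProduct.inr x := by
      intro j
      have h1 : Y (SemidirectProduct.inr x) = SemidirectProduct.inr x := by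
        refine SemidirectProduct.ext ?_ rfl
        exact map_one α
      have h2 : Y ∈ MulAction.stabilizer (MulAut (N ⋊[φ] H)) (SemidirectProduct.inr x : N ⋊[φ] H) :=
        h1
      exact (MulAction.stabilizer (MulAut (N ⋊[φ] H)) (SemidirectProduct.inr x : N ⋊[φ] H)).zpow_mem
        h2 j
    have h1 := hXval (g0 ^ i) (by rw [hij]; exact hYr j)
    have h2 : g0 ^ i = 1 := by
      by_contra hne
      apply hxg0
      -- g0 is a power of g0 ^ i
      have h3 : ¬ (q : ℤ) ∣ i := by rwa [← hg0p]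
      have h4 : IsCoprime (q : ℤ) i := (Nat.prime_iff_prime_int.mp hq).coprime_iff_not_dvd.mpr h3
      obtain ⟨u, v, huv⟩ := h4
      have h5 : g0 = (g0 ^ i) ^ v := by
        rw [← zpow_mul]
        have h6 : i * v = 1 - u * q := by linarith
        rw [h6, zpow_sub, zpow_one, (hg0p (u * q)).mpr ⟨u, by ring⟩, inv_one, mul_one]
      rw [h5, map_zpow, h1]
    rw [h2, map_one, map_one]

end Pool.Agent.SHAF
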