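import Mathlib
import Pool.Agent.SHAF.Semi

set_option autoImplicit false

/-!
Further exclusions for semidirect products.
-/

namespace Pool.Agent.SHAF

open Pool.Agent.SHA

variable {K : (G : Type) → [Group G] → Prop}

section twist

variable {H : Type} [Group H] (z : H) (hz : z * z = 1) (hzc : ∀ h, z * h = h * z) (χ : H →* ℤˣ)
  (hχz : χ z = 1)

/-- multiplication by a central involution along a character -/
def tw (h : H) : H := h * inv2 z hz (χ h)

include hzc in
lemma inv2_central (u : ℤˣ) (h : H) : inv2 z hz u * h = h * inv2 z hz u := by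
  rcases Int.units_eq_one_or u with rfl | rfl
  · simp
  · exact hzc h

include hχz in
lemma χ_inv2 (u : ℤˣ) : χ (inv2 z hz u) = 1 := by
  rcases Int.units_eq_one_or u with rfl | rfl
  · simp
  · exact hχz

include hχz in
lemma χ_tw (h : H) : χ (tw z hz χ h) = χ h := by
  rw [tw, map_mul, χ_inv2 z hz χ hχz, mul_one]

include hχz in
lemma tw_tw (h : H) : tw z hz χ (tw z hz χ h) = h := by
  rw [tw, χ_tw z hz χ hχz, tw, mul_assoc, ← map_mul, Int.units_mul_self, map_one, mul_one]

include hzc in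
lemma tw_mul (h h' : H) : tw z hz χ (h * h') = tw z hz χ h * tw z hz χ h' := by
  rw [tw, tw, tw, map_mul, map_mul]
  have e := inv2_central z hz hzc (χ h) h'
  calc h * h' * (inv2 z hz (χ h) * inv2 z hz (χ h'))
      = h * (h' * inv2 z hz (χ h)) * inv2 z hz (χ h') := by group
    _ = h * (inv2 z hz (χ h) * h') * inv2 z hz (χ h') := by rw [e]
    _ = _ := by group

end twist

/-- Exclusion b: a central involution in the kernel and a kernel of even index. -/
theorem no_c2 (hK : SHAClosed K) (hE : ¬ K (E 3)) {N H : Type} [Group N] [Finite N] [Group H]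
    (hN : IsCyclic N) (φ : H →* MulAut N) (h : K (N ⋊[φ] H)) {q : ℕ} (hq : q.Prime) (hq2 : q ≠ 2)
    (hc : Nat.card N = q) (z : H) (hz : z * z = 1) (hz1 : z ≠ 1) (hzc : ∀ h, z * h = h * z)
    (hφz : φ z = 1) (χ : H →* ℤˣ) (hχz : χ z = 1) (x : H) (hx : χ x = -1) :
    q = 3 ∨ q = 5 ∨ q = 7 := by
  haveI : Fact q.Prime := ⟨hq⟩
  subst hc
  set q := Nat.card N with hqdef
  have hθ : invol (tw z hz χ) (tw_tw z hz χ hχz) (tw_mul z hz hzc χ) ≠ 1 := by
    apply invol_ne_one
    refine ⟨x, ?_⟩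
    rw [tw, hx]
    intro h
    apply hz1
    have h2 : inv2 z hz (-1) = 1 := mul_eq_left.mp h
    exact h2
  have hinj : Function.Injective (inv2 (invol (tw z hz χ) (tw_tw z hz χ hχz)
      (tw_mul z hz hzc χ)) (invol_sq _ _ _)) := by
    rw [injective_iff_map_eq_one]
    intro u hu
    rcases Int.units_eq_one_or u with rfl | rfl
    · rfl
    · exact absurd hu hθ
  have hφ2 : ∀ u : ℤˣ, φ (inv2 z hz u) = 1 := by
    intro u
    rcases Int.units_eq_one_or u with rfl | rfl
    · simp
    · exact hφz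
  have h1 : K ((ZMod q)ˣ × ℤˣ) := by
    refine K_T1 φ (IsCyclic.mulAutMulEquiv N).symm.toMonoidHom
      (inv2 (invol (tw z hz χ) (tw_tw z hz χ hχz) (tw_mul z hz hzc χ)) (invol_sq _ _ _)) ?_ ?_
      hK h (IsCyclic.mulAutMulEquiv N).symm.injective hinj
    · intro a h n
      exact cyc_aut_comm hN _ _ _
    · intro b h
      rcases Int.units_eq_one_or b with rfl | rfl
      · simp
      · show φ (tw z hz χ h) = φ h
        rw [tw, map_mul, hφ2, mul_one]
  have hcard : Nat.card ((ZMod q)ˣ × ℤˣ) = (q - 1) * 2 := by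
    rw [Nat.card_prod, Nat.card_eq_fintype_card, ZMod.card_units_eq_totient, Nat.totient_prime hq,
      Nat.card_eq_fintype_card]
    rfl
  have hodd : q % 2 = 1 := by
    rcases hq.eq_two_or_odd with h | h
    · exact absurd h hq2
    · exact h
  have hnc : ¬ IsCyclic ((ZMod q)ˣ × ℤˣ) := by
    intro hcyc
    have h3 := coprime_card_of_isCyclic_prod (ZMod q)ˣ ℤˣ
    rw [Nat.card_eq_fintype_card, ZMod.card_units_eq_totient, Nat.totient_prime hq,
      Nat.card_eq_fintype_card, show Fintype.card ℤˣ = 2 from rfl] at h3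
    have h4 : 2 ∣ q - 1 := by omega
    have h5 := Nat.dvd_gcd h4 (dvd_refl 2)
    rw [h3] at h5
    omega
  have h2 := ab_card hK hE h1 hnc
  rw [hcard] at h2
  have := hq.two_le
  omega

/-- Exclusion d: a group of order 8 inside the acting group. -/
theorem no_c4 (hK : SHAClosed K) {N H : Type} [Group N] [Finite N] [Group H]
    (hN : IsCyclic N) (hodd : ¬ 2 ∣ Nat.card N) (h1 : Nat.card N ≠ 1)
    (φ : H →* MulAut N) (h : K (N ⋊[φ] H)) (P : Subgroup H) (hP : Nat.card P = 8)
    (M : Subgroup P) (hM : M.index = 2) (hMk : ∀ m ∈ M, φ (m : H) = 1) : K (E 3) := by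
  haveI : Finite P := Nat.finite_of_card_ne_zero (by rw [hP]; norm_num)
  refine no_semi8 hK (φ.comp P.subtype) (K_semi_sub hK φ h P) hP M hM ?_ (fun n => n⁻¹)
    (cyc_inv hN).1 (cyc_inv hN).2 (cyc_inv_ne hodd h1) ?_
  · intro m hm
    exact hMk m hm
  · intro x n
    exact (map_inv (φ x.1) n).symm

/-- Exclusion e: an element of order 3 centralising `N` is inverted. -/
theorem no_inv3 (hK : SHAClosed K) {N H : Type} [Group N] [Finite N] [Group H]
    (hN : IsCyclic N) (φ : H →* MulAut N) (h : K (N ⋊[φ] H)) {q : ℕ} (hq : q.Prime) (hq5 : 5 ≤ q)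
    (hc : Nat.card N = q) (r s : H) (hr : orderOf r = 3) (hφr : φ r = 1)
    (hsr : s * r * s⁻¹ = r⁻¹) : K (E 3) := by
  haveI : Fact q.Prime := ⟨hq⟩
  subst hc
  set q := Nat.card N with hqdef
  -- the subgroup generated by r and s
  set S := Subgroup.closure {r, s} with hS
  have hrS : r ∈ S := Subgroup.subset_closure (by simp)
  have hsS : s ∈ S := Subgroup.subset_closure (by simp)
  have hKS := K_semi_sub hK φ h S
  have hr3 : r ^ 3 = 1 := hr ▸ pow_orderOf_eq_one r
  have hrinv : r⁻¹ ≠ r := by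
    intro h1
    have h2 : r ^ 2 = 1 := by
      rw [pow_two]
      nth_rewrite 1 [← h1]
      simp
    have := orderOf_dvd_of_pow_eq_one h2
    rw [hr] at this
    omega
  -- s * s is central in S
  have hssr : (s * s) * r = r * (s * s) := by
    have h1 : s * (s * r * s⁻¹) * s⁻¹ = r := by
      rw [hsr]
      have : s * r⁻¹ * s⁻¹ = (s * r * s⁻¹)⁻¹ := by group
      rw [this, hsr, inv_inv]
    have h2 : (s * s) * r * (s * s)⁻¹ = r := by
      have h3 : (s * s) * r * (s * s)⁻¹ = s * (s * r * s⁻¹) * s⁻¹ := by group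
      rw [h3, h1]
    exact mul_inv_eq_iff_eq_mul.mp h2
  have hcent : ∀ y ∈ S, (s * s) * y = y * (s * s) := by
    intro y hy
    induction hy using Subgroup.closure_induction with
    | mem y hy =>
      rcases hy with rfl | hy
      · exact hssr
      · rw [Set.mem_singleton_iff] at hy
        rw [hy]; group
    | one => simp
    | mul a b _ _ ha hb => rw [← mul_assoc, ha, mul_assoc, hb, mul_assoc]
    | inv a _ ha =>
      have : (s * s) * a⁻¹ = a⁻¹ * (a * (s * s)) * a⁻¹ := by group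
      rw [this, ← ha]; group
  let r' : S := ⟨r, hrS⟩
  let s' : S := ⟨s, hsS⟩
  have hρ : orderOf (MulAut.conj r') = 3 := by
    apply orderOf_eq_prime
    · rw [← map_pow]
      have : r' ^ 3 = 1 := Subtype.ext hr3
      rw [this, map_one]
    · intro h1
      have h2 : r' * s' * r'⁻¹ = s' := DFunLike.congr_fun h1 s'
      have h3 : r * s * r⁻¹ = s := congrArg Subtype.val h2
      apply hrinv
      rw [← hsr]
      have h4 : r * s = s * r := mul_inv_eq_iff_eq_mul.mp h3
      rw [← h4]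
      group
  have hσ : MulAut.conj s' * MulAut.conj s' = 1 := by
    rw [← map_mul]
    refine MulEquiv.ext fun y => ?_
    apply Subtype.ext
    show (s * s) * y.1 * (s * s)⁻¹ = y.1
    rw [hcent y.1 y.2]; group
  have hσρ : MulAut.conj s' * MulAut.conj r' * MulAut.conj s' = (MulAut.conj r')⁻¹ := by
    have h1 : MulAut.conj s' = (MulAut.conj s')⁻¹ := eq_inv_of_mul_eq_one_left hσ
    have h2 : MulAut.conj s' * MulAut.conj r' * (MulAut.conj s')⁻¹ = (MulAut.conj r')⁻¹ := by
      rw [← map_inv, ← map_mul, ← map_mul, ← map_inv]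
      congr 1
      exact Subtype.ext hsr
    rwa [← h1] at h2
  have hinn : ∀ b : DihedralGroup 3, ∃ y : S,
      dihLift 3 (MulAut.conj r') (MulAut.conj s') (hρ ▸ pow_orderOf_eq_one _) hσ hσρ b
        = MulAut.conj y := by
    rintro (i | i)
    · obtain ⟨k, hk⟩ := ZMod.intCast_surjective i
      refine ⟨r' ^ k, ?_⟩
      show zpw 3 (MulAut.conj r') (hρ ▸ pow_orderOf_eq_one _) (Multiplicative.ofAdd i) = _
      rw [← hk, zpw_coe, map_zpow]
    · obtain ⟨k, hk⟩ := ZMod.intCast_surjective i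
      refine ⟨s' * r' ^ k, ?_⟩
      show MulAut.conj s' * zpw 3 (MulAut.conj r') (hρ ▸ pow_orderOf_eq_one _)
        (Multiplicative.ofAdd i) = _
      rw [← hk, zpw_coe, map_mul, map_zpow]
  have h1 : K ((ZMod q)ˣ × DihedralGroup 3) := by
    refine K_T1 (φ.comp S.subtype) (IsCyclic.mulAutMulEquiv N).symm.toMonoidHom
      (dihLift 3 (MulAut.conj r') (MulAut.conj s') (hρ ▸ pow_orderOf_eq_one _) hσ hσρ) ?_ ?_
      hK hKS (IsCyclic.mulAutMulEquiv N).symm.injective
      (dihLift_injective 3 _ _ (by norm_num) hρ hσ hσρ)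
    · intro a h n
      exact cyc_aut_comm hN _ _ _
    · intro b h
      obtain ⟨y, hy⟩ := hinn b
      rw [hy]
      refine MulEquiv.ext fun n => ?_
      show (φ (y.1 * h.1 * y.1⁻¹)) n = φ h.1 n
      rw [map_mul, map_mul, MulAut.mul_apply, MulAut.mul_apply, cyc_aut_comm hN (φ y.1) (φ h.1)]
      have : (φ y.1) ((φ y.1⁻¹) n) = n := by
        rw [← MulAut.mul_apply, ← map_mul, mul_inv_cancel, map_one]; rfl
      rw [this]
  have h2 : K (DihedralGroup 3 × (ZMod q)ˣ) := iso hK MulEquiv.prodComm h1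
  have hcop : Nat.Coprime 2 q := by
    rw [Nat.coprime_primes Nat.prime_two hq]
    omega
  let u : (ZMod q)ˣ := ZMod.unitOfCoprime 2 hcop
  haveI : Fact (2 < q) := ⟨by omega⟩
  refine no_dih_prod hK (by norm_num) h2 (-1) (by simp) ?_ u ?_
  · intro h
    exact ZMod.neg_one_ne_one (congrArg Units.val h)
  · intro h
    have h3 := congrArg Units.val h
    have hu : (u : ZMod q) = 2 := by simp [u]
    rw [Units.val_mul, hu, Units.val_one] at h3
    have h4 : ((3 : ℕ) : ZMod q) = 0 := by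
      have : ((3 : ℕ) : ZMod q) = 2 * 2 - 1 := by norm_num
      rw [this, h3, sub_self]
    rw [ZMod.natCast_eq_zero_iff] at h4
    have := Nat.le_of_dvd (by norm_num) h4
    omega

/-- Exclusion f: an element of order 9 whose cube acts trivially. -/
theorem no_c9 (hK : SHAClosed K) {N H : Type} [Group N] [Group H] (φ : H →* MulAut N)
    (h : K (N ⋊[φ] H)) (x : H) (hx : orderOf x = 9) (hx3 : φ (x ^ 3) = 1) (α : MulAut N)
    (hα : orderOf α = 3) (hαc : ∀ n, α (φ x n) = φ x (α n)) : K (E 3) := by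
  set S := Subgroup.zpowers x with hS
  have hKS := K_semi_sub hK φ h S
  have hScomm : ∀ a b : S, a * b = b * a := by
    intro a b
    letI := IsCyclic.commGroup (α := S)
    exact mul_comm a b
  have hS9 : ∀ a : S, a ^ 9 = 1 := by
    rintro ⟨a, ha⟩
    obtain ⟨m, rfl⟩ := Subgroup.mem_zpowers_iff.mp ha
    apply Subtype.ext
    show (x ^ m) ^ 9 = 1
    rw [← zpow_natCast, ← zpow_mul, mul_comm, zpow_mul, zpow_natCast, ← hx, pow_orderOf_eq_one,
      one_zpow]
  let x' : S := ⟨x, Subgroup.mem_zpowers x⟩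
  let θ : MulAut S :=
    { toFun := fun a => a ^ 4
      invFun := fun a => a ^ 7
      left_inv := fun a => by
        show (a ^ 4) ^ 7 = a
        rw [← pow_mul, show 4 * 7 = 9 * 3 + 1 by norm_num, pow_succ, pow_mul, hS9, one_pow, one_mul]
      right_inv := fun a => by
        show (a ^ 7) ^ 4 = a
        rw [← pow_mul, show 7 * 4 = 9 * 3 + 1 by norm_num, pow_succ, pow_mul, hS9, one_pow, one_mul]
      map_mul' := fun a b => (show Commute a b from hScomm a b).mul_pow 4 }
  have hθ : ∀ a, θ a = a ^ 4 := fun a => rfl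
  have hθ3 : orderOf θ = 3 := by
    apply orderOf_eq_prime
    · refine MulEquiv.ext fun a => ?_
      rw [pow_succ, pow_two, MulAut.mul_apply, MulAut.mul_apply, hθ, hθ, hθ, ← pow_mul, ← pow_mul,
        show 4 * 4 * 4 = 9 * 7 + 1 by norm_num, pow_succ, pow_mul, hS9, one_pow, one_mul]
      rfl
    · intro h1
      have h2 : x' ^ 4 = x' := DFunLike.congr_fun h1 x'
      have h3 : x' ^ 3 = 1 := by
        rw [pow_succ] at h2
        exact mul_eq_right.mp h2
      have h4 : x ^ 3 = 1 := congrArg Subtype.val h3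
      have := orderOf_dvd_of_pow_eq_one h4
      rw [hx] at this
      omega
  have hφS : ∀ a : S, φ (a : H) ∈ Subgroup.zpowers (φ x) := by
    rintro ⟨a, ha⟩
    obtain ⟨m, rfl⟩ := Subgroup.mem_zpowers_iff.mp ha
    exact ⟨m, (map_zpow φ x m).symm⟩
  have hcomm : ∀ a : S, Commute α (φ (a : H)) := by
    intro a
    obtain ⟨m, hm⟩ := hφS a
    rw [← hm]
    apply Commute.zpow_right
    refine MulEquiv.ext fun n => ?_
    exact hαc n
  have hcube : ∀ a : S, φ ((a : H) ^ 3) = 1 := by
    rintro ⟨a, ha⟩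
    obtain ⟨m, rfl⟩ := Subgroup.mem_zpowers_iff.mp ha
    show φ ((x ^ m) ^ 3) = 1
    rw [← zpow_natCast, ← zpow_mul, mul_comm, zpow_mul, map_zpow, zpow_natCast, hx3, one_zpow]
  refine no_C33 hK (K_T1 (φ.comp S.subtype) (zpw 3 α (hα ▸ pow_orderOf_eq_one α))
    (zpw 3 θ (hθ3 ▸ pow_orderOf_eq_one θ)) ?_ ?_ hK hKS (zpw_injective _ _ _ hα)
    (zpw_injective _ _ _ hθ3))
  · intro a y n
    obtain ⟨i, hi⟩ := ZMod.intCast_surjective (Multiplicative.toAdd a)
    have h1 : a = Multiplicative.ofAdd (i : ZMod 3) := by rw [hi]; rfl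
    rw [h1, zpw_coe]
    exact DFunLike.congr_fun ((hcomm y).zpow_left i) n
  · intro b y
    obtain ⟨i, hi⟩ := ZMod.intCast_surjective (Multiplicative.toAdd b)
    have h1 : b = Multiplicative.ofAdd (i : ZMod 3) := by rw [hi]; rfl
    rw [h1, zpw_coe]
    have key : ∀ i : ℤ, ∀ y : S, φ ((θ ^ i) y : H) = φ (y : H) := by
      intro i
      have hθy : ∀ y : S, φ ((θ y : S) : H) = φ (y : H) := by
        intro y
        show φ ((y : H) ^ 4) = φ (y : H)
        rw [pow_succ, map_mul, hcube, one_mul]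
      induction i using Int.induction_on with
      | zero => intro y; simp
      | succ i ih => intro y; rw [zpow_add_one, MulAut.mul_apply, ih, hθy]
      | pred i ih =>
        intro y
        rw [zpow_sub_one, MulAut.mul_apply, ih, ← hθy (θ⁻¹ y)]
        rw [MulAut.apply_inv_self]
    exact key i y

/-- Exclusion g: three commuting involutions on an abelian acting group. -/
theorem no_c6 (hK : SHAClosed K) {N H : Type} [Group N] [Finite N] [Group H]
    (hN : IsCyclic N) (hodd : ¬ 2 ∣ Nat.card N) (hN1 : Nat.card N ≠ 1)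
    (φ : H →* MulAut N) (h : K (N ⋊[φ] H)) (hH : ∀ a b : H, a * b = b * a)
    (e : ℕ) (he : e % 2 = 1) (hee : ∀ a : H, (a ^ e) ^ e = a) (hφe : ∀ a : H, φ (a ^ e) = φ a)
    (r : H) (hr : orderOf r = 3) (hre : r ^ e ≠ r)
    (z : H) (hz : z * z = 1) (hz1 : z ≠ 1) (hφz : φ z = 1)
    (χ : H →* ℤˣ) (hχz : χ z = 1) (x : H) (hx : χ x = -1) : K (E 3) := by
  have hzc : ∀ a, z * a = a * z := fun a => hH z a
  have hφ2 : ∀ u : ℤˣ, φ (inv2 z hz u) = 1 := by
    intro u
    rcases Int.units_eq_one_or u with rfl | rfl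
    · simp
    · exact hφz
  have hχe : ∀ a, χ (a ^ e) = χ a := by
    intro a
    rw [map_pow]
    rcases Int.units_eq_one_or (χ a) with h | h <;> rw [h]
    · simp
    · exact Odd.neg_one_pow (Nat.odd_iff.mpr he)
  have hze : ∀ u, (inv2 z hz u) ^ e = inv2 z hz u := by
    intro u
    rw [← map_pow]
    rcases Int.units_eq_one_or u with h | h <;> rw [h]
    · simp
    · rw [Odd.neg_one_pow (Nat.odd_iff.mpr he)]
  have hχr : χ r = 1 := by
    have h1 : χ r ^ 3 = 1 := by rw [← map_pow, ← hr, pow_orderOf_eq_one, map_one]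
    rcases Int.units_eq_one_or (χ r) with h | h
    · exact h
    · rw [h] at h1
      exact absurd h1 (by decide)
  have htwr : tw z hz χ r = r := by rw [tw, hχr, map_one, mul_one]
  obtain ⟨n, hn⟩ := cyc_inv_ne hodd hN1
  refine K_E3_fun hK h (fun y => ⟨y.left⁻¹, y.right⟩) (fun y => ⟨y.left, y.right ^ e⟩)
    (fun y => ⟨y.left, tw z hz χ y.right⟩) ?_ ?_ ?_ ?_ ?_ ?_ ?_ ?_ ?_ ?_ ?_ ?_ ?_ ?_ ?_ ?_
  · intro y
    exact SemidirectProduct.ext (inv_inv _) rfl
  · intro y y'
    refine SemidirectProduct.ext ?_ rfl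
    show (y.left * φ y.right y'.left)⁻¹ = y.left⁻¹ * φ y.right (y'.left⁻¹)
    rw [(cyc_inv hN).2, map_inv]
  · intro y
    exact SemidirectProduct.ext rfl (hee _)
  · intro y y'
    refine SemidirectProduct.ext ?_ ?_
    · show y.left * φ y.right y'.left = y.left * φ (y.right ^ e) y'.left
      rw [hφe]
    · exact (show Commute y.right y'.right from hH _ _).mul_pow e
  · intro y
    exact SemidirectProduct.ext rfl (tw_tw z hz χ hχz _)
  · intro y y'
    refine SemidirectProduct.ext ?_ (tw_mul z hz hzc χ _ _)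
    show y.left * φ y.right y'.left = y.left * φ (tw z hz χ y.right) y'.left
    rw [tw, map_mul, hφ2, mul_one]
  · intro y
    rfl
  · intro y
    rfl
  · intro y
    refine SemidirectProduct.ext rfl ?_
    show (tw z hz χ y.right) ^ e = tw z hz χ (y.right ^ e)
    rw [tw, tw, hχe, (show Commute y.right (inv2 z hz (χ y.right)) from hH _ _).mul_pow, hze]
  · exact ⟨⟨n, 1⟩, fun h => hn (congrArg SemidirectProduct.left h)⟩
  · exact ⟨⟨1, r⟩, fun h => hre (congrArg SemidirectProduct.right h)⟩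
  · refine ⟨⟨1, x⟩, fun h => hz1 ?_⟩
    have h1 : x * inv2 z hz (χ x) = x := congrArg SemidirectProduct.right h
    rw [hx] at h1
    exact mul_eq_left.mp h1
  · exact ⟨⟨1, r⟩, fun h => hre (congrArg SemidirectProduct.right h).symm⟩
  · exact ⟨⟨n, 1⟩, fun h => hn (congrArg SemidirectProduct.left h)⟩
  · refine ⟨⟨1, r⟩, fun h => hre ?_⟩
    have h1 : r ^ e = tw z hz χ r := congrArg SemidirectProduct.right h
    rw [h1, htwr]
  · exact ⟨⟨n, 1⟩, fun h => hn (congrArg SemidirectProduct.left h)⟩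

end Pool.Agent.SHAF
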