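import Mathlib
import Pool.Agent.SHAF.Semi2
import Pool.Agent.SHAF.Fit
import Pool.Agent.SHAF.ListDefs

set_option autoImplicit false

/-!
Preparations for groups with a cyclic Fitting subgroup.
-/

namespace Pool.Agent.SHAF

open Pool.Agent.SHA

variable {K : (G : Type) → [Group G] → Prop}

lemma goodPP_pow {m : ℕ} (h : GoodPP m) : ∃ q k, q.Prime ∧ q ≠ 2 ∧ m = q ^ (k + 1) := by
  rcases h with ⟨k, hk, rfl⟩ | h | ⟨hp, j, hj, h⟩
  · obtain ⟨i, rfl⟩ : ∃ i, k = i + 1 := ⟨k - 1, by omega⟩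
    exact ⟨3, i, Nat.prime_three, by norm_num, rfl⟩
  · simp only [List.mem_cons, List.not_mem_nil, or_false] at h
    rcases h with rfl | rfl | rfl | rfl | rfl | rfl | rfl | rfl | rfl | rfl | rfl | rfl | rfl | rfl
    · exact ⟨5, 0, by norm_num, by norm_num, by norm_num⟩
    · exact ⟨5, 1, by norm_num, by norm_num, by norm_num⟩
    · exact ⟨7, 0, by norm_num, by norm_num, by norm_num⟩
    · exact ⟨7, 1, by norm_num, by norm_num, by norm_num⟩
    · exact ⟨11, 0, by norm_num, by norm_num, by norm_num⟩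
    · exact ⟨13, 0, by norm_num, by norm_num, by norm_num⟩
    · exact ⟨17, 0, by norm_num, by norm_num, by norm_num⟩
    · exact ⟨23, 0, by norm_num, by norm_num, by norm_num⟩
    · exact ⟨29, 0, by norm_num, by norm_num, by norm_num⟩
    · exact ⟨31, 0, by norm_num, by norm_num, by norm_num⟩
    · exact ⟨37, 0, by norm_num, by norm_num, by norm_num⟩
    · exact ⟨43, 0, by norm_num, by norm_num, by norm_num⟩
    · exact ⟨47, 0, by norm_num, by norm_num, by norm_num⟩
    · exact ⟨59, 0, by norm_num, by norm_num, by norm_num⟩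
  · refine ⟨m, 0, hp, ?_, by simp⟩
    rintro rfl
    omega

/-- the admitted shapes of orders that are not powers of 2 -/
def Shape (q k c : ℕ) : Prop :=
  ((c = 1 ∨ c = 2) ∧ GoodPP (q ^ (k + 1))) ∨
    (c = 4 ∧ ((k = 0 ∧ (q = 3 ∨ q = 5 ∨ q = 7)) ∨ (k = 1 ∧ q = 3))) ∨
    ((c = 3 ∨ c = 6) ∧ k = 0 ∧ (q = 5 ∨ q = 7))

lemma good_decomp {n : ℕ} (h : Good n) (p : ℕ) (hp : p.Prime) (hp2 : p ≠ 2) (hpn : p ∣ n) :
    ∃ q k c, q.Prime ∧ q ≠ 2 ∧ n = q ^ (k + 1) * c ∧ Shape q k c := by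
  rcases h with h | ⟨m, hm, h⟩
  · simp only [List.mem_cons, List.not_mem_nil, or_false] at h
    have two : ∀ a, n = 2 ^ a → False := by
      rintro a rfl
      exact hp2 ((Nat.prime_dvd_prime_iff_eq hp Nat.prime_two).mp (hp.dvd_of_dvd_pow hpn))
    rcases h with h | h | h | h | h | h | h | h | h | h | h | h | h
    · exact (two 0 (by rw [h]; norm_num)).elim
    · exact (two 1 (by rw [h]; norm_num)).elim
    · exact (two 2 (by rw [h]; norm_num)).elim
    · exact (two 3 (by rw [h]; norm_num)).elim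
    · exact (two 4 (by rw [h]; norm_num)).elim
    · exact ⟨3, 0, 4, by norm_num, by norm_num, by omega, by unfold Shape; simp⟩
    · exact ⟨5, 0, 4, by norm_num, by norm_num, by omega, by unfold Shape; simp⟩
    · exact ⟨7, 0, 4, by norm_num, by norm_num, by omega, by unfold Shape; simp⟩
    · exact ⟨3, 1, 4, by norm_num, by norm_num, by omega, by unfold Shape; simp⟩
    · exact ⟨5, 0, 3, by norm_num, by norm_num, by omega, by unfold Shape; simp⟩
    · exact ⟨7, 0, 3, by norm_num, by norm_num, by omega, by unfold Shape; simp⟩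
    · exact ⟨5, 0, 6, by norm_num, by norm_num, by omega, by unfold Shape; simp⟩
    · exact ⟨7, 0, 6, by norm_num, by norm_num, by omega, by unfold Shape; simp⟩
  · obtain ⟨q, k, hq, hq2, hmq⟩ := goodPP_pow hm
    rw [hmq] at hm h
    rcases h with h | h
    · exact ⟨q, k, 1, hq, hq2, by rw [h, mul_one], Or.inl ⟨Or.inl rfl, hm⟩⟩
    · exact ⟨q, k, 2, hq, hq2, by rw [h, mul_comm], Or.inl ⟨Or.inr rfl, hm⟩⟩

lemma shape_coprime {q k c : ℕ} (hq : q.Prime) (hq2 : q ≠ 2) (h : Shape q k c) : ¬ q ∣ c := by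
  have hq3 : 3 ≤ q := by
    have := hq.two_le
    omega
  rcases h with ⟨h | h, _⟩ | ⟨h, _⟩ | ⟨h | h, _, h5 | h5⟩
  · subst h; intro h; have := Nat.le_of_dvd (by norm_num) h; omega
  · subst h; intro h; have := Nat.le_of_dvd (by norm_num) h; omega
  · subst h
    intro h
    have h4 : q ∣ 2 ^ 2 := h
    exact hq2 ((Nat.prime_dvd_prime_iff_eq hq Nat.prime_two).mp (hq.dvd_of_dvd_pow h4))
  all_goals subst h; subst h5; norm_num

lemma shape_c {q k c : ℕ} (h : Shape q k c) : c = 1 ∨ c = 2 ∨ c = 3 ∨ c = 4 ∨ c = 6 := by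
  rcases h with ⟨h | h, _⟩ | ⟨h, _⟩ | ⟨h | h, _, _⟩ <;> omega

/-- squares of units modulo small numbers -/
lemma sq_mod {c : ℕ} (hc : c = 1 ∨ c = 2 ∨ c = 3 ∨ c = 4 ∨ c = 6) (j : ℤ)
    (hj : ∀ p : ℕ, p.Prime → p ∣ c → ¬ (p : ℤ) ∣ j) : (c : ℤ) ∣ j * j - 1 := by
  rcases hc with rfl | rfl | rfl | rfl | rfl
  · simp
  · have h2 := hj 2 Nat.prime_two (by norm_num)
    have h : j % 2 = 1 := by omega
    apply Int.dvd_of_emod_eq_zero
    simp [Int.sub_emod, Int.mul_emod, h]
  · have h3 := hj 3 Nat.prime_three (by norm_num)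
    have h : j % 3 = 1 ∨ j % 3 = 2 := by omega
    apply Int.dvd_of_emod_eq_zero
    rcases h with h | h <;> simp [Int.sub_emod, Int.mul_emod, h]
  · have h2 := hj 2 Nat.prime_two (by norm_num)
    have h : j % 4 = 1 ∨ j % 4 = 3 := by omega
    apply Int.dvd_of_emod_eq_zero
    rcases h with h | h <;> simp [Int.sub_emod, Int.mul_emod, h]
  · have h2 := hj 2 Nat.prime_two (by norm_num)
    have h3 := hj 3 Nat.prime_three (by norm_num)
    have h : j % 6 = 1 ∨ j % 6 = 5 := by omega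
    apply Int.dvd_of_emod_eq_zero
    rcases h with h | h <;> simp [Int.sub_emod, Int.mul_emod, h]

/-- a character of order two -/
lemma exists_chi {H : Type} [Group H] [Finite H] (C : Subgroup H) [C.Normal]
    (hcyc : IsCyclic (H ⧸ C)) (he : 2 ∣ C.index) :
    ∃ χ : H →* ℤˣ, (∀ c ∈ C, χ c = 1) ∧ ∃ x, χ x = -1 := by
  obtain ⟨e⟩ := cyc_iso (Q := H ⧸ C) hcyc
  have he' : 2 ∣ Nat.card (H ⧸ C) := he
  let f : cyc (Nat.card (H ⧸ C)) →* cyc 2 :=
    (AddMonoidHom.toMultiplicative (ZMod.castHom he' (ZMod 2)).toAddMonoidHom)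
  have hf : Function.Surjective f := cyc_surj he'
  refine ⟨((sgnIso.symm.toMonoidHom.comp f).comp e.symm.toMonoidHom).comp (QuotientGroup.mk' C),
    ?_, ?_⟩
  · intro c hc
    have : QuotientGroup.mk' C c = 1 := (QuotientGroup.eq_one_iff _).mpr hc
    simp only [MonoidHom.comp_apply, this, map_one]
  · have hs : Function.Surjective (((sgnIso.symm.toMonoidHom.comp f).comp e.symm.toMonoidHom).comp
        (QuotientGroup.mk' C)) :=
      ((sgnIso.symm.surjective.comp hf).comp e.symm.surjective).comp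
        (QuotientGroup.mk'_surjective C)
    exact hs (-1)

/-- passing to the external semidirect product -/
lemma K_ext (hK : SHAClosed K) {G : Type} [Group G] (hG : K G) (N H : Subgroup G) [hN : N.Normal]
    (hc : N.IsComplement' H) : ∃ φ : H →* MulAut N,
      (∀ (h : H) (n : N), ((φ h n : N) : G) = h * n * (h : G)⁻¹) ∧ K (N ⋊[φ] H) := by
  refine ⟨_, ?_, iso hK (SemidirectProduct.mulEquivSubgroup hc).symm hG⟩
  intro h n
  rfl

end Pool.Agent.SHAF
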