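import Mathlib
import Pool.Agent.SHAF.Decomp

set_option autoImplicit false

/-!
Groups with a cyclic Fitting subgroup: the set-up.
-/

namespace Pool.Agent.SHAF

open Pool.Agent.SHA

variable {K : (G : Type) → [Group G] → Prop}

lemma conj_zpow' {G : Type} [Group G] (x y : G) (i : ℤ) : x * y ^ i * x⁻¹ = (x * y * x⁻¹) ^ i :=
  conj_zpow.symm

lemma zpowers_normal {G : Type} [Group G] (g : G) (hconj : ∀ x : G, ∃ j : ℤ, x * g * x⁻¹ = g ^ j)
    (a : ℕ) : (Subgroup.zpowers (g ^ a)).Normal := by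
  refine ⟨fun y hy x => ?_⟩
  obtain ⟨i, rfl⟩ := Subgroup.mem_zpowers_iff.mp hy
  obtain ⟨j, hj⟩ := hconj x
  refine Subgroup.mem_zpowers_iff.mpr ⟨j * i, ?_⟩
  rw [conj_zpow', ← conj_pow, hj, ← zpow_natCast, ← zpow_natCast, ← zpow_mul, ← zpow_mul,
    ← zpow_mul]
  congr 1
  ring

theorem cycF_setup (hK : SHAClosed K) (hE : ¬ K (E 3)) {G : Type} [Group G] [Finite G] (hG : K G)
    (F : Subgroup G) [hFn : F.Normal] (hFc : IsCyclic F)
    (hCF : Subgroup.centralizer (F : Set G) ≤ F) {q k c : ℕ} (hq : q.Prime) (hq2 : q ≠ 2)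
    (hcard : Nat.card F = q ^ (k + 1) * c) (hs : Shape q k c) :
    ∃ (N R H : Subgroup G), N.Normal ∧ R.Normal ∧ IsCyclic N ∧ IsCyclic R ∧
      Nat.card N = q ^ (k + 1) ∧ Nat.card R = c ∧ N.IsComplement' H ∧ R ≤ H ∧ N ≤ F ∧ R ≤ F ∧
      ¬ q ∣ Nat.card H ∧
      (∀ x : G, (∀ y ∈ N, x * y = y * x) → (∀ y ∈ R, x * y = y * x) → x ∈ F) ∧
      (∀ x ∈ F, x ∈ H → x ∈ R) ∧
      (∀ x : G, (∀ y ∈ N, x * y = y * x) → x * x ∈ F) := by
  haveI : Fact q.Prime := ⟨hq⟩
  set m := q ^ (k + 1) with hm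
  set n := m * c with hn
  have hqc := shape_coprime hq hq2 hs
  have hcop : Nat.Coprime m c := Nat.Coprime.pow_left _ ((Nat.Prime.coprime_iff_not_dvd hq).mpr hqc)
  have hm0 : 0 < m := pow_pos hq.pos _
  have hc0 : 0 < c := by
    rcases shape_c hs with h | h | h | h | h <;> omega
  obtain ⟨⟨g, hgF⟩, hgen⟩ := hFc.exists_generator
  have hzF : Subgroup.zpowers g = F := by
    apply le_antisymm ((Subgroup.zpowers_le).mpr hgF)
    intro x hx
    obtain ⟨i, hi⟩ := Subgroup.mem_zpowers_iff.mp (hgen ⟨x, hx⟩)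
    exact Subgroup.mem_zpowers_iff.mpr ⟨i, congrArg Subtype.val hi⟩
  have hgo : orderOf g = n := by rw [← Nat.card_zpowers, hzF, hcard]
  have hpow : ∀ i : ℤ, g ^ i = 1 ↔ (n : ℤ) ∣ i := by
    intro i
    rw [← orderOf_dvd_iff_zpow_eq_one, hgo]
  have hconj : ∀ x : G, ∃ j : ℤ, x * g * x⁻¹ = g ^ j := by
    intro x
    have h1 : x * g * x⁻¹ ∈ F := hFn.conj_mem g hgF x
    rw [← hzF] at h1
    obtain ⟨j, hj⟩ := Subgroup.mem_zpowers_iff.mp h1
    exact ⟨j, hj.symm⟩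
  have hjc : ∀ (x : G) (j : ℤ), x * g * x⁻¹ = g ^ j → ∀ p : ℕ, p.Prime → p ∣ n → ¬ (p : ℤ) ∣ j := by
    rintro x j hj p hp ⟨b, hb⟩ ⟨a, ha⟩
    have h1 : (x * g * x⁻¹) ^ (b : ℤ) = 1 := by
      rw [hj, ← zpow_mul, hpow, ha, hb]
      push_cast
      exact ⟨a, by ring⟩
    have h2 : g ^ (b : ℤ) = 1 := by
      have h3 : x * g ^ (b : ℤ) * x⁻¹ = x * 1 * x⁻¹ := by
        rw [conj_zpow', h1]; group
      exact mul_left_cancel (mul_right_cancel h3)
    rw [hpow] at h2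
    have h3 : n ∣ b := by exact_mod_cast h2
    have hb0 : 0 < b := by
      rcases Nat.eq_zero_or_pos b with h | h
      · rw [h, mul_zero] at hb
        have : 0 < n := Nat.mul_pos hm0 hc0
        omega
      · exact h
    have h4 := Nat.le_of_dvd hb0 h3
    have := hp.two_le
    nlinarith
  set N := Subgroup.zpowers (g ^ c) with hN
  set R := Subgroup.zpowers (g ^ m) with hR
  haveI hNn : N.Normal := zpowers_normal g hconj c
  haveI hRn : R.Normal := zpowers_normal g hconj m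
  have hNc : Nat.card N = m := by
    rw [hN, Nat.card_zpowers, orderOf_pow_of_dvd hc0.ne' (by rw [hgo]; exact Dvd.intro_left m rfl),
      hgo, hn, Nat.mul_div_left _ hc0]
  have hRc : Nat.card R = c := by
    rw [hR, Nat.card_zpowers, orderOf_pow_of_dvd hm0.ne' (by rw [hgo]; exact Dvd.intro c rfl),
      hgo, hn, Nat.mul_div_right _ hm0]
  have hNF : N ≤ F := by
    rw [hN, Subgroup.zpowers_le, ← hzF]
    exact Subgroup.npow_mem_zpowers g c
  have hRF : R ≤ F := by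
    rw [hR, Subgroup.zpowers_le, ← hzF]
    exact Subgroup.npow_mem_zpowers g m
  have hFcomm : ∀ x ∈ F, ∀ y ∈ F, x * y = y * x := by
    intro x hx y hy
    rw [← hzF] at hx hy
    obtain ⟨i, rfl⟩ := Subgroup.mem_zpowers_iff.mp hx
    obtain ⟨j, rfl⟩ := Subgroup.mem_zpowers_iff.mp hy
    rw [← zpow_add, ← zpow_add, add_comm]
  have hcent : ∀ x : G, x * g = g * x → x ∈ F := by
    intro x hx
    apply hCF
    rw [Subgroup.mem_centralizer_iff]
    intro y hy
    have hy' : y ∈ F := hy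
    rw [← hzF] at hy'
    obtain ⟨i, rfl⟩ := Subgroup.mem_zpowers_iff.mp hy'
    exact ((show Commute x g from hx).zpow_right i).symm
  have hjN : ∀ (x : G) (j : ℤ), x * g * x⁻¹ = g ^ j → (x * g ^ c = g ^ c * x) → (m : ℤ) ∣ j - 1 := by
    intro x j hj hx
    have h1 : x * g ^ c * x⁻¹ = g ^ c := by rw [hx]; group
    rw [← conj_pow, hj] at h1
    have h2 : g ^ (j * c - c) = 1 := by
      rw [zpow_sub, zpow_mul, zpow_natCast, h1, zpow_natCast, mul_inv_cancel]
    rw [hpow, hn] at h2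
    have h3 : ((m * c : ℕ) : ℤ) = m * c := by push_cast; rfl
    have h4 : j * c - c = (j - 1) * c := by ring
    rw [h3, h4] at h2
    exact Int.dvd_of_mul_dvd_mul_right (by exact_mod_cast hc0.ne') h2
  have hjR : ∀ (x : G) (j : ℤ), x * g * x⁻¹ = g ^ j → (x * g ^ m = g ^ m * x) → (c : ℤ) ∣ j - 1 := by
    intro x j hj hx
    have h1 : x * g ^ m * x⁻¹ = g ^ m := by rw [hx]; group
    rw [← conj_pow, hj] at h1
    have h2 : g ^ (j * m - m) = 1 := by
      rw [zpow_sub, zpow_mul, zpow_natCast, h1, zpow_natCast, mul_inv_cancel]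
    rw [hpow, hn] at h2
    have h3 : ((m * c : ℕ) : ℤ) = c * m := by push_cast; ring
    have h4 : j * m - m = (j - 1) * m := by ring
    rw [h3, h4] at h2
    exact Int.dvd_of_mul_dvd_mul_right (by exact_mod_cast hm0.ne') h2
  have hcopZ : IsCoprime (m : ℤ) (c : ℤ) := Nat.isCoprime_iff_coprime.mpr hcop
  have hnZ : (n : ℤ) = m * c := by rw [hn]; push_cast; rfl
  have hcentral : ∀ x : G, (∀ y ∈ N, x * y = y * x) → (∀ y ∈ R, x * y = y * x) → x ∈ F := by
    intro x hxN hxR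
    obtain ⟨j, hj⟩ := hconj x
    have h1 := hjN x j hj (hxN _ (Subgroup.mem_zpowers _))
    have h2 := hjR x j hj (hxR _ (Subgroup.mem_zpowers _))
    have h3 : (n : ℤ) ∣ j - 1 := by rw [hnZ]; exact hcopZ.mul_dvd h1 h2
    have h4 := (hpow _).mpr h3
    rw [zpow_sub, zpow_one, ← hj] at h4
    apply hcent
    have h5 : x * g * x⁻¹ = g := mul_inv_eq_one.mp h4
    exact mul_inv_eq_iff_eq_mul.mp h5
  have hsq : ∀ x : G, (∀ y ∈ N, x * y = y * x) → x * x ∈ F := by
    intro x hxN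
    obtain ⟨j, hj⟩ := hconj x
    have h1 := hjN x j hj (hxN _ (Subgroup.mem_zpowers _))
    have h2 : (m : ℤ) ∣ j * j - 1 := by
      obtain ⟨a, ha⟩ := h1
      exact ⟨a * (j + 1), by linear_combination (j + 1) * ha⟩
    have h3 : (c : ℤ) ∣ j * j - 1 := sq_mod (shape_c hs) j
      (fun p hp hpc => hjc x j hj p hp (Dvd.dvd.mul_left hpc m))
    have h4 : (n : ℤ) ∣ j * j - 1 := by rw [hnZ]; exact hcopZ.mul_dvd h2 h3
    have h5 := (hpow _).mpr h4
    rw [zpow_sub, zpow_one] at h5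
    have h6 : (x * x) * g * (x * x)⁻¹ = g ^ (j * j) := by
      calc (x * x) * g * (x * x)⁻¹ = x * (x * g * x⁻¹) * x⁻¹ := by group
        _ = x * g ^ j * x⁻¹ := by rw [hj]
        _ = g ^ (j * j) := by rw [conj_zpow', hj, zpow_mul]
    rw [← h6] at h5
    apply hcent
    exact mul_inv_eq_iff_eq_mul.mp (mul_inv_eq_one.mp h5)
  -- N is a Sylow subgroup
  have hNp : IsPGroup q N := IsPGroup.of_card hNc
  obtain ⟨Q, hQ⟩ := hNp.exists_le_sylow
  have hKQ : K Q := hK.sub _ _ Q.1.subtype Q.1.subtype_injective hG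
  have hQc : IsCyclic Q := odd_p_groups hK hE hq hq2 hKQ Q.2
  have hQF : Q.1 ≤ F := by
    intro y hy
    have hyc : ∀ z ∈ N, y * z = z * y := by
      intro z hz
      letI := IsCyclic.commGroup (α := Q)
      exact congrArg Subtype.val (mul_comm (⟨y, hy⟩ : Q) ⟨z, hQ hz⟩)
    have h1 := hsq y hyc
    obtain ⟨b, hb⟩ := IsPGroup.iff_card.mp Q.2
    have h2 : y ^ (q ^ b) = 1 := by
      have h3 : (⟨y, hy⟩ : Q) ^ Nat.card Q = 1 := pow_card_eq_one'
      rw [hb] at h3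
      exact congrArg Subtype.val h3
    have hodd : q ^ b % 2 = 1 := by
      have h3 : q % 2 = 1 := by
        rcases hq.eq_two_or_odd with h | h
        · exact absurd h hq2
        · exact h
      rw [Nat.pow_mod, h3, one_pow]
      norm_num
    have h3 : y = (y * y) ^ ((q ^ b + 1) / 2) := by
      rw [← pow_two, ← pow_mul]
      have h4 : 2 * ((q ^ b + 1) / 2) = q ^ b + 1 := by omega
      rw [h4, pow_succ, h2, one_mul]
    rw [h3]
    exact F.pow_mem h1 _
  have hQN : Q.1 = N := by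
    have h1 : Nat.card Q ∣ m * c := by
      rw [← hn, ← hcard]
      exact Subgroup.card_dvd_of_le hQF
    obtain ⟨b, hb⟩ := IsPGroup.iff_card.mp Q.2
    have h2 : Nat.card Q ∣ m := by
      apply Nat.Coprime.dvd_of_dvd_mul_right _ h1
      rw [hb]
      exact Nat.Coprime.pow_left _ ((Nat.Prime.coprime_iff_not_dvd hq).mpr hqc)
    exact (Subgroup.eq_of_le_of_card_ge hQ (by rw [hNc]; exact Nat.le_of_dvd hm0 h2)).symm
  have hidx : ¬ q ∣ N.index := by
    rw [← hQN]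
    exact Q.not_dvd_index
  have hcopN : Nat.Coprime (Nat.card N) N.index := by
    rw [hNc]
    exact Nat.Coprime.pow_left _ ((Nat.Prime.coprime_iff_not_dvd hq).mpr hidx)
  obtain ⟨H, hH⟩ := Subgroup.exists_right_complement'_of_coprime hcopN
  have hHc : ¬ q ∣ Nat.card H := by
    rw [← hH.symm.index_eq_card]
    exact hidx
  have hdisj : ∀ x ∈ N, x ∈ H → x = 1 := by
    intro x hx hx'
    exact (Subgroup.disjoint_def.mp hH.disjoint) hx hx'
  have hdec : ∀ x : G, ∃ a ∈ N, ∃ b ∈ H, x = a * b := by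
    intro x
    obtain ⟨⟨a, b⟩, hab⟩ := hH.2 x
    exact ⟨a.1, a.2, b.1, b.2, hab.symm⟩
  have hRH : R ≤ H := by
    intro y hy
    obtain ⟨a, ha, b, hb, rfl⟩ := hdec y
    have h1 : a * (a * b) = (a * b) * a := hFcomm _ (hNF ha) _ (hRF hy)
    have h2 : Commute a b := by
      have h3 : a * (a * b) = a * (b * a) := by rw [h1, mul_assoc]
      exact mul_left_cancel h3
    have h3 : (a * b) ^ c = 1 := by
      have h4 : (⟨a * b, hy⟩ : R) ^ Nat.card R = 1 := pow_card_eq_one'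
      rw [hRc] at h4
      exact congrArg Subtype.val h4
    rw [h2.mul_pow] at h3
    have h4 : a ^ c = 1 := by
      apply hdisj _ (N.pow_mem ha c)
      rw [eq_inv_of_mul_eq_one_left h3]
      exact H.inv_mem (H.pow_mem hb c)
    have h5 : a ^ m = 1 := by
      have h6 : (⟨a, ha⟩ : N) ^ Nat.card N = 1 := pow_card_eq_one'
      rw [hNc] at h6
      exact congrArg Subtype.val h6
    have h6 : orderOf a ∣ Nat.gcd m c := Nat.dvd_gcd (orderOf_dvd_of_pow_eq_one h5)
      (orderOf_dvd_of_pow_eq_one h4)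
    rw [hcop, Nat.dvd_one, orderOf_eq_one_iff] at h6
    rw [h6, one_mul]
    exact hb
  have hFNR : ∀ x ∈ F, ∃ a ∈ N, ∃ b ∈ R, x = a * b := by
    intro x hx
    rw [← hzF] at hx
    obtain ⟨i, rfl⟩ := Subgroup.mem_zpowers_iff.mp hx
    obtain ⟨u, v, huv⟩ := hcopZ
    refine ⟨(g ^ c) ^ (v * i), Subgroup.zpow_mem_zpowers _ _, (g ^ m) ^ (u * i),
      Subgroup.zpow_mem_zpowers _ _, ?_⟩
    rw [← zpow_natCast, ← zpow_natCast, ← zpow_mul, ← zpow_mul, ← zpow_add]
    congr 1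
    linear_combination (-i) * huv
  refine ⟨N, R, H, hNn, hRn, inferInstance, inferInstance, hNc, hRc, hH, hRH, hNF, hRF, hHc,
    hcentral, ?_, hsq⟩
  intro x hxF hxH
  obtain ⟨a, ha, b, hb, rfl⟩ := hFNR x hxF
  have h1 : a = 1 := by
    apply hdisj a ha
    have h2 : a = (a * b) * b⁻¹ := by group
    rw [h2]
    exact H.mul_mem hxH (H.inv_mem (hRH hb))
  rw [h1, one_mul]
  exact hb

end Pool.Agent.SHAF
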