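import Mathlib
import Pool.Agent.SHAF.CycF

set_option autoImplicit false

/-!
Groups with a cyclic Fitting subgroup: the classification.
-/

namespace Pool.Agent.SHAF

open Pool.Agent.SHA

variable {K : (G : Type) → [Group G] → Prop}

/-- a finite group with a cyclic 2-group as self-centralising normal subgroup is a 2-group -/
lemma two_of_cyc {G : Type} [Group G] [Finite G] (F : Subgroup G) [hFn : F.Normal]
    (hFc : IsCyclic F) (hCF : Subgroup.centralizer (F : Set G) ≤ F)
    (h2 : ∀ p : ℕ, p.Prime → p ∣ Nat.card F → p = 2) : Group.IsNilpotent G := by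
  haveI : Fact (Nat.Prime 2) := ⟨Nat.prime_two⟩
  have hF : Nat.card F = 2 ^ (Nat.card F).primeFactorsList.length :=
    Nat.eq_prime_pow_of_unique_prime_dvd Nat.card_pos.ne' (fun {d} hd hdn => h2 d hd hdn)
  have hG : ∀ p : ℕ, p.Prime → p ∣ Nat.card G → p = 2 := by
    intro p hp hpG
    by_contra hp2
    haveI : Fact p.Prime := ⟨hp⟩
    obtain ⟨x, hx⟩ := exists_prime_orderOf_dvd_card' p hpG
    have h3 : orderOf (MulAut.conjNormal x : MulAut F) ∣ p := by
      rw [← hx]
      exact orderOf_map_dvd _ x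
    haveI : Finite (MulAut F) := Nat.finite_of_card_ne_zero (by
      rw [IsCyclic.card_mulAut]
      exact (Nat.totient_pos.mpr Nat.card_pos).ne')
    have h4 : orderOf (MulAut.conjNormal x : MulAut F) ∣ (Nat.card F).totient := by
      rw [← IsCyclic.card_mulAut]
      exact orderOf_dvd_natCard _
    have h5 : ¬ p ∣ (Nat.card F).totient := by
      rw [hF]
      rcases Nat.eq_zero_or_pos (Nat.card F).primeFactorsList.length with h | h
      · rw [h, pow_zero, Nat.totient_one, Nat.dvd_one]
        exact hp.ne_one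
      · rw [Nat.totient_prime_pow Nat.prime_two h]
        intro h6
        simp only [Nat.add_one_sub_one, mul_one] at h6
        exact hp2 ((Nat.prime_dvd_prime_iff_eq hp Nat.prime_two).mp (hp.dvd_of_dvd_pow h6))
    have h6 : (MulAut.conjNormal x : MulAut F) = 1 := by
      rcases (Nat.dvd_prime hp).mp h3 with h | h
      · exact orderOf_eq_one_iff.mp h
      · rw [h] at h4
        exact absurd h4 h5
    have h7 : x ∈ F := by
      apply hCF
      rw [Subgroup.mem_centralizer_iff]
      intro y hy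
      have h8 : x * y * x⁻¹ = y := by
        have h9 := congrArg Subtype.val (DFunLike.congr_fun h6 (⟨y, hy⟩ : F))
        rwa [MulAut.conjNormal_apply] at h9
      exact (mul_inv_eq_iff_eq_mul.mp h8).symm
    have h8 : p ∣ Nat.card F := by
      rw [← hx]
      exact Subgroup.orderOf_dvd_natCard F h7
    exact hp2 (h2 p hp h8)
  have h9 : IsPGroup 2 G := IsPGroup.of_card
    (Nat.eq_prime_pow_of_unique_prime_dvd Nat.card_pos.ne' (fun {d} hd hdn => hG d hd hdn))
  exact h9.isNilpotent

lemma index_comap_card {H : Type} [Group H] [Finite H] (R : Subgroup H) [R.Normal]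
    (he : 2 ∣ R.index) : ∃ P : Subgroup H, R ≤ P ∧ Nat.card P = 2 * Nat.card R := by
  haveI : Fact (Nat.Prime 2) := ⟨Nat.prime_two⟩
  obtain ⟨t, ht⟩ := exists_prime_orderOf_dvd_card' (G := H ⧸ R) 2 he
  refine ⟨(Subgroup.zpowers t).comap (QuotientGroup.mk' R), ?_, ?_⟩
  · intro x hx
    rw [Subgroup.mem_comap]
    have : QuotientGroup.mk' R x = 1 := (QuotientGroup.eq_one_iff _).mpr hx
    rw [this]
    exact Subgroup.one_mem _
  · have h1 := ((Subgroup.zpowers t).comap (QuotientGroup.mk' R)).card_mul_index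
    rw [Subgroup.index_comap_of_surjective _ (QuotientGroup.mk'_surjective R)] at h1
    have h2 := (Subgroup.zpowers t).card_mul_index
    rw [Nat.card_zpowers, ht] at h2
    have h3 := R.card_mul_index
    have h4 : Nat.card (H ⧸ R) = R.index := rfl
    rw [h4] at h2
    have h5 : (Subgroup.zpowers t).index ≠ 0 := Subgroup.FiniteIndex.index_ne_zero
    rw [← h2] at h3
    have h6 : Nat.card ((Subgroup.zpowers t).comap (QuotientGroup.mk' R)) * (Subgroup.zpowers t).index
        = 2 * Nat.card R * (Subgroup.zpowers t).index := by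
      rw [h1, ← h3]; ring
    exact Nat.eq_of_mul_eq_mul_right (Nat.pos_of_ne_zero h5) h6

theorem cycF_meta (hK : SHAClosed K) (hE : ¬ K (E 3)) {G : Type} [Group G] [Finite G] (hG : K G)
    (F : Subgroup G) [hFn : F.Normal] (hFc : IsCyclic F)
    (hCF : Subgroup.centralizer (F : Set G) ≤ F)
    (hmax : ∀ M : Subgroup G, M.Normal → Group.IsNilpotent M → F ≤ M → M = F)
    (hnn : ¬ Group.IsNilpotent G) : MetaList G := by
  haveI : Fact (Nat.Prime 2) := ⟨Nat.prime_two⟩
  have hKF : K F := hK.sub _ _ F.subtype F.subtype_injective hG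
  obtain ⟨eF⟩ := cyc_iso hFc
  have hgood : Good (Nat.card F) := cyc_good hK hE _ Nat.card_pos (iso hK eF.symm hKF)
  obtain ⟨p, hp, hpF, hp2⟩ : ∃ p : ℕ, p.Prime ∧ p ∣ Nat.card F ∧ p ≠ 2 := by
    by_contra hall
    push Not at hall
    exact hnn (two_of_cyc F hFc hCF hall)
  obtain ⟨q, k, c, hq, hq2, hcard, hs⟩ := good_decomp hgood p hp hp2 hpF
  haveI : Fact q.Prime := ⟨hq⟩
  obtain ⟨N, R, H, hNn, hRn, hNcyc, hRcyc, hNc, hRc, hH, hRH, hNF, hRF, hHq, hcen, hFH, hsq⟩ :=
    cycF_setup hK hE hG F hFc hCF hq hq2 hcard hs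
  haveI := hNn
  haveI := hRn
  have hFcomm : ∀ x ∈ F, ∀ y ∈ F, x * y = y * x := by
    intro x hx y hy
    letI := IsCyclic.commGroup (α := F)
    exact congrArg Subtype.val (mul_comm (⟨x, hx⟩ : F) ⟨y, hy⟩)
  obtain ⟨φ, hφ, hKφ⟩ := K_ext hK hG N H hH
  have hq3 : 3 ≤ q := by
    have := hq.two_le
    omega
  have hqodd : q % 2 = 1 := by
    rcases hq.eq_two_or_odd with h | h
    · exact absurd h hq2
    · exact h
  have hφ1 : ∀ h : H, φ h = 1 ↔ ∀ y ∈ N, (h : G) * y = y * h := by
    intro h
    constructor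
    · intro h1 y hy
      have h2 : (h : G) * y * (h : G)⁻¹ = y := by
        rw [← hφ h ⟨y, hy⟩, h1]; rfl
      exact mul_inv_eq_iff_eq_mul.mp h2
    · intro h1
      refine MulEquiv.ext fun y => ?_
      apply Subtype.ext
      rw [hφ, h1 y.1 y.2]
      simp
  have hφR : ∀ h : H, (h : G) ∈ R → φ h = 1 := by
    intro h hh
    rw [hφ1]
    intro y hy
    exact hFcomm _ (hRF hh) _ (hNF hy)
  -- elements of H that invert elements of R of order 3
  have hinv : (c = 3 ∨ c = 6) → ∀ h ∈ H, ∀ y ∈ R, h * y = y * h := by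
    intro hc h hh
    have hk : k = 0 ∧ (q = 5 ∨ q = 7) := by
      rcases hs with ⟨h1, _⟩ | ⟨h1, _⟩ | ⟨_, h1, h2⟩
      · omega
      · omega
      · exact ⟨h1, h2⟩
    obtain ⟨ρ, hρ⟩ := hRcyc.exists_generator
    have hzR : ∀ y ∈ R, ∃ i : ℤ, y = (ρ : G) ^ i := by
      intro y hy
      obtain ⟨i, hi⟩ := Subgroup.mem_zpowers_iff.mp (hρ ⟨y, hy⟩)
      exact ⟨i, (congrArg Subtype.val hi).symm⟩
    have hρo : orderOf (ρ : G) = c := by
      rw [Subgroup.orderOf_coe, ← Nat.card_zpowers, ← hRc]
      have : Subgroup.zpowers ρ = ⊤ := by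
        rw [eq_top_iff]
        intro x _
        exact hρ x
      rw [this]
      exact Nat.card_congr Subgroup.topEquiv.toEquiv
    obtain ⟨j, hj⟩ := hzR _ (hRn.conj_mem _ ρ.2 h)
    have hpw : ∀ i : ℤ, (ρ : G) ^ i = 1 ↔ (c : ℤ) ∣ i := by
      intro i
      rw [← orderOf_dvd_iff_zpow_eq_one, hρo]
    have hjp : ∀ p b : ℕ, c = p * b → 1 < p → 0 < b → ¬ (p : ℤ) ∣ j := by
      rintro p b hpb hp1 hb ⟨a, ha⟩
      have h1 : (h * ρ * h⁻¹) ^ (b : ℤ) = 1 := by
        rw [hj, ← zpow_mul, hpw, ha, hpb]
        push_cast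
        exact ⟨a, by ring⟩
      have h2 : (ρ : G) ^ (b : ℤ) = 1 := by
        have h3 : h * (ρ : G) ^ (b : ℤ) * h⁻¹ = h * 1 * h⁻¹ := by
          rw [conj_zpow', h1]; group
        exact mul_left_cancel (mul_right_cancel h3)
      rw [hpw] at h2
      have h3 : c ∣ b := by exact_mod_cast h2
      have h4 := Nat.le_of_dvd hb h3
      nlinarith
    have hjj : (c : ℤ) ∣ j - 1 ∨ (c : ℤ) ∣ j + 1 := by
      rcases hc with h3 | h6
      · have h1 := hjp 3 1 (by omega) (by norm_num) (by norm_num)
        subst h3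
        push_cast at *
        omega
      · have h1 := hjp 3 2 (by omega) (by norm_num) (by norm_num)
        have h2 := hjp 2 3 (by omega) (by norm_num) (by norm_num)
        subst h6
        have h1' : ¬ (3 : ℤ) ∣ j := by exact_mod_cast h1
        have h2' : ¬ (2 : ℤ) ∣ j := by exact_mod_cast h2
        have h6 : j % 6 = 1 ∨ j % 6 = 5 := by
          have h7 : j % 6 = 0 ∨ j % 6 = 1 ∨ j % 6 = 2 ∨ j % 6 = 3 ∨ j % 6 = 4 ∨ j % 6 = 5 := by omega
          rcases h7 with h | h | h | h | h | h
          · omega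
          · exact Or.inl h
          · omega
          · omega
          · omega
          · exact Or.inr h
        push_cast
        rcases h6 with h | h
        · left; omega
        · right; omega
    rcases hjj with h1 | h1
    · have h2 : h * (ρ : G) * h⁻¹ = ρ := by
        rw [hj, ← mul_inv_eq_one, ← zpow_neg_one, ← zpow_add, hpw]
        exact h1
      have h3 : Commute h (ρ : G) := mul_inv_eq_iff_eq_mul.mp h2
      intro y hy
      obtain ⟨i, rfl⟩ := hzR y hy
      exact h3.zpow_right i
    · exfalso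
      have h2 : h * (ρ : G) * h⁻¹ = (ρ : G)⁻¹ := by
        rw [hj, ← mul_inv_eq_one, inv_inv, ← zpow_add_one, hpw]
        exact h1
      obtain ⟨b, hb⟩ : ∃ b : ℕ, c = 3 * b := by
        rcases hc with h | h
        · exact ⟨1, by omega⟩
        · exact ⟨2, by omega⟩
      have hb0 : b ≠ 0 := by
        rintro rfl
        omega
      have hNq : Nat.card N = q := by rw [hNc, hk.1, zero_add, pow_one]
      have hrH : (ρ : G) ^ b ∈ H := H.pow_mem (hRH ρ.2) b
      refine hE (no_inv3 hK hNcyc φ hKφ hq (by omega) hNq ⟨(ρ : G) ^ b, hrH⟩ ⟨h, hh⟩ ?_ ?_ ?_)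
      · rw [← Subgroup.orderOf_coe]
        show orderOf ((ρ : G) ^ b) = 3
        rw [orderOf_pow_of_dvd hb0 (by rw [hρo, hb]; exact Dvd.intro_left 3 rfl), hρo, hb]
        exact Nat.mul_div_left 3 (Nat.pos_of_ne_zero hb0)
      · exact hφR _ (R.pow_mem ρ.2 b)
      · apply Subtype.ext
        show h * (ρ : G) ^ b * h⁻¹ = ((ρ : G) ^ b)⁻¹
        rw [← conj_pow, h2, inv_pow]
  -- small R
  have hsmall : (c = 1 ∨ c = 2) → ∀ h ∈ H, ∀ y ∈ R, h * y = y * h := by
    intro hc h _ y hy
    by_cases hy1 : y = 1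
    · rw [hy1]; simp
    · have hc2 : Nat.card R = 2 := by
        rw [hRc]
        rcases hc with h | h
        · exfalso
          rw [h] at hRc
          haveI := (Nat.card_eq_one_iff_unique.mp hRc).1
          exact hy1 (congrArg Subtype.val (Subsingleton.elim (⟨y, hy⟩ : R) 1))
        · exact h
      obtain ⟨s, hs1, hs2⟩ := (Nat.card_eq_two_iff' (1 : R)).mp hc2
      have h1 := hs2 ⟨y, hy⟩ (fun h => hy1 (congrArg Subtype.val h))
      have h2 := hs2 ⟨h * y * h⁻¹, hRn.conj_mem y hy h⟩ (fun h' => by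
        have h3 : h * y * h⁻¹ = 1 := congrArg Subtype.val h'
        have h4 : h * y * h⁻¹ = h * 1 * h⁻¹ := by rw [h3]; group
        exact hy1 (mul_left_cancel (mul_right_cancel h4)))
      have h3 : h * y * h⁻¹ = y := congrArg Subtype.val (h2.trans h1.symm)
      exact mul_inv_eq_iff_eq_mul.mp h3
  -- the kernel of the action
  have hker : ∀ h ∈ H, (∀ y ∈ N, h * y = y * h) → h ∈ R := by
    intro h hh hN
    rcases shape_c hs with hc | hc | hc | hc | hc
    · exact hFH h (hcen h hN (hsmall (Or.inl hc) h hh)) hh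
    · exact hFH h (hcen h hN (hsmall (Or.inr hc) h hh)) hh
    · exact hFH h (hcen h hN (hinv (Or.inl hc) h hh)) hh
    · -- the centraliser of N is nilpotent
      set C := Subgroup.centralizer (N : Set G) with hC
      have hCn : C.Normal := Subgroup.normal_centralizer
      have hFC : F ≤ C := by
        intro x hx
        rw [hC, Subgroup.mem_centralizer_iff]
        intro y hy
        exact hFcomm _ (hNF hy) _ hx
      have hmem : ∀ x, x ∈ C → ∀ y ∈ N, x * y = y * x := by
        intro x hx y hy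
        exact ((Subgroup.mem_centralizer_iff.mp hx) y hy).symm
      have hNC : N ≤ C := hNF.trans hFC
      have hnil : Group.IsNilpotent C := by
        haveI : (N.subgroupOf C).Normal := hNn.subgroupOf C
        have hp2 : IsPGroup 2 (C ⧸ N.subgroupOf C) := by
          intro x
          obtain ⟨y, rfl⟩ := QuotientGroup.mk'_surjective _ x
          refine ⟨3, ?_⟩
          rw [← map_pow]
          apply (QuotientGroup.eq_one_iff _).mpr
          rw [Subgroup.mem_subgroupOf]
          -- y * y in F, so its fourth power lies in N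
          have h1 : (y : G) * y ∈ F := hsq _ (hmem _ y.2)
          -- write y*y = a * b with a ∈ N, b ∈ R
          have h2 : ∃ a ∈ N, ∃ b ∈ H, (y : G) * y = a * b := by
            obtain ⟨⟨a, b⟩, hab⟩ := hH.2 ((y : G) * y)
            exact ⟨a.1, a.2, b.1, b.2, hab.symm⟩
          obtain ⟨a, ha, b, hb, hab⟩ := h2
          have hbF : b ∈ F := by
            have : b = a⁻¹ * ((y : G) * y) := by rw [hab]; group
            rw [this]
            exact F.mul_mem (F.inv_mem (hNF ha)) h1
          have hbR := hFH b hbF hb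
          have hb4 : b ^ 4 = 1 := by
            have h4 : (⟨b, hbR⟩ : R) ^ Nat.card R = 1 := pow_card_eq_one'
            rw [hRc, hc] at h4
            exact congrArg Subtype.val h4
          have hab' : Commute a b := hFcomm _ (hNF ha) _ hbF
          have h5 : ((y ^ 2 ^ 3 : C) : G) = a ^ 4 := by
            show (y : G) ^ 2 ^ 3 = a ^ 4
            have : (y : G) ^ 2 ^ 3 = ((y : G) * y) ^ 4 := by
              rw [← pow_two, ← pow_mul]
              norm_num
            rw [this, hab, hab'.mul_pow, hb4, mul_one]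
          rw [h5]
          exact N.pow_mem ha 4
        haveI : Group.IsNilpotent (C ⧸ N.subgroupOf C) := hp2.isNilpotent
        refine Subgroup.isNilpotent_of_ker_le_center (QuotientGroup.mk' (N.subgroupOf C)) ?_
        rw [QuotientGroup.ker_mk']
        intro x hx
        rw [Subgroup.mem_center_iff]
        intro y
        exact Subtype.ext (hmem y.1 y.2 x.1 hx)
      have hCF' := hmax C hCn hnil hFC
      apply hFH h _ hh
      rw [← hCF', hC, Subgroup.mem_centralizer_iff]
      intro y hy
      exact (hN y hy).symm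
    · exact hFH h (hcen h hN (hinv (Or.inr hc) h hh)) hh
  -- the quotient of H
  set RH := R.subgroupOf H with hRHdef
  haveI hRHn : RH.Normal := hRn.subgroupOf H
  have hkerφ : φ.ker = RH := by
    ext h
    rw [MonoidHom.mem_ker, hφ1, hRHdef, Subgroup.mem_subgroupOf]
    constructor
    · exact fun h1 => hker h.1 h.2 h1
    · exact fun h1 => (hφ1 h).mp (hφR h h1)
  have hRHc : Nat.card RH = c := by
    rw [← hRc]
    exact Nat.card_congr (Subgroup.subgroupOfEquivOfLe hRH).toEquiv
  set d := RH.index with hd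
  have hHcd : Nat.card H = c * d := by rw [← hRHc, hd, Subgroup.card_mul_index]
  have hcA : Nat.card (MulAut N) = q ^ k * (q - 1) := by
    rw [IsCyclic.card_mulAut, hNc, Nat.totient_prime_pow_succ hq]
  have hfinA : Finite (MulAut N) := Nat.finite_of_card_ne_zero (by
    rw [hcA]
    exact Nat.mul_ne_zero (pow_ne_zero _ hq.ne_zero) (by omega))
  have hAcyc : IsCyclic (MulAut N) := by
    haveI : IsCyclic (ZMod (q ^ (k + 1)))ˣ := ZMod.isCyclic_units_of_prime_pow q hq hq2 (k + 1)
    rw [← hNc] at this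
    exact isCyclic_of_surjective (IsCyclic.mulAutMulEquiv N).symm (IsCyclic.mulAutMulEquiv N).symm.surjective
  have hqcyc : IsCyclic (H ⧸ RH) := by
    have e : (H ⧸ φ.ker) ≃* φ.range := QuotientGroup.quotientKerEquivRange φ
    haveI : IsCyclic φ.range := inferInstance
    haveI : IsCyclic (H ⧸ φ.ker) := isCyclic_of_surjective e.symm e.symm.surjective
    have e2 : (H ⧸ φ.ker) ≃* (H ⧸ RH) := QuotientGroup.quotientMulEquivOfEq hkerφ
    exact isCyclic_of_surjective e2 e2.surjective
  have hdA : d ∣ q ^ k * (q - 1) := by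
    rw [← hcA, hd, ← hkerφ, Subgroup.index_ker]
    exact Subgroup.card_subgroup_dvd_card _
  have hdq : Nat.Coprime d (q ^ k) := by
    apply Nat.Coprime.pow_right
    apply Nat.Coprime.symm
    rw [Nat.Prime.coprime_iff_not_dvd hq]
    intro h
    exact hHq (h.trans (hHcd ▸ Dvd.intro_left c rfl))
  have hdq1 : d ∣ q - 1 := hdq.dvd_of_dvd_mul_left hdA
  have hdne0 : d ≠ 0 := Subgroup.FiniteIndex.index_ne_zero
  have hdne1 : d ≠ 1 := by
    intro h1
    apply hnn
    have hHR : H ≤ R := by
      intro x hx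
      have : RH = ⊤ := by rwa [hd, Subgroup.index_eq_one] at h1
      have h2 : (⟨x, hx⟩ : H) ∈ RH := by rw [this]; trivial
      exact h2
    have hFtop : F = ⊤ := by
      rw [eq_top_iff, ← hH.sup_eq_top]
      exact sup_le hNF (hHR.trans hRF)
    haveI : IsCyclic G := by
      rw [hFtop] at hFc
      exact isCyclic_of_surjective Subgroup.topEquiv Subgroup.topEquiv.surjective
    letI := IsCyclic.commGroup (α := G)
    infer_instance
  have hd1 : 1 < d := by omega
  obtain ⟨x0, hx0⟩ : ∃ x : H, φ x ≠ 1 := by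
    by_contra hall
    push Not at hall
    apply hdne1
    rw [hd, ← hkerφ, Subgroup.index_eq_one, eq_top_iff]
    intro x _
    exact hall x
  have hk0 : k = 0 := by
    by_contra hk
    obtain ⟨i, rfl⟩ : ∃ i, k = i + 1 := ⟨k - 1, by omega⟩
    exact hE (no_pp hK hNcyc φ hKφ hq hq2 hNc hHq x0 hx0)
  subst hk0
  have hNq : Nat.card N = q := by rw [hNc, zero_add, pow_one]
  have hN2 : ¬ 2 ∣ Nat.card N := by rw [hNq]; omega
  have hN1 : Nat.card N ≠ 1 := by rw [hNq]; omega
  have hHN : (H ⊓ Subgroup.centralizer (N : Set G) : Subgroup G) = R := by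
    ext x
    rw [Subgroup.mem_inf, Subgroup.mem_centralizer_iff]
    constructor
    · rintro ⟨h1, h2⟩
      exact hker x h1 (fun y hy => (h2 y hy).symm)
    · intro h1
      exact ⟨hRH h1, fun y hy => hFcomm _ (hNF hy) _ (hRF h1)⟩
  have hcomm_of : (∀ h ∈ H, ∀ y ∈ R, h * y = y * h) → ∀ x ∈ H, ∀ y ∈ H, x * y = y * x := by
    intro hz x hx y hy
    have h1 : ∀ a b : H, a * b = b * a := commutative_of_cyclic_center_quotient
      (QuotientGroup.mk' RH) (by
        rw [QuotientGroup.ker_mk']
        intro r hr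
        rw [Subgroup.mem_center_iff]
        intro h
        exact Subtype.ext (hz h.1 h.2 r.1 hr))
    exact congrArg Subtype.val (h1 ⟨x, hx⟩ ⟨y, hy⟩)
  have finish : (∀ h ∈ H, ∀ y ∈ R, h * y = y * h) → Params q c d → (c = 4 → IsCyclic H) →
      MetaList G := by
    intro hz hpar h4
    exact ⟨q, c, d, N, H, hq, hNn, hNq, hH, hcomm_of hz, by rw [hHN, hRc], hHcd, hd1, hpar, h4⟩
  -- the ninth order exclusion
  have h9 : (c = 3 ∨ c = 6) → q = 7 → ¬ 3 ∣ d := by
    intro hc hq7 h3d
    have h9 : 3 ^ 2 ∣ Nat.card H := by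
      rw [hHcd, pow_two]
      refine Nat.mul_dvd_mul ?_ h3d
      rcases hc with h | h <;> omega
    haveI : Fact (Nat.Prime 3) := ⟨Nat.prime_three⟩
    obtain ⟨S, hS⟩ := Sylow.exists_subgroup_card_pow_prime 3 h9
    have hKH : K H := hK.sub _ _ H.subtype H.subtype_injective hG
    have hKS : K S := hK.sub _ _ S.subtype S.subtype_injective hKH
    have hScyc : IsCyclic S := odd_p_groups hK hE Nat.prime_three (by norm_num) hKS
      (IsPGroup.of_card hS)
    obtain ⟨x, hx⟩ := IsCyclic.exists_ofOrder_eq_natCard (α := S)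
    have hxo : orderOf (x : H) = 9 := by rw [Subgroup.orderOf_coe, hx, hS]; norm_num
    have hx3 : φ ((x : H) ^ 3) = 1 := by
      rw [← MonoidHom.mem_ker, hkerφ]
      apply (QuotientGroup.eq_one_iff _).mp
      have h1 : orderOf (QuotientGroup.mk' RH (x : H)) ∣ 9 := by
        rw [← hxo]; exact orderOf_map_dvd _ _
      have h2 : orderOf (QuotientGroup.mk' RH (x : H)) ∣ 6 := by
        refine (orderOf_dvd_natCard _).trans ?_
        show d ∣ 6
        rw [hq7] at hdq1
        exact hdq1
      have h3 : orderOf (QuotientGroup.mk' RH (x : H)) ∣ 3 := by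
        have := Nat.dvd_gcd h1 h2
        norm_num at this
        exact this
      have h4 : (QuotientGroup.mk' RH (x : H)) ^ 3 = 1 := orderOf_dvd_iff_pow_eq_one.mp h3
      rw [← map_pow] at h4
      exact h4
    have h3A : 3 ∣ Nat.card (MulAut N) := by rw [hcA, hq7]; norm_num
    obtain ⟨α, hα⟩ := exists_prime_orderOf_dvd_card' (G := MulAut N) 3 h3A
    exact hE (no_c9 hK φ hKφ (x : H) hxo hx3 α hα (fun n => cyc_aut_comm hNcyc _ _ _))
  rcases hs with ⟨hc | hc, hPP⟩ | ⟨hc, hqq⟩ | ⟨hc, _, hqq⟩
  · -- c = 1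
    refine finish (hsmall (Or.inl hc)) (Or.inl ⟨hc, ?_⟩) (fun h => by omega)
    simpa using hPP
  · -- c = 2
    have hz := hsmall (Or.inr hc)
    refine finish hz ?_ (fun h => by omega)
    by_cases hde : 2 ∣ d
    · obtain ⟨χ, hχ1, x, hx⟩ := exists_chi RH hqcyc hde
      have h2 : Nat.card RH = 2 := by rw [hRHc, hc]
      obtain ⟨z, hz1, _⟩ := (Nat.card_eq_two_iff' (1 : RH)).mp h2
      have hzz : (z : H) * z = 1 := by
        have h3 : z ^ Nat.card RH = 1 := pow_card_eq_one'
        rw [h2, pow_two] at h3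
        exact congrArg Subtype.val h3
      have := no_c2 hK hE hNcyc φ hKφ hq hq2 hNq (z : H) hzz
        (fun h => hz1 (Subtype.ext h)) (fun h => Subtype.ext (hz h.1 h.2 _ z.2).symm)
        (hφR _ z.2) χ (hχ1 _ z.2) x hx
      exact Or.inr (Or.inr (Or.inl ⟨hc, this⟩))
    · refine Or.inr (Or.inl ⟨hc, ?_, by omega⟩)
      simpa using hPP
  · -- c = 4
    have hqq' : q = 3 ∨ q = 5 ∨ q = 7 := by
      rcases hqq with ⟨_, h⟩ | ⟨h, _⟩
      · exact h
      · exact absurd h (by norm_num)
    have hdo : ¬ 2 ∣ d := by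
      intro hde
      obtain ⟨P, hRP, hPc⟩ := index_comap_card RH hde
      have hP8 : Nat.card P = 8 := by rw [hPc, hRHc, hc]
      have hMc : Nat.card (RH.subgroupOf P) = 4 := by
        rw [← hc, ← hRHc]
        exact Nat.card_congr (Subgroup.subgroupOfEquivOfLe hRP).toEquiv
      have hM2 : (RH.subgroupOf P).index = 2 := by
        have := (RH.subgroupOf P).card_mul_index
        rw [hMc, hP8] at this
        omega
      exact hE (no_c4 hK hNcyc hN2 hN1 φ hKφ P hP8 (RH.subgroupOf P) hM2
        (fun m hm => hφR _ hm))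
    have hq7 : q = 7 ∧ d = 3 := by
      rcases hqq' with h | h | h
      · exfalso
        rw [h] at hdq1
        have h2 : d ≤ 2 := Nat.le_of_dvd (by norm_num) hdq1
        omega
      · exfalso
        rw [h] at hdq1
        have h2 : d ≤ 4 := Nat.le_of_dvd (by norm_num) hdq1
        interval_cases d <;> omega
      · rw [h] at hdq1
        have h2 : d ≤ 6 := Nat.le_of_dvd (by norm_num) hdq1
        interval_cases d <;> omega
    have hz : ∀ h ∈ H, ∀ y ∈ R, h * y = y * h := by
      intro h hh y hy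
      have hRA : Nat.card (MulAut R) = 2 := by
        rw [IsCyclic.card_mulAut, hRc, hc]; decide
      haveI : Finite (MulAut R) := Nat.finite_of_card_ne_zero (by rw [hRA]; norm_num)
      have h2 : (MulAut.conjNormal h : MulAut R) ^ 2 = 1 := by
        rw [← hRA]; exact pow_card_eq_one'
      have h3 : h ^ 3 ∈ R := by
        have h4 : (QuotientGroup.mk' RH (⟨h, hh⟩ : H)) ^ Nat.card (H ⧸ RH) = 1 := pow_card_eq_one'
        have h5 : Nat.card (H ⧸ RH) = 3 := hq7.2
        rw [h5, ← map_pow] at h4
        have h6 := (QuotientGroup.eq_one_iff _).mp h4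
        exact h6
      have h4 : (MulAut.conjNormal h : MulAut R) ^ 3 = 1 := by
        rw [← map_pow]
        refine MulEquiv.ext fun y => ?_
        apply Subtype.ext
        rw [MulAut.conjNormal_apply, MulAut.one_apply,
          hFcomm _ (hRF h3) _ (hRF y.2)]
        simp
      have h5 : (MulAut.conjNormal h : MulAut R) = 1 := by
        have : (MulAut.conjNormal h : MulAut R) ^ 3 = (MulAut.conjNormal h : MulAut R) ^ 2 *
          (MulAut.conjNormal h : MulAut R) := pow_succ _ _
        rw [h4, h2, one_mul] at this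
        exact this.symm
      have h6 : h * y * h⁻¹ = y := by
        have h9 := congrArg Subtype.val (DFunLike.congr_fun h5 (⟨y, hy⟩ : R))
        rwa [MulAut.conjNormal_apply] at h9
      exact mul_inv_eq_iff_eq_mul.mp h6
    have hHcyc : IsCyclic H := by
      haveI : Fact (Nat.Prime 3) := ⟨Nat.prime_three⟩
      have h12 : Nat.card H = 12 := by rw [hHcd, hc, hq7.2]
      obtain ⟨x, hx⟩ := exists_prime_orderOf_dvd_card' (G := H) 3 (by rw [h12]; norm_num)
      obtain ⟨y, hy⟩ := IsCyclic.exists_ofOrder_eq_natCard (α := R)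
      rw [hRc, hc] at hy
      have hyo : orderOf (⟨y.1, hRH y.2⟩ : H) = 4 := by
        rw [← Subgroup.orderOf_coe]
        show orderOf (y : G) = 4
        rw [Subgroup.orderOf_coe, hy]
      have hco : Commute x (⟨y.1, hRH y.2⟩ : H) := Subtype.ext (hz x.1 x.2 y.1 y.2)
      have h3 : orderOf (x * (⟨y.1, hRH y.2⟩ : H)) = 12 := by
        rw [hco.orderOf_mul_eq_mul_orderOf_of_coprime (by rw [hx, hyo]; norm_num), hx, hyo]
      exact isCyclic_of_orderOf_eq_card _ (by rw [h3, h12])
    exact finish hz (Or.inr (Or.inr (Or.inr (Or.inl ⟨hq7.1, hc, hq7.2⟩)))) (fun _ => hHcyc)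
  · have hz := hinv hc
    rcases hc with hc | hc
    · -- c = 3
      refine finish hz ?_ (fun h => by omega)
      rcases hqq with h5 | h7
      · exact Or.inr (Or.inr (Or.inr (Or.inr (Or.inl ⟨h5, hc⟩))))
      · have h3 := h9 (Or.inl hc) h7
        rw [h7] at hdq1
        have h2 : d ≤ 6 := Nat.le_of_dvd (by norm_num) hdq1
        have hd2 : d = 2 := by interval_cases d <;> omega
        exact Or.inr (Or.inr (Or.inr (Or.inr (Or.inr ⟨h7, hc, hd2⟩))))
    · -- c = 6
      exfalso
      have h24 : d = 2 ∨ d = 4 := by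
        rcases hqq with h5 | h7
        · rw [h5] at hdq1
          have h2 : d ≤ 4 := Nat.le_of_dvd (by norm_num) hdq1
          interval_cases d <;> omega
        · have h3 := h9 (Or.inr hc) h7
          rw [h7] at hdq1
          have h2 : d ≤ 6 := Nat.le_of_dvd (by norm_num) hdq1
          interval_cases d <;> omega
      have hde : 2 ∣ d := by omega
      obtain ⟨χ, hχ1, x, hx⟩ := exists_chi RH hqcyc hde
      have hHab : ∀ a b : H, a * b = b * a := fun a b =>
        Subtype.ext (hcomm_of hz a.1 a.2 b.1 b.2)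
      haveI : Fact (Nat.Prime 3) := ⟨Nat.prime_three⟩
      obtain ⟨r, hr⟩ := exists_prime_orderOf_dvd_card' (G := H) 3 (by rw [hHcd, hc]; exact ⟨2 * d, by ring⟩)
      obtain ⟨z, hz'⟩ := exists_prime_orderOf_dvd_card' (G := RH) 2 (by rw [hRHc, hc]; norm_num)
      have hzz : (z : H) * z = 1 := by
        have h3 : z ^ 2 = 1 := by rw [← hz', pow_orderOf_eq_one]
        rw [pow_two] at h3
        exact congrArg Subtype.val h3
      have hz1 : (z : H) ≠ 1 := by
        intro h
        have : z = 1 := Subtype.ext h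
        rw [this, orderOf_one] at hz'
        omega
      have hφd : ∀ a : H, (φ a) ^ d = 1 := by
        intro a
        rw [← map_pow, ← MonoidHom.mem_ker, hkerφ]
        have h4 : (QuotientGroup.mk' RH a) ^ Nat.card (H ⧸ RH) = 1 := pow_card_eq_one'
        rw [← map_pow] at h4
        exact (QuotientGroup.eq_one_iff _).mp h4
      have hpc : ∀ a : H, a ^ (c * d) = 1 := by
        intro a
        rw [← hHcd]; exact pow_card_eq_one'
      have hrp : ∀ e : ℕ, e % 3 = 2 → r ^ e ≠ r := by
        intro e he h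
        have h1 : r ^ e = r ^ 1 := by rw [h, pow_one]
        rw [pow_eq_pow_iff_modEq, hr] at h1
        unfold Nat.ModEq at h1
        omega
      rcases h24 with h2 | h4
      · have hp12 : ∀ a : H, a ^ 12 = 1 := by
          intro a
          have := hpc a
          rwa [hc, h2] at this
        refine hE (no_c6 hK hNcyc hN2 hN1 φ hKφ hHab 5 rfl ?_ ?_ r hr (hrp 5 rfl) (z : H) hzz hz1
          (hφR _ z.2) χ (hχ1 _ z.2) x hx)
        · intro a
          rw [← pow_mul, show 5 * 5 = 12 * 2 + 1 by norm_num, pow_succ, pow_mul, hp12, one_pow,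
            one_mul]
        · intro a
          have := hφd a
          rw [h2] at this
          rw [map_pow, show 5 = 2 * 2 + 1 by norm_num, pow_succ, pow_mul, this, one_pow, one_mul]
      · have hp24 : ∀ a : H, a ^ 24 = 1 := by
          intro a
          have := hpc a
          rwa [hc, h4] at this
        refine hE (no_c6 hK hNcyc hN2 hN1 φ hKφ hHab 17 rfl ?_ ?_ r hr (hrp 17 rfl) (z : H) hzz hz1
          (hφR _ z.2) χ (hχ1 _ z.2) x hx)
        · intro a
          rw [← pow_mul, show 17 * 17 = 24 * 12 + 1 by norm_num, pow_succ, pow_mul, hp24, one_pow,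
            one_mul]
        · intro a
          have := hφd a
          rw [h4] at this
          rw [map_pow, show 17 = 4 * 4 + 1 by norm_num, pow_succ, pow_mul, this, one_pow, one_mul]

end Pool.Agent.SHAF
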