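import Mathlib
import Pool.Agent.SHAF.CycF2

set_option autoImplicit false

/-!
Groups with a self-centralising normal Klein four group.
-/

namespace Pool.Agent.SHAF

open Pool.Agent.SHA

variable {K : (G : Type) → [Group G] → Prop}

/-- automorphisms as permutations of the nonidentity elements -/
def autPerm (V : Type) [Group V] : MulAut V →* Equiv.Perm {v : V // v ≠ 1} where
  toFun f :=
    { toFun := fun v => ⟨f v.1, fun h => v.2 (f.injective (by rw [h, map_one]))⟩
      invFun := fun v => ⟨f.symm v.1, fun h => v.2 (f.symm.injective (by rw [h, map_one]))⟩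
      left_inv := fun v => by simp
      right_inv := fun v => by simp }
  map_one' := rfl
  map_mul' _ _ := rfl

lemma autPerm_injective (V : Type) [Group V] : Function.Injective (autPerm V) := by
  intro f g h
  refine MulEquiv.ext fun v => ?_
  by_cases hv : v = 1
  · rw [hv, map_one, map_one]
  · exact congrArg Subtype.val (Equiv.congr_fun h ⟨v, hv⟩)

lemma card_ne_one {V : Type} [Group V] [Finite V] : Nat.card {v : V // v ≠ 1} = Nat.card V - 1 := by
  classical
  have h1 : Nat.card {v : V // v = 1} = 1 := by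
    rw [Nat.card_eq_one_iff_unique]
    exact ⟨⟨fun a b => Subtype.ext (a.2.trans b.2.symm)⟩, ⟨⟨1, rfl⟩⟩⟩
  have h2 := Nat.card_congr (Equiv.sumCompl (fun v : V => v = 1))
  rw [Nat.card_sum, h1] at h2
  have h3 : Nat.card {v : V // ¬ v = 1} = Nat.card V - 1 := by omega
  exact h3

lemma card_perm {α : Type} [Finite α] {n : ℕ} (h : Nat.card α = n) :
    Nat.card (Equiv.Perm α) = n.factorial := by
  rw [Nat.card_perm, h]

/-- the automorphism group of a group of order 4 has order dividing 6 -/
lemma card_mulAut_four {V : Type} [Group V] [Finite V] (h4 : Nat.card V = 4) :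
    Nat.card (MulAut V) ∣ 6 := by
  have h1 : Nat.card (Equiv.Perm {v : V // v ≠ 1}) = 6 := by
    rw [card_perm (n := 3) (by rw [card_ne_one, h4])]
    rfl
  rw [← h1]
  exact Subgroup.card_dvd_of_injective (autPerm V) (autPerm_injective V)

/-- a group with a self-centralising normal Klein four group and order divisible by 3 -/
theorem klein_embed {G : Type} [Group G] [Finite G] (V : Subgroup G) [hV : V.Normal]
    (h4 : Nat.card V = 4) (h2 : ∀ v ∈ V, v * v = 1)
    (hC : Subgroup.centralizer (V : Set G) ≤ V) (h3 : 3 ∣ Nat.card G) :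
    ∃ f : G →* Equiv.Perm (Fin 4), Function.Injective f := by
  haveI : Fact (Nat.Prime 3) := ⟨Nat.prime_three⟩
  -- order of G
  let κ : G →* MulAut V := MulAut.conjNormal
  have hκ : ∀ g, g ∈ κ.ker → g ∈ V := by
    intro g hg
    apply hC
    rw [Subgroup.mem_centralizer_iff]
    intro y hy
    have h5 : g * y * g⁻¹ = y := by
      have h9 := congrArg Subtype.val (DFunLike.congr_fun hg (⟨y, hy⟩ : V))
      rwa [MulAut.conjNormal_apply] at h9
    exact (mul_inv_eq_iff_eq_mul.mp h5).symm
  have hVidx : V.index ∣ 6 := by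
    have h5 : κ.ker ≤ V := hκ
    refine (Subgroup.index_dvd_of_le h5).trans ?_
    rw [Subgroup.index_ker]
    exact (Subgroup.card_subgroup_dvd_card _).trans (card_mulAut_four h4)
  have hcard : Nat.card G ∣ 24 := by
    rw [← V.card_mul_index, h4]
    exact Nat.mul_dvd_mul_left 4 hVidx
  let Q : Sylow 3 G := default
  have hQ3 : Nat.card Q = 3 := by
    obtain ⟨n, hn⟩ := IsPGroup.iff_card.mp Q.2
    have h5 : 3 ^ n ∣ 24 := by
      rw [← hn]
      exact (Subgroup.card_subgroup_dvd_card _).trans hcard
    have h6 : n ≤ 1 := by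
      by_contra hlt
      have h7 : 3 ^ 2 ∣ 24 := (pow_dvd_pow 3 (by omega)).trans h5
      norm_num at h7
    have h7 : n ≠ 0 := by
      rintro rfl
      have h8 := Q.card_mul_index
      have h9 := Q.not_dvd_index
      rw [pow_zero] at hn
      have h10 : Nat.card (Q : Subgroup G) = 1 := hn
      rw [h10, one_mul] at h8
      rw [h8] at h9
      exact h9 h3
    have h8 : n = 1 := by omega
    rw [hn, h8, pow_one]
  -- an element of V normalising a Sylow 3-subgroup is trivial
  have hnorm : ∀ Q : Sylow 3 G, Nat.card Q = 3 → ∀ v ∈ V, v ∈ Subgroup.normalizer (Q : Set G) →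
      v = 1 := by
    intro Q hQ3 v hv hvn
    by_contra hv1
    haveI : IsCyclic Q := isCyclic_of_prime_card (p := 3) hQ3
    haveI : Nontrivial Q := Finite.one_lt_card_iff_nontrivial.mp (by rw [hQ3]; norm_num)
    obtain ⟨x, hx⟩ := exists_ne (1 : Q)
    have hx1 : (x : G) ≠ 1 := fun h => hx (Subtype.ext h)
    have hx3 : (x : G) ^ 3 = 1 := by
      have h5 : x ^ Nat.card Q = 1 := pow_card_eq_one'
      rw [hQ3] at h5
      exact congrArg Subtype.val h5
    -- x commutes with v
    have hxV : (x : G) ∉ V := by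
      intro h
      have h5 := h2 _ h
      apply hx1
      have h6 : (x : G) ^ 3 = (x : G) * x * x := by rw [pow_succ, pow_two]
      rw [h5, one_mul] at h6
      rw [← h6, hx3]
    have hQV : ∀ y, y ∈ (Q : Subgroup G) → y ∈ V → y = 1 := by
      intro y hyQ hyV
      have h5 : y ^ 3 = 1 := by
        have h6 : (⟨y, hyQ⟩ : Q) ^ Nat.card Q = 1 := pow_card_eq_one'
        rw [hQ3] at h6
        exact congrArg Subtype.val h6
      have h6 := h2 y hyV
      rw [pow_succ, pow_two, h6, one_mul] at h5
      exact h5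
    have hcomm : (x : G) * v = v * x := by
      have h5 : v * x * v⁻¹ ∈ (Q : Subgroup G) := (hvn x).mp x.2
      have h6 : v * x * v⁻¹ * (x : G)⁻¹ = 1 := by
        apply hQV
        · exact Q.1.mul_mem h5 (Q.1.inv_mem x.2)
        · have h7 : v * x * v⁻¹ * (x : G)⁻¹ = v * (x * v⁻¹ * (x : G)⁻¹) := by group
          rw [h7]
          exact V.mul_mem hv (hV.conj_mem _ (V.inv_mem hv) _)
      have h7 : v * x * v⁻¹ = x := mul_inv_eq_one.mp h6
      exact (mul_inv_eq_iff_eq_mul.mp h7).symm
    -- the action of x on V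
    apply hxV
    apply hκ
    rw [MonoidHom.mem_ker]
    have h5 : autPerm V (κ x) = 1 := by
      have hp3 : (autPerm V (κ x)) ^ 3 = 1 := by
        rw [← map_pow, ← map_pow, hx3, map_one, map_one]
      have hfix : autPerm V (κ x) ⟨⟨v, hv⟩, fun h => hv1 (congrArg Subtype.val h)⟩ =
          ⟨⟨v, hv⟩, fun h => hv1 (congrArg Subtype.val h)⟩ := by
        apply Subtype.ext
        apply Subtype.ext
        show ((κ x ⟨v, hv⟩ : V) : G) = v
        rw [MulAut.conjNormal_apply, hcomm]
        group
      have key : ∀ σ : Equiv.Perm (Fin 3), σ ^ 3 = 1 → ∀ i, σ i = i → σ = 1 := by decide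
      have hc3 : Nat.card {v : V // v ≠ 1} = 3 := by rw [card_ne_one, h4]
      let e := Finite.equivFinOfCardEq hc3
      have h6 : e.permCongr (autPerm V (κ x)) = 1 := by
        apply key _ _ (e ⟨⟨v, hv⟩, fun h => hv1 (congrArg Subtype.val h)⟩)
        · rw [Equiv.permCongr_apply, Equiv.symm_apply_apply, hfix]
        · have h7 : (Equiv.permCongrHom e) (autPerm V (κ x)) ^ 3 = 1 := by
            rw [← map_pow, hp3, map_one]
          exact h7
      have h7 : (Equiv.permCongrHom e) (autPerm V (κ x)) = (Equiv.permCongrHom e) 1 := by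
        rw [map_one]; exact h6
      exact (Equiv.permCongrHom e).injective h7
    exact autPerm_injective V (by rw [h5, map_one])
  have hall3 : ∀ Q' : Sylow 3 G, Nat.card Q' = 3 := by
    intro Q'
    exact (Nat.card_congr (Sylow.equiv Q' Q).toEquiv).trans hQ3
  -- number of Sylow 3-subgroups
  have hn3 : Nat.card (Sylow 3 G) = 4 := by
    have h5 := card_sylow_modEq_one 3 G
    have h6 : Nat.card (Sylow 3 G) ∣ Q.1.index := Sylow.card_dvd_index Q
    have h7 : Nat.card (Sylow 3 G) = (Subgroup.normalizer (Q : Set G)).index :=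
      Sylow.card_eq_index_normalizer Q
    have h8 : V ⊓ Subgroup.normalizer (Q : Set G) = ⊥ := by
      rw [eq_bot_iff]
      rintro v ⟨hv, hvn⟩
      exact hnorm Q hQ3 v hv hvn
    -- 4 ≤ index
    have h9 : 4 ≤ (Subgroup.normalizer (Q : Set G)).index := by
      have h10 : Function.Injective (fun v : V =>
          (QuotientGroup.mk (v : G) : G ⧸ Subgroup.normalizer (Q : Set G))) := by
        intro v w hvw
        have h11 : (v : G)⁻¹ * w ∈ Subgroup.normalizer (Q : Set G) := QuotientGroup.eq.mp hvw
        have h12 : (v : G)⁻¹ * w = 1 :=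
          hnorm Q hQ3 _ (V.mul_mem (V.inv_mem v.2) w.2) h11
        exact Subtype.ext (inv_mul_eq_one.mp h12)
      have h11 := Nat.card_le_card_of_injective _ h10
      rw [h4] at h11
      exact h11
    have h10 : Q.1.index ∣ 8 := by
      have h11 := Q.1.card_mul_index
      have h12 : Nat.card (Q.1 : Subgroup G) = 3 := hQ3
      rw [h12] at h11
      rw [← h11] at hcard
      have h13 : 3 * Q.1.index ∣ 3 * 8 := hcard
      exact (Nat.mul_dvd_mul_iff_left (by norm_num)).mp h13
    have h11 : Nat.card (Sylow 3 G) ∣ 8 := h6.trans h10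
    have h12 : Nat.card (Sylow 3 G) ≤ 8 := Nat.le_of_dvd (by norm_num) h11
    rw [← h7] at h9
    unfold Nat.ModEq at h5
    interval_cases h13 : Nat.card (Sylow 3 G) <;> omega
  -- the action is faithful
  let ρ : G →* Equiv.Perm (Sylow 3 G) := MulAction.toPermHom G (Sylow 3 G)
  have hρ : Function.Injective ρ := by
    rw [injective_iff_map_eq_one]
    intro x hx
    have hKV : ρ.ker ⊓ V = ⊥ := by
      rw [eq_bot_iff]
      rintro v ⟨hv, hvV⟩
      apply hnorm Q hQ3 v hvV
      have h5 : v • Q = Q := by
        have := Equiv.congr_fun (show ρ v = 1 from hv) Q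
        exact this
      exact Sylow.smul_eq_iff_mem_normalizer.mp h5
    have h5 : x ∈ V := by
      apply hC
      rw [Subgroup.mem_centralizer_iff]
      intro y hy
      have hdisj : Disjoint ρ.ker V := disjoint_iff.mpr hKV
      exact (Subgroup.commute_of_normal_of_disjoint ρ.ker V inferInstance hV hdisj x y hx hy).symm
    have h6 : x ∈ ρ.ker ⊓ V := ⟨hx, h5⟩
    rw [hKV] at h6
    exact h6
  let e := Finite.equivFinOfCardEq hn3
  exact ⟨(Equiv.permCongrHom e).toMonoidHom.comp ρ, (Equiv.permCongrHom e).injective.comp hρ⟩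

end Pool.Agent.SHAF
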