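import Mathlib
import Pool.Agent.SHAF.Klein

set_option autoImplicit false

/-!
Groups of order 8.
-/

namespace Pool.Agent.SHAF

open Pool.Agent.SHA

variable {K : (G : Type) → [Group G] → Prop}

section quat

variable {P : Type} [Group P] (a b : P)

lemma zpw_conj' (n : ℕ) (ha : a ^ n = 1) (hab : b * a * b⁻¹ = a⁻¹) (x : Multiplicative (ZMod n)) :
    zpw n a ha x * b = b * zpw n a ha x⁻¹ := by
  obtain ⟨k, hk⟩ := ZMod.intCast_surjective (Multiplicative.toAdd x)
  have h1 : x = Multiplicative.ofAdd (k : ZMod n) := by rw [hk]; rfl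
  have h2 : x⁻¹ = Multiplicative.ofAdd ((-k : ℤ) : ZMod n) := by rw [h1]; simp
  rw [h2, h1, zpw_coe, zpw_coe]
  have h3 : b * a ^ (-k) * b⁻¹ = a ^ k := by
    rw [conj_zpow', hab, inv_zpow', neg_neg]
  rw [← h3]
  group

/-- homomorphisms from the quaternion group of order 8 -/
def quatLift (ha : a ^ (2 * 2) = 1) (hb : b * b = a * a) (hab : b * a * b⁻¹ = a⁻¹) :
    QuaternionGroup 2 →* P :=
  MonoidHom.mk' (fun x => match x with
    | QuaternionGroup.a i => zpw (2 * 2) a ha (Multiplicative.ofAdd i)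
    | QuaternionGroup.xa i => b * zpw (2 * 2) a ha (Multiplicative.ofAdd i)) (by
    rintro (i | i) (j | j)
    · show zpw (2 * 2) a ha (Multiplicative.ofAdd (i + j)) = _
      rw [ofAdd_add, map_mul]
    · show b * zpw (2 * 2) a ha (Multiplicative.ofAdd (j - i)) =
        zpw (2 * 2) a ha (Multiplicative.ofAdd i) * (b * zpw (2 * 2) a ha (Multiplicative.ofAdd j))
      rw [← mul_assoc, zpw_conj' a b _ ha hab, mul_assoc, ← map_mul]
      congr 2
      rw [sub_eq_neg_add, ofAdd_add, ofAdd_neg]
    · show b * zpw (2 * 2) a ha (Multiplicative.ofAdd (i + j)) =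
        b * zpw (2 * 2) a ha (Multiplicative.ofAdd i) * zpw (2 * 2) a ha (Multiplicative.ofAdd j)
      rw [ofAdd_add, map_mul, mul_assoc]
    · show zpw (2 * 2) a ha (Multiplicative.ofAdd (((2 : ℕ) : ZMod (2 * 2)) + j - i)) =
        b * zpw (2 * 2) a ha (Multiplicative.ofAdd i) *
          (b * zpw (2 * 2) a ha (Multiplicative.ofAdd j))
      rw [mul_assoc b, ← mul_assoc _ b, zpw_conj' a b _ ha hab, ← mul_assoc, ← mul_assoc, hb]
      have h2 : a * a = zpw (2 * 2) a ha (Multiplicative.ofAdd (((2 : ℤ) : ZMod (2 * 2)))) := by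
        rw [zpw_coe]
        exact (zpow_two a).symm
      rw [h2, ← map_mul, ← map_mul]
      congr 1
      rw [← ofAdd_neg, ← ofAdd_add, ← ofAdd_add]
      congr 1
      push_cast
      ring)

lemma quat_iso [Finite P] (h8 : Nat.card P = 8) (hao : orderOf a = 4)
    (hbn : b ∉ Subgroup.zpowers a) (hb : b * b = a * a) (hab : b * a * b⁻¹ = a⁻¹) :
    Nonempty (P ≃* QuaternionGroup 2) := by
  have ha : a ^ (2 * 2) = 1 := by
    have := pow_orderOf_eq_one a
    rw [hao] at this
    exact this
  have hinj : Function.Injective (quatLift a b ha hb hab) := by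
    rw [injective_iff_map_eq_one]
    rintro (i | i) h
    · have h1 : zpw (2 * 2) a ha (Multiplicative.ofAdd i) = 1 := h
      have h2 := (injective_iff_map_eq_one _).mp (zpw_injective (2 * 2) a ha hao) _ h1
      have h3 : i = 0 := h2
      rw [h3, QuaternionGroup.a_zero]
    · exfalso
      have h1 : b * zpw (2 * 2) a ha (Multiplicative.ofAdd i) = 1 := h
      obtain ⟨k, hk⟩ := ZMod.intCast_surjective i
      rw [← hk, zpw_coe] at h1
      apply hbn
      rw [eq_inv_of_mul_eq_one_left h1, ← zpow_neg]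
      exact Subgroup.zpow_mem_zpowers a (-k)
  have hcard : Nat.card (QuaternionGroup 2) = Nat.card P := by
    rw [h8, Nat.card_eq_fintype_card, QuaternionGroup.card]
  have hbij : Function.Bijective (quatLift a b ha hb hab) :=
    (Nat.bijective_iff_injective_and_card _).mpr ⟨hinj, hcard⟩
  exact ⟨(MulEquiv.ofBijective _ hbij).symm⟩

end quat

/-- a four-cycle and an inverting involution -/
def c4 : Equiv.Perm (Fin 4) := ⟨fun i => i + 1, fun i => i - 1, by decide, by decide⟩
def t4 : Equiv.Perm (Fin 4) := ⟨fun i => -i, fun i => -i, by decide, by decide⟩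

lemma c4_order : orderOf c4 = 4 := by
  have : orderOf c4 = 2 ^ (1 + 1) := orderOf_eq_prime_pow (by decide) (by decide)
  rw [this]; norm_num

lemma dih4_embed : ∃ f : DihedralGroup 4 →* Equiv.Perm (Fin 4), Function.Injective f :=
  ⟨_, dihLift_injective 4 c4 t4 (by norm_num) c4_order (by decide) (by decide)⟩

/-- exponent 4 -/
lemma exp4 {P : Type} [Group P] [Finite P] (h8 : Nat.card P = 8) (hn : ¬ IsCyclic P) (x : P) :
    x ^ 4 = 1 := by
  have h1 : orderOf x ∣ 8 := h8 ▸ orderOf_dvd_natCard x
  have h2 : orderOf x ≠ 8 := fun h => hn (isCyclic_of_orderOf_eq_card x (by rw [h, h8]))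
  have h4 : orderOf x ∣ 4 := by
    have h5 : orderOf x ≤ 8 := Nat.le_of_dvd (by norm_num) h1
    generalize orderOf x = n at *
    interval_cases n <;> omega
  exact orderOf_dvd_iff_pow_eq_one.mp h4

/-- noncyclic groups of order 8 that are not elementary abelian -/
theorem ord8_shape {P : Type} [Group P] [Finite P] (h8 : Nat.card P = 8) (hn : ¬ IsCyclic P)
    (hE : ∃ x : P, x * x ≠ 1) : ∃ a b : P, orderOf a = 4 ∧ b ∉ Subgroup.zpowers a ∧
      ((b * b = 1 ∧ b * a = a * b) ∨ (b * b = 1 ∧ b * a * b = a⁻¹) ∨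
        (b * b = a * a ∧ b * a * b⁻¹ = a⁻¹)) := by
  obtain ⟨a, ha⟩ := hE
  have h4 := exp4 h8 hn
  have hao : orderOf a = 2 ^ (1 + 1) := by
    apply orderOf_eq_prime_pow
    · rw [pow_one, pow_two]; exact ha
    · exact h4 a
  have hao' : orderOf a = 4 := by rw [hao]; norm_num
  have hpw : ∀ m : ℤ, a ^ m = 1 ↔ (4 : ℤ) ∣ m := by
    intro m
    rw [← orderOf_dvd_iff_zpow_eq_one, hao']
    rfl
  set N := Subgroup.zpowers a with hN
  have hNc : Nat.card N = 4 := by rw [hN, Nat.card_zpowers, hao']
  have hi2 : N.index = 2 := by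
    have := N.card_mul_index
    rw [hNc, h8] at this
    omega
  haveI hnorm : N.Normal := Subgroup.normal_of_index_eq_two hi2
  have hne : N ≠ ⊤ := by
    intro h
    rw [h, Subgroup.index_top] at hi2
    omega
  obtain ⟨b, hb⟩ : ∃ b, b ∉ N := by
    by_contra h
    push Not at h
    exact hne (eq_top_iff.mpr fun x _ => h x)
  have hbb : b * b ∈ N := by
    rw [Subgroup.mul_mem_iff_of_index_two hi2]
  obtain ⟨i, hi⟩ := Subgroup.mem_zpowers_iff.mp hbb
  obtain ⟨j, hj⟩ := Subgroup.mem_zpowers_iff.mp (hnorm.conj_mem a (Subgroup.mem_zpowers a) b)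
  -- b * b is 1 or a * a
  have hi' : i % 2 = 0 := by
    have h5 : (b * b) ^ 2 = 1 := by
      rw [← pow_two, ← pow_mul]
      exact h4 b
    rw [← hi, ← zpow_natCast, ← zpow_mul, hpw] at h5
    push_cast at h5
    omega
  have hbb' : b * b = 1 ∨ b * b = a * a := by
    have : i % 4 = 0 ∨ i % 4 = 2 := by omega
    rcases this with h | h
    · left; rw [← hi, hpw]; omega
    · right
      rw [← hi, ← mul_inv_eq_one, ← zpow_two, ← zpow_neg, ← zpow_add, hpw]
      omega
  have hjodd : j % 2 = 1 := by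
    by_contra h
    apply ha
    have h5 : (b * a * b⁻¹) * (b * a * b⁻¹) = 1 := by
      rw [← hj, ← zpow_add, hpw]
      omega
    have h6 : b * (a * a) * b⁻¹ = b * 1 * b⁻¹ := by
      have : b * (a * a) * b⁻¹ = (b * a * b⁻¹) * (b * a * b⁻¹) := by group
      rw [this, h5]; group
    exact mul_left_cancel (mul_right_cancel h6)
  have hj' : b * a * b⁻¹ = a ∨ b * a * b⁻¹ = a⁻¹ := by
    have : j % 4 = 1 ∨ j % 4 = 3 := by omega
    rcases this with h | h
    · left
      rw [← hj, ← mul_inv_eq_one, ← zpow_neg_one, ← zpow_add, hpw]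
      omega
    · right
      rw [← hj, ← mul_inv_eq_one, inv_inv, ← zpow_add_one, hpw]
      omega
  rcases hj' with hj1 | hj1
  · have hcomm : b * a = a * b := mul_inv_eq_iff_eq_mul.mp hj1
    rcases hbb' with h | h
    · exact ⟨a, b, hao', hb, Or.inl ⟨h, hcomm⟩⟩
    · refine ⟨a, b * a, hao', ?_, Or.inl ⟨?_, ?_⟩⟩
      · intro h5
        apply hb
        have : b = (b * a) * a⁻¹ := by group
        rw [this]
        exact Subgroup.mul_mem _ h5 (Subgroup.inv_mem _ (Subgroup.mem_zpowers a))
      · have h5 := h4 a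
        calc b * a * (b * a) = b * (a * b) * a := by group
          _ = b * (b * a) * a := by rw [hcomm]
          _ = (b * b) * (a * a) := by group
          _ = a * a * (a * a) := by rw [h]
          _ = 1 := by rw [← pow_two, ← pow_two, ← pow_mul]; exact h5
      · rw [hcomm, mul_assoc, hcomm]
  · rcases hbb' with h | h
    · refine ⟨a, b, hao', hb, Or.inr (Or.inl ⟨h, ?_⟩)⟩
      rw [← hj1]
      congr 1
      exact eq_inv_of_mul_eq_one_left h
    · exact ⟨a, b, hao', hb, Or.inr (Or.inr ⟨h, hj1⟩)⟩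

/-- groups of order 8 -/
theorem ord8_class {P : Type} [Group P] [Finite P] (h8 : Nat.card P = 8) (hn : ¬ IsCyclic P)
    (hE : ∃ x : P, x * x ≠ 1) : Nonempty (P ≃* C24) ∨
      Nonempty (P ≃* DihedralGroup 4) ∨ Nonempty (P ≃* QuaternionGroup 2) := by
  obtain ⟨a, b, hao, hbn, h⟩ := ord8_shape h8 hn hE
  rcases h with ⟨hb, hab⟩ | ⟨hb, hab⟩ | ⟨hb, hab⟩
  · left
    have hb1 : b ≠ 1 := by
      rintro rfl
      exact hbn (Subgroup.one_mem _)
    have hbo : orderOf b = 2 := orderOf_eq_prime (by rw [pow_two]; exact hb) hb1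
    have hc : ∀ (x : cyc 2) (y : cyc 4), Commute (zpw 2 b (hbo ▸ pow_orderOf_eq_one b) x)
        (zpw 4 a (hao ▸ pow_orderOf_eq_one a) y) := by
      intro x y
      obtain ⟨i, hi⟩ := ZMod.intCast_surjective (Multiplicative.toAdd x)
      obtain ⟨j, hj⟩ := ZMod.intCast_surjective (Multiplicative.toAdd y)
      have h1 : x = Multiplicative.ofAdd (i : ZMod 2) := by rw [hi]; rfl
      have h2 : y = Multiplicative.ofAdd (j : ZMod 4) := by rw [hj]; rfl
      rw [h1, h2, zpw_coe, zpw_coe]
      exact (show Commute b a from hab).zpow_zpow i j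
    have hinj : Function.Injective (MonoidHom.noncommCoprod (zpw 2 b (hbo ▸ pow_orderOf_eq_one b))
        (zpw 4 a (hao ▸ pow_orderOf_eq_one a)) hc) := by
      rw [injective_iff_map_eq_one]
      rintro ⟨x, y⟩ hxy
      have h1 : zpw 2 b (hbo ▸ pow_orderOf_eq_one b) x * zpw 4 a (hao ▸ pow_orderOf_eq_one a) y
        = 1 := hxy
      obtain ⟨i, hi⟩ := ZMod.intCast_surjective (Multiplicative.toAdd x)
      obtain ⟨j, hj⟩ := ZMod.intCast_surjective (Multiplicative.toAdd y)
      have h2 : x = Multiplicative.ofAdd (i : ZMod 2) := by rw [hi]; rfl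
      have h3 : y = Multiplicative.ofAdd (j : ZMod 4) := by rw [hj]; rfl
      have h4 : b ^ i = 1 := by
        rw [h2, h3, zpw_coe, zpw_coe] at h1
        rcases Int.emod_two_eq_zero_or_one i with h | h
        · rw [← orderOf_dvd_iff_zpow_eq_one, hbo]
          exact_mod_cast Int.dvd_of_emod_eq_zero h
        · exfalso
          apply hbn
          have h5 : b ^ i = b := by
            have h6 : b ^ (i - 1) = 1 := by
              rw [← orderOf_dvd_iff_zpow_eq_one, hbo]
              push_cast
              omega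
            rw [zpow_sub, zpow_one] at h6
            exact mul_inv_eq_one.mp h6
          rw [h5] at h1
          rw [eq_inv_of_mul_eq_one_left h1, ← zpow_neg]
          exact Subgroup.zpow_mem_zpowers a (-j)
      have h5 : zpw 2 b (hbo ▸ pow_orderOf_eq_one b) x = 1 := by
        rw [h2, zpw_coe]; exact h4
      rw [h5, one_mul] at h1
      refine Prod.ext ?_ ?_
      · exact (injective_iff_map_eq_one _).mp (zpw_injective 2 b _ hbo) _ h5
      · exact (injective_iff_map_eq_one _).mp (zpw_injective 4 a _ hao) _ h1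
    have hcard : Nat.card (cyc 2 × cyc 4) = Nat.card P := by
      rw [h8, Nat.card_prod, Nat.card_congr Multiplicative.toAdd, Nat.card_congr Multiplicative.toAdd,
        Nat.card_zmod, Nat.card_zmod]
    have hbij := (Nat.bijective_iff_injective_and_card _).mpr ⟨hinj, hcard⟩
    exact ⟨(MulEquiv.ofBijective _ hbij).symm.trans
      { toFun := fun x => Multiplicative.ofAdd (Multiplicative.toAdd x.1, Multiplicative.toAdd x.2)
        invFun := fun x => (Multiplicative.ofAdd (Multiplicative.toAdd x).1,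
          Multiplicative.ofAdd (Multiplicative.toAdd x).2)
        left_inv := fun x => rfl
        right_inv := fun x => rfl
        map_mul' := fun x y => rfl }⟩
  · right; left
    have hinj := dihLift_injective 4 a b (by norm_num) hao hb hab
    have hcard : Nat.card (DihedralGroup 4) = Nat.card P := by
      rw [h8, Nat.card_eq_fintype_card, DihedralGroup.card]
    exact ⟨(MulEquiv.ofBijective _
      ((Nat.bijective_iff_injective_and_card _).mpr ⟨hinj, hcard⟩)).symm⟩
  · right; right
    exact quat_iso a b h8 hao hbn hb hab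

end Pool.Agent.SHAF
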