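import Mathlib
import Pool.Agent.SHAF.Eight

set_option autoImplicit false

/-!
Groups whose Fitting subgroup is not cyclic.
-/

namespace Pool.Agent.SHAF

open Pool.Agent.SHA

variable {K : (G : Type) → [Group G] → Prop}

/-- semidirect products inside a group -/
lemma K_int (hK : SHAClosed K) {G : Type} [Group G] (hG : K G) (N S : Subgroup G) [hN : N.Normal]
    (hd : ∀ x ∈ N, x ∈ S → x = 1) : ∃ φ : S →* MulAut N,
      (∀ (h : S) (n : N), ((φ h n : N) : G) = h * n * (h : G)⁻¹) ∧ K (N ⋊[φ] S) := by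
  have hS : S ≤ Subgroup.normalizer (N : Set G) := N.normalizer_eq_top ▸ le_top
  refine ⟨_, ?_, hK.sub _ _ (SemidirectProduct.monoidHomSubgroup hS) ?_ hG⟩
  · intro h n
    rfl
  · rw [injective_iff_map_eq_one]
    intro x hx
    have h1 : (x.left : G) * x.right = 1 := hx
    have h2 : (x.left : G) = 1 := by
      apply hd _ x.left.2
      rw [eq_inv_of_mul_eq_one_left h1]
      exact S.inv_mem x.right.2
    rw [h2, one_mul] at h1
    exact SemidirectProduct.ext (Subtype.ext h2) (Subtype.ext h1)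

/-- a nontrivial automorphism of order 3 of a group of order 4 has no fixed points -/
lemma no_fix {V : Type} [Group V] [Finite V] (h4 : Nat.card V = 4) (σ : MulAut V)
    (h3 : σ ^ 3 = 1) (h1 : σ ≠ 1) (v : V) (hv : σ v = v) : v = 1 := by
  by_contra hv1
  apply h1
  have key : ∀ σ : Equiv.Perm (Fin 3), σ ^ 3 = 1 → ∀ i, σ i = i → σ = 1 := by decide
  have hc3 : Nat.card {v : V // v ≠ 1} = 3 := by rw [card_ne_one, h4]
  let e := Finite.equivFinOfCardEq hc3
  have hp3 : (autPerm V σ) ^ 3 = 1 := by rw [← map_pow, h3, map_one]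
  have hfix : autPerm V σ ⟨v, hv1⟩ = ⟨v, hv1⟩ := Subtype.ext hv
  have h6 : e.permCongr (autPerm V σ) = 1 := by
    apply key _ _ (e ⟨v, hv1⟩)
    · rw [Equiv.permCongr_apply, Equiv.symm_apply_apply, hfix]
    · have h7 : (Equiv.permCongrHom e) (autPerm V σ) ^ 3 = 1 := by
        rw [← map_pow, hp3, map_one]
      exact h7
  have h7 : (Equiv.permCongrHom e) (autPerm V σ) = (Equiv.permCongrHom e) 1 := by
    rw [map_one]; exact h6
  exact autPerm_injective V (by rw [(Equiv.permCongrHom e).injective h7, map_one])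

/-- the kernel of the conjugation action on a normal subgroup -/
lemma mem_ker_conj {G : Type} [Group G] (V : Subgroup G) [V.Normal] (g : G) :
    g ∈ (MulAut.conjNormal : G →* MulAut V).ker ↔ ∀ y ∈ V, g * y = y * g := by
  constructor
  · intro hg y hy
    have h9 := congrArg Subtype.val (DFunLike.congr_fun hg (⟨y, hy⟩ : V))
    rw [MulAut.conjNormal_apply] at h9
    exact mul_inv_eq_iff_eq_mul.mp h9
  · intro h
    rw [MonoidHom.mem_ker]
    refine MulEquiv.ext fun y => ?_
    apply Subtype.ext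
    rw [MulAut.conjNormal_apply, MulAut.one_apply, h y.1 y.2]
    simp

/-- The Fitting subgroup is a Klein four group. -/
theorem caseB {G : Type} [Group G] [Finite G] (F : Subgroup G) [hFn : F.Normal]
    (hc : Nat.card F = 4) (h2 : ∀ v ∈ F, v * v = 1)
    (hCF : Subgroup.centralizer (F : Set G) ≤ F) (hnn : ¬ Group.IsNilpotent G) :
    ∃ f : G →* Equiv.Perm (Fin 4), Function.Injective f := by
  haveI : Fact (Nat.Prime 2) := ⟨Nat.prime_two⟩
  apply klein_embed F hc h2 hCF
  by_contra h3
  apply hnn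
  have hidx : F.index ∣ 6 := by
    have h5 : (MulAut.conjNormal : G →* MulAut F).ker ≤ F := by
      intro g hg
      apply hCF
      rw [Subgroup.mem_centralizer_iff]
      intro y hy
      exact ((mem_ker_conj F g).mp hg y hy).symm
    refine (Subgroup.index_dvd_of_le h5).trans ?_
    rw [Subgroup.index_ker]
    exact (Subgroup.card_subgroup_dvd_card _).trans (card_mulAut_four hc)
  have hmul := F.card_mul_index
  rw [hc] at hmul
  have h5 : F.index ≤ 6 := Nat.le_of_dvd (by norm_num) hidx
  rw [← hmul] at h3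
  have h6 : F.index = 1 ∨ F.index = 2 := by
    generalize F.index = i at *
    interval_cases i <;> omega
  have h7 : IsPGroup 2 G := by
    rcases h6 with h | h
    · exact IsPGroup.of_card (n := 2) (by rw [← hmul, h]; norm_num)
    · exact IsPGroup.of_card (n := 3) (by rw [← hmul, h]; norm_num)
  exact h7.isNilpotent

/-- squares in noncyclic groups of order 8 -/
lemma sq8 {P : Type} [Group P] [Finite P] (h8 : Nat.card P = 8) (hn : ¬ IsCyclic P)
    (hE : ∃ x : P, x * x ≠ 1) : ∃ s : P, ∀ x : P, x * x = 1 ∨ x * x = s := by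
  have tr : ∀ {Q : Type} [Group Q] (e : P ≃* Q) (s : Q), (∀ x : Q, x * x = 1 ∨ x * x = s) →
      ∃ s : P, ∀ x : P, x * x = 1 ∨ x * x = s := by
    intro Q _ e s hs
    refine ⟨e.symm s, fun x => ?_⟩
    rcases hs (e x) with h | h
    · left
      apply e.injective
      rw [map_mul, map_one, h]
    · right
      apply e.injective
      rw [map_mul, MulEquiv.apply_symm_apply, h]
  rcases ord8_class h8 hn hE with ⟨⟨e⟩⟩ | ⟨⟨e⟩⟩ | ⟨⟨e⟩⟩
  · exact tr e (Multiplicative.ofAdd (0, 2)) (by decide)
  · exact tr e (DihedralGroup.r 2) (by decide)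
  · exact tr e (QuaternionGroup.a 2) (by decide)

/-- The Fitting subgroup has order 8. -/
theorem caseC (hK : SHAClosed K) (hE : ¬ K (E 3)) {G : Type} [Group G] [Finite G] (hG : K G)
    (F : Subgroup G) [hFn : F.Normal] (hc : Nat.card F = 8) (hncyc : ¬ IsCyclic F)
    (hCF : Subgroup.centralizer (F : Set G) ≤ F) (hnn : ¬ Group.IsNilpotent G) : BinTet G := by
  haveI : Fact (Nat.Prime 2) := ⟨Nat.prime_two⟩
  have hKF : K F := hK.sub _ _ F.subtype F.subtype_injective hG
  have hF2 : IsPGroup 2 F := IsPGroup.of_card (n := 3) (by rw [hc]; norm_num)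
  obtain ⟨P, hFP⟩ := hF2.exists_le_sylow
  have hPn : ¬ IsCyclic P := by
    intro hP
    exact hncyc (Subgroup.isCyclic_of_le hFP)
  have hP8 : Nat.card P ≤ 8 := by
    rcases two_groups hK hE (hK.sub _ _ P.1.subtype P.1.subtype_injective hG) P.2 with h | h
    · exact h
    · exact absurd h.2 hPn
  have hFPeq : F = P.1 := Subgroup.eq_of_le_of_card_ge hFP (by rw [hc]; exact hP8)
  have hodd : ¬ 2 ∣ F.index := by
    rw [hFPeq]
    exact P.not_dvd_index
  have hne1 : F.index ≠ 1 := by
    intro h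
    apply hnn
    have hmul := F.card_mul_index
    rw [hc, h] at hmul
    have : IsPGroup 2 G := IsPGroup.of_card (n := 3) (by rw [← hmul]; norm_num)
    exact this.isNilpotent
  -- an element of order 4
  have hex : ∃ x : F, x * x ≠ 1 := by
    by_contra hall
    push Not at hall
    exact hE (K_E3_of_exp hK hKF hall (by rw [hc]))
  obtain ⟨s0, hs0⟩ := sq8 hc hncyc hex
  obtain ⟨a, ha⟩ := hex
  have hs : ∀ x ∈ F, x * x = 1 ∨ x * x = (a : G) * a := by
    intro x hx
    have h1 : a * a = s0 := (hs0 a).resolve_left ha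
    rcases hs0 ⟨x, hx⟩ with h | h
    · exact Or.inl (congrArg Subtype.val h)
    · right
      rw [← h1] at h
      exact congrArg Subtype.val h
  have haa : (a : G) * a ≠ 1 := fun h => ha (Subtype.ext h)
  set s : G := (a : G) * a with hsdef
  have hsF : s ∈ F := F.mul_mem a.2 a.2
  have hss : s * s = 1 := by
    have h1 := exp4 hc hncyc a
    have h2 : (a : G) ^ 4 = 1 := congrArg Subtype.val h1
    rw [hsdef, ← pow_two, ← pow_two, ← pow_mul]
    exact h2
  have hsc : ∀ g : G, g * s * g⁻¹ = s := by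
    intro g
    have h1 : g * s * g⁻¹ = (g * a * g⁻¹) * (g * a * g⁻¹) := by rw [hsdef]; group
    rcases hs (g * a * g⁻¹) (hFn.conj_mem _ a.2 g) with h | h
    · exfalso
      apply haa
      rw [← h1] at h
      have h5 : g * s * g⁻¹ = g * 1 * g⁻¹ := by rw [h]; group
      exact mul_left_cancel (mul_right_cancel h5)
    · rw [h1, h]
  have hscomm : ∀ g : G, g * s = s * g := fun g => mul_inv_eq_iff_eq_mul.mp (hsc g)
  set Z := Subgroup.zpowers s with hZ
  have hZmem : ∀ z, z ∈ Z ↔ z = 1 ∨ z = s := by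
    intro z
    rw [hZ, Subgroup.mem_zpowers_iff]
    constructor
    · rintro ⟨i, rfl⟩
      rcases Int.emod_two_eq_zero_or_one i with h | h
      · left
        obtain ⟨j, hj⟩ := Int.dvd_of_emod_eq_zero h
        rw [hj, zpow_mul, zpow_two, hss, one_zpow]
      · right
        obtain ⟨j, hj⟩ : ∃ j, i = 2 * j + 1 := ⟨i / 2, by omega⟩
        rw [hj, zpow_add_one, zpow_mul, zpow_two, hss, one_zpow, one_mul]
    · rintro (rfl | rfl)
      · exact ⟨0, zpow_zero _⟩
      · exact ⟨1, zpow_one _⟩
  have hs1 : s ≠ 1 := haa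
  have hZc : Nat.card Z = 2 := by
    rw [hZ, Nat.card_zpowers]
    exact orderOf_eq_prime (by rw [pow_two]; exact hss) hs1
  haveI hZn : Z.Normal := by
    refine ⟨fun z hz g => ?_⟩
    rw [hZmem] at hz ⊢
    rcases hz with rfl | rfl
    · left; group
    · right; exact hsc g
  have hZF : Z ≤ F := (Subgroup.zpowers_le).mpr hsF
  let π := QuotientGroup.mk' Z
  have hπs : Function.Surjective π := QuotientGroup.mk'_surjective Z
  have hπ1 : ∀ x, π x = 1 ↔ x ∈ Z := fun x => QuotientGroup.eq_one_iff x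
  set V := F.map π with hV
  haveI hVn : V.Normal := hFn.map π hπs
  have hVidx : V.index = F.index := by
    rw [hV, Subgroup.index_map, QuotientGroup.ker_mk', sup_eq_left.mpr hZF]
    have : π.range = ⊤ := MonoidHom.range_eq_top.mpr hπs
    rw [this, Subgroup.index_top, mul_one]
  have hVc : Nat.card V = 4 := by
    have h1 := V.card_mul_index
    have h2 : Nat.card (G ⧸ Z) = Z.index := rfl
    have h3 := Z.card_mul_index
    have h4 := F.card_mul_index
    rw [h2, hVidx] at h1
    rw [hZc] at h3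
    rw [hc] at h4
    have h5 : F.index ≠ 0 := Subgroup.FiniteIndex.index_ne_zero
    have h6 : Nat.card V * F.index = 4 * F.index := by omega
    exact Nat.eq_of_mul_eq_mul_right (Nat.pos_of_ne_zero h5) h6
  have hVcomm : ∀ x ∈ V, ∀ y ∈ V, x * y = y * x := by
    have h1 : ∀ x y : V, x * y = y * x :=
      IsPGroup.commutative_of_card_eq_prime_sq (p := 2) (by rw [hVc]; norm_num)
    intro x hx y hy
    exact congrArg Subtype.val (h1 ⟨x, hx⟩ ⟨y, hy⟩)
  let κ : G →* MulAut V := (MulAut.conjNormal : (G ⧸ Z) →* MulAut V).comp π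
  have hκ : ∀ g, g ∈ κ.ker ↔ ∀ x ∈ F, g * x * g⁻¹ * x⁻¹ ∈ Z := by
    intro g
    have h1 : g ∈ κ.ker ↔ π g ∈ (MulAut.conjNormal : (G ⧸ Z) →* MulAut V).ker := Iff.rfl
    rw [h1, mem_ker_conj]
    constructor
    · intro h x hx
      have h2 := h (π x) ⟨x, hx, rfl⟩
      rw [← hπ1, map_mul, map_mul, map_mul, map_inv, map_inv, h2]
      group
    · rintro h _ ⟨x, hx, rfl⟩
      have h2 := h x hx
      rw [← hπ1, map_mul, map_mul, map_mul, map_inv, map_inv] at h2
      have h3 : π g * π x * (π g)⁻¹ = π x := mul_inv_eq_one.mp h2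
      exact mul_inv_eq_iff_eq_mul.mp h3
  have hsqF : ∀ g, g * g ∈ F → g ∈ F := by
    intro g hg
    have h1 : orderOf (QuotientGroup.mk' F g) ∣ 2 := by
      apply orderOf_dvd_of_pow_eq_one
      rw [← map_pow, pow_two]
      exact (QuotientGroup.eq_one_iff _).mpr hg
    have h2 : orderOf (QuotientGroup.mk' F g) ∣ F.index := orderOf_dvd_natCard _
    rcases (Nat.dvd_prime Nat.prime_two).mp h1 with h | h
    · exact (QuotientGroup.eq_one_iff g).mp (orderOf_eq_one_iff.mp h)
    · rw [h] at h2
      exact absurd h2 hodd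
  have hkerF : κ.ker ≤ F := by
    intro g hg
    apply hsqF
    apply hCF
    rw [Subgroup.mem_centralizer_iff]
    intro x hx
    have hx' : x ∈ F := hx
    have h1 := (hκ g).mp hg x hx'
    rw [hZmem] at h1
    have h2 : g * x * g⁻¹ = x ∨ g * x * g⁻¹ = s * x := by
      rcases h1 with h | h
      · left; exact mul_inv_eq_one.mp h
      · right; exact mul_inv_eq_iff_eq_mul.mp h
    have h3 : (g * g) * x * (g * g)⁻¹ = x := by
      have e1 : (g * g) * x * (g * g)⁻¹ = g * (g * x * g⁻¹) * g⁻¹ := by group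
      rw [e1]
      rcases h2 with h | h
      · rw [h, h]
      · rw [h]
        have e2 : g * (s * x) * g⁻¹ = (g * s * g⁻¹) * (g * x * g⁻¹) := by group
        rw [e2, hsc, h, ← mul_assoc, hss, one_mul]
    exact (mul_inv_eq_iff_eq_mul.mp h3).symm
  have hFker : F ≤ κ.ker := by
    intro g hg
    have h1 : g ∈ κ.ker ↔ π g ∈ (MulAut.conjNormal : (G ⧸ Z) →* MulAut V).ker := Iff.rfl
    rw [h1, mem_ker_conj]
    intro y hy
    exact hVcomm _ ⟨g, hg, rfl⟩ y hy
  have hidx3 : F.index = 3 := by
    have h1 : F.index ∣ 6 := by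
      refine (Subgroup.index_dvd_of_le hkerF).trans ?_
      rw [Subgroup.index_ker]
      exact (Subgroup.card_subgroup_dvd_card _).trans (card_mulAut_four hVc)
    have h2 : F.index ≤ 6 := Nat.le_of_dvd (by norm_num) h1
    generalize F.index = i at *
    interval_cases i <;> omega
  have hG24 : Nat.card G = 24 := by
    rw [← F.card_mul_index, hc, hidx3]
  refine ⟨hG24, F, hFn, ?_, hCF⟩
  -- an element outside F
  obtain ⟨x, hx⟩ : ∃ x, x ∉ F := by
    by_contra h
    push Not at h
    apply hne1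
    rw [Subgroup.index_eq_one, eq_top_iff]
    exact fun x _ => h x
  have hσ1 : κ x ≠ 1 := fun h => hx (hkerF h)
  have hσ3 : (κ x) ^ 3 = 1 := by
    rw [← map_pow]
    apply hFker
    have h4 : (QuotientGroup.mk' F x) ^ Nat.card (G ⧸ F) = 1 := pow_card_eq_one'
    have h5 : Nat.card (G ⧸ F) = 3 := hidx3
    rw [h5, ← map_pow] at h4
    exact (QuotientGroup.eq_one_iff _).mp h4
  set b : G := x * a * x⁻¹ with hb
  set c : G := x * b * x⁻¹ with hcdef
  have hbF : b ∈ F := hFn.conj_mem _ a.2 x
  have hcF : c ∈ F := hFn.conj_mem _ hbF x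
  have hbb : b * b = s := by
    have : b * b = x * s * x⁻¹ := by rw [hb, hsdef]; group
    rw [this, hsc]
  have hcc : c * c = s := by
    have : c * c = x * (b * b) * x⁻¹ := by rw [hcdef]; group
    rw [this, hbb, hsc]
  let av : V := ⟨π a, a, a.2, rfl⟩
  let bv : V := ⟨π b, b, hbF, rfl⟩
  let cv : V := ⟨π c, c, hcF, rfl⟩
  have hσa : κ x av = bv := by
    apply Subtype.ext
    show ((MulAut.conjNormal (π x) : MulAut V) av : G ⧸ Z) = π b
    rw [MulAut.conjNormal_apply, hb, map_mul, map_mul, map_inv]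
  have hσb : κ x bv = cv := by
    apply Subtype.ext
    show ((MulAut.conjNormal (π x) : MulAut V) bv : G ⧸ Z) = π c
    rw [MulAut.conjNormal_apply, hcdef, map_mul, map_mul, map_inv]
  have hσc : κ x cv = av := by
    have h1 : ((κ x) ^ 3) av = av := by rw [hσ3]; rfl
    rw [pow_succ, pow_two, MulAut.mul_apply, MulAut.mul_apply, hσa, hσb] at h1
    exact h1
  have hav1 : av ≠ 1 := by
    intro h
    have h1 : π a = 1 := congrArg Subtype.val h
    rw [hπ1, hZmem] at h1
    rcases h1 with h | h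
    · exact haa (by rw [hsdef, h, one_mul])
    · apply haa
      rw [hsdef]
      nth_rewrite 1 [h]
      nth_rewrite 1 [h]
      exact hss
  have hprod : av * bv * cv = 1 := by
    apply no_fix hVc (κ x) hσ3 hσ1
    rw [map_mul, map_mul, hσa, hσb, hσc]
    apply Subtype.ext
    have e1 := hVcomm _ (bv * cv).2 _ av.2
    exact e1.trans (mul_assoc _ _ _).symm
  have habc : (a : G) * b * c ∈ Z := by
    rw [← hπ1, map_mul, map_mul]
    exact congrArg Subtype.val hprod
  have hab2 : ((a : G) * b) * (a * b) = s := by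
    rw [hZmem] at habc
    have hs' : s⁻¹ = s := inv_eq_of_mul_eq_one_left hss
    rcases habc with h | h
    · have h1 : (a : G) * b = c⁻¹ := eq_inv_of_mul_eq_one_left h
      rw [h1, ← mul_inv_rev, hcc, hs']
    · have h1 : (a : G) * b = s * c⁻¹ := eq_mul_inv_of_mul_eq h
      rw [h1]
      calc s * c⁻¹ * (s * c⁻¹) = s * (c⁻¹ * s) * c⁻¹ := by group
        _ = s * (s * c⁻¹) * c⁻¹ := by rw [hscomm]
        _ = (s * s) * (c * c)⁻¹ := by group
        _ = s := by rw [hss, hcc, hs', one_mul]
  have hbab : b * a * b⁻¹ = (a : G)⁻¹ := by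
    have h1 : (a : G) * (b * a * b) = a * a := by
      rw [← hsdef, ← hab2]; group
    have h2 : b * a * b = (a : G) := mul_left_cancel h1
    have h3 : b * a = (a : G) * b⁻¹ := eq_mul_inv_of_mul_eq h2
    rw [h3]
    calc (a : G) * b⁻¹ * b⁻¹ = a * (b * b)⁻¹ := by group
      _ = (a : G) * s⁻¹ := by rw [hbb]
      _ = (a : G)⁻¹ := by rw [hsdef]; group
  have hao : orderOf a = 4 := by
    have h1 : orderOf a = 2 ^ (1 + 1) := by
      apply orderOf_eq_prime_pow
      · rw [pow_one, pow_two]; exact ha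
      · exact exp4 hc hncyc a
    rw [h1]; norm_num
  refine quat_iso (P := F) a ⟨b, hbF⟩ hc hao ?_ (Subtype.ext hbb) (Subtype.ext hbab)
  intro hmem
  obtain ⟨i, hi⟩ := Subgroup.mem_zpowers_iff.mp hmem
  have hi' : (a : G) ^ i = b := congrArg Subtype.val hi
  -- b is congruent to a power of a modulo Z, hence fixed point or trivial
  apply hav1
  have hcases : bv = 1 ∨ bv = av := by
    rcases Int.emod_two_eq_zero_or_one i with h | h
    · left
      obtain ⟨j, hj⟩ := Int.dvd_of_emod_eq_zero h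
      apply Subtype.ext
      show π b = 1
      rw [hπ1, ← hi', hj, zpow_mul, zpow_two]
      exact Z.zpow_mem (Subgroup.mem_zpowers s) j
    · right
      obtain ⟨j, hj⟩ : ∃ j, i = 2 * j + 1 := ⟨i / 2, by omega⟩
      apply Subtype.ext
      show π b = π a
      have h2 : b * (a : G)⁻¹ ∈ Z := by
        rw [← hi', hj, zpow_add_one, mul_inv_cancel_right, zpow_mul, zpow_two]
        exact Z.zpow_mem (Subgroup.mem_zpowers s) j
      rw [← hπ1, map_mul, map_inv] at h2
      exact mul_inv_eq_one.mp h2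
  rcases hcases with h | h
  · have h2 : κ x av = κ x 1 := by rw [hσa, h, map_one]
    exact (κ x).injective h2
  · exact no_fix hVc (κ x) hσ3 hσ1 av (by rw [hσa, h])

end Pool.Agent.SHAF
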