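import Mathlib
import Pool.Agent.SHAF.NonCyc

set_option autoImplicit false

/-!
The Fitting subgroup is not the product of a Klein four group and a group of order 3.
-/

namespace Pool.Agent.SHAF

open Pool.Agent.SHA

variable {K : (G : Type) → [Group G] → Prop}

lemma keyA2 : ∀ y : cyc 3, y * y = 1 → y = 1 := by decide
lemma keyA3 : ∀ y : V4, y ^ 3 = 1 → y = 1 := by decide
lemma keyA2' : ∀ y : V4, y * y = 1 := by decide
lemma keyA3' : ∀ y : cyc 3, y ^ 3 = 1 := by decide

theorem caseA (hK : SHAClosed K) (hE : ¬ K (E 3)) {G : Type} [Group G] [Finite G] (hG : K G)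
    (F : Subgroup G) [hFn : F.Normal] (e : F ≃* V4 × cyc 3)
    (hCF : Subgroup.centralizer (F : Set G) ≤ F) (hnn : ¬ Group.IsNilpotent G) : False := by
  haveI : Fact (Nat.Prime 2) := ⟨Nat.prime_two⟩
  haveI : Fact (Nat.Prime 3) := ⟨Nat.prime_three⟩
  have hFcomm : ∀ x ∈ F, ∀ y ∈ F, x * y = y * x := by
    intro x hx y hy
    have h1 : (⟨x, hx⟩ : F) * ⟨y, hy⟩ = ⟨y, hy⟩ * ⟨x, hx⟩ := by
      apply e.injective
      rw [map_mul, map_mul, mul_comm]
    exact congrArg Subtype.val h1
  let W : Subgroup G :=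
    { carrier := {x | x ∈ F ∧ x * x = 1}
      mul_mem' := by
        rintro x y ⟨hx, hx2⟩ ⟨hy, hy2⟩
        refine ⟨F.mul_mem hx hy, ?_⟩
        have h1 := hFcomm y hy x hx
        calc x * y * (x * y) = x * (y * x) * y := by group
          _ = x * (x * y) * y := by rw [h1]
          _ = (x * x) * (y * y) := by group
          _ = 1 := by rw [hx2, hy2, one_mul]
      one_mem' := ⟨F.one_mem, one_mul 1⟩
      inv_mem' := by
        rintro x ⟨hx, hx2⟩
        refine ⟨F.inv_mem hx, ?_⟩
        rw [← mul_inv_rev, hx2, inv_one] }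
  let R : Subgroup G :=
    { carrier := {x | x ∈ F ∧ x ^ 3 = 1}
      mul_mem' := by
        rintro x y ⟨hx, hx2⟩ ⟨hy, hy2⟩
        refine ⟨F.mul_mem hx hy, ?_⟩
        rw [(show Commute x y from hFcomm x hx y hy).mul_pow, hx2, hy2, one_mul]
      one_mem' := ⟨F.one_mem, one_pow 3⟩
      inv_mem' := by
        rintro x ⟨hx, hx2⟩
        refine ⟨F.inv_mem hx, ?_⟩
        rw [inv_pow, hx2, inv_one] }
  have hWm : ∀ x, x ∈ W ↔ x ∈ F ∧ x * x = 1 := fun x => Iff.rfl
  have hRm : ∀ x, x ∈ R ↔ x ∈ F ∧ x ^ 3 = 1 := fun x => Iff.rfl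
  haveI hWn : W.Normal := by
    refine ⟨fun x hx g => ?_⟩
    rw [hWm] at hx ⊢
    refine ⟨hFn.conj_mem _ hx.1 g, ?_⟩
    have : g * x * g⁻¹ * (g * x * g⁻¹) = g * (x * x) * g⁻¹ := by group
    rw [this, hx.2]; group
  haveI hRn : R.Normal := by
    refine ⟨fun x hx g => ?_⟩
    rw [hRm] at hx ⊢
    refine ⟨hFn.conj_mem _ hx.1 g, ?_⟩
    rw [conj_pow, hx.2]; group
  have hWF : W ≤ F := fun x hx => hx.1
  have hRF : R ≤ F := fun x hx => hx.1
  have key2 := keyA2
  have key3 := keyA3
  have key2' := keyA2'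
  have key3' := keyA3'
  have hWc : Nat.card W = 4 := by
    have h1 : Function.Bijective (fun v : V4 => (⟨(e.symm (v, 1)).1, (e.symm (v, 1)).2, by
        have h2 : (e.symm (v, 1)) * (e.symm (v, 1)) = 1 := by
          rw [← map_mul]
          have : ((v, 1) : V4 × cyc 3) * (v, 1) = 1 := Prod.ext (key2' v) (one_mul 1)
          rw [this, map_one]
        exact congrArg Subtype.val h2⟩ : W)) := by
      constructor
      · intro v w hvw
        have h2 : ((e.symm (v, 1) : F) : G) = ((e.symm (w, 1) : F) : G) := by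
          have h := congrArg (fun w : W => (w : G)) hvw
          exact h
        have h3 := e.symm.injective (Subtype.ext h2)
        exact congrArg Prod.fst h3
      · rintro ⟨x, hxF, hx2⟩
        have h2 : (⟨x, hxF⟩ : F) * ⟨x, hxF⟩ = 1 := Subtype.ext hx2
        have h3 : (e ⟨x, hxF⟩).2 = 1 := by
          apply key2
          have := congrArg Prod.snd (congrArg e h2)
          rw [map_mul, map_one] at this
          exact this
        refine ⟨(e ⟨x, hxF⟩).1, ?_⟩
        apply Subtype.ext
        show (e.symm ((e ⟨x, hxF⟩).1, 1)).1 = x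
        have h4 : ((e ⟨x, hxF⟩).1, (1 : cyc 3)) = e ⟨x, hxF⟩ := Prod.ext rfl h3.symm
        rw [h4, MulEquiv.symm_apply_apply]
    rw [← Nat.card_congr (Equiv.ofBijective _ h1), Nat.card_eq_fintype_card]
    rfl
  have hRc : Nat.card R = 3 := by
    have h1 : Function.Bijective (fun v : cyc 3 => (⟨(e.symm (1, v)).1, (e.symm (1, v)).2, by
        have h2 : (e.symm (1, v)) ^ 3 = 1 := by
          rw [← map_pow]
          have : ((1, v) : V4 × cyc 3) ^ 3 = 1 := Prod.ext (one_pow 3) (key3' v)
          rw [this, map_one]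
        exact congrArg Subtype.val h2⟩ : R)) := by
      constructor
      · intro v w hvw
        have h2 : ((e.symm (1, v) : F) : G) = ((e.symm (1, w) : F) : G) := by
          have h := congrArg (fun w : R => (w : G)) hvw
          exact h
        have h3 := e.symm.injective (Subtype.ext h2)
        exact congrArg Prod.snd h3
      · rintro ⟨x, hxF, hx2⟩
        have h2 : (⟨x, hxF⟩ : F) ^ 3 = 1 := Subtype.ext hx2
        have h3 : (e ⟨x, hxF⟩).1 = 1 := by
          apply key3
          have := congrArg Prod.fst (congrArg e h2)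
          rw [map_pow, map_one] at this
          exact this
        refine ⟨(e ⟨x, hxF⟩).2, ?_⟩
        apply Subtype.ext
        show (e.symm (1, (e ⟨x, hxF⟩).2)).1 = x
        have h4 : ((1 : V4), (e ⟨x, hxF⟩).2) = e ⟨x, hxF⟩ := Prod.ext h3.symm rfl
        rw [h4, MulEquiv.symm_apply_apply]
    rw [← Nat.card_congr (Equiv.ofBijective _ h1), Nat.card_congr Multiplicative.toAdd,
      Nat.card_zmod]
  have hFc : Nat.card F = 12 := by
    rw [Nat.card_congr e.toEquiv, Nat.card_prod, Nat.card_congr Multiplicative.toAdd,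
      Nat.card_zmod, Nat.card_eq_fintype_card]
    rfl
  have hFWR : ∀ x ∈ F, ∃ w ∈ W, ∃ r ∈ R, x = w * r := by
    intro x hx
    refine ⟨(e.symm ((e ⟨x, hx⟩).1, 1)).1, ⟨(e.symm _).2, ?_⟩,
      (e.symm (1, (e ⟨x, hx⟩).2)).1, ⟨(e.symm _).2, ?_⟩, ?_⟩
    · have h2 : (e.symm ((e ⟨x, hx⟩).1, 1)) * (e.symm ((e ⟨x, hx⟩).1, 1)) = 1 := by
        rw [← map_mul]
        have : (((e ⟨x, hx⟩).1, 1) : V4 × cyc 3) * ((e ⟨x, hx⟩).1, 1) = 1 :=
          Prod.ext (key2' _) (one_mul 1)
        rw [this, map_one]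
      exact congrArg Subtype.val h2
    · have h2 : (e.symm (1, (e ⟨x, hx⟩).2)) ^ 3 = 1 := by
        rw [← map_pow]
        have : ((1, (e ⟨x, hx⟩).2) : V4 × cyc 3) ^ 3 = 1 := Prod.ext (one_pow 3) (key3' _)
        rw [this, map_one]
      exact congrArg Subtype.val h2
    · have h2 : (⟨x, hx⟩ : F) = (e.symm ((e ⟨x, hx⟩).1, 1)) * (e.symm (1, (e ⟨x, hx⟩).2)) := by
        rw [← map_mul]
        have : (((e ⟨x, hx⟩).1, 1) : V4 × cyc 3) * (1, (e ⟨x, hx⟩).2) = e ⟨x, hx⟩ :=
          Prod.ext (mul_one _) (one_mul _)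
        rw [this, MulEquiv.symm_apply_apply]
      exact congrArg Subtype.val h2
  have hcen : ∀ g : G, (∀ y ∈ W, g * y = y * g) → (∀ y ∈ R, g * y = y * g) → g ∈ F := by
    intro g h1 h2
    apply hCF
    rw [Subgroup.mem_centralizer_iff]
    intro y hy
    obtain ⟨w, hw, r, hr, rfl⟩ := hFWR y hy
    rw [mul_assoc, ← h2 r hr, ← mul_assoc, ← h1 w hw, mul_assoc]
  have hnF : F.index ≠ 1 := by
    intro h
    apply hnn
    rw [Subgroup.index_eq_one] at h
    letI : CommGroup G := { (inferInstance : Group G) with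
      mul_comm := fun x y => hFcomm x (by rw [h]; trivial) y (by rw [h]; trivial) }
    infer_instance
  -- the Sylow 2-subgroup
  have hW2 : IsPGroup 2 W := IsPGroup.of_card (n := 2) (by rw [hWc]; norm_num)
  obtain ⟨P, hWP⟩ := hW2.exists_le_sylow
  have hWncyc : ¬ IsCyclic W := by
    intro h
    obtain ⟨x, hx⟩ := IsCyclic.exists_ofOrder_eq_natCard (α := W)
    have h2 : x ^ 2 = 1 := by rw [pow_two]; exact Subtype.ext x.2.2
    have h3 := orderOf_dvd_of_pow_eq_one h2
    rw [hx, hWc] at h3
    omega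
  have hPn : ¬ IsCyclic P := fun hP => hWncyc (Subgroup.isCyclic_of_le hWP)
  have hP8 : Nat.card P ≤ 8 := by
    rcases two_groups hK hE (hK.sub _ _ P.1.subtype P.1.subtype_injective hG) P.2 with h | h
    · exact h
    · exact absurd h.2 hPn
  have hPW : Nat.card P = 4 := by
    obtain ⟨n, hn⟩ := IsPGroup.iff_card.mp P.2
    have h1 : 4 ≤ Nat.card P := by
      rw [← hWc]
      exact Nat.le_of_dvd Nat.card_pos (Subgroup.card_dvd_of_le hWP)
    have h2 : n ≤ 3 := by
      by_contra hlt
      have : 2 ^ 4 ≤ 2 ^ n := Nat.pow_le_pow_right (by norm_num) (by omega)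
      rw [← hn] at this
      omega
    by_contra hne
    have h3 : Nat.card P = 8 := by
      rw [hn] at h1 hne ⊢
      interval_cases n <;> omega
    obtain ⟨φ, hφ, hKφ⟩ := K_int hK hG R P.1 (by
      intro x hxR hxP
      have h4 : orderOf x ∣ 3 := orderOf_dvd_of_pow_eq_one hxR.2
      have h5 : orderOf x ∣ 8 := by
        rw [← h3]
        exact Subgroup.orderOf_dvd_natCard P.1 hxP
      have h6 := Nat.dvd_gcd h4 h5
      norm_num at h6
      exact h6)
    have hM : (W.subgroupOf P.1).index = 2 := by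
      have h4 := (W.subgroupOf P.1).card_mul_index
      have h5 : Nat.card (W.subgroupOf P.1) = 4 := by
        rw [← hWc]
        exact Nat.card_congr (Subgroup.subgroupOfEquivOfLe hWP).toEquiv
      have h6 : Nat.card P.1 = 8 := h3
      rw [h5, h6] at h4
      omega
    haveI : Finite P.1 := inferInstance
    have hRcyc : IsCyclic R := isCyclic_of_prime_card (p := 3) hRc
    refine hE (no_semi8 hK φ hKφ h3 (W.subgroupOf P.1) hM ?_ (fun n => n⁻¹)
      (cyc_inv hRcyc).1 (cyc_inv hRcyc).2 (cyc_inv_ne (by rw [hRc]; norm_num) (by rw [hRc]; norm_num))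
      (fun x n => (map_inv (φ x) n).symm))
    intro m hm
    refine MulEquiv.ext fun n => ?_
    apply Subtype.ext
    have hm' : (m : G) ∈ W := hm
    rw [hφ, hFcomm _ (hWF hm') _ (hRF n.2)]
    simp
  have hWeq : W = P.1 := Subgroup.eq_of_le_of_card_ge hWP (by
    have : Nat.card P.1 = 4 := hPW
    rw [hWc, this])
  have hWodd : ¬ 2 ∣ W.index := by
    rw [hWeq]; exact P.not_dvd_index
  -- R is central
  have hRcyc : IsCyclic R := isCyclic_of_prime_card (p := 3) hRc
  have hRcen : ∀ g : G, ∀ y ∈ R, g * y = y * g := by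
    have h1 : (MulAut.conjNormal : G →* MulAut R).ker = ⊤ := by
      rw [← Subgroup.index_eq_one]
      have h2 : (MulAut.conjNormal : G →* MulAut R).ker.index ∣ 2 := by
        rw [Subgroup.index_ker]
        refine (Subgroup.card_subgroup_dvd_card _).trans ?_
        rw [IsCyclic.card_mulAut, hRc]
        decide
      have h3 : W ≤ (MulAut.conjNormal : G →* MulAut R).ker := by
        intro w hw
        rw [mem_ker_conj]
        intro y hy
        exact hFcomm _ (hWF hw) _ (hRF hy)
      have h4 := Subgroup.index_dvd_of_le h3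
      rcases (Nat.dvd_prime Nat.prime_two).mp h2 with h | h
      · exact h
      · rw [h] at h4
        exact absurd h4 hWodd
    intro g
    have h5 : g ∈ (MulAut.conjNormal : G →* MulAut R).ker := by rw [h1]; trivial
    exact (mem_ker_conj R g).mp h5
  -- the index of F
  have hkW : (MulAut.conjNormal : G →* MulAut W).ker ≤ F := by
    intro g hg
    exact hcen g ((mem_ker_conj W g).mp hg) (hRcen g)
  have hFidx : F.index = 3 := by
    have h1 : F.index ∣ 6 := by
      refine (Subgroup.index_dvd_of_le hkW).trans ?_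
      rw [Subgroup.index_ker]
      exact (Subgroup.card_subgroup_dvd_card _).trans (card_mulAut_four hWc)
    have h2 : ¬ 2 ∣ F.index := fun h => hWodd (h.trans (Subgroup.index_dvd_of_le hWF))
    have h3 : F.index ≤ 6 := Nat.le_of_dvd (by norm_num) h1
    generalize F.index = i at *
    interval_cases i <;> omega
  have hG36 : Nat.card G = 36 := by rw [← F.card_mul_index, hFc, hFidx]
  obtain ⟨S, hS⟩ := Sylow.exists_subgroup_card_pow_prime 3 (n := 2) (G := G)
    (by rw [hG36]; norm_num)
  have hScyc : IsCyclic S := odd_p_groups hK hE Nat.prime_three (by norm_num)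
    (hK.sub _ _ S.subtype S.subtype_injective hG) (IsPGroup.of_card hS)
  obtain ⟨x, hx⟩ := IsCyclic.exists_ofOrder_eq_natCard (α := S)
  have hx9 : orderOf x = 9 := by rw [hx, hS]; norm_num
  obtain ⟨φ, hφ, hKφ⟩ := K_int hK hG W S (by
    intro y hyW hyS
    have h4 : orderOf y ∣ 2 := orderOf_dvd_of_pow_eq_one (by rw [pow_two]; exact hyW.2)
    have h5 : orderOf y ∣ 9 := by
      have h6 := Subgroup.orderOf_dvd_natCard S hyS
      rw [hS] at h6
      norm_num at h6
      exact h6
    have h6 := Nat.dvd_gcd h4 h5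
    norm_num at h6
    exact h6)
  haveI : Finite (MulAut W) := Finite.of_injective _ (autPerm_injective W)
  have hφo : orderOf (φ x) ∣ 3 := by
    have h1 : orderOf (φ x) ∣ 9 := by rw [← hx9]; exact orderOf_map_dvd _ _
    have h2 : orderOf (φ x) ∣ 6 := (orderOf_dvd_natCard _).trans (card_mulAut_four hWc)
    have h3 := Nat.dvd_gcd h1 h2
    norm_num at h3
    exact h3
  have hφne : φ x ≠ 1 := by
    intro h
    have h1 : (x : G) ∈ F := by
      apply hcen _ _ (hRcen x)
      intro y hy
      have h2 : ((φ x ⟨y, hy⟩ : W) : G) = y := by rw [h]; rfl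
      rw [hφ] at h2
      exact mul_inv_eq_iff_eq_mul.mp h2
    have h2 := Subgroup.orderOf_dvd_natCard F h1
    rw [Subgroup.orderOf_coe, hx9, hFc] at h2
    omega
  have hφ3 : orderOf (φ x) = 3 := by
    rcases (Nat.dvd_prime Nat.prime_three).mp hφo with h | h
    · exact absurd (orderOf_eq_one_iff.mp h) hφne
    · exact h
  exact hE (no_c9 hK φ hKφ x hx9 (by rw [map_pow, ← hφ3, pow_orderOf_eq_one]) (φ x) hφ3
    (fun n => rfl))

end Pool.Agent.SHAF
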