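import Mathlib
import Pool.Agent.SHAF.NonCyc2

set_option autoImplicit false

/-!
Every finite soluble member of a class without the elementary abelian group of order 8 is in the
list.
-/

namespace Pool.Agent.SHAF

open Pool.Agent.SHA

variable {K : (G : Type) → [Group G] → Prop}

lemma cayley {G : Type} [Group G] [Finite G] {n : ℕ} (h : Nat.card G = n) :
    ∃ f : G →* Equiv.Perm (Fin n), Function.Injective f := by
  let e := Finite.equivFinOfCardEq h
  refine ⟨(Equiv.permCongrHom e).toMonoidHom.comp (MulAction.toPermHom G G),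
    (Equiv.permCongrHom e).injective.comp ?_⟩
  exact MulAction.toPerm_injective

/-- the map to `C_2 × C_6` -/
def f26 (x : V4 × cyc 3) : Multiplicative (ZMod 2 × ZMod 6) :=
  Multiplicative.ofAdd (Multiplicative.toAdd (sgnIso x.1.1),
    3 * ((Multiplicative.toAdd (sgnIso x.1.2)).val : ZMod 6) +
      4 * ((Multiplicative.toAdd x.2).val : ZMod 6))

lemma f26_mul : ∀ x y, f26 (x * y) = f26 x * f26 y := by decide +kernel

lemma f26_inj : ∀ x, f26 x = 1 → x = 1 := by decide +kernel

lemma iso26 : Nonempty (V4 × cyc 3 ≃* Multiplicative (ZMod 2 × ZMod 6)) := by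
  let f : V4 × cyc 3 →* Multiplicative (ZMod 2 × ZMod 6) := MonoidHom.mk' f26 f26_mul
  have hf : Function.Injective f := (injective_iff_map_eq_one f).mpr f26_inj
  have hc : Nat.card (V4 × cyc 3) = Nat.card (Multiplicative (ZMod 2 × ZMod 6)) := by
    rw [Nat.card_eq_fintype_card, Nat.card_eq_fintype_card]; rfl
  exact ⟨MulEquiv.ofBijective f ((Nat.bijective_iff_injective_and_card f).mpr ⟨hf, hc⟩)⟩

/-- Finite soluble members of the class belong to the list. -/
theorem sol_forward (hK : SHAClosed K) (hE : ¬ K (E 3)) (G : Type) [Group G] [Finite G]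
    [Group.IsSolvable G] (hG : K G) : SolList G := by
  refine ⟨inferInstance, ?_⟩
  by_cases hnil : Group.IsNilpotent G
  · by_cases hcyc : IsCyclic G
    · left
      obtain ⟨e⟩ := cyc_iso hcyc
      exact ⟨hcyc, cyc_good hK hE _ Nat.card_pos (iso hK e.symm hG)⟩
    · rcases nilp_members hK hE hG hcyc with h8 | ⟨⟨e⟩⟩ | ⟨⟨e⟩⟩
      · have hex : ∃ x : G, x * x ≠ 1 := by
          by_contra hall
          push Not at hall
          exact hE (K_E3_of_exp hK hG hall (by rw [h8]))
        rcases ord8_class h8 hcyc hex with h | ⟨⟨e⟩⟩ | h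
        · exact Or.inr (Or.inl h)
        · obtain ⟨f, hf⟩ := dih4_embed
          exact Or.inr (Or.inr (Or.inr (Or.inl ⟨f.comp e.toMonoidHom, hf.comp e.injective⟩)))
        · exact Or.inr (Or.inr (Or.inr (Or.inr (Or.inl h))))
      · have h4 : Nat.card G = 4 := by
          rw [Nat.card_congr e.toEquiv, Nat.card_eq_fintype_card]; rfl
        exact Or.inr (Or.inr (Or.inr (Or.inl (cayley h4))))
      · obtain ⟨e'⟩ := iso26
        exact Or.inr (Or.inr (Or.inl ⟨e.trans e'⟩))
  · obtain ⟨F, hFn, hFnil, hCF, hmax⟩ := exists_fit G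
    haveI := hFn
    haveI := hFnil
    have hKF : K F := hK.sub _ _ F.subtype F.subtype_injective hG
    by_cases hcyc : IsCyclic F
    · exact Or.inr (Or.inr (Or.inr (Or.inr (Or.inr (Or.inr
        (cycF_meta hK hE hG F hcyc hCF hmax hnil))))))
    · rcases nilp_members hK hE hKF hcyc with h8 | ⟨⟨e⟩⟩ | ⟨⟨e⟩⟩
      · exact Or.inr (Or.inr (Or.inr (Or.inr (Or.inr (Or.inl
          (caseC hK hE hG F h8 hcyc hCF hnil))))))
      · have h4 : Nat.card F = 4 := by
          rw [Nat.card_congr e.toEquiv, Nat.card_eq_fintype_card]; rfl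
        refine Or.inr (Or.inr (Or.inr (Or.inl (caseB F h4 ?_ hCF hnil))))
        intro v hv
        have h1 : (⟨v, hv⟩ : F) * ⟨v, hv⟩ = 1 := by
          apply e.injective
          rw [map_mul, map_one]
          exact keyA2' _
        exact congrArg Subtype.val h1
      · exact (caseA hK hE hG F e hCF hnil).elim

end Pool.Agent.SHAF
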