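import Mathlib
import Pool.Agent.SHAF.SolForward

set_option autoImplicit false

/-!
Small groups belong to the list.
-/

namespace Pool.Agent.SHAF

open Pool.Agent.SHA

lemma good_1 : Good 1 := Or.inl (by decide)
lemma good_2 : Good 2 := Or.inl (by decide)
lemma good_3 : Good 3 := Or.inr ⟨3, Or.inl ⟨1, by norm_num, by norm_num⟩, Or.inl rfl⟩
lemma good_4 : Good 4 := Or.inl (by decide)
lemma good_5 : Good 5 := Or.inr ⟨5, Or.inr (Or.inl (by decide)), Or.inl rfl⟩
lemma good_6 : Good 6 := Or.inr ⟨3, Or.inl ⟨1, by norm_num, by norm_num⟩, Or.inr rfl⟩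
lemma good_7 : Good 7 := Or.inr ⟨7, Or.inr (Or.inl (by decide)), Or.inl rfl⟩

lemma goodPP_3 : GoodPP 3 := Or.inl ⟨1, by norm_num, by norm_num⟩
lemma goodPP_5 : GoodPP 5 := Or.inr (Or.inl (by decide))
lemma goodPP_7 : GoodPP 7 := Or.inr (Or.inl (by decide))

lemma list_cyc {G : Type} [Group G] [Finite G] (h : IsCyclic G) (hg : Good (Nat.card G)) :
    SolList G := ⟨inferInstance, Or.inl ⟨h, hg⟩⟩

/-- a nonabelian group of order 6 -/
lemma meta_six {G : Type} [Group G] [Finite G] (h6 : Nat.card G = 6) (hn : ¬ IsCyclic G) :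
    MetaList G := by
  haveI : Fact (Nat.Prime 2) := ⟨Nat.prime_two⟩
  haveI : Fact (Nat.Prime 3) := ⟨Nat.prime_three⟩
  obtain ⟨x, hx⟩ := exists_prime_orderOf_dvd_card' (G := G) 3 (by rw [h6]; norm_num)
  obtain ⟨y, hy⟩ := exists_prime_orderOf_dvd_card' (G := G) 2 (by rw [h6]; norm_num)
  have hNc : Nat.card (Subgroup.zpowers x) = 3 := by rw [Nat.card_zpowers, hx]
  have hHc : Nat.card (Subgroup.zpowers y) = 2 := by rw [Nat.card_zpowers, hy]
  have hi2 : (Subgroup.zpowers x).index = 2 := by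
    have := (Subgroup.zpowers x).card_mul_index
    rw [hNc, h6] at this
    omega
  have hN : (Subgroup.zpowers x).Normal := Subgroup.normal_of_index_eq_two hi2
  have hcompl : (Subgroup.zpowers x).IsComplement' (Subgroup.zpowers y) :=
    Subgroup.isComplement'_of_coprime (by rw [hNc, hHc, h6]) (by rw [hNc, hHc]; norm_num)
  have hinf : (Subgroup.zpowers y ⊓ Subgroup.centralizer (Subgroup.zpowers x : Set G) : Subgroup G)
      = ⊥ := by
    rw [eq_bot_iff]
    rintro z ⟨hz, hzc⟩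
    by_contra hz1
    have hz1' : z ≠ 1 := hz1
    apply hn
    have hzo : orderOf z = 2 := by
      have h1 := Subgroup.orderOf_dvd_natCard _ hz
      rw [hHc] at h1
      rcases (Nat.dvd_prime Nat.prime_two).mp h1 with h | h
      · exact absurd (orderOf_eq_one_iff.mp h) hz1'
      · exact h
    have hc : Commute x z := (Subgroup.mem_centralizer_iff.mp hzc) x (Subgroup.mem_zpowers x)
    have h3 : orderOf (x * z) = 6 := by
      rw [hc.orderOf_mul_eq_mul_orderOf_of_coprime (by rw [hx, hzo]; norm_num), hx, hzo]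
    exact isCyclic_of_orderOf_eq_card _ (by rw [h3, h6])
  refine ⟨3, 1, 2, Subgroup.zpowers x, Subgroup.zpowers y, Nat.prime_three, hN, hNc, hcompl, ?_,
    ?_, by rw [hHc], by norm_num, Or.inl ⟨rfl, goodPP_3⟩, fun h => by omega⟩
  · intro a ha b hb
    obtain ⟨i, rfl⟩ := Subgroup.mem_zpowers_iff.mp ha
    obtain ⟨j, rfl⟩ := Subgroup.mem_zpowers_iff.mp hb
    rw [← zpow_add, ← zpow_add, add_comm]
  · rw [hinf]
    exact Subgroup.card_bot

/-- all groups of order at most 7 are in the list -/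
theorem small_list {G : Type} [Group G] [Finite G] (h : Nat.card G ≤ 7) : SolList G := by
  have hpos : 0 < Nat.card G := Nat.card_pos
  have prime : ∀ p : ℕ, p.Prime → Nat.card G = p → Good p → SolList G := by
    intro p hp hc hg
    haveI : Fact p.Prime := ⟨hp⟩
    exact list_cyc (isCyclic_of_prime_card hc) (hc ▸ hg)
  have hcases : Nat.card G = 1 ∨ Nat.card G = 2 ∨ Nat.card G = 3 ∨ Nat.card G = 4 ∨
      Nat.card G = 5 ∨ Nat.card G = 6 ∨ Nat.card G = 7 := by omega
  rcases hcases with h1 | h1 | h1 | h1 | h1 | h1 | h1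
  · haveI := (Nat.card_eq_one_iff_unique.mp h1).1
    exact list_cyc inferInstance (h1 ▸ good_1)
  · exact prime 2 Nat.prime_two h1 good_2
  · exact prime 3 Nat.prime_three h1 good_3
  · by_cases hc : IsCyclic G
    · exact list_cyc hc (h1 ▸ good_4)
    · exact ⟨inferInstance, Or.inr (Or.inr (Or.inr (Or.inl (cayley h1))))⟩
  · exact prime 5 (by norm_num) h1 good_5
  · by_cases hc : IsCyclic G
    · exact list_cyc hc (h1 ▸ good_6)
    · exact ⟨inferInstance, Or.inr (Or.inr (Or.inr (Or.inr (Or.inr (Or.inr (meta_six h1 hc))))))⟩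
  · exact prime 7 (by norm_num) h1 good_7

/-- noncyclic abelian groups of order 8 with an element of order 4 -/
lemma ab8 {G : Type} [CommGroup G] [Finite G] (h8 : Nat.card G = 8) (hn : ¬ IsCyclic G)
    (hE : ∃ x : G, x * x ≠ 1) : Nonempty (G ≃* C24) := by
  rcases ord8_class h8 hn hE with h | ⟨⟨e⟩⟩ | ⟨⟨e⟩⟩
  · exact h
  · exfalso
    have h1 : ∀ x y : DihedralGroup 4, x * y = y * x := by
      intro x y
      apply e.symm.injective
      rw [map_mul, map_mul, mul_comm]
    exact absurd h1 (by decide)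
  · exfalso
    have h1 : ∀ x y : QuaternionGroup 2, x * y = y * x := by
      intro x y
      apply e.symm.injective
      rw [map_mul, map_mul, mul_comm]
    exact absurd h1 (by decide)

/-- noncyclic abelian groups of order 12 -/
lemma ab12 {G : Type} [CommGroup G] [Finite G] (h12 : Nat.card G = 12) (hn : ¬ IsCyclic G) :
    Nonempty (G ≃* Multiplicative (ZMod 2 × ZMod 6)) := by
  haveI : Fact (Nat.Prime 2) := ⟨Nat.prime_two⟩
  haveI : Fact (Nat.Prime 3) := ⟨Nat.prime_three⟩
  obtain ⟨P, Q, hodd, ⟨e⟩⟩ := nilp_split G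
  have hcard : Nat.card P * Nat.card Q = 12 := by
    rw [← h12, ← Nat.card_congr e.toEquiv, Nat.card_prod]
  obtain ⟨n, hn'⟩ := IsPGroup.iff_card.mp P.2
  have hPQ : Nat.card P = 4 ∧ Nat.card Q = 3 := by
    have h1 : Nat.card Q ∣ 12 := ⟨_, by rw [← hcard]; ring⟩
    have h2 : Nat.card Q ≤ 12 := Nat.le_of_dvd (by norm_num) h1
    have h3 : n < 4 := by
      by_contra hlt
      have h4 : 2 ^ 4 ≤ 2 ^ n := Nat.pow_le_pow_right (by norm_num) (by omega)
      rw [← hn'] at h4
      have h5 : 16 * 1 ≤ Nat.card P * Nat.card Q := Nat.mul_le_mul (by omega) Nat.card_pos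
      omega
    rw [hn'] at hcard ⊢
    interval_cases n <;> simp at hcard ⊢ <;> omega
  have hPn : ¬ IsCyclic P := by
    intro hP
    obtain ⟨x, hx⟩ := IsCyclic.exists_ofOrder_eq_natCard (α := P)
    haveI hQc : IsCyclic Q := isCyclic_of_prime_card (p := 3) hPQ.2
    obtain ⟨y, hy⟩ := IsCyclic.exists_ofOrder_eq_natCard (α := Q)
    apply hn
    have hcc : Commute (x : G) (y : G) := mul_comm _ _
    have h3 : orderOf ((x : G) * (y : G)) = 12 := by
      rw [hcc.orderOf_mul_eq_mul_orderOf_of_coprime] <;>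
        rw [Subgroup.orderOf_coe, Subgroup.orderOf_coe, hx, hy, hPQ.1, hPQ.2]
      norm_num
    exact isCyclic_of_orderOf_eq_card _ (by rw [h3, h12])
  obtain ⟨e4⟩ := klein_of hPQ.1 hPn
  haveI hQc : IsCyclic Q := isCyclic_of_prime_card (p := 3) hPQ.2
  obtain ⟨eQ⟩ := cyc_iso hQc
  rw [hPQ.2] at eQ
  obtain ⟨e'⟩ := iso26
  exact ⟨(e.symm.trans (MulEquiv.prodCongr (e4.symm.trans e2V4) eQ.symm)).trans e'⟩

end Pool.Agent.SHAF
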