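import Mathlib
import Pool.Agent.SHAF.Small

set_option autoImplicit false

/-!
An intrinsic description of the metabelian groups in the list.
-/

namespace Pool.Agent.SHAF

open Pool.Agent.SHA

/-- the intrinsic form of the last item of the list -/
def MetaInt (G : Type) [Group G] : Prop :=
  ∃ (q c d : ℕ) (A : Type) (_ : CommGroup A) (π : G →* A), q.Prime ∧ Nat.card π.ker = q ∧
    Nat.card (Subgroup.centralizer (π.ker : Set G)) = q * c ∧ Nat.card G = q * c * d ∧
    1 < d ∧ Params q c d ∧ (c = 4 → IsCyclic A)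

lemma params_sub {q c d c' d' : ℕ} (h : Params q c d) (hc : c' ∣ c) (hd : d' ∣ d) (h1 : 1 < d') :
    Params q c' d' := by
  rcases h with ⟨rfl, h⟩ | ⟨rfl, h, hd2⟩ | ⟨rfl, h⟩ | ⟨rfl, rfl, rfl⟩ | ⟨rfl, rfl⟩ | ⟨rfl, rfl, rfl⟩
  · exact Or.inl ⟨Nat.dvd_one.mp hc, h⟩
  · rcases (Nat.dvd_prime Nat.prime_two).mp hc with rfl | rfl
    · exact Or.inl ⟨rfl, h⟩
    · refine Or.inr (Or.inl ⟨rfl, h, ?_⟩)
      obtain ⟨k, rfl⟩ := hd
      have := Nat.odd_iff.mpr hd2
      rw [Nat.odd_mul] at this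
      exact Nat.odd_iff.mp this.1
  · have hq : GoodPP q := by
      rcases h with rfl | rfl | rfl
      exacts [goodPP_3, goodPP_5, goodPP_7]
    rcases (Nat.dvd_prime Nat.prime_two).mp hc with rfl | rfl
    · exact Or.inl ⟨rfl, hq⟩
    · exact Or.inr (Or.inr (Or.inl ⟨rfl, h⟩))
  · have h3 : d' = 3 := by
      rcases (Nat.dvd_prime Nat.prime_three).mp hd with h | h
      · omega
      · exact h
    have hc4 : c' = 1 ∨ c' = 2 ∨ c' = 4 := by
      have h4 : c' ∣ 2 ^ 2 := hc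
      obtain ⟨k, hk, rfl⟩ := (Nat.dvd_prime_pow Nat.prime_two).mp h4
      interval_cases k <;> simp
    rcases hc4 with rfl | rfl | rfl
    · exact Or.inl ⟨rfl, goodPP_7⟩
    · exact Or.inr (Or.inr (Or.inl ⟨rfl, Or.inr (Or.inr rfl)⟩))
    · exact Or.inr (Or.inr (Or.inr (Or.inl ⟨rfl, rfl, h3⟩)))
  · rcases (Nat.dvd_prime Nat.prime_three).mp hc with rfl | rfl
    · exact Or.inl ⟨rfl, goodPP_5⟩
    · exact Or.inr (Or.inr (Or.inr (Or.inr (Or.inl ⟨rfl, rfl⟩))))
  · rcases (Nat.dvd_prime Nat.prime_three).mp hc with rfl | rfl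
    · exact Or.inl ⟨rfl, goodPP_7⟩
    · have h2 : d' = 2 := by
        rcases (Nat.dvd_prime Nat.prime_two).mp hd with h | h
        · omega
        · exact h
      exact Or.inr (Or.inr (Or.inr (Or.inr (Or.inr ⟨rfl, rfl, h2⟩))))

lemma params_q {q c d : ℕ} (h : Params q c d) : GoodPP q := by
  rcases h with ⟨rfl, h⟩ | ⟨rfl, h, hd2⟩ | ⟨rfl, h⟩ | ⟨rfl, rfl, rfl⟩ | ⟨rfl, rfl⟩ | ⟨rfl, rfl, rfl⟩
  · exact h
  · exact h
  · rcases h with rfl | rfl | rfl
    exacts [goodPP_3, goodPP_5, goodPP_7]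
  · exact goodPP_7
  · exact goodPP_5
  · exact goodPP_7

lemma params_c {q c d : ℕ} (h : Params q c d) : c = 1 ∨ c = 2 ∨ c = 3 ∨ c = 4 := by
  rcases h with ⟨rfl, h⟩ | ⟨rfl, h, hd2⟩ | ⟨rfl, h⟩ | ⟨rfl, rfl, rfl⟩ | ⟨rfl, rfl⟩ | ⟨rfl, rfl, rfl⟩
  all_goals simp

lemma params_coprime {q c d : ℕ} (h : Params q c d) (hq : q.Prime) : ¬ q ∣ c := by
  have hodd : q % 2 = 1 := by
    have := goodPP_odd (params_q h)
    omega
  have hle : c = 4 → q = 7 := by
    intro h4
    rcases h with ⟨rfl, h⟩ | ⟨rfl, h, hd2⟩ | ⟨rfl, h⟩ | ⟨rfl, rfl, rfl⟩ | ⟨rfl, rfl⟩ | ⟨rfl, rfl, rfl⟩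
    all_goals first | omega | rfl
  have hle3 : c = 3 → q = 5 ∨ q = 7 := by
    intro h4
    rcases h with ⟨rfl, h⟩ | ⟨rfl, h, hd2⟩ | ⟨rfl, h⟩ | ⟨rfl, rfl, rfl⟩ | ⟨rfl, rfl⟩ | ⟨rfl, rfl, rfl⟩
    all_goals first | omega | (left; rfl) | (right; rfl)
  have h2 := hq.two_le
  intro hdvd
  have hc := params_c h
  have hle' := Nat.le_of_dvd (by omega) hdvd
  rcases hc with rfl | rfl | rfl | rfl
  · omega
  · omega
  · rcases hle3 rfl with rfl | rfl <;> omega
  · have := hle rfl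
    omega

lemma params_good {q c d c' : ℕ} (h : Params q c d) (hc : c' ∣ c) : Good (q * c') := by
  have l1 : ∀ q, GoodPP q → Good (q * 1) := fun q h => Or.inr ⟨q, h, Or.inl (mul_one q)⟩
  have l2 : ∀ q, GoodPP q → Good (q * 2) := fun q h => Or.inr ⟨q, h, Or.inr (mul_comm q 2)⟩
  have hq := params_q h
  have h12 : ∀ c', c' ∣ 2 → Good (q * c') := by
    intro c' hc'
    rcases (Nat.dvd_prime Nat.prime_two).mp hc' with rfl | rfl
    · exact l1 q hq
    · exact l2 q hq
  rcases h with ⟨rfl, h⟩ | ⟨rfl, h, hd2⟩ | ⟨rfl, h⟩ | ⟨rfl, rfl, rfl⟩ | ⟨rfl, rfl⟩ | ⟨rfl, rfl, rfl⟩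
  · rw [Nat.dvd_one.mp hc]
    exact l1 q hq
  · exact h12 _ hc
  · exact h12 _ hc
  · have hc4 : c' = 1 ∨ c' = 2 ∨ c' = 4 := by
      have h4 : c' ∣ 2 ^ 2 := hc
      obtain ⟨k, hk, rfl⟩ := (Nat.dvd_prime_pow Nat.prime_two).mp h4
      interval_cases k <;> simp
    rcases hc4 with rfl | rfl | rfl
    · exact l1 7 hq
    · exact l2 7 hq
    · exact Or.inl (by decide)
  · rcases (Nat.dvd_prime Nat.prime_three).mp hc with rfl | rfl
    · exact l1 5 hq
    · exact Or.inl (by decide)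
  · rcases (Nat.dvd_prime Nat.prime_three).mp hc with rfl | rfl
    · exact l1 7 hq
    · exact Or.inl (by decide)

lemma cent_eq_ker {G : Type} [Group G] (N : Subgroup G) [N.Normal] :
    Subgroup.centralizer (N : Set G) = (MulAut.conjNormal : G →* MulAut N).ker := by
  ext g
  rw [mem_ker_conj, Subgroup.mem_centralizer_iff]
  exact ⟨fun h y hy => (h y hy).symm, fun h y hy => (h y hy).symm⟩

lemma prime_cyc {G : Type} [Group G] {q : ℕ} (hq : q.Prime) (N : Subgroup G)
    (hc : Nat.card N = q) : IsCyclic N := by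
  haveI : Fact q.Prime := ⟨hq⟩
  exact isCyclic_of_prime_card hc

lemma idx_dvd {G : Type} [Group G] {q : ℕ} (hq : q.Prime) (N : Subgroup G) [N.Normal]
    (hc : Nat.card N = q) : (Subgroup.centralizer (N : Set G)).index ∣ q - 1 := by
  haveI := prime_cyc hq N hc
  haveI : Finite N := Nat.finite_of_card_ne_zero (by rw [hc]; exact hq.ne_zero)
  rw [cent_eq_ker, Subgroup.index_ker]
  have h1 : Nat.card (MulAut N) = q - 1 := by
    rw [IsCyclic.card_mulAut, hc, Nat.totient_prime hq]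
  rw [← h1]
  exact Subgroup.card_subgroup_dvd_card _

lemma cent_le {G : Type} [Group G] {q : ℕ} (hq : q.Prime) (N : Subgroup G)
    (hc : Nat.card N = q) : N ≤ Subgroup.centralizer (N : Set G) := by
  haveI := prime_cyc hq N hc
  letI := IsCyclic.commGroup (α := N)
  intro x hx
  rw [Subgroup.mem_centralizer_iff]
  intro y hy
  exact congrArg Subtype.val (mul_comm (⟨y, hy⟩ : N) ⟨x, hx⟩)

lemma compl_card {G : Type} [Group G] {q : ℕ} (hq : q.Prime) (N H : Subgroup G) [N.Normal]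
    (hc : Nat.card N = q) (hcompl : N.IsComplement' H) :
    Nat.card (H ⊓ Subgroup.centralizer (N : Set G) : Subgroup G) *
      (Subgroup.centralizer (N : Set G)).index = Nat.card H := by
  have h1 : H ⊔ Subgroup.centralizer (N : Set G) = ⊤ := by
    rw [eq_top_iff, ← hcompl.sup_eq_top]
    exact sup_le ((cent_le hq N hc).trans le_sup_right) le_sup_left
  have h2 : (Subgroup.centralizer (N : Set G)).relIndex H =
      (Subgroup.centralizer (N : Set G)).index := by
    rw [← Subgroup.relIndex_sup_right, h1, Subgroup.relIndex_top_right]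
  rw [← h2, ← Subgroup.inf_relIndex_left, ← Subgroup.relIndex_bot_left,
    Subgroup.relIndex_mul_relIndex _ _ _ bot_le inf_le_left, Subgroup.relIndex_bot_left]

/-- projection onto the complement -/
lemma compl_proj {G : Type} [Group G] (N H : Subgroup G) [N.Normal] (hcompl : N.IsComplement' H) :
    ∃ p : G →* H, p.ker = N ∧ Function.Surjective p := by
  refine ⟨(hcompl.symm.QuotientMulEquiv).toMonoidHom.comp (QuotientGroup.mk' N), ?_, ?_⟩
  · ext g
    rw [MonoidHom.mem_ker]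
    change (hcompl.symm.QuotientMulEquiv) (QuotientGroup.mk' N g) = 1 ↔ g ∈ N
    rw [MulEquiv.map_eq_one_iff, ← MonoidHom.mem_ker, QuotientGroup.ker_mk']
  · exact (hcompl.symm.QuotientMulEquiv).surjective.comp (QuotientGroup.mk'_surjective N)

theorem meta_int {G : Type} [Group G] (h : MetaList G) : MetaInt G := by
  obtain ⟨q, c, d, N, H, hq, hN, hNc, hcompl, hH, hHC, hHc, hd, hP, h4⟩ := h
  obtain ⟨p, hpk, hps⟩ := compl_proj N H hcompl
  have hc0 : 0 < c := by
    have := params_c hP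
    omega
  have h1 := compl_card hq N H hNc hcompl
  rw [hHC, hHc] at h1
  have h2 : (Subgroup.centralizer (N : Set G)).index = d := Nat.eq_of_mul_eq_mul_left hc0 h1
  have h3 : Nat.card G = q * c * d := by
    rw [← hcompl.card_mul_card, hNc, hHc, mul_assoc]
  refine ⟨q, c, d, H, { (inferInstance : Group H) with
    mul_comm := fun x y => Subtype.ext (hH x x.2 y y.2) }, p, hq, by rw [hpk, hNc], ?_, h3, hd, hP,
    h4⟩
  rw [hpk]
  have h5 := (Subgroup.centralizer (N : Set G)).card_mul_index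
  rw [h2, h3] at h5
  exact Nat.eq_of_mul_eq_mul_right (by omega) h5

theorem int_meta {G : Type} [Group G] (h : MetaInt G) : MetaList G := by
  obtain ⟨q, c, d, A, hA, π, hq, hNc, hDc, hGc, hd, hP, h4⟩ := h
  have hc0 : 0 < c := by
    have := params_c hP
    omega
  haveI : Finite G := Nat.finite_of_card_ne_zero (by
    rw [hGc]
    exact Nat.mul_ne_zero (Nat.mul_ne_zero hq.ne_zero (by omega)) (by omega))
  have hDi : (Subgroup.centralizer (π.ker : Set G)).index = d := by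
    have h5 := (Subgroup.centralizer (π.ker : Set G)).card_mul_index
    rw [hDc, hGc] at h5
    exact Nat.eq_of_mul_eq_mul_left (Nat.mul_pos hq.pos hc0) h5
  have hNi : π.ker.index = c * d := by
    have h5 := π.ker.card_mul_index
    rw [hNc, hGc, mul_assoc] at h5
    exact Nat.eq_of_mul_eq_mul_left hq.pos h5
  have hdq : d ∣ q - 1 := hDi ▸ idx_dvd hq π.ker hNc
  have hcop : Nat.Coprime (Nat.card π.ker) π.ker.index := by
    rw [hNc, hNi]
    refine Nat.Coprime.mul_right ((Nat.Prime.coprime_iff_not_dvd hq).mpr (params_coprime hP hq)) ?_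
    rw [Nat.Prime.coprime_iff_not_dvd hq]
    intro h6
    have h7 := Nat.le_of_dvd (by have := hq.two_le; omega) (h6.trans hdq)
    have := hq.two_le
    omega
  obtain ⟨H, hcompl⟩ := Subgroup.exists_right_complement'_of_coprime hcop
  have hinj : Function.Injective (π.comp H.subtype) := by
    rw [injective_iff_map_eq_one]
    rintro ⟨x, hx⟩ hx1
    have hx2 : x ∈ π.ker := hx1
    have := (Subgroup.disjoint_def.mp hcompl.disjoint) hx2 hx
    exact Subtype.ext this
  have hHc : Nat.card H = c * d := by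
    rw [← hNi]
    exact (hcompl.symm.index_eq_card).symm
  refine ⟨q, c, d, π.ker, H, hq, inferInstance, hNc, hcompl, ?_, ?_, hHc, hd, hP, ?_⟩
  · intro x hx y hy
    have h5 : (⟨x, hx⟩ : H) * ⟨y, hy⟩ = ⟨y, hy⟩ * ⟨x, hx⟩ := by
      apply hinj
      rw [map_mul, map_mul, mul_comm]
    exact congrArg Subtype.val h5
  · have h5 := compl_card hq π.ker H hNc hcompl
    rw [hDi, hHc] at h5
    exact Nat.eq_of_mul_eq_mul_right (by omega) h5
  · intro h5
    haveI := h4 h5
    exact isCyclic_of_injective _ hinj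

end Pool.Agent.SHAF
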