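import Mathlib
import Pool.Agent.SHAF.MetaInt

set_option autoImplicit false

/-!
Subgroups of the metabelian groups in the list.
-/

namespace Pool.Agent.SHAF

open Pool.Agent.SHA

/-- the abelian items of the list and the small groups -/
def AbL (G : Type) [Group G] : Prop :=
  Finite G ∧ ((IsCyclic G ∧ Good (Nat.card G)) ∨
    Nonempty (G ≃* Multiplicative (ZMod 2 × ZMod 4)) ∨
    Nonempty (G ≃* Multiplicative (ZMod 2 × ZMod 6)) ∨ Nat.card G ≤ 7)

lemma abl_sol {G : Type} [Group G] (h : AbL G) : SolList G := by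
  obtain ⟨hf, h | h | h | h⟩ := h
  · exact ⟨hf, Or.inl h⟩
  · exact ⟨hf, Or.inr (Or.inl h)⟩
  · exact ⟨hf, Or.inr (Or.inr (Or.inl h))⟩
  · exact small_list h

lemma card_c24 {G : Type} [Group G] (e : G ≃* Multiplicative (ZMod 2 × ZMod 4)) :
    Nat.card G = 8 := by
  rw [Nat.card_congr e.toEquiv, Nat.card_congr Multiplicative.toAdd, Nat.card_prod, Nat.card_zmod,
    Nat.card_zmod]

lemma card_c26 {G : Type} [Group G] (e : G ≃* Multiplicative (ZMod 2 × ZMod 6)) :
    Nat.card G = 12 := by
  rw [Nat.card_congr e.toEquiv, Nat.card_congr Multiplicative.toAdd, Nat.card_prod, Nat.card_zmod,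
    Nat.card_zmod]

lemma half_le {m n : ℕ} (h : m ∣ n) (hn : 0 < n) (hne : m ≠ n) : 2 * m ≤ n := by
  obtain ⟨k, rfl⟩ := h
  have h1 : k ≠ 0 := by rintro rfl; omega
  have h2 : k ≠ 1 := by rintro rfl; omega
  have h3 : 2 ≤ k := by omega
  calc 2 * m = m * 2 := mul_comm _ _
    _ ≤ m * k := Nat.mul_le_mul_left _ h3

lemma inj_iso_or {S G : Type} [Group S] [Group G] [Finite G] (f : S →* G)
    (hf : Function.Injective f) : Nonempty (S ≃* G) ∨ 2 * Nat.card S ≤ Nat.card G := by
  haveI : Finite S := Finite.of_injective f hf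
  by_cases h : Nat.card S = Nat.card G
  · left
    exact ⟨MulEquiv.ofBijective f (Function.Injective.bijective_of_nat_card_le hf h.ge)⟩
  · right
    exact half_le (Subgroup.card_dvd_of_injective f hf) Nat.card_pos h

lemma surj_iso_or {G Q : Type} [Group G] [Group Q] [Finite G] (f : G →* Q)
    (hf : Function.Surjective f) : Nonempty (Q ≃* G) ∨ 2 * Nat.card Q ≤ Nat.card G := by
  haveI : Finite Q := Finite.of_surjective f hf
  by_cases h : Nat.card Q = Nat.card G
  · left
    exact ⟨(MulEquiv.ofBijective f (Function.Surjective.bijective_of_nat_card_le hf h.ge)).symm⟩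
  · right
    exact half_le (Subgroup.card_dvd_of_surjective f hf) Nat.card_pos h

theorem abl_sub {S G : Type} [Group S] [Group G] (f : S →* G) (hf : Function.Injective f)
    (h : AbL G) : AbL S := by
  obtain ⟨hfin, h⟩ := h
  haveI : Finite S := Finite.of_injective f hf
  refine ⟨inferInstance, ?_⟩
  rcases h with ⟨h1, h2⟩ | ⟨⟨e⟩⟩ | ⟨⟨e⟩⟩ | h
  · exact Or.inl ⟨isCyclic_of_injective f hf, good_dvd h2 (Subgroup.card_dvd_of_injective f hf)⟩
  · have h8 := card_c24 e
    rcases inj_iso_or f hf with ⟨⟨e'⟩⟩ | h1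
    · exact Or.inr (Or.inl ⟨e'.trans e⟩)
    · exact Or.inr (Or.inr (Or.inr (by omega)))
  · have h8 := card_c26 e
    rcases inj_iso_or f hf with ⟨⟨e'⟩⟩ | h1
    · exact Or.inr (Or.inr (Or.inl ⟨e'.trans e⟩))
    · exact Or.inr (Or.inr (Or.inr (by omega)))
  · have := Nat.card_le_card_of_injective f hf
    exact Or.inr (Or.inr (Or.inr (by omega)))

theorem abl_quo {G Q : Type} [Group G] [Group Q] (f : G →* Q) (hf : Function.Surjective f)
    (h : AbL G) : AbL Q := by
  obtain ⟨hfin, h⟩ := h
  haveI : Finite Q := Finite.of_surjective f hf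
  refine ⟨inferInstance, ?_⟩
  rcases h with ⟨h1, h2⟩ | ⟨⟨e⟩⟩ | ⟨⟨e⟩⟩ | h
  · exact Or.inl ⟨isCyclic_of_surjective f hf, good_dvd h2 (Subgroup.card_dvd_of_surjective f hf)⟩
  · have h8 := card_c24 e
    rcases surj_iso_or f hf with ⟨⟨e'⟩⟩ | h1
    · exact Or.inr (Or.inl ⟨e'.trans e⟩)
    · exact Or.inr (Or.inr (Or.inr (by omega)))
  · have h8 := card_c26 e
    rcases surj_iso_or f hf with ⟨⟨e'⟩⟩ | h1
    · exact Or.inr (Or.inr (Or.inl ⟨e'.trans e⟩))
    · exact Or.inr (Or.inr (Or.inr (by omega)))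
  · have := Nat.card_le_card_of_surjective f hf
    exact Or.inr (Or.inr (Or.inr (by omega)))

lemma cyc_ext {M B : Type} [Group M] [Finite M] [Group B] (φ : M →* B) (hR : IsCyclic φ.range)
    (hk : IsCyclic φ.ker) (hcen : φ.ker ≤ Subgroup.center M)
    (hcop : (Nat.card φ.ker).Coprime (Nat.card φ.range)) : IsCyclic M := by
  haveI : Finite φ.range := Finite.of_surjective φ.rangeRestrict φ.rangeRestrict_surjective
  obtain ⟨b, hb⟩ := IsCyclic.exists_ofOrder_eq_natCard (α := φ.range)
  obtain ⟨x, hx⟩ := φ.rangeRestrict_surjective b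
  obtain ⟨y, hy⟩ := IsCyclic.exists_ofOrder_eq_natCard (α := φ.ker)
  have hxk : x ^ Nat.card φ.range ∈ φ.ker := by
    have h1 : φ.rangeRestrict (x ^ Nat.card φ.range) = 1 := by
      rw [map_pow, hx, ← hb, pow_orderOf_eq_one]
    exact congrArg Subtype.val h1
  have h1 : (x ^ Nat.card φ.ker) ^ Nat.card φ.range = 1 := by
    rw [← pow_mul, mul_comm, pow_mul]
    have h2 : (⟨_, hxk⟩ : φ.ker) ^ Nat.card φ.ker = 1 := pow_card_eq_one'
    exact congrArg Subtype.val h2
  have h2 : orderOf (φ.rangeRestrict (x ^ Nat.card φ.ker)) = Nat.card φ.range := by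
    rw [map_pow, hx, Nat.Coprime.orderOf_pow, hb]
    rw [hb]
    exact hcop.symm
  have h3 : orderOf (x ^ Nat.card φ.ker) = Nat.card φ.range :=
    Nat.dvd_antisymm (orderOf_dvd_of_pow_eq_one h1) (h2 ▸ orderOf_map_dvd _ _)
  have h4 : orderOf (y : M) = Nat.card φ.ker := by rw [Subgroup.orderOf_coe, hy]
  have h5 : Commute (y : M) (x ^ Nat.card φ.ker) :=
    (Subgroup.mem_center_iff.mp (hcen y.2) _).symm
  have h6 : orderOf ((y : M) * x ^ Nat.card φ.ker) = Nat.card φ.ker * Nat.card φ.range := by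
    rw [h5.orderOf_mul_eq_mul_orderOf_of_coprime (by rw [h3, h4]; exact hcop), h3, h4]
  apply isCyclic_of_orderOf_eq_card ((y : M) * x ^ Nat.card φ.ker)
  rw [h6, ← Subgroup.index_ker, φ.ker.card_mul_index]

lemma cyc_of_le3 {M : Type} [Group M] [Finite M] (h : Nat.card M ≤ 3) : IsCyclic M := by
  haveI : Fact (Nat.Prime 2) := ⟨Nat.prime_two⟩
  haveI : Fact (Nat.Prime 3) := ⟨Nat.prime_three⟩
  have hpos : 0 < Nat.card M := Nat.card_pos
  have hc : Nat.card M = 1 ∨ Nat.card M = 2 ∨ Nat.card M = 3 := by omega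
  rcases hc with h | h | h
  · haveI := (Nat.card_eq_one_iff_unique.mp h).1
    infer_instance
  · exact isCyclic_of_prime_card h
  · exact isCyclic_of_prime_card h

lemma abl12 {H : Type} [Group H] [Finite H] (hH : ∀ x y : H, x * y = y * x)
    (h12 : Nat.card H = 12) : AbL H := by
  by_cases hc : IsCyclic H
  · exact ⟨inferInstance, Or.inl ⟨hc, h12 ▸ Or.inl (by decide)⟩⟩
  · letI : CommGroup H := { (inferInstance : Group H) with mul_comm := hH }
    exact ⟨inferInstance, Or.inr (Or.inr (Or.inl (ab12 h12 hc)))⟩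

lemma mulAut_prime_cyc {N : Type} [Group N] {q : ℕ} (hq : q.Prime) (hc : Nat.card N = q) :
    IsCyclic (MulAut N) ∧ Nat.card (MulAut N) = q - 1 := by
  haveI : Fact q.Prime := ⟨hq⟩
  haveI : IsCyclic N := isCyclic_of_prime_card hc
  haveI : Finite N := Nat.finite_of_card_ne_zero (by rw [hc]; exact hq.ne_zero)
  have h1 : IsCyclic (ZMod (Nat.card N))ˣ := by
    rw [hc]
    exact ZMod.isCyclic_units_prime hq
  exact ⟨isCyclic_of_injective (IsCyclic.mulAutMulEquiv N).toMonoidHom
    (IsCyclic.mulAutMulEquiv N).injective, by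
      rw [IsCyclic.card_mulAut, hc, Nat.totient_prime hq]⟩

theorem compl_abl {G : Type} [Group G] {q c d : ℕ} (N H : Subgroup G) (hq : q.Prime) [hN : N.Normal]
    (hNc : Nat.card N = q) (hH : ∀ x ∈ H, ∀ y ∈ H, x * y = y * x)
    (hHC : Nat.card (H ⊓ Subgroup.centralizer (N : Set G) : Subgroup G) = c)
    (hHc : Nat.card H = c * d) (hd : 1 < d) (hP : Params q c d) (h4 : c = 4 → IsCyclic H) :
    AbL H := by
  have hc0 : 0 < c := by
    have := params_c hP
    omega
  have hH' : ∀ x y : H, x * y = y * x := fun x y => Subtype.ext (hH x x.2 y y.2)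
  haveI : Finite H := Nat.finite_of_card_ne_zero (by
    rw [hHc]
    exact Nat.mul_ne_zero (by omega) (by omega))
  obtain ⟨hAc, hAn⟩ := mulAut_prime_cyc hq hNc
  let κ : H →* MulAut N := (MulAut.conjNormal : G →* MulAut N).comp H.subtype
  have hkk : κ.ker = (Subgroup.centralizer (N : Set G)).subgroupOf H := by
    rw [cent_eq_ker]
    rfl
  have hk : Nat.card κ.ker = c := by
    rw [hkk, ← hHC, inf_comm, ← Subgroup.subgroupOf_map_subtype]
    exact Nat.card_congr (Subgroup.equivMapOfInjective _ _ H.subtype_injective).toEquiv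
  have hr : Nat.card κ.range = d := by
    have h1 := κ.ker.card_mul_index
    rw [Subgroup.index_ker, hk, hHc] at h1
    exact Nat.eq_of_mul_eq_mul_left hc0 h1
  have hrc : IsCyclic κ.range := inferInstance
  have hdq : d ∣ q - 1 := by
    rw [← hr, ← hAn]
    exact Subgroup.card_subgroup_dvd_card _
  have hq2 : q ≠ 2 := by
    rintro rfl
    exact absurd (goodPP_odd (params_q hP)) (by omega)
  have hgood : Good (q - 1) := by
    have h1 : GoodPP (q ^ (0 + 1)) := by
      rw [zero_add, pow_one]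
      exact params_q hP
    have h2 := good_units hq hq2 h1
    rwa [pow_zero, one_mul] at h2
  have hle7 : Nat.card H ≤ 7 → AbL H := fun h => ⟨inferInstance, Or.inr (Or.inr (Or.inr h))⟩
  rcases hP with ⟨rfl, h⟩ | ⟨rfl, h, hd2⟩ | ⟨rfl, h⟩ | ⟨rfl, rfl, rfl⟩ | ⟨rfl, rfl⟩ | ⟨rfl, rfl, rfl⟩
  · have hinj : Function.Injective κ := by
      rw [← MonoidHom.ker_eq_bot_iff]
      exact Subgroup.card_eq_one.mp hk
    refine ⟨inferInstance, Or.inl ⟨isCyclic_of_injective κ hinj, ?_⟩⟩
    rw [hHc, one_mul]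
    exact good_dvd hgood hdq
  · have hcyc : IsCyclic H := by
      refine cyc_ext κ hrc (cyc_of_le3 (by rw [hk]; norm_num)) ?_ ?_
      · intro x _
        rw [Subgroup.mem_center_iff]
        exact fun y => hH' y x
      · rw [hk, hr]
        exact (Nat.coprime_two_left).mpr (Nat.odd_iff.mpr hd2)
    refine ⟨inferInstance, Or.inl ⟨hcyc, ?_⟩⟩
    rw [hHc]
    refine good_dvd hgood (Nat.Coprime.mul_dvd_of_dvd_of_dvd
      ((Nat.coprime_two_left).mpr (Nat.odd_iff.mpr hd2)) ?_ hdq)
    have h1 := goodPP_odd h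
    have h2 := hq.two_le
    omega
  · rcases h with rfl | rfl | rfl
    · have := Nat.le_of_dvd (by norm_num) hdq
      exact hle7 (by omega)
    · have h1 : d ∣ 2 ^ 2 := hdq
      obtain ⟨k, hk2, rfl⟩ := (Nat.dvd_prime_pow Nat.prime_two).mp h1
      have hk3 : k = 0 ∨ k = 1 ∨ k = 2 := by omega
      rcases hk3 with rfl | rfl | rfl
      · norm_num at hd
      · exact hle7 (by omega)
      · have h8 : Nat.card H = 8 := by omega
        by_cases hc : IsCyclic H
        · exact ⟨inferInstance, Or.inl ⟨hc, h8 ▸ Or.inl (by decide)⟩⟩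
        · letI : CommGroup H := { (inferInstance : Group H) with mul_comm := hH' }
          refine ⟨inferInstance, Or.inr (Or.inl (ab8 h8 hc ?_))⟩
          obtain ⟨b, hb⟩ := IsCyclic.exists_ofOrder_eq_natCard (α := κ.range)
          obtain ⟨x, hx⟩ := κ.rangeRestrict_surjective b
          refine ⟨x, fun hxx => ?_⟩
          have h2 : b ^ 2 = 1 := by
            rw [← hx, ← map_pow, pow_two]
            erw [hxx]
            exact map_one _
          have h3 := orderOf_dvd_of_pow_eq_one h2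
          rw [hb, hr] at h3
          exact absurd (Nat.le_of_dvd (by norm_num) h3) (by norm_num)
    · have hd6 : d = 2 ∨ d = 3 ∨ d = 6 := by
        have h2 : ∀ d < 7, d ∣ 6 → 1 < d → d = 2 ∨ d = 3 ∨ d = 6 := by decide
        have h3 := Nat.le_of_dvd (by norm_num) hdq
        exact h2 d (by omega) hdq hd
      rcases hd6 with rfl | rfl | rfl
      · exact hle7 (by omega)
      · exact hle7 (by omega)
      · exact abl12 hH' (by omega)
  · refine ⟨inferInstance, Or.inl ⟨h4 rfl, ?_⟩⟩
    rw [hHc]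
    exact Or.inl (by decide)
  · have h1 : d ∣ 2 ^ 2 := hdq
    obtain ⟨k, hk2, rfl⟩ := (Nat.dvd_prime_pow Nat.prime_two).mp h1
    have hk3 : k = 0 ∨ k = 1 ∨ k = 2 := by omega
    rcases hk3 with rfl | rfl | rfl
    · norm_num at hd
    · exact hle7 (by omega)
    · exact abl12 hH' (by omega)
  · exact hle7 (by omega)

/-- subgroups of the groups in the last item -/
theorem meta_sub_list {S G : Type} [Group S] [Group G] (f : S →* G) (hf : Function.Injective f)
    (h : MetaList G) : SolList S := by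
  obtain ⟨q, c, d, N, H, hq, hN, hNc, hcompl, hH, hHC, hHc, hd, hP, h4⟩ := h
  obtain ⟨p, hpk, hps⟩ := compl_proj N H hcompl
  have hc0 : 0 < c := by
    have := params_c hP
    omega
  have h1 := compl_card hq N H hNc hcompl
  rw [hHC, hHc] at h1
  have hDi : (Subgroup.centralizer (N : Set G)).index = d := Nat.eq_of_mul_eq_mul_left hc0 h1
  have hGc : Nat.card G = q * c * d := by
    rw [← hcompl.card_mul_card, hNc, hHc, mul_assoc]
  haveI : Finite G := Nat.finite_of_card_ne_zero (by
    rw [hGc]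
    exact Nat.mul_ne_zero (Nat.mul_ne_zero hq.ne_zero (by omega)) (by omega))
  haveI : Finite S := Finite.of_injective f hf
  have hDc : Nat.card (Subgroup.centralizer (N : Set G)) = q * c := by
    have h5 := (Subgroup.centralizer (N : Set G)).card_mul_index
    rw [hDi, hGc] at h5
    exact Nat.eq_of_mul_eq_mul_right (by omega) h5
  have hHabl : AbL H := compl_abl N H hq hNc hH hHC hHc hd hP h4
  by_cases hk : (p.comp f).ker = ⊥
  · exact abl_sol (abl_sub (p.comp f) ((MonoidHom.ker_eq_bot_iff _).mp hk) hHabl)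
  -- the kernel has order q
  have hle : (p.comp f).ker.map f ≤ N := by
    rintro _ ⟨x, hx, rfl⟩
    rw [← hpk]
    exact hx
  have hcm : ∀ T : Subgroup S, Nat.card (T.map f) = Nat.card T := fun T =>
    (Nat.card_congr (T.equivMapOfInjective f hf).toEquiv).symm
  have hN'c : Nat.card (p.comp f).ker = q := by
    have h5 := Subgroup.card_dvd_of_le hle
    rw [hcm, hNc] at h5
    rcases (Nat.dvd_prime hq).mp h5 with h6 | h6
    · exact absurd (Subgroup.card_eq_one.mp h6) hk
    · exact h6
  have hmap : (p.comp f).ker.map f = N := by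
    apply Subgroup.eq_of_le_of_card_ge hle
    rw [hcm, hN'c, hNc]
  have hD' : Subgroup.centralizer ((p.comp f).ker : Set S) =
      (Subgroup.centralizer (N : Set G)).comap f := by
    ext s
    rw [Subgroup.mem_comap, Subgroup.mem_centralizer_iff, Subgroup.mem_centralizer_iff, ← hmap]
    constructor
    · rintro h5 _ ⟨x, hx, rfl⟩
      rw [← map_mul, h5 x hx, map_mul]
    · intro h5 x hx
      apply hf
      rw [map_mul, map_mul]
      exact h5 (f x) ⟨x, hx, rfl⟩
  set D' := Subgroup.centralizer ((p.comp f).ker : Set S) with hD'def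
  have hdi : D'.index ∣ d := by
    rw [hD', Subgroup.index_comap, ← hDi]
    exact Subgroup.relIndex_dvd_index_of_normal _ _
  have hDdvd : Nat.card D' ∣ q * c := by
    rw [← hDc, ← hcm D']
    apply Subgroup.card_dvd_of_le
    rw [Subgroup.map_le_iff_le_comap, hD']
  have hND : (p.comp f).ker ≤ D' := cent_le hq _ hN'c
  obtain ⟨c', hc'⟩ : q ∣ Nat.card D' := hN'c ▸ Subgroup.card_dvd_of_le hND
  have hcc : c' ∣ c := by
    rw [hc'] at hDdvd
    exact Nat.dvd_of_mul_dvd_mul_left hq.pos hDdvd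
  have hSc : Nat.card S = q * c' * D'.index := by rw [← D'.card_mul_index, hc']
  letI hcg : CommGroup H := { (inferInstance : Group H) with
    mul_comm := fun x y => Subtype.ext (hH x x.2 y y.2) }
  by_cases hd1 : 1 < D'.index
  · refine ⟨inferInstance, Or.inr (Or.inr (Or.inr (Or.inr (Or.inr (Or.inr (int_meta
      ⟨q, c', D'.index, H, hcg, p.comp f, hq, hN'c, hc', hSc, hd1, params_sub hP hcc hdi hd1,
        ?_⟩))))))⟩
    intro h5
    apply h4
    have h6 := params_c hP
    have h7 := Nat.le_of_dvd hc0 hcc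
    omega
  · have hi0 : D'.index ≠ 0 := Subgroup.index_ne_zero_of_finite
    have hi1 : D'.index = 1 := by omega
    have hDtop : D' = ⊤ := Subgroup.index_eq_one.mp hi1
    have hcen : (p.comp f).ker ≤ Subgroup.center S := by
      intro x hx
      rw [Subgroup.mem_center_iff]
      intro y
      have hy : y ∈ D' := hDtop ▸ Subgroup.mem_top y
      exact ((Subgroup.mem_centralizer_iff.mp hy) x hx).symm
    have hrc : Nat.card (p.comp f).range = c' := by
      have h5 := (p.comp f).ker.card_mul_index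
      rw [Subgroup.index_ker, hN'c, hSc, hi1, mul_one] at h5
      exact Nat.eq_of_mul_eq_mul_left hq.pos h5
    have hcyc : IsCyclic (p.comp f).range := by
      have h6 := params_c hP
      have h7 := Nat.le_of_dvd hc0 hcc
      by_cases h8 : c' ≤ 3
      · exact cyc_of_le3 (by rw [hrc]; exact h8)
      · haveI := h4 (by omega)
        infer_instance
    have hScyc : IsCyclic S := by
      refine cyc_ext (p.comp f) hcyc (prime_cyc hq _ hN'c) hcen ?_
      rw [hN'c, hrc, Nat.Prime.coprime_iff_not_dvd hq]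
      exact fun h9 => params_coprime hP hq (h9.trans hcc)
    refine list_cyc hScyc ?_
    rw [hSc, hi1, mul_one]
    exact params_good hP hcc

end Pool.Agent.SHAF
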