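import Mathlib
import Pool.Agent.SHAF.ListSub

set_option autoImplicit false

/-!
Subgroups of the groups in the list.
-/

namespace Pool.Agent.SHAF

open Pool.Agent.SHA

lemma cop_comm {G : Type} [Group G] {x s : G} (hx : x ^ 3 = 1)
    (h4 : (x * s * x⁻¹ * s⁻¹) ^ 4 = 1)
    (hc : x * (x * s * x⁻¹ * s⁻¹) = (x * s * x⁻¹ * s⁻¹) * x) : x * s = s * x := by
  obtain ⟨w, hw⟩ : ∃ w, w = x * s * x⁻¹ * s⁻¹ := ⟨_, rfl⟩
  rw [← hw] at h4 hc
  have hxs : x * s = w * s * x := by rw [hw]; group
  have h1 : x * (x * (x * s)) = w ^ 3 * s * x ^ 3 := by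
    calc x * (x * (x * s)) = x * (x * (w * s * x)) := by rw [hxs]
      _ = x * (x * w) * s * x := by group
      _ = x * (w * x) * s * x := by rw [hc]
      _ = (x * w) * (x * s) * x := by group
      _ = (w * x) * (w * s * x) * x := by rw [hc, hxs]
      _ = w * (x * w) * s * x * x := by group
      _ = w * (w * x) * s * x * x := by rw [hc]
      _ = w * w * (x * s) * x * x := by group
      _ = w * w * (w * s * x) * x * x := by rw [hxs]
      _ = w ^ 3 * s * x ^ 3 := by
        simp only [pow_succ, pow_zero, one_mul]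
        group
  have h2 : x * (x * (x * s)) = s := by
    have : x * (x * (x * s)) = x ^ 3 * s := by
      simp only [pow_succ, pow_zero, one_mul]
      group
    rw [this, hx, one_mul]
  rw [h2, hx, mul_one] at h1
  have h3 : w ^ 3 = 1 := by
    have := congrArg (· * s⁻¹) h1
    simpa using this.symm
  have hw1 : w = 1 := by
    have h5 : w ^ 4 = w ^ 3 * w := pow_succ w 3
    rw [h4, h3, one_mul] at h5
    exact h5.symm
  rw [hxs, hw1, one_mul]

lemma q8_facts : ∃ z : QuaternionGroup 2, z ≠ 1 ∧ z * z = 1 ∧ (∀ s, s * s = 1 ∨ s * s = z) ∧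
    (∀ s, s * s = 1 → s = 1 ∨ s = z) ∧ (∀ s t, s * t = t * s ∨ s * t = z * (t * s)) ∧
    (∀ s, s * z = z * s) :=
  ⟨QuaternionGroup.a 2, by decide, by decide, by decide, by decide, by decide, by decide⟩

lemma bt_data {G : Type} [Group G] (h : BinTet G) : ∃ (Q : Subgroup G) (z x : G), Q.Normal ∧
    Nonempty (Q ≃* QuaternionGroup 2) ∧ Nat.card Q = 8 ∧ Q.index = 3 ∧ z ∈ Q ∧ z ≠ 1 ∧ z * z = 1 ∧
    (∀ s ∈ Q, s * s = 1 ∨ s * s = z) ∧ (∀ s ∈ Q, s * s = 1 → s = 1 ∨ s = z) ∧
    (∀ s ∈ Q, ∀ t ∈ Q, s * t = t * s ∨ s * t = z * (t * s)) ∧ (∀ g : G, g * z = z * g) ∧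
    orderOf x = 3 ∧ Subgroup.centralizer (Q : Set G) ≤ Q := by
  obtain ⟨h24, Q, hQn, ⟨e⟩, hC⟩ := h
  haveI : Finite G := Nat.finite_of_card_ne_zero (by rw [h24]; norm_num)
  haveI : Fact (Nat.Prime 3) := ⟨Nat.prime_three⟩
  obtain ⟨z0, hz1, hz2, hz3, hz4, hz5, hz6⟩ := q8_facts
  obtain ⟨x, hx⟩ := exists_prime_orderOf_dvd_card' (G := G) 3 (by rw [h24]; norm_num)
  have hQc : Nat.card Q = 8 := by
    rw [Nat.card_congr e.toEquiv, Nat.card_eq_fintype_card, QuaternionGroup.card]
  have hz4' : ∀ s ∈ Q, s * s = 1 → s = 1 ∨ s = ((e.symm z0 : Q) : G) := by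
    intro s hs hss
    have h1 : e ⟨s, hs⟩ * e ⟨s, hs⟩ = 1 := by
      rw [← map_mul, ← map_one e]
      exact congrArg e (Subtype.ext hss)
    rcases hz4 _ h1 with h2 | h2
    · left
      have h3 : (⟨s, hs⟩ : Q) = 1 := e.injective (by rw [h2, map_one])
      exact congrArg Subtype.val h3
    · right
      have h3 : (⟨s, hs⟩ : Q) = e.symm z0 := e.injective (by rw [h2, e.apply_symm_apply])
      exact congrArg Subtype.val h3
  have hzz : ((e.symm z0 : Q) : G) * ((e.symm z0 : Q) : G) = 1 := by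
    have h1 : e.symm z0 * e.symm z0 = 1 := by rw [← map_mul, hz2, map_one]
    exact congrArg Subtype.val h1
  have hzne : ((e.symm z0 : Q) : G) ≠ 1 := by
    intro h1
    apply hz1
    have h2 : e.symm z0 = 1 := Subtype.ext h1
    rw [← e.apply_symm_apply z0, h2, map_one]
  refine ⟨Q, (e.symm z0 : Q), x, hQn, ⟨e⟩, hQc, ?_, (e.symm z0).2, hzne, hzz, ?_, hz4', ?_, ?_, hx,
    hC⟩
  · have h1 := Q.card_mul_index
    rw [hQc, h24] at h1
    omega
  · intro s hs
    rcases hz3 (e ⟨s, hs⟩) with h1 | h1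
    · left
      have h3 : (⟨s, hs⟩ : Q) * ⟨s, hs⟩ = 1 := e.injective (by rw [map_mul, h1, map_one])
      exact congrArg Subtype.val h3
    · right
      have h3 : (⟨s, hs⟩ : Q) * ⟨s, hs⟩ = e.symm z0 :=
        e.injective (by rw [map_mul, h1, e.apply_symm_apply])
      exact congrArg Subtype.val h3
  · intro s hs t ht
    rcases hz5 (e ⟨s, hs⟩) (e ⟨t, ht⟩) with h1 | h1
    · left
      have h3 : (⟨s, hs⟩ : Q) * ⟨t, ht⟩ = ⟨t, ht⟩ * ⟨s, hs⟩ :=
        e.injective (by rw [map_mul, map_mul, h1])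
      exact congrArg Subtype.val h3
    · right
      have h3 : (⟨s, hs⟩ : Q) * ⟨t, ht⟩ = e.symm z0 * (⟨t, ht⟩ * ⟨s, hs⟩) :=
        e.injective (by rw [map_mul, map_mul, map_mul, h1, e.apply_symm_apply])
      exact congrArg Subtype.val h3
  · intro g
    have h1 : g * ((e.symm z0 : Q) : G) * g⁻¹ ∈ Q := hQn.conj_mem _ (e.symm z0).2 g
    have h2 : (g * ((e.symm z0 : Q) : G) * g⁻¹) * (g * ((e.symm z0 : Q) : G) * g⁻¹) = 1 := by
      have h3 : (g * ((e.symm z0 : Q) : G) * g⁻¹) * (g * ((e.symm z0 : Q) : G) * g⁻¹) =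
          g * (((e.symm z0 : Q) : G) * ((e.symm z0 : Q) : G)) * g⁻¹ := by group
      rw [h3, hzz, mul_one, mul_inv_cancel]
    rcases hz4' _ h1 h2 with h3 | h3
    · exfalso
      apply hzne
      have h4 := congrArg (fun y => g⁻¹ * y * g) h3
      simpa [mul_assoc] using h4
    · have h4 := congrArg (· * g) h3
      simpa using h4

lemma bintet_equiv {S G : Type} [Group S] [Group G] (e : S ≃* G) (h : BinTet G) : BinTet S := by
  obtain ⟨h24, Q, hQn, ⟨eQ⟩, hC⟩ := h
  refine ⟨by rw [Nat.card_congr e.toEquiv, h24], Q.comap e.toMonoidHom, inferInstance, ?_, ?_⟩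
  · have h1 : (Q.comap e.toMonoidHom) = Q.map e.symm.toMonoidHom := by
      ext s
      rw [Subgroup.mem_comap, Subgroup.mem_map]
      constructor
      · intro hs
        exact ⟨e s, hs, e.symm_apply_apply s⟩
      · rintro ⟨y, hy, rfl⟩
        change e (e.symm y) ∈ Q
        rw [e.apply_symm_apply]
        exact hy
    rw [h1]
    exact ⟨(Q.equivMapOfInjective e.symm.toMonoidHom e.symm.injective).symm.trans eQ⟩
  · intro s hs
    rw [Subgroup.mem_comap]
    apply hC
    rw [Subgroup.mem_centralizer_iff] at hs ⊢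
    intro y hy
    have h1 := hs (e.symm y) (by
      change e (e.symm y) ∈ Q
      rw [e.apply_symm_apply]
      exact hy)
    have h2 := congrArg e h1
    rw [map_mul, map_mul, e.apply_symm_apply] at h2
    exact h2

lemma bintet_no12 {G : Type} [Group G] (h : BinTet G) (R : Subgroup G) (hR : Nat.card R = 12) :
    False := by
  have h24 := h.1
  haveI : Finite G := Nat.finite_of_card_ne_zero (by rw [h24]; norm_num)
  haveI : Fact (Nat.Prime 2) := ⟨Nat.prime_two⟩
  obtain ⟨Q, z, x, hQn, ⟨e⟩, hQc, hQi, hzQ, hz1, hz2, hsq, hinv, hcm, hzc, hx, hC⟩ := bt_data h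
  have hx3 : x ^ 3 = 1 := by rw [← hx]; exact pow_orderOf_eq_one x
  have hRi : R.index = 2 := by
    have h1 := R.card_mul_index
    rw [hR, h24] at h1
    omega
  haveI hRn : R.Normal := Subgroup.normal_of_index_eq_two hRi
  -- the intersection has order 4
  have hWc : Nat.card (R ⊓ Q : Subgroup G) = 4 := by
    have h1 : R.relIndex Q ∣ 2 := hRi ▸ Subgroup.relIndex_dvd_index_of_normal R Q
    have h2 : Nat.card (R ⊓ Q : Subgroup G) * R.relIndex Q = 8 := by
      rw [← hQc, ← Subgroup.inf_relIndex_right, ← Subgroup.relIndex_bot_left,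
        Subgroup.relIndex_mul_relIndex _ _ _ bot_le inf_le_right, Subgroup.relIndex_bot_left]
    have h3 : Nat.card (R ⊓ Q : Subgroup G) ∣ 12 := hR ▸ Subgroup.card_dvd_of_le inf_le_left
    rcases (Nat.dvd_prime Nat.prime_two).mp h1 with h4 | h4
    · rw [h4, mul_one] at h2
      rw [h2] at h3
      norm_num at h3
    · rw [h4] at h2
      omega
  have hzW : z ∈ R ⊓ Q := by
    obtain ⟨y, hy⟩ := exists_prime_orderOf_dvd_card' (G := (R ⊓ Q : Subgroup G)) 2
      (by rw [hWc]; norm_num)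
    have h1 : (y : G) * y = 1 := by
      have h2 := pow_orderOf_eq_one y
      rw [hy, pow_two] at h2
      exact congrArg Subtype.val h2
    rcases hinv y y.2.2 h1 with h3 | h3
    · exfalso
      have h4 : y = 1 := Subtype.ext h3
      rw [h4, orderOf_one] at hy
      norm_num at hy
    · rw [← h3]
      exact y.2
  have hzo : orderOf z = 2 := orderOf_eq_prime (by rw [pow_two]; exact hz2) hz1
  have hZW : Subgroup.zpowers z ≤ R ⊓ Q := by
    rw [Subgroup.zpowers_le]
    exact hzW
  have hZi : ((Subgroup.zpowers z).subgroupOf (R ⊓ Q)).index = 2 := by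
    have h2 : Nat.card (Subgroup.zpowers z) * (Subgroup.zpowers z).relIndex (R ⊓ Q) = 4 := by
      rw [← hWc, ← Subgroup.relIndex_bot_left,
        Subgroup.relIndex_mul_relIndex _ _ _ bot_le hZW, Subgroup.relIndex_bot_left]
    rw [Nat.card_zpowers, hzo] at h2
    change (Subgroup.zpowers z).relIndex (R ⊓ Q) = 2
    omega
  have hZmem : ∀ y, y ∈ Subgroup.zpowers z → y = 1 ∨ y = z := by
    intro y hy
    obtain ⟨k, rfl⟩ := Subgroup.mem_zpowers_iff.mp hy
    have h2 : z ^ (2 : ℤ) = 1 := by rw [zpow_two, hz2]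
    rcases Int.even_or_odd k with ⟨m, rfl⟩ | ⟨m, rfl⟩
    · left
      rw [← two_mul, zpow_mul, h2, one_zpow]
    · right
      rw [zpow_add, zpow_mul, h2, one_zpow, one_mul, zpow_one]
  -- x centralises W
  have hxW : ∀ w ∈ R ⊓ Q, x * w = w * x := by
    intro w hw
    have h1 : x * w * x⁻¹ ∈ R ⊓ Q := ⟨hRn.conj_mem _ hw.1 x, hQn.conj_mem _ hw.2 x⟩
    have h2 : (x * w * x⁻¹ ∈ Subgroup.zpowers z) ↔ (w ∈ Subgroup.zpowers z) := by
      constructor
      · intro h3
        rcases hZmem _ h3 with h4 | h4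
        · have : w = 1 := by
            have h5 := congrArg (fun y => x⁻¹ * y * x) h4
            simpa [mul_assoc] using h5
          rw [this]
          exact one_mem _
        · have : w = z := by
            have h5 : x⁻¹ * (x * w * x⁻¹) * x = x⁻¹ * z * x :=
              congrArg (fun y => x⁻¹ * y * x) h4
            have h6 : x⁻¹ * z * x = z := by
              rw [mul_assoc, ← hzc x, inv_mul_cancel_left]
            rw [h6] at h5
            rw [← h5]
            group
          rw [this]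
          exact Subgroup.mem_zpowers z
      · intro h3
        rcases hZmem _ h3 with h4 | h4
        · rw [h4, mul_one, mul_inv_cancel]
          exact one_mem _
        · rw [h4, hzc x, mul_inv_cancel_right]
          exact Subgroup.mem_zpowers z
    have h3 : (⟨x * w * x⁻¹, h1⟩ : (R ⊓ Q : Subgroup G)) * (⟨w, hw⟩)⁻¹ ∈
        (Subgroup.zpowers z).subgroupOf (R ⊓ Q) := by
      rw [Subgroup.mul_mem_iff_of_index_two hZi, inv_mem_iff, Subgroup.mem_subgroupOf,
        Subgroup.mem_subgroupOf]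
      exact h2
    have h4 : x * w * x⁻¹ * w⁻¹ = 1 ∨ x * w * x⁻¹ * w⁻¹ = z := hZmem _ h3
    apply cop_comm hx3
    · rcases h4 with h5 | h5
      · rw [h5, one_pow]
      · rw [h5]
        have : z ^ 4 = (z * z) * (z * z) := by
          simp only [pow_succ, pow_zero, one_mul]
          group
        rw [this, hz2, one_mul]
    · rcases h4 with h5 | h5
      · rw [h5, mul_one, one_mul]
      · rw [h5]
        exact hzc x
  have hxQ : ∀ s ∈ Q, x * s = s * x := by
    intro s hs
    have h1 : x * s * x⁻¹ ∈ Q := hQn.conj_mem _ hs x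
    have h2 : x * s * x⁻¹ * s⁻¹ ∈ R := by
      rw [Subgroup.mul_mem_iff_of_index_two hRi, inv_mem_iff]
      constructor
      · intro h3
        have h4 := hRn.conj_mem _ h3 x⁻¹
        have h5 : x⁻¹ * (x * s * x⁻¹) * x⁻¹⁻¹ = s := by group
        rwa [h5] at h4
      · exact fun h3 => hRn.conj_mem _ h3 x
    have h3 : x * s * x⁻¹ * s⁻¹ ∈ R ⊓ Q := ⟨h2, Q.mul_mem h1 (Q.inv_mem hs)⟩
    apply cop_comm hx3
    · have h5 : (⟨_, h3⟩ : (R ⊓ Q : Subgroup G)) ^ Nat.card (R ⊓ Q : Subgroup G) = 1 :=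
        pow_card_eq_one'
      rw [hWc] at h5
      exact congrArg Subtype.val h5
    · exact hxW _ h3
  have hxm : x ∈ Q := by
    apply hC
    rw [Subgroup.mem_centralizer_iff]
    exact fun s hs => (hxQ s hs).symm
  have h5 := Subgroup.orderOf_dvd_natCard Q hxm
  rw [hx, hQc] at h5
  norm_num at h5

lemma bintet_sub {S G : Type} [Group S] [Group G] (f : S →* G) (hf : Function.Injective f)
    (h : BinTet G) : SolList S := by
  have h24 := h.1
  haveI : Finite G := Nat.finite_of_card_ne_zero (by rw [h24]; norm_num)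
  haveI : Finite S := Finite.of_injective f hf
  rcases inj_iso_or f hf with ⟨⟨e⟩⟩ | h1
  · exact ⟨inferInstance, Or.inr (Or.inr (Or.inr (Or.inr (Or.inr (Or.inl (bintet_equiv e h))))))⟩
  · have hdvd := Subgroup.card_dvd_of_injective f hf
    rw [h24] at hdvd h1
    by_cases h7 : Nat.card S ≤ 7
    · exact small_list h7
    · have h8 : Nat.card S = 8 ∨ Nat.card S = 12 := by
        have key : ∀ m ≤ 12, 7 < m → m ∣ 24 → m = 8 ∨ m = 12 := by decide
        exact key _ (by omega) (by omega) hdvd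
      have hrc : Nat.card f.range = Nat.card S :=
        (Nat.card_congr (MonoidHom.ofInjective hf).toEquiv).symm
      rcases h8 with h8 | h12
      · obtain ⟨Q, z, x, hQn, ⟨e⟩, hQc, hQi, hzQ, hz1, hz2, hsq, hinv, hcm, hzc, hx, hC⟩ := bt_data h
        have hle : f.range ≤ Q := by
          intro y hy
          have h3 : orderOf y ∣ 8 := by
            have := Subgroup.orderOf_dvd_natCard _ hy
            rwa [hrc, h8] at this
          have h4 : orderOf (QuotientGroup.mk' Q y) ∣ 8 := (orderOf_map_dvd _ _).trans h3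
          have h5 : orderOf (QuotientGroup.mk' Q y) ∣ 3 := by
            rw [← hQi]
            exact orderOf_dvd_natCard _
          have h6 : orderOf (QuotientGroup.mk' Q y) = 1 :=
            Nat.Coprime.eq_one_of_dvd (Nat.Coprime.coprime_dvd_left h4 (by norm_num)) h5
          rw [orderOf_eq_one_iff] at h6
          exact (QuotientGroup.eq_one_iff y).mp h6
        have heq : f.range = Q := Subgroup.eq_of_le_of_card_ge hle (by rw [hrc, h8, hQc])
        have e2 : f.range ≃* Q := MulEquiv.subgroupCongr heq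
        exact ⟨inferInstance, Or.inr (Or.inr (Or.inr (Or.inr (Or.inl
          ⟨((MonoidHom.ofInjective hf).trans e2).trans e⟩))))⟩
      · exact absurd (bintet_no12 h f.range (by rw [hrc, h12])) not_false

/-- closure of the list under subgroups -/
theorem list_sub {S G : Type} [Group S] [Group G] (f : S →* G) (hf : Function.Injective f)
    (h : SolList G) : SolList S := by
  obtain ⟨hfin, h⟩ := h
  haveI : Finite S := Finite.of_injective f hf
  rcases h with h | h | h | ⟨g, hg⟩ | ⟨⟨e⟩⟩ | h | h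
  · exact abl_sol (abl_sub f hf ⟨hfin, Or.inl h⟩)
  · exact abl_sol (abl_sub f hf ⟨hfin, Or.inr (Or.inl h)⟩)
  · exact abl_sol (abl_sub f hf ⟨hfin, Or.inr (Or.inr (Or.inl h))⟩)
  · exact ⟨inferInstance, Or.inr (Or.inr (Or.inr (Or.inl ⟨g.comp f, hg.comp hf⟩)))⟩
  · have h8 : Nat.card G = 8 := by
      rw [Nat.card_congr e.toEquiv, Nat.card_eq_fintype_card, QuaternionGroup.card]
    rcases inj_iso_or f hf with ⟨⟨e'⟩⟩ | h1
    · exact ⟨inferInstance, Or.inr (Or.inr (Or.inr (Or.inr (Or.inl ⟨e'.trans e⟩))))⟩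
    · exact small_list (by omega)
  · exact bintet_sub f hf h
  · exact meta_sub_list f hf h

end Pool.Agent.SHAF
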