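import Mathlib
import Pool.Agent.SHAF.ListSub2

set_option autoImplicit false

/-!
Quotients of the groups in the list.
-/

namespace Pool.Agent.SHAF

open Pool.Agent.SHA

lemma perm4_conj : ∀ z : Equiv.Perm (Fin 4), z ≠ 1 →
    ∃ h : Equiv.Perm (Fin 4), h * z * h⁻¹ ≠ z ∧ h * z * h⁻¹ ≠ z * z ∧ h * z * h⁻¹ ≠ 1 := by
  decide +kernel

lemma perm4_card : Nat.card (Equiv.Perm (Fin 4)) = 24 := by
  rw [Nat.card_eq_fintype_card, Fintype.card_perm, Fintype.card_fin]
  rfl

lemma quo_perm4 {G Q : Type} [Group G] [Group Q] [Finite G] (f : G →* Q)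
    (hf : Function.Surjective f) (g : G →* Equiv.Perm (Fin 4)) (hg : Function.Injective g) :
    SolList Q := by
  classical
  haveI : Finite Q := Finite.of_surjective f hf
  by_cases h7 : Nat.card Q ≤ 7
  · exact small_list h7
  rcases surj_iso_or f hf with ⟨⟨e⟩⟩ | h1
  · exact ⟨inferInstance, Or.inr (Or.inr (Or.inr (Or.inl ⟨g.comp e.toMonoidHom,
      hg.comp e.injective⟩)))⟩
  exfalso
  have hdvd : Nat.card G ∣ 24 := perm4_card ▸ Subgroup.card_dvd_of_injective g hg
  have h24 : Nat.card G = 24 := by
    have key : ∀ m ≤ 24, 16 ≤ m → m ∣ 24 → m = 24 := by decide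
    exact key _ (Nat.le_of_dvd (by norm_num) hdvd) (by omega) hdvd
  have hgb : Function.Surjective g :=
    (Function.Injective.bijective_of_nat_card_le hg (by rw [perm4_card, h24])).2
  have hk := f.ker.card_mul_index
  rw [Subgroup.index_ker, MonoidHom.range_eq_top.mpr hf, Subgroup.card_top, h24] at hk
  have hkle : Nat.card f.ker ≤ 3 := by
    by_contra hlt
    have : 4 * 8 ≤ Nat.card f.ker * Nat.card Q := Nat.mul_le_mul (by omega) (by omega)
    omega
  have hk1 : Nat.card f.ker ≠ 1 := by
    intro h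
    rw [h] at hk
    omega
  obtain ⟨z, hz⟩ : ∃ z : f.ker, z ≠ 1 := by
    by_contra hcon
    push Not at hcon
    apply hk1
    rw [Nat.card_eq_one_iff_unique]
    exact ⟨⟨fun a b => by rw [hcon a, hcon b]⟩, ⟨1⟩⟩
  have hz1 : g z ≠ 1 := by
    intro h
    apply hz
    apply Subtype.ext
    apply hg
    rw [h]
    exact (map_one g).symm
  obtain ⟨h, ha, hb, hc⟩ := perm4_conj (g z) hz1
  obtain ⟨y, rfl⟩ := hgb h
  have hy : y * z * y⁻¹ ∈ f.ker := MonoidHom.normal_ker f |>.conj_mem _ z.2 y
  -- four distinct elements of the kernel, or the order is 2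
  set y' : f.ker := ⟨_, hy⟩ with hy'
  have hyz : y' ≠ z := by
    intro h5
    apply ha
    rw [← map_mul, ← map_inv, ← map_mul]
    exact congrArg g (congrArg Subtype.val h5)
  have hyzz : y' ≠ z * z := by
    intro h5
    apply hb
    rw [← map_mul, ← map_mul, ← map_inv, ← map_mul]
    exact congrArg g (congrArg Subtype.val h5)
  have hy1 : y' ≠ 1 := by
    intro h5
    apply hc
    rw [← map_mul, ← map_inv, ← map_mul, ← map_one g]
    exact congrArg g (congrArg Subtype.val h5)
  have hcyc : IsCyclic f.ker := cyc_of_le3 hkle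
  have hc23 : Nat.card f.ker = 2 ∨ Nat.card f.ker = 3 := by
    have : 0 < Nat.card f.ker := Nat.card_pos
    omega
  have hpr : (Nat.card f.ker).Prime := by
    rcases hc23 with h | h <;> rw [h] <;> norm_num
  have hzo : orderOf z = Nat.card f.ker := by
    rcases (Nat.dvd_prime hpr).mp (orderOf_dvd_natCard z) with h | h
    · exact absurd (orderOf_eq_one_iff.mp h) hz
    · exact h
  have hyz' : y' ∈ Subgroup.zpowers z := by
    have : Subgroup.zpowers z = ⊤ := by
      apply Subgroup.eq_top_of_card_eq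
      rw [Nat.card_zpowers, hzo]
    rw [this]
    exact Subgroup.mem_top _
  have hyz2 : y' ∈ Submonoid.powers z := by
    rwa [mem_powers_iff_mem_zpowers]
  rw [mem_powers_iff_mem_range_orderOf, Finset.mem_image] at hyz2
  obtain ⟨k, hk', hk2⟩ := hyz2
  rw [Finset.mem_range, hzo] at hk'
  have hk3 : k < 3 := by omega
  interval_cases k
  · exact hy1 (by rw [← hk2, pow_zero])
  · exact hyz (by rw [← hk2, pow_one])
  · exact hyzz (by rw [← hk2, pow_two])

lemma quo_bintet {G Q : Type} [Group G] [Group Q] (f : G →* Q)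
    (hf : Function.Surjective f) (h : BinTet G) : SolList Q := by
  classical
  have h24 := h.1
  haveI : Finite G := Nat.finite_of_card_ne_zero (by rw [h24]; norm_num)
  haveI : Finite Q := Finite.of_surjective f hf
  haveI : Fact (Nat.Prime 2) := ⟨Nat.prime_two⟩
  by_cases h7 : Nat.card Q ≤ 7
  · exact small_list h7
  rcases surj_iso_or f hf with ⟨⟨e⟩⟩ | h1
  · exact ⟨inferInstance, Or.inr (Or.inr (Or.inr (Or.inr (Or.inr (Or.inl (bintet_equiv e h))))))⟩
  obtain ⟨R, z, x, hRn, ⟨e⟩, hRc, hRi, hzR, hz1, hz2, hsq, hinv, hcm, hzc, hx, hC⟩ := bt_data h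
  have hx3 : x ^ 3 = 1 := by rw [← hx]; exact pow_orderOf_eq_one x
  have hxR : x ∉ R := by
    intro hxm
    have h5 := Subgroup.orderOf_dvd_natCard R hxm
    rw [hx, hRc] at h5
    norm_num at h5
  have hk := f.ker.card_mul_index
  rw [Subgroup.index_ker, MonoidHom.range_eq_top.mpr hf, Subgroup.card_top, h24] at hk
  have hkle : Nat.card f.ker ≤ 3 := by
    by_contra hlt
    have : 4 * 8 ≤ Nat.card f.ker * Nat.card Q := Nat.mul_le_mul (by omega) (by omega)
    omega
  have hkpos : 0 < Nat.card f.ker := Nat.card_pos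
  have hk23 : Nat.card f.ker = 2 ∨ Nat.card f.ker = 3 := by
    have : Nat.card f.ker ≠ 1 := by
      intro h
      rw [h] at hk
      omega
    omega
  rcases hk23 with hk2 | hk3
  · -- the kernel is generated by z
    have hker : ∀ k ∈ f.ker, k = 1 ∨ k = z := by
      intro k hkk
      have hkk2 : k * k = 1 := by
        have h5 : (⟨k, hkk⟩ : f.ker) ^ Nat.card f.ker = 1 := pow_card_eq_one'
        rw [hk2, pow_two] at h5
        exact congrArg Subtype.val h5
      by_cases hk1 : k = 1
      · exact Or.inl hk1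
      right
      have hcen : ∀ g : G, g * k * g⁻¹ = k := by
        intro g
        have h5 : g * k * g⁻¹ ∈ f.ker := (MonoidHom.normal_ker f).conj_mem _ hkk g
        by_contra h6
        have h7 : g * k * g⁻¹ ≠ 1 := by
          intro h8
          apply hk1
          have h9 := congrArg (fun y => g⁻¹ * y * g) h8
          simpa [mul_assoc] using h9
        have h10 : ({1, ⟨k, hkk⟩, ⟨_, h5⟩} : Finset f.ker).card = 3 := by
          rw [Finset.card_eq_three]
          exact ⟨1, ⟨k, hkk⟩, ⟨_, h5⟩, fun h => hk1 (congrArg Subtype.val h).symm,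
            fun h => h7 (congrArg Subtype.val h).symm, fun h => h6 (congrArg Subtype.val h).symm,
            rfl⟩
        haveI : Fintype f.ker := Fintype.ofFinite _
        have h11 := Finset.card_le_univ ({1, ⟨k, hkk⟩, ⟨_, h5⟩} : Finset f.ker)
        rw [h10, ← Nat.card_eq_fintype_card, hk2] at h11
        omega
      have hkR : k ∈ R := by
        apply hC
        rw [Subgroup.mem_centralizer_iff]
        intro s _
        have h5 := hcen s
        rw [mul_inv_eq_iff_eq_mul] at h5
        exact h5
      rcases hinv k hkR hkk2 with h5 | h5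
      · exact absurd h5 hk1
      · exact h5
    have hzk : z ∈ f.ker := by
      obtain ⟨k, hk1⟩ : ∃ k : f.ker, k ≠ 1 := by
        by_contra hcon
        push Not at hcon
        have : Nat.card f.ker = 1 := by
          rw [Nat.card_eq_one_iff_unique]
          exact ⟨⟨fun a b => by rw [hcon a, hcon b]⟩, ⟨1⟩⟩
        omega
      rcases hker k k.2 with h5 | h5
      · exact absurd (Subtype.ext h5) hk1
      · rw [← h5]
        exact k.2
    haveI hVn : (R.map f).Normal := Subgroup.Normal.map hRn f hf
    have hVc : Nat.card (R.map f) = 4 := by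
      have h5 : f.ker.relIndex R = Nat.card (R.map f) := Subgroup.relIndex_ker R f
      have h6 : f.ker ≤ R := by
        intro k hkk
        rcases hker k hkk with h8 | h8
        · rw [h8]; exact one_mem _
        · rw [h8]; exact hzR
      have h7 : Nat.card f.ker * f.ker.relIndex R = 8 := by
        rw [← hRc, ← Subgroup.relIndex_bot_left,
          Subgroup.relIndex_mul_relIndex _ _ _ bot_le h6, Subgroup.relIndex_bot_left]
      rw [hk2] at h7
      omega
    have hV2 : ∀ v ∈ R.map f, v * v = 1 := by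
      rintro _ ⟨s, hs, rfl⟩
      rw [← map_mul]
      rcases hsq s hs with h5 | h5
      · rw [h5, map_one]
      · rw [h5]
        exact hzk
    have hCV : Subgroup.centralizer ((R.map f : Subgroup Q) : Set Q) ≤ R.map f := by
      have hRC : R ≤ (Subgroup.centralizer ((R.map f : Subgroup Q) : Set Q)).comap f := by
        intro s hs
        rw [Subgroup.mem_comap, Subgroup.mem_centralizer_iff]
        rintro _ ⟨t, ht, rfl⟩
        rw [← map_mul, ← map_mul]
        rcases hcm t ht s hs with h5 | h5
        · rw [h5]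
        · rw [h5, map_mul, show f z = 1 from hzk, one_mul]
      have hidx : ((Subgroup.centralizer ((R.map f : Subgroup Q) : Set Q)).comap f).index ∣ 3 :=
        hRi ▸ Subgroup.index_dvd_of_le hRC
      rcases (Nat.dvd_prime Nat.prime_three).mp hidx with h5 | h5
      · exfalso
        apply hxR
        apply hC
        rw [Subgroup.mem_centralizer_iff]
        intro s hs
        have h6 : x ∈ (Subgroup.centralizer ((R.map f : Subgroup Q) : Set Q)).comap f := by
          rw [Subgroup.index_eq_one.mp h5]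
          exact Subgroup.mem_top x
        rw [Subgroup.mem_comap, Subgroup.mem_centralizer_iff] at h6
        have h8 := h6 (f s) ⟨s, hs, rfl⟩
        have h9 : x * s * x⁻¹ * s⁻¹ ∈ f.ker := by
          rw [MonoidHom.mem_ker, map_mul, map_mul, map_mul, map_inv, map_inv, ← h8]
          group
        symm
        rcases hker _ h9 with h10 | h10
        · apply cop_comm hx3
          · rw [h10, one_pow]
          · rw [h10, mul_one, one_mul]
        · apply cop_comm hx3
          · rw [h10]
            have : z ^ 4 = (z * z) * (z * z) := by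
              simp only [pow_succ, pow_zero, one_mul]
              group
            rw [this, hz2, one_mul]
          · rw [h10]
            exact hzc x
      · have h6 : (Subgroup.centralizer ((R.map f : Subgroup Q) : Set Q)).comap f = R := by
          symm
          apply Subgroup.eq_of_le_of_card_ge hRC
          have h8 := ((Subgroup.centralizer ((R.map f : Subgroup Q) : Set Q)).comap f).card_mul_index
          rw [h5, h24] at h8
          rw [hRc]
          omega
        intro y hy
        obtain ⟨g, rfl⟩ := hf y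
        have h8 : g ∈ (Subgroup.centralizer ((R.map f : Subgroup Q) : Set Q)).comap f := hy
        rw [h6] at h8
        exact ⟨g, h8, rfl⟩
    have h3d : 3 ∣ Nat.card Q := by
      rw [hk2] at hk
      omega
    exact ⟨inferInstance, Or.inr (Or.inr (Or.inr (Or.inl (klein_embed (R.map f) hVc hV2 hCV h3d))))⟩
  · exfalso
    have hdis : ∀ k ∈ f.ker, k ∈ R → k = 1 := by
      intro k hk1 hk2'
      have h5 := Subgroup.orderOf_dvd_natCard _ hk1
      have h6 := Subgroup.orderOf_dvd_natCard _ hk2'
      rw [hk3] at h5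
      rw [hRc] at h6
      have h8 : orderOf k = 1 := Nat.Coprime.eq_one_of_dvd
        (Nat.Coprime.coprime_dvd_left h6 (by norm_num)) h5
      exact orderOf_eq_one_iff.mp h8
    have hle : f.ker ≤ R := by
      intro k hkk
      apply hC
      rw [Subgroup.mem_centralizer_iff]
      intro s hs
      have h5 : s * k * s⁻¹ * k⁻¹ ∈ f.ker :=
        f.ker.mul_mem ((MonoidHom.normal_ker f).conj_mem _ hkk s) (f.ker.inv_mem hkk)
      have h6 : s * k * s⁻¹ * k⁻¹ ∈ R := by
        have h8 := hRn.conj_mem _ (R.inv_mem hs) k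
        have h9 := R.mul_mem hs h8
        have h10 : s * (k * s⁻¹ * k⁻¹) = s * k * s⁻¹ * k⁻¹ := by group
        rwa [h10] at h9
      have h8 := hdis _ h5 h6
      have h9 := congrArg (fun y => y * k * s) h8
      simpa [mul_assoc] using h9
    have : f.ker = ⊥ := by
      rw [eq_bot_iff]
      intro k hkk
      exact hdis k hkk (hle hkk)
    rw [this, Subgroup.card_bot] at hk3
    norm_num at hk3

theorem meta_quo_list {G Q : Type} [Group G] [Group Q] (f : G →* Q) (hf : Function.Surjective f)
    (h : MetaList G) : SolList Q := by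
  obtain ⟨q, c, d, N, H, hq, hN, hNc, hcompl, hH, hHC, hHc, hd, hP, h4⟩ := h
  have hc0 : 0 < c := by
    have := params_c hP
    omega
  have h1 := compl_card hq N H hNc hcompl
  rw [hHC, hHc] at h1
  have hDi : (Subgroup.centralizer (N : Set G)).index = d := Nat.eq_of_mul_eq_mul_left hc0 h1
  have hGc : Nat.card G = q * c * d := by
    rw [← hcompl.card_mul_card, hNc, hHc, mul_assoc]
  haveI : Finite G := Nat.finite_of_card_ne_zero (by
    rw [hGc]
    exact Nat.mul_ne_zero (Nat.mul_ne_zero hq.ne_zero (by omega)) (by omega))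
  haveI : Finite Q := Finite.of_surjective f hf
  have hHabl : AbL H := compl_abl N H hq hNc hH hHC hHc hd hP h4
  have hNH : ∀ g : G, ∃ n ∈ N, ∃ x ∈ H, n * x = g := by
    intro g
    obtain ⟨⟨n, x⟩, hnx⟩ := hcompl.2 g
    exact ⟨n, n.2, x, x.2, hnx⟩
  by_cases hk : N ≤ f.ker
  · refine abl_sol (abl_quo (f.comp H.subtype) ?_ hHabl)
    intro y
    obtain ⟨g, rfl⟩ := hf y
    obtain ⟨n, hn, x, hx, rfl⟩ := hNH g
    refine ⟨⟨x, hx⟩, ?_⟩
    rw [map_mul, show f n = 1 from hk hn, one_mul]
    rfl
  -- the kernel meets N trivially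
  have hdis : ∀ n ∈ N, f n = 1 → n = 1 := by
    have h5 : Nat.card (N ⊓ f.ker : Subgroup G) ∣ q := hNc ▸ Subgroup.card_dvd_of_le inf_le_left
    rcases (Nat.dvd_prime hq).mp h5 with h6 | h6
    · intro n hn hn1
      have h7 := Subgroup.card_eq_one.mp h6
      have h8 : n ∈ (N ⊓ f.ker : Subgroup G) := ⟨hn, hn1⟩
      rw [h7] at h8
      exact h8
    · exfalso
      apply hk
      haveI : Finite N := inferInstance
      have h7 : (N ⊓ f.ker : Subgroup G) = N :=
        Subgroup.eq_of_le_of_card_ge inf_le_left (by rw [h6, hNc])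
      rw [← h7]
      exact inf_le_right
  haveI hN''n : (N.map f).Normal := Subgroup.Normal.map hN f hf
  have hN''c : Nat.card (N.map f) = q := by
    rw [← hNc]
    symm
    refine Nat.card_congr (Equiv.ofBijective (fun n : N => (⟨f n, n, n.2, rfl⟩ : N.map f)) ⟨?_, ?_⟩)
    · intro a b hab
      have h5 : f a = f b := congrArg Subtype.val hab
      have h6 : f ((a : G) * (b : G)⁻¹) = 1 := by rw [map_mul, map_inv, h5, mul_inv_cancel]
      have h7 := hdis _ (N.mul_mem a.2 (N.inv_mem b.2)) h6
      exact Subtype.ext (mul_inv_eq_one.mp h7)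
    · rintro ⟨_, n, hn, rfl⟩
      exact ⟨⟨n, hn⟩, rfl⟩
  have hcomap : (Subgroup.centralizer ((N.map f : Subgroup Q) : Set Q)).comap f =
      Subgroup.centralizer (N : Set G) := by
    ext g
    rw [Subgroup.mem_comap, Subgroup.mem_centralizer_iff, Subgroup.mem_centralizer_iff]
    constructor
    · intro h5 n hn
      have h6 := h5 (f n) ⟨n, hn, rfl⟩
      have h7 : f (n * g * n⁻¹ * g⁻¹) = 1 := by
        rw [map_mul, map_mul, map_mul, h6, map_inv, map_inv]
        group
      have h8 : n * g * n⁻¹ * g⁻¹ ∈ N := by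
        have h9 := N.mul_mem hn (hN.conj_mem _ (N.inv_mem hn) g)
        have h10 : n * (g * n⁻¹ * g⁻¹) = n * g * n⁻¹ * g⁻¹ := by group
        rwa [h10] at h9
      have h9 := hdis _ h8 h7
      have h10 := congrArg (fun y => y * g * n) h9
      simpa [mul_assoc] using h10
    · rintro h5 _ ⟨n, hn, rfl⟩
      rw [← map_mul, h5 n hn, map_mul]
  set D'' := Subgroup.centralizer ((N.map f : Subgroup Q) : Set Q) with hD''
  have hDi'' : D''.index = d := by
    rw [← Subgroup.index_comap_of_surjective _ hf, hcomap, hDi]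
  obtain ⟨c'', hc''⟩ : q ∣ Nat.card D'' :=
    hN''c ▸ Subgroup.card_dvd_of_le (cent_le hq _ hN''c)
  have hQc : Nat.card Q = q * c'' * d := by rw [← D''.card_mul_index, hc'', hDi'']
  have hcc : c'' ∣ c := by
    have h5 := Subgroup.card_dvd_of_surjective f hf
    rw [hQc, hGc] at h5
    have h6 := Nat.dvd_of_mul_dvd_mul_right (by omega) h5
    exact Nat.dvd_of_mul_dvd_mul_left hq.pos h6
  have hcomm : ∀ x y : Q ⧸ (N.map f), x * y = y * x := by
    intro x y
    obtain ⟨x, rfl⟩ := QuotientGroup.mk'_surjective _ x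
    obtain ⟨y, rfl⟩ := QuotientGroup.mk'_surjective _ y
    obtain ⟨a, rfl⟩ := hf x
    obtain ⟨b, rfl⟩ := hf y
    obtain ⟨n, hn, x, hx, rfl⟩ := hNH a
    obtain ⟨m, hm, y, hy, rfl⟩ := hNH b
    have e1 : ∀ n ∈ N, QuotientGroup.mk' (N.map f) (f n) = 1 := by
      intro n hn
      exact (QuotientGroup.eq_one_iff _).mpr ⟨n, hn, rfl⟩
    rw [map_mul f n x, map_mul f m y, map_mul (QuotientGroup.mk' (N.map f)) (f n),
      map_mul (QuotientGroup.mk' (N.map f)) (f m), e1 n hn, e1 m hm, one_mul, one_mul, ← map_mul,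
      ← map_mul, ← map_mul, ← map_mul, hH x hx y hy]
  letI hcg : CommGroup (Q ⧸ (N.map f)) :=
    { (inferInstance : Group (Q ⧸ (N.map f))) with mul_comm := hcomm }
  refine ⟨inferInstance, Or.inr (Or.inr (Or.inr (Or.inr (Or.inr (Or.inr (int_meta
      ⟨q, c'', d, Q ⧸ (N.map f), hcg, QuotientGroup.mk' (N.map f), hq, ?_, ?_, hQc, hd,
        params_sub hP hcc dvd_rfl hd, ?_⟩))))))⟩
  · rw [QuotientGroup.ker_mk', hN''c]
  · rw [QuotientGroup.ker_mk', ← hD'', hc'']
  · intro h5
    have h6 := params_c hP
    have h7 := Nat.le_of_dvd hc0 hcc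
    haveI := h4 (by omega)
    refine isCyclic_of_surjective ((QuotientGroup.mk' (N.map f)).comp (f.comp H.subtype)) ?_
    intro y
    obtain ⟨y, rfl⟩ := QuotientGroup.mk'_surjective _ y
    obtain ⟨g, rfl⟩ := hf y
    obtain ⟨n, hn, x, hx, rfl⟩ := hNH g
    refine ⟨⟨x, hx⟩, ?_⟩
    have e1 : QuotientGroup.mk' (N.map f) (f n) = 1 :=
      (QuotientGroup.eq_one_iff _).mpr ⟨n, hn, rfl⟩
    rw [map_mul f n x, map_mul (QuotientGroup.mk' (N.map f)) (f n), e1, one_mul]
    rfl

/-- closure of the list under quotients -/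
theorem list_quo {G Q : Type} [Group G] [Group Q] (f : G →* Q) (hf : Function.Surjective f)
    (h : SolList G) : SolList Q := by
  obtain ⟨hfin, h⟩ := h
  haveI : Finite Q := Finite.of_surjective f hf
  rcases h with h | h | h | ⟨g, hg⟩ | ⟨⟨e⟩⟩ | h | h
  · exact abl_sol (abl_quo f hf ⟨hfin, Or.inl h⟩)
  · exact abl_sol (abl_quo f hf ⟨hfin, Or.inr (Or.inl h)⟩)
  · exact abl_sol (abl_quo f hf ⟨hfin, Or.inr (Or.inr (Or.inl h))⟩)
  · exact quo_perm4 f hf g hg
  · have h8 : Nat.card G = 8 := by
      rw [Nat.card_congr e.toEquiv, Nat.card_eq_fintype_card, QuaternionGroup.card]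
    rcases surj_iso_or f hf with ⟨⟨e'⟩⟩ | h1
    · exact ⟨inferInstance, Or.inr (Or.inr (Or.inr (Or.inr (Or.inl ⟨e'.trans e⟩))))⟩
    · exact small_list (by omega)
  · exact quo_bintet f hf h
  · exact meta_quo_list f hf h

end Pool.Agent.SHAF
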