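import Mathlib
import Pool.Agent.SHAF.ListQuo

set_option autoImplicit false

/-!
Automorphism groups of the cyclic and of the small groups in the list.
-/

namespace Pool.Agent.SHAF

open Pool.Agent.SHA

/-- action of the automorphism group on an invariant subset -/
def subAct {G : Type} [Group G] (P : G → Prop) (hinv : ∀ (α : MulAut G) (g : G), P g → P (α g)) :
    MulAut G →* Equiv.Perm {g : G // P g} where
  toFun α :=
    { toFun := fun g => ⟨α g.1, hinv α g.1 g.2⟩
      invFun := fun g => ⟨α.symm g.1, hinv α.symm g.1 g.2⟩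
      left_inv := fun g => by simp
      right_inv := fun g => by simp }
  map_one' := rfl
  map_mul' _ _ := rfl

lemma aut_embed {G : Type} [Group G] (P : G → Prop)
    (hinv : ∀ (α : MulAut G) (g : G), P g → P (α g))
    (hgen : ∀ g, P g ∨ ∃ a b, P a ∧ P b ∧ g = a * b) (hcard : Nat.card {g : G // P g} = 4) :
    ∃ f : MulAut G →* Equiv.Perm (Fin 4), Function.Injective f := by
  haveI : Finite {g : G // P g} := Nat.finite_of_card_ne_zero (by omega)
  let e := Finite.equivFinOfCardEq hcard
  refine ⟨(Equiv.permCongrHom e).toMonoidHom.comp (subAct P hinv),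
    (Equiv.permCongrHom e).injective.comp ?_⟩
  rw [injective_iff_map_eq_one]
  intro α hα
  have h1 : ∀ g, P g → α g = g := by
    intro g hg
    have h2 := Equiv.congr_fun hα ⟨g, hg⟩
    exact congrArg Subtype.val h2
  ext g
  change α g = g
  rcases hgen g with h2 | ⟨a, b, ha, hb, rfl⟩
  · exact h1 g h2
  · rw [map_mul, h1 a ha, h1 b hb]

lemma perm4_sol {G : Type} [Group G] [Finite G] (h : ∃ f : G →* Equiv.Perm (Fin 4),
    Function.Injective f) : SolList G :=
  ⟨inferInstance, Or.inr (Or.inr (Or.inr (Or.inl h)))⟩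

instance mulAut_finite {G : Type} [Group G] [Finite G] : Finite (MulAut G) :=
  Finite.of_injective (fun α : MulAut G => (α : G → G)) (fun _ _ h => MulEquiv.ext (congrFun h))

lemma aut_equiv {G H : Type} [Group G] [Group H] (e : G ≃* H) (h : SolList (MulAut H)) :
    SolList (MulAut G) :=
  list_sub (MulAut.congr e).toMonoidHom (MulAut.congr e).injective h

/-- automorphisms of `C_2 × C_4` -/
lemma aut_c24 : SolList (MulAut (Multiplicative (ZMod 2 × ZMod 4))) := by
  apply perm4_sol
  refine aut_embed (fun g => g * g ≠ 1) ?_ ?_ ?_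
  · intro α g hg h
    apply hg
    apply α.injective
    rw [map_mul, h, map_one]
  · decide
  · rw [Nat.card_eq_fintype_card]
    decide

lemma aut_dih4 : SolList (MulAut (DihedralGroup 4)) := by
  apply perm4_sol
  refine aut_embed (fun g => g * g = 1 ∧ ∃ h, g * h ≠ h * g) ?_ ?_ ?_
  · rintro α g ⟨hg, h, hgh⟩
    refine ⟨by rw [← map_mul, hg, map_one], α h, fun h1 => hgh ?_⟩
    apply α.injective
    rw [map_mul, map_mul, h1]
  · decide
  · rw [Nat.card_eq_fintype_card]
    decide

/-- the product of the symmetric groups of degrees 3 and 2 -/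
lemma meta_s3c2 : MetaList (Equiv.Perm (Fin 3) × Equiv.Perm (Fin 2)) := by
  apply int_meta
  let π : Equiv.Perm (Fin 3) × Equiv.Perm (Fin 2) →* ℤˣ × ℤˣ :=
    MonoidHom.prodMap Equiv.Perm.sign Equiv.Perm.sign
  have hk : Nat.card π.ker = 3 := by
    have : Nat.card π.ker = Nat.card {x : Equiv.Perm (Fin 3) × Equiv.Perm (Fin 2) //
        (Equiv.Perm.sign x.1, Equiv.Perm.sign x.2) = (1, 1)} := rfl
    rw [this, Nat.card_eq_fintype_card]
    decide
  refine ⟨3, 2, 2, ℤˣ × ℤˣ, inferInstance, π, Nat.prime_three, hk, ?_, ?_, by norm_num,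
    Or.inr (Or.inr (Or.inl ⟨rfl, Or.inl rfl⟩)), by norm_num⟩
  · have : Nat.card (Subgroup.centralizer (π.ker : Set (Equiv.Perm (Fin 3) × Equiv.Perm (Fin 2)))) =
        Nat.card {x : Equiv.Perm (Fin 3) × Equiv.Perm (Fin 2) //
          ∀ h : Equiv.Perm (Fin 3) × Equiv.Perm (Fin 2),
            (Equiv.Perm.sign h.1, Equiv.Perm.sign h.2) = (1, 1) → h * x = x * h} := by
      apply Nat.card_congr
      apply Equiv.subtypeEquivRight
      intro x
      rw [Subgroup.mem_centralizer_iff]
      rfl
    rw [this, Nat.card_eq_fintype_card]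
    decide +kernel
  · rw [Nat.card_prod, Nat.card_eq_fintype_card, Nat.card_eq_fintype_card, Fintype.card_perm,
      Fintype.card_perm, Fintype.card_fin, Fintype.card_fin]
    rfl

lemma aut_c26 : SolList (MulAut (Multiplicative (ZMod 2 × ZMod 6))) := by
  have hs : SolList (Equiv.Perm (Fin 3) × Equiv.Perm (Fin 2)) :=
    ⟨inferInstance, Or.inr (Or.inr (Or.inr (Or.inr (Or.inr (Or.inr meta_s3c2)))))⟩
  let P : Multiplicative (ZMod 2 × ZMod 6) → Prop := fun g => g ≠ 1 ∧ g * g = 1
  let P' : Multiplicative (ZMod 2 × ZMod 6) → Prop := fun g => g ≠ 1 ∧ g * g * g = 1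
  have hP : ∀ (α : MulAut (Multiplicative (ZMod 2 × ZMod 6))) g, P g → P (α g) := by
    rintro α g ⟨h1, h2⟩
    exact ⟨fun h => h1 (α.injective (by rw [h, map_one])), by rw [← map_mul, h2, map_one]⟩
  have hP' : ∀ (α : MulAut (Multiplicative (ZMod 2 × ZMod 6))) g, P' g → P' (α g) := by
    rintro α g ⟨h1, h2⟩
    exact ⟨fun h => h1 (α.injective (by rw [h, map_one])), by
      rw [← map_mul, ← map_mul, h2, map_one]⟩
  have hc : Nat.card {g // P g} = 3 := by
    have : Nat.card {g // P g} =
        Nat.card {g : Multiplicative (ZMod 2 × ZMod 6) // g ≠ 1 ∧ g * g = 1} := rfl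
    rw [this, Nat.card_eq_fintype_card]
    decide
  have hc' : Nat.card {g // P' g} = 2 := by
    have : Nat.card {g // P' g} =
        Nat.card {g : Multiplicative (ZMod 2 × ZMod 6) // g ≠ 1 ∧ g * g * g = 1} := rfl
    rw [this, Nat.card_eq_fintype_card]
    decide
  let e := Finite.equivFinOfCardEq hc
  let e' := Finite.equivFinOfCardEq hc'
  refine list_sub (((Equiv.permCongrHom e).toMonoidHom.comp (subAct P hP)).prod
    ((Equiv.permCongrHom e').toMonoidHom.comp (subAct P' hP'))) ?_ hs
  rw [injective_iff_map_eq_one]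
  intro α hα
  have h1 : subAct P hP α = 1 := by
    apply (Equiv.permCongrHom e).injective
    rw [map_one]
    exact congrArg Prod.fst hα
  have h2 : subAct P' hP' α = 1 := by
    apply (Equiv.permCongrHom e').injective
    rw [map_one]
    exact congrArg Prod.snd hα
  have h3 : ∀ g, P g → α g = g := fun g hg => congrArg Subtype.val (Equiv.congr_fun h1 ⟨g, hg⟩)
  have h4 : ∀ g, P' g → α g = g := fun g hg => congrArg Subtype.val (Equiv.congr_fun h2 ⟨g, hg⟩)
  have key : ∀ g : Multiplicative (ZMod 2 × ZMod 6), ∃ a b : Multiplicative (ZMod 2 × ZMod 6),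
      a * a = 1 ∧ b * b * b = 1 ∧ g = a * b := by decide
  refine MulEquiv.ext fun g => ?_
  change α g = g
  obtain ⟨a, b, ha, hb, rfl⟩ := key g
  have ha' : α a = a := by
    by_cases h : a = 1
    · rw [h, map_one]
    · exact h3 a ⟨h, ha⟩
  have hb' : α b = b := by
    by_cases h : b = 1
    · rw [h, map_one]
    · exact h4 b ⟨h, hb⟩
  rw [map_mul, ha', hb']

/-- automorphisms of the admitted cyclic groups -/
theorem aut_cyc {G : Type} [Group G] [Finite G] (hG : IsCyclic G) (h : Good (Nat.card G)) :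
    SolList (MulAut G) := by
  have hcA : Nat.card (MulAut G) = Nat.totient (Nat.card G) := IsCyclic.card_mulAut G
  let e := IsCyclic.mulAutMulEquiv G
  have hcomm : ∀ α β : MulAut G, α * β = β * α := by
    intro α β
    apply e.injective
    rw [map_mul, map_mul, mul_comm]
  have h8 : ∀ n, Nat.card G = n → Nat.totient n = 8 → (∃ u : (ZMod n)ˣ, u * u ≠ 1) →
      SolList (MulAut G) := by
    rintro n rfl h1 ⟨u, hu⟩
    by_cases hc : IsCyclic (MulAut G)
    · exact list_cyc hc (by rw [hcA, h1]; exact Or.inl (by decide))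
    · letI : CommGroup (MulAut G) := { (inferInstance : Group (MulAut G)) with mul_comm := hcomm }
      refine ⟨inferInstance, Or.inr (Or.inl (ab8 (by rw [hcA, h1]) hc ⟨e.symm u, fun h2 => hu ?_⟩))⟩
      apply e.symm.injective
      rw [map_mul, map_one]
      exact h2
  have h12 : Nat.totient (Nat.card G) = 12 → SolList (MulAut G) := by
    intro h1
    exact abl_sol (abl12 hcomm (by rw [hcA, h1]))
  have h7 : Nat.totient (Nat.card G) ≤ 7 → SolList (MulAut G) := by
    intro h1
    exact small_list (by rw [hcA]; exact h1)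
  have hodd : ∀ m, GoodPP m → IsCyclic (ZMod m)ˣ ∧ Good (Nat.totient m) := by
    intro m hm
    obtain ⟨q, k, hq, hq2, rfl⟩ := goodPP_pow hm
    refine ⟨ZMod.isCyclic_units_of_prime_pow q hq hq2 _, ?_⟩
    rw [Nat.totient_prime_pow_succ hq]
    exact good_units hq hq2 hm
  rcases h with h | ⟨m, hm, h | h⟩
  · simp only [List.mem_cons, List.not_mem_nil, or_false] at h
    rcases h with h | h | h | h | h | h | h | h | h | h | h | h | h
    · exact h7 (by rw [h]; decide)
    · exact h7 (by rw [h]; decide)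
    · exact h7 (by rw [h]; decide)
    · exact h7 (by rw [h]; decide)
    · exact h8 16 h (by decide) ⟨ZMod.unitOfCoprime 3 (by norm_num), by decide⟩
    · exact h7 (by rw [h]; decide)
    · exact h8 20 h (by decide) ⟨ZMod.unitOfCoprime 3 (by norm_num), by decide⟩
    · exact h12 (by rw [h]; decide)
    · exact h12 (by rw [h]; decide)
    · exact h8 15 h (by decide) ⟨ZMod.unitOfCoprime 2 (by norm_num), by decide⟩
    · exact h12 (by rw [h]; decide)
    · exact h8 30 h (by decide) ⟨ZMod.unitOfCoprime 7 (by norm_num), by decide⟩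
    · exact h12 (by rw [h]; decide)
  · obtain ⟨h1, h2⟩ := hodd m hm
    refine list_cyc ?_ (by rw [hcA, h]; exact h2)
    rw [← h] at h1
    exact isCyclic_of_injective e.toMonoidHom e.injective
  · obtain ⟨h1, h2⟩ := hodd m hm
    have hmo : Odd m := Nat.odd_iff.mpr (by have := goodPP_odd hm; omega)
    refine list_cyc ?_ ?_
    · have h3 : IsCyclic (ZMod (2 * m))ˣ := (ZMod.isCyclic_units_two_mul_iff_of_odd m hmo).mpr h1
      rw [← h] at h3
      exact isCyclic_of_injective e.toMonoidHom e.injective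
    · rw [hcA, h, Nat.totient_mul (Nat.coprime_two_left.mpr hmo), Nat.totient_two, one_mul]
      exact h2

/-- a map permuting the quaternion units -/
def sg8 (x : QuaternionGroup 2) : QuaternionGroup 2 := match x with
  | QuaternionGroup.a k => (QuaternionGroup.xa 0) ^ (ZMod.val (n := 4) k)
  | QuaternionGroup.xa k => QuaternionGroup.xa 1 * (QuaternionGroup.xa 0) ^ (ZMod.val (n := 4) k)

lemma sg8_mul : ∀ x y, sg8 (x * y) = sg8 x * sg8 y := by decide +kernel

lemma sg8_3 : ∀ x, sg8 (sg8 (sg8 x)) = x := by decide +kernel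

/-- an automorphism of order 3 -/
def aut8 : MulAut (QuaternionGroup 2) where
  toFun := sg8
  invFun x := sg8 (sg8 x)
  left_inv x := sg8_3 x
  right_inv x := sg8_3 x
  map_mul' := sg8_mul

lemma q8_inner : ∀ s t : QuaternionGroup 2,
    (s = QuaternionGroup.a 1 ∨ s = QuaternionGroup.a 3) →
    (t = QuaternionGroup.xa 0 ∨ t = QuaternionGroup.xa 2) →
    ∃ g : QuaternionGroup 2, g * QuaternionGroup.a 1 * g⁻¹ = s ∧ g * QuaternionGroup.xa 0 * g⁻¹ = t := by
  decide +kernel

lemma q8_gen : ∀ g : QuaternionGroup 2, ∃ k : Fin 4, g = (QuaternionGroup.a 1) ^ k.val ∨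
    g = QuaternionGroup.xa 0 * (QuaternionGroup.a 1) ^ k.val := by decide +kernel

lemma q8_cen : (∀ s : QuaternionGroup 2,
      (∀ g : QuaternionGroup 2, s * g * s⁻¹ = QuaternionGroup.a 1 * g * (QuaternionGroup.a 1)⁻¹) →
      (s = QuaternionGroup.a 1 ∨ s = QuaternionGroup.a 3)) ∧
    (∀ s : QuaternionGroup 2,
      (∀ g : QuaternionGroup 2, s * g * s⁻¹ = QuaternionGroup.xa 0 * g * (QuaternionGroup.xa 0)⁻¹) →
      (s = QuaternionGroup.xa 0 ∨ s = QuaternionGroup.xa 2)) := by decide +kernel

lemma q8_sq : ∀ s g : QuaternionGroup 2, s * (s * g * s⁻¹) * s⁻¹ = g := by decide +kernel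

lemma q8_conj_ne : ∀ s : QuaternionGroup 2,
    (∀ g, s * g * s⁻¹ = g) ↔ (s = 1 ∨ s = QuaternionGroup.a 2) := by decide +kernel

lemma aut_q8 : SolList (MulAut (QuaternionGroup 2)) := by
  apply perm4_sol
  have hconj : ∀ (α : MulAut (QuaternionGroup 2)) (g : QuaternionGroup 2),
      α * MulAut.conj g * α⁻¹ = MulAut.conj (α g) := by
    intro α g
    ext x
    change α (g * α.symm x * g⁻¹) = α g * x * (α g)⁻¹
    rw [map_mul, map_mul, map_inv, MulEquiv.apply_symm_apply]
  haveI hn : (MulAut.conj : QuaternionGroup 2 →* MulAut (QuaternionGroup 2)).range.Normal := by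
    constructor
    rintro _ ⟨g, rfl⟩ α
    exact ⟨α g, (hconj α g).symm⟩
  refine klein_embed (MulAut.conj : QuaternionGroup 2 →* MulAut (QuaternionGroup 2)).range ?_ ?_ ?_ ?_
  · have h1 := (MulAut.conj : QuaternionGroup 2 →* MulAut (QuaternionGroup 2)).ker.card_mul_index
    rw [Subgroup.index_ker] at h1
    have h2 : Nat.card (MulAut.conj : QuaternionGroup 2 →* MulAut (QuaternionGroup 2)).ker =
        Nat.card {s : QuaternionGroup 2 // s = 1 ∨ s = QuaternionGroup.a 2} := by
      apply Nat.card_congr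
      apply Equiv.subtypeEquivRight
      intro s
      rw [← q8_conj_ne, MonoidHom.mem_ker]
      constructor
      · intro h g
        exact DFunLike.congr_fun h g
      · intro h
        ext g
        exact h g
    have h3 : Nat.card {s : QuaternionGroup 2 // s = 1 ∨ s = QuaternionGroup.a 2} = 2 := by
      rw [Nat.card_eq_fintype_card]
      decide
    have h4 : Nat.card (QuaternionGroup 2) = 8 := by
      rw [Nat.card_eq_fintype_card, QuaternionGroup.card]
    rw [h2, h3, h4] at h1
    omega
  · rintro _ ⟨g, rfl⟩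
    ext x
    exact q8_sq g x
  · intro α hα
    rw [Subgroup.mem_centralizer_iff] at hα
    have h1 : ∀ g x, α g * x * (α g)⁻¹ = g * x * g⁻¹ := by
      intro g x
      have h2 := hα (MulAut.conj g) ⟨g, rfl⟩
      have h3 : MulAut.conj (α g) = MulAut.conj g := by
        rw [← hconj, ← h2]
        group
      exact DFunLike.congr_fun h3 x
    obtain ⟨g, hg1, hg2⟩ := q8_inner _ _ (q8_cen.1 _ (h1 (QuaternionGroup.a 1)))
      (q8_cen.2 _ (h1 (QuaternionGroup.xa 0)))
    refine ⟨g, ?_⟩
    have hg1' : MulAut.conj g (QuaternionGroup.a 1) = α (QuaternionGroup.a 1) := hg1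
    have hg2' : MulAut.conj g (QuaternionGroup.xa 0) = α (QuaternionGroup.xa 0) := hg2
    ext x
    obtain ⟨k, hk | hk⟩ := q8_gen x
    · rw [hk, map_pow, map_pow, hg1']
    · rw [hk, map_mul, map_mul, map_pow, map_pow, hg1', hg2']
  · have h1 : orderOf aut8 = 3 := by
      haveI : Fact (Nat.Prime 3) := ⟨Nat.prime_three⟩
      apply orderOf_eq_prime
      · ext x
        exact sg8_3 x
      · intro h
        have h2 : sg8 (QuaternionGroup.a 1) = QuaternionGroup.a 1 :=
          DFunLike.congr_fun h (QuaternionGroup.a 1)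
        exact absurd h2 (by decide)
    rw [← h1]
    exact orderOf_dvd_natCard _

end Pool.Agent.SHAF
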