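import Mathlib
import Pool.Agent.SHAF.ListAut1

set_option autoImplicit false

/-!
Automorphism groups of the symmetric and alternating group of degree 4.
-/

namespace Pool.Agent.SHAF

open Pool.Agent.SHA

/-- automorphisms that are trivial on `N` and modulo `N` are inner -/
lemma inner_of {G : Type} [Group G] (N : Subgroup G) [hN : N.Normal] [Finite N]
    (x : G) (hx : ∀ n ∈ N, x * n = n * x → n = 1)
    (hcx : ∀ y : G, ∃ n ∈ N, ∃ k : ℤ, y * x * y⁻¹ = n * x ^ k)
    (hab : ∀ a ∈ N, ∀ b ∈ N, a * b = b * a)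
    (α : MulAut G) (h1 : ∀ n ∈ N, α n = n) (h2 : ∀ g, α g * g⁻¹ ∈ N) :
    ∃ n ∈ N, α = MulAut.conj n := by
  have hmem : ∀ n : N, (n : G) * (x * (n : G)⁻¹ * x⁻¹) ∈ N := fun n =>
    N.mul_mem n.2 (hN.conj_mem _ (N.inv_mem n.2) x)
  have hinj : Function.Injective (fun n : N => (⟨_, hmem n⟩ : N)) := by
    intro n m hnm
    have h3 : (n : G) * (x * (n : G)⁻¹ * x⁻¹) = (m : G) * (x * (m : G)⁻¹ * x⁻¹) :=
      congrArg Subtype.val hnm
    have h4 : (m : G)⁻¹ * n = 1 := by
      apply hx _ (N.mul_mem (N.inv_mem m.2) n.2)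
      have h5 := congrArg (fun y => (m : G)⁻¹ * y * x * n) h3
      simp only [mul_assoc, inv_mul_cancel_left, inv_mul_cancel, mul_one] at h5
      rw [mul_assoc, h5]
    exact Subtype.ext (inv_mul_eq_one.mp h4).symm
  obtain ⟨n, hn⟩ := (Finite.injective_iff_surjective.mp hinj) ⟨_, h2 x⟩
  have hn' : (n : G) * (x * (n : G)⁻¹ * x⁻¹) = α x * x⁻¹ := congrArg Subtype.val hn
  have hαx : α x = n * x * (n : G)⁻¹ := by
    have h3 := congrArg (· * x) hn'
    simp only [mul_assoc, inv_mul_cancel, mul_one] at h3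
    rw [← h3, mul_assoc]
  refine ⟨n, n.2, ?_⟩
  -- the corrected automorphism
  set β : MulAut G := (MulAut.conj (n : G))⁻¹ * α with hβ
  have hβa : ∀ y, β y = (n : G)⁻¹ * α y * n := fun y => rfl
  have hβx : β x = x := by
    rw [hβa, hαx]
    group
  have hβN : ∀ m ∈ N, β m = m := by
    intro m hm
    rw [hβa, h1 m hm, mul_assoc, hab m hm n n.2, inv_mul_cancel_left]
  have hβ1 : ∀ y, β y = y := by
    intro y
    have hw : β y * y⁻¹ ∈ N := by
      have h3 : β y * y⁻¹ = (n : G)⁻¹ * (α y * y⁻¹) * (y * n * y⁻¹) := by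
        rw [hβa]
        group
      rw [h3]
      exact N.mul_mem (N.mul_mem (N.inv_mem n.2) (h2 y)) (hN.conj_mem _ n.2 y)
    obtain ⟨m, hm, k, hk⟩ := hcx y
    have h3 : β (y * x * y⁻¹) = y * x * y⁻¹ := by
      rw [hk, map_mul, map_zpow, hβx, hβN m hm]
    rw [map_mul, map_mul, map_inv, hβx] at h3
    have h4 : y⁻¹ * (β y * y⁻¹) * y = 1 := by
      have h6 : y⁻¹ * (β y * y⁻¹) * y ∈ N := by
        have := hN.conj_mem _ hw y⁻¹
        rwa [inv_inv] at this
      apply hx _ h6
      have h5 := congrArg (fun z => y⁻¹ * z * β y) h3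
      simp only [mul_assoc, inv_mul_cancel, mul_one, inv_mul_cancel_left] at h5
      calc x * (y⁻¹ * (β y * y⁻¹) * y) = x * (y⁻¹ * β y) := by group
        _ = y⁻¹ * (β y * x) := h5.symm
        _ = y⁻¹ * (β y * y⁻¹) * y * x := by group
    have h7 := congrArg (fun z => y * z) h4
    simp only [mul_one] at h7
    calc β y = y * (y⁻¹ * (β y * y⁻¹) * y) := by group
      _ = y := h7
  have hβe : β = 1 := MulEquiv.ext hβ1
  rw [hβ] at hβe
  exact (inv_mul_eq_one.mp hβe).symm

theorem aut_klein {G : Type} [Group G] [Finite G] (V : Subgroup G) [hV : V.Normal]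
    (hchar : ∀ (α : MulAut G), ∀ v ∈ V, α v ∈ V)
    (h4 : Nat.card V = 4) (h2 : ∀ v ∈ V, v * v = 1)
    (hC : Subgroup.centralizer (V : Set G) ≤ V) (x : G) (hx : ∀ n ∈ V, x * n = n * x → n = 1)
    (hcx : ∀ y : G, ∃ n ∈ V, ∃ k : ℤ, y * x * y⁻¹ = n * x ^ k) (h3 : orderOf x = 3) :
    ∃ f : MulAut G →* Equiv.Perm (Fin 4), Function.Injective f := by
  have hconj : ∀ (α : MulAut G) (g : G), α * MulAut.conj g * α⁻¹ = MulAut.conj (α g) := by
    intro α g
    ext y
    change α (g * α.symm y * g⁻¹) = α g * y * (α g)⁻¹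
    rw [map_mul, map_mul, map_inv, MulEquiv.apply_symm_apply]
  have hab : ∀ a ∈ V, ∀ b ∈ V, a * b = b * a := by
    intro a ha b hb
    have ha1 := h2 a ha
    have hb1 := h2 b hb
    have hab1 := h2 _ (V.mul_mem ha hb)
    have e1 : a⁻¹ = a := inv_eq_of_mul_eq_one_left ha1
    have e2 : b⁻¹ = b := inv_eq_of_mul_eq_one_left hb1
    have e3 : (a * b)⁻¹ = a * b := inv_eq_of_mul_eq_one_left hab1
    rw [← e3, mul_inv_rev, e1, e2]
  have hinj : Function.Injective (MulAut.conj : G →* MulAut G) := by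
    rw [injective_iff_map_eq_one]
    intro z hz
    have h5 : ∀ y, z * y * z⁻¹ = y := fun y => DFunLike.congr_fun hz y
    have hzV : z ∈ V := by
      apply hC
      rw [Subgroup.mem_centralizer_iff]
      intro v _
      exact (mul_inv_eq_iff_eq_mul.mp (h5 v)).symm
    exact hx z hzV (mul_inv_eq_iff_eq_mul.mp (h5 x)).symm
  haveI hn : (V.map (MulAut.conj : G →* MulAut G)).Normal := by
    constructor
    rintro _ ⟨v, hv, rfl⟩ α
    exact ⟨α v, hchar α v hv, (hconj α v).symm⟩
  refine klein_embed (V.map (MulAut.conj : G →* MulAut G)) ?_ ?_ ?_ ?_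
  · rw [← h4]
    exact (Nat.card_congr (V.equivMapOfInjective _ hinj).toEquiv).symm
  · rintro _ ⟨v, hv, rfl⟩
    rw [← map_mul, h2 v hv, map_one]
  · intro α hα
    rw [Subgroup.mem_centralizer_iff] at hα
    have h1 : ∀ v ∈ V, α v = v := by
      intro v hv
      apply hinj
      have h5 := hα (MulAut.conj v) ⟨v, hv, rfl⟩
      rw [← hconj, ← h5]
      group
    have h6 : ∀ g, α g * g⁻¹ ∈ V := by
      intro g
      have h7 : g⁻¹ * α g ∈ V := by
        apply hC
        rw [Subgroup.mem_centralizer_iff]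
        intro v hv
        have h8 := h1 _ (hV.conj_mem v hv g)
        rw [map_mul, map_mul, map_inv, h1 v hv] at h8
        have h9 := congrArg (fun y => g⁻¹ * y * α g) h8
        simp only [mul_assoc, inv_mul_cancel, mul_one, inv_mul_cancel_left] at h9
        rw [mul_assoc, h9]
      have h8 := hV.conj_mem _ h7 g
      have h9 : g * (g⁻¹ * α g) * g⁻¹ = α g * g⁻¹ := by group
      rwa [h9] at h8
    obtain ⟨n, hn, rfl⟩ := inner_of V x hx hcx hab α h1 h6
    exact ⟨n, hn, rfl⟩
  · rw [← h3, ← orderOf_injective _ hinj x]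
    exact orderOf_dvd_natCard _

/-- involutions (or 1) commuting with all their conjugates -/
def KV {G : Type} [Group G] (v : G) : Prop :=
  v * v = 1 ∧ ∀ g : G, v * (g * v * g⁻¹) = g * v * g⁻¹ * v

theorem aut_kv {G : Type} [Group G] [Finite G] (hmul : ∀ u v : G, KV u → KV v → KV (u * v))
    (hcard : Nat.card {v : G // KV v} = 4) (hC : ∀ g : G, (∀ v, KV v → v * g = g * v) → KV g)
    (x : G) (hx3 : orderOf x = 3) (hx : ∀ n : G, KV n → x * n = n * x → n = 1)
    (hcx : ∀ y : G, ∃ n, KV n ∧ ∃ k : Fin 3, y * x * y⁻¹ = n * x ^ k.val) :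
    ∃ f : MulAut G →* Equiv.Perm (Fin 4), Function.Injective f := by
  have hinv : ∀ (α : MulAut G) (v : G), KV v → KV (α v) := by
    rintro α v ⟨h1, h2⟩
    refine ⟨by rw [← map_mul, h1, map_one], fun g => ?_⟩
    apply α.symm.injective
    simp only [map_mul, map_inv, MulEquiv.symm_apply_apply]
    exact h2 (α.symm g)
  let V : Subgroup G :=
    { carrier := {v | KV v}
      mul_mem' := fun {a b} ha hb => hmul a b ha hb
      one_mem' := ⟨one_mul 1, fun g => by simp⟩
      inv_mem' := by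
        rintro v ⟨h1, h2⟩
        have e1 : v⁻¹ = v := inv_eq_of_mul_eq_one_left h1
        change KV v⁻¹
        rw [e1]
        exact ⟨h1, h2⟩ }
  haveI hVn : V.Normal := by
    constructor
    intro v hv g
    exact hinv (MulAut.conj g) v hv
  refine aut_klein V (fun α v hv => hinv α v hv) hcard (fun v hv => hv.1) ?_ x (fun n hn => hx n hn)
    ?_ hx3
  · intro g hg
    rw [Subgroup.mem_centralizer_iff] at hg
    exact hC g (fun v hv => hg v hv)
  · intro y
    obtain ⟨n, hn, k, hk⟩ := hcx y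
    exact ⟨n, hn, (k.val : ℤ), by rw [hk, zpow_natCast]⟩

instance {G : Type} [Group G] [Fintype G] [DecidableEq G] (v : G) : Decidable (KV v) :=
  inferInstanceAs (Decidable (v * v = 1 ∧ ∀ g : G, v * (g * v * g⁻¹) = g * v * g⁻¹ * v))

/-- a cycle of length three -/
def c3 : Equiv.Perm (Fin 4) := Equiv.swap 0 1 * Equiv.swap 1 2

lemma aut_s4 : SolList (MulAut (Equiv.Perm (Fin 4))) := by
  apply perm4_sol
  refine aut_kv ?_ ?_ ?_ c3 ?_ ?_ ?_
  · decide +kernel
  · rw [Nat.card_eq_fintype_card]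
    decide +kernel
  · decide +kernel
  · haveI : Fact (Nat.Prime 3) := ⟨Nat.prime_three⟩
    exact orderOf_eq_prime (by decide) (by decide)
  · decide +kernel
  · decide +kernel

lemma aut_a4 : SolList (MulAut (alternatingGroup (Fin 4))) := by
  apply perm4_sol
  refine aut_kv ?_ ?_ ?_ ⟨c3, Equiv.Perm.mem_alternatingGroup.mpr (by decide)⟩ ?_ ?_ ?_
  · decide +kernel
  · rw [Nat.card_eq_fintype_card]
    decide +kernel
  · decide +kernel
  · haveI : Fact (Nat.Prime 3) := ⟨Nat.prime_three⟩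
    exact orderOf_eq_prime (by decide) (by decide)
  · decide +kernel
  · decide +kernel

end Pool.Agent.SHAF
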