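import Mathlib
import Pool.Agent.SHAF.ListAut2

set_option autoImplicit false

/-!
Automorphism groups of the metabelian groups in the list.
-/

namespace Pool.Agent.SHAF

open Pool.Agent.SHA

section gam

variable {M : Type} [CommGroup M] [Finite M] (C : Subgroup M)

lemma card_two_eq (h2 : Nat.card C = 2) {a b : M} (ha : a ∈ C) (hb : b ∈ C) (ha1 : a ≠ 1)
    (hb1 : b ≠ 1) : a = b := by
  classical
  by_contra hab
  haveI : Fintype C := Fintype.ofFinite _
  have h10 : ({1, ⟨a, ha⟩, ⟨b, hb⟩} : Finset C).card = 3 := by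
    rw [Finset.card_eq_three]
    exact ⟨1, ⟨a, ha⟩, ⟨b, hb⟩, fun h => ha1 (congrArg Subtype.val h).symm,
      fun h => hb1 (congrArg Subtype.val h).symm, fun h => hab (congrArg Subtype.val h), rfl⟩
  have h11 := Finset.card_le_univ ({1, ⟨a, ha⟩, ⟨b, hb⟩} : Finset C)
  rw [h10, ← Nat.card_eq_fintype_card, h2] at h11
  omega

lemma gam_maps (ζ : M →* M) (hC : ∀ m, ζ m * m⁻¹ ∈ C) {u : M} (hu : u ∈ C) : ζ u ∈ C := by
  have h1 := C.mul_mem (hC u) hu
  rwa [inv_mul_cancel_right] at h1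

lemma gam_fix {d : ℕ} (hd : ∀ m : M, m ^ d ∈ C) (ζ : M →* M) (hC : ∀ m, ζ m * m⁻¹ ∈ C)
    (hfix : ∀ u ∈ C, ζ u = u) (hcop : (Nat.card C).Coprime d) (m : M) : ζ m = m := by
  have h1 : (ζ m * m⁻¹) ^ d = 1 := by
    rw [mul_pow, ← map_pow, hfix _ (hd m), inv_pow, mul_inv_cancel]
  have h2 : orderOf (ζ m * m⁻¹) ∣ Nat.card C := Subgroup.orderOf_dvd_natCard C (hC m)
  have h3 : orderOf (ζ m * m⁻¹) ∣ d := orderOf_dvd_of_pow_eq_one h1
  have h4 : orderOf (ζ m * m⁻¹) = 1 := Nat.Coprime.eq_one_of_dvd (hcop.coprime_dvd_left h2) h3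
  exact mul_inv_eq_one.mp (orderOf_eq_one_iff.mp h4)

lemma gam_fix2 (h2 : Nat.card C = 2) (ζ : M →* M) (hζ : Function.Injective ζ)
    (hC : ∀ m, ζ m * m⁻¹ ∈ C) {u : M} (hu : u ∈ C) : ζ u = u := by
  by_cases h1 : u = 1
  · rw [h1, map_one]
  · refine card_two_eq C h2 (gam_maps C ζ hC hu) hu ?_ h1
    intro h
    exact h1 (hζ (by rw [h, map_one]))

lemma gam_triv {d : ℕ} (hd : ∀ m : M, m ^ d ∈ C) (ζ : M →* M) (hζ : Function.Injective ζ)
    (hC : ∀ m, ζ m * m⁻¹ ∈ C) (h : Nat.card C = 1 ∨ (Nat.card C = 2 ∧ d % 2 = 1)) (m : M) :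
    ζ m = m := by
  rcases h with h | ⟨h, hodd⟩
  · have h1 := hC m
    rw [Subgroup.card_eq_one.mp h, Subgroup.mem_bot] at h1
    exact mul_inv_eq_one.mp h1
  · refine gam_fix C hd ζ hC (fun u hu => gam_fix2 C h ζ hζ hC hu) ?_ m
    rw [h]
    exact Nat.coprime_two_left.mpr (Nat.odd_iff.mpr hodd)

lemma gam_two (h2 : Nat.card C = 2) (h0 : M) (hgen : ∀ m : M, ∃ k : ℤ, m * h0 ^ k ∈ C)
    (ζ ξ : M →* M) (hζ : Function.Injective ζ) (hξ : Function.Injective ξ)
    (hC : ∀ m, ζ m * m⁻¹ ∈ C) (hC' : ∀ m, ξ m * m⁻¹ ∈ C) (h1 : ∃ m, ζ m ≠ m)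
    (h1' : ∃ m, ξ m ≠ m) (m : M) : ζ (ξ m) = m := by
  have key : ∀ (ζ : M →* M), (∀ u ∈ C, ζ u = u) → ζ h0 = h0 → ∀ m, ζ m = m := by
    intro ζ hfix h m
    obtain ⟨k, hk⟩ := hgen m
    have h3 := hfix _ hk
    rw [map_mul, map_zpow, h] at h3
    exact mul_right_cancel h3
  have hne : ∀ (ζ : M →* M), Function.Injective ζ → (∀ m, ζ m * m⁻¹ ∈ C) → (∃ m, ζ m ≠ m) →
      ζ h0 * h0⁻¹ ≠ 1 := by
    rintro ζ hζ hC ⟨m, hm⟩ h
    exact hm (key ζ (fun u hu => gam_fix2 C h2 ζ hζ hC hu) (mul_inv_eq_one.mp h) m)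
  have ha := hne ζ hζ hC h1
  have hb := hne ξ hξ hC' h1'
  have hab := card_two_eq C h2 (hC h0) (hC' h0) ha hb
  have hsq : (ζ h0 * h0⁻¹) * (ζ h0 * h0⁻¹) = 1 := by
    have h3 : (⟨_, hC h0⟩ : C) ^ Nat.card C = 1 := pow_card_eq_one'
    rw [h2, pow_two] at h3
    exact congrArg Subtype.val h3
  refine key (ζ.comp ξ) ?_ ?_ m
  · intro u hu
    rw [MonoidHom.comp_apply, gam_fix2 C h2 ξ hξ hC' hu, gam_fix2 C h2 ζ hζ hC hu]
  · rw [MonoidHom.comp_apply]
    have h3 : ξ h0 = (ξ h0 * h0⁻¹) * h0 := by rw [inv_mul_cancel_right]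
    rw [h3, map_mul, gam_fix2 C h2 ζ hζ hC (hC' h0), ← hab]
    have h4 : ζ h0 = (ζ h0 * h0⁻¹) * h0 := by rw [inv_mul_cancel_right]
    calc ζ h0 * h0⁻¹ * ζ h0 = ζ h0 * h0⁻¹ * ((ζ h0 * h0⁻¹) * h0) := by rw [inv_mul_cancel_right]
      _ = (ζ h0 * h0⁻¹) * (ζ h0 * h0⁻¹) * h0 := (mul_assoc _ _ _).symm
      _ = h0 := by rw [hsq, one_mul]

lemma gam_two' {d : ℕ} (hd : ∀ m : M, m ^ d ∈ C) (hcop : (Nat.card C).Coprime d)
    (h34 : Nat.card C = 3 ∨ Nat.card C = 4) (hcyc : IsCyclic C)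
    (ζ ξ : M →* M) (hζ : Function.Injective ζ) (hξ : Function.Injective ξ)
    (hC : ∀ m, ζ m * m⁻¹ ∈ C) (hC' : ∀ m, ξ m * m⁻¹ ∈ C) (h1 : ∃ m, ζ m ≠ m)
    (h1' : ∃ m, ξ m ≠ m) (m : M) : ζ (ξ m) = m := by
  obtain ⟨u, hu⟩ := IsCyclic.exists_ofOrder_eq_natCard (α := C)
  have huo : orderOf (u : M) = Nat.card C := by rw [Subgroup.orderOf_coe, hu]
  have hgen : ∀ v ∈ C, ∃ j < Nat.card C, v = (u : M) ^ j := by
    intro v hv
    have h3 : (⟨v, hv⟩ : C) ∈ Subgroup.zpowers u := by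
      have : Subgroup.zpowers u = ⊤ := by
        apply Subgroup.eq_top_of_card_eq
        rw [Nat.card_zpowers, hu]
      rw [this]
      exact Subgroup.mem_top _
    have h4 : (⟨v, hv⟩ : C) ∈ Submonoid.powers u := by rwa [mem_powers_iff_mem_zpowers]
    classical
    rw [mem_powers_iff_mem_range_orderOf, Finset.mem_image] at h4
    obtain ⟨k, hk1, hk2⟩ := h4
    rw [Finset.mem_range, hu] at hk1
    exact ⟨k, hk1, (congrArg Subtype.val hk2).symm⟩
  have hfixall : ∀ (ζ : M →* M), ζ u = u → ∀ v ∈ C, ζ v = v := by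
    intro ζ h v hv
    obtain ⟨j, _, rfl⟩ := hgen v hv
    rw [map_pow, h]
  have hinv : ∀ (ζ : M →* M), Function.Injective ζ → (∀ m, ζ m * m⁻¹ ∈ C) → (∃ m, ζ m ≠ m) →
      ζ u = (u : M)⁻¹ := by
    rintro ζ hζ hC ⟨m, hm⟩
    have hne : ζ u ≠ u := fun h => hm (gam_fix C hd ζ hC (hfixall ζ h) hcop m)
    obtain ⟨j, hj, hju⟩ := hgen _ (gam_maps C ζ hC u.2)
    have ho : orderOf (ζ u) = Nat.card C := by rw [orderOf_injective ζ hζ, huo]
    have huc : (u : M) ^ Nat.card C = 1 := by rw [← huo, pow_orderOf_eq_one]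
    have hj1 : j ≠ 1 := by
      rintro rfl
      rw [pow_one] at hju
      exact hne hju
    have hj0 : j ≠ 0 := by
      rintro rfl
      rw [pow_zero] at hju
      rw [hju, orderOf_one] at ho
      omega
    have hj2 : j = 2 → Nat.card C = 3 := by
      rintro rfl
      rcases h34 with h3 | h3
      · exact h3
      · exfalso
        have h5 : (ζ u) ^ 2 = 1 := by
          rw [hju, ← pow_mul]
          rw [h3] at huc
          exact huc
        have h6 := orderOf_dvd_of_pow_eq_one h5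
        rw [ho, h3] at h6
        norm_num at h6
    have hlast : j + 1 = Nat.card C := by
      rcases h34 with h3 | h3
      · omega
      · by_contra h5
        have : j = 2 := by omega
        have := hj2 this
        omega
    rw [hju, eq_inv_iff_mul_eq_one, ← pow_succ, hlast, huc]
  have ha := hinv ζ hζ hC h1
  have hb := hinv ξ hξ hC' h1'
  refine gam_fix C hd (ζ.comp ξ) ?_ (hfixall (ζ.comp ξ) ?_) hcop m
  · intro m
    have h3 := C.mul_mem (hC (ξ m)) (hC' m)
    have h4 : ζ (ξ m) * (ξ m)⁻¹ * (ξ m * m⁻¹) = ζ (ξ m) * m⁻¹ := by group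
    rw [h4] at h3
    exact h3
  · rw [MonoidHom.comp_apply, hb, map_inv, ha, inv_inv]

end gam

lemma card_map_of_disj {G Q : Type} [Group G] [Group Q] (f : G →* Q) (N : Subgroup G)
    (h : ∀ n ∈ N, f n = 1 → n = 1) : Nat.card (N.map f) = Nat.card N := by
  symm
  refine Nat.card_congr (Equiv.ofBijective (fun n : N => (⟨f n, n, n.2, rfl⟩ : N.map f)) ⟨?_, ?_⟩)
  · intro a b hab
    have h5 : f a = f b := congrArg Subtype.val hab
    have h6 : f ((a : G) * (b : G)⁻¹) = 1 := by rw [map_mul, map_inv, h5, mul_inv_cancel]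
    have h7 := h _ (N.mul_mem a.2 (N.inv_mem b.2)) h6
    exact Subtype.ext (mul_inv_eq_one.mp h7)
  · rintro ⟨_, n, hn, rfl⟩
    exact ⟨⟨n, hn⟩, rfl⟩

theorem meta_aut {G : Type} [Group G] (h : MetaList G) : MetaList (MulAut G) := by
  classical
  obtain ⟨q, c, d, N, H, hq, hN, hNc, hcompl, hH, hHC, hHc, hd, hP, h4⟩ := h
  obtain ⟨p, hpk, hps⟩ := compl_proj N H hcompl
  have hc0 : 0 < c := by
    have := params_c hP
    omega
  have h1 := compl_card hq N H hNc hcompl
  rw [hHC, hHc] at h1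
  have hDi : (Subgroup.centralizer (N : Set G)).index = d := Nat.eq_of_mul_eq_mul_left hc0 h1
  have hGc : Nat.card G = q * c * d := by
    rw [← hcompl.card_mul_card, hNc, hHc, mul_assoc]
  haveI : Finite G := Nat.finite_of_card_ne_zero (by
    rw [hGc]
    exact Nat.mul_ne_zero (Nat.mul_ne_zero hq.ne_zero (by omega)) (by omega))
  haveI : Fact q.Prime := ⟨hq⟩
  obtain ⟨hAc, hAn⟩ := mulAut_prime_cyc hq hNc
  have hdq : d ∣ q - 1 := hDi ▸ idx_dvd hq N hNc
  have hqcd : ¬ q ∣ c * d := by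
    intro h
    rcases (Nat.Prime.dvd_mul hq).mp h with h | h
    · exact params_coprime hP hq h
    · have h2 := hq.two_le
      have := Nat.le_of_dvd (by omega) (h.trans hdq)
      omega
  have hab : ∀ a ∈ N, ∀ b ∈ N, a * b = b * a := fun a ha b hb =>
    (Subgroup.mem_centralizer_iff.mp (cent_le hq N hNc hb)) a ha
  have hpN : ∀ g, p g = 1 ↔ g ∈ N := by
    intro g
    rw [← hpk, MonoidHom.mem_ker]
  -- N is characteristic
  have hchar : ∀ (α : MulAut G), ∀ n ∈ N, α n ∈ N := by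
    intro α n hn
    rw [← hpN]
    have h5 : orderOf (p (α n)) ∣ q := by
      have h6 : orderOf (α n) ∣ q := by
        have : orderOf (α n) = orderOf n := orderOf_injective α.toMonoidHom α.injective n
        rw [this, ← hNc]
        exact Subgroup.orderOf_dvd_natCard N hn
      exact (orderOf_map_dvd p _).trans h6
    have h6 : orderOf (p (α n)) ∣ c * d := hHc ▸ orderOf_dvd_natCard _
    rw [← orderOf_eq_one_iff]
    exact Nat.Coprime.eq_one_of_dvd
      (((Nat.Prime.coprime_iff_not_dvd hq).mpr hqcd).coprime_dvd_left h5) h6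
  have hchar' : ∀ (α : MulAut G) (g : G), α g ∈ N → g ∈ N := by
    intro α g hg
    have h5 := hchar α.symm _ hg
    rwa [MulEquiv.symm_apply_apply] at h5
  have hconj : ∀ (α : MulAut G) (g : G), α * MulAut.conj g * α⁻¹ = MulAut.conj (α g) := by
    intro α g
    ext y
    change α (g * α.symm y * g⁻¹) = α g * y * (α g)⁻¹
    rw [map_mul, map_mul, map_inv, MulEquiv.apply_symm_apply]
  -- an element outside the centraliser
  obtain ⟨h0, hh0⟩ : ∃ h0 : G, h0 ∉ Subgroup.centralizer (N : Set G) := by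
    by_contra hcon
    push Not at hcon
    have h5 : Subgroup.centralizer (N : Set G) = ⊤ := (Subgroup.eq_top_iff' _).mpr hcon
    rw [h5, Subgroup.index_top] at hDi
    omega
  have hx : ∀ n ∈ N, h0 * n = n * h0 → n = 1 := by
    intro n hn hn1
    by_contra hne
    apply hh0
    have h5 : N ≤ Subgroup.centralizer {h0} := by
      have h6 : Subgroup.zpowers n = N := by
        apply Subgroup.eq_of_le_of_card_ge (by rwa [Subgroup.zpowers_le])
        rw [Nat.card_zpowers, hNc]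
        have h7 := Subgroup.orderOf_dvd_natCard N hn
        rw [hNc] at h7
        rcases (Nat.dvd_prime hq).mp h7 with h8 | h8
        · exact absurd (orderOf_eq_one_iff.mp h8) hne
        · exact h8.ge
      rw [← h6, Subgroup.zpowers_le, Subgroup.mem_centralizer_singleton_iff]
      exact hn1.symm
    rw [Subgroup.mem_centralizer_iff]
    intro y hy
    exact Subgroup.mem_centralizer_singleton_iff.mp (h5 hy)
  have hcomm : ∀ x y : G, x * y * x⁻¹ * y⁻¹ ∈ N := by
    intro x y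
    rw [← hpN, map_mul, map_mul, map_mul, map_inv, map_inv]
    have h5 : p x * p y = p y * p x := Subtype.ext (hH _ (p x).2 _ (p y).2)
    rw [h5, mul_inv_cancel_right, mul_inv_cancel]
  have hcx : ∀ y : G, ∃ n ∈ N, ∃ k : ℤ, y * h0 * y⁻¹ = n * h0 ^ k := by
    intro y
    exact ⟨_, hcomm y h0, 1, by rw [zpow_one, inv_mul_cancel_right]⟩
  have hconjinj : ∀ n ∈ N, (MulAut.conj : G →* MulAut G) n = 1 → n = 1 := by
    intro n hn hn1
    apply hx n hn
    have h5 : n * h0 * n⁻¹ = h0 := DFunLike.congr_fun hn1 h0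
    exact (mul_inv_eq_iff_eq_mul.mp h5).symm
  set NA : Subgroup (MulAut G) := N.map (MulAut.conj : G →* MulAut G) with hNA
  have hNAc : Nat.card NA = q := by
    rw [← hNc]
    exact card_map_of_disj _ N hconjinj
  haveI hNAn : NA.Normal := by
    constructor
    rintro _ ⟨v, hv, rfl⟩ α
    exact ⟨α v, hchar α v hv, (hconj α v).symm⟩
  -- restriction to N
  let ρ : MulAut G →* MulAut N :=
    { toFun := fun α =>
        { toFun := fun n => ⟨α n, hchar α n n.2⟩
          invFun := fun n => ⟨α.symm n, hchar α.symm n n.2⟩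
          left_inv := fun n => by simp
          right_inv := fun n => by simp
          map_mul' := fun a b => Subtype.ext (by simp) }
      map_one' := rfl
      map_mul' := fun _ _ => rfl }
  set B := Subgroup.centralizer (NA : Set (MulAut G)) with hB
  have hBmem : ∀ α, α ∈ B ↔ ∀ n ∈ N, α n = n := by
    intro α
    rw [hB, Subgroup.mem_centralizer_iff]
    constructor
    · intro h n hn
      have h5 := h (MulAut.conj n) ⟨n, hn, rfl⟩
      have h6 : MulAut.conj (α n) = MulAut.conj n := by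
        rw [← hconj, ← h5]
        group
      have h7 : MulAut.conj (α n * n⁻¹) = 1 := by rw [map_mul, h6, ← map_mul, mul_inv_cancel, map_one]
      exact mul_inv_eq_one.mp (hconjinj _ (N.mul_mem (hchar α n hn) (N.inv_mem hn)) h7)
    · rintro h _ ⟨n, hn, rfl⟩
      have h5 := hconj α n
      rw [h n hn] at h5
      exact (mul_inv_eq_iff_eq_mul.mp h5).symm
  have hBker : B = ρ.ker := by
    ext α
    rw [hBmem, MonoidHom.mem_ker]
    constructor
    · intro h
      ext n
      exact h n n.2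
    · intro h n hn
      exact congrArg Subtype.val (DFunLike.congr_fun h ⟨n, hn⟩)
  have hNAB : NA ≤ B := cent_le hq NA hNAc
  -- the induced maps on H
  letI hcg : CommGroup H := { (inferInstance : Group H) with
    mul_comm := fun x y => Subtype.ext (hH x x.2 y y.2) }
  let bar : MulAut G → (H →* H) := fun α => (p.comp α.toMonoidHom).comp H.subtype
  have hpn : ∀ n ∈ N, p n = 1 := fun n hn => (hpN n).mpr hn
  have hpgen : ∀ x : H, ∀ y : H, p (x : G) = p (y : G) → x = y := by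
    intro x y hxy
    have h5 : (x : G) * (y : G)⁻¹ ∈ N := by
      rw [← hpN, map_mul, map_inv, hxy, mul_inv_cancel]
    have h6 := (Subgroup.disjoint_def.mp hcompl.disjoint) h5 (H.mul_mem x.2 (H.inv_mem y.2))
    exact Subtype.ext (mul_inv_eq_one.mp h6)
  let pH : H →* H := p.comp H.subtype
  have hpHinj : Function.Injective pH := fun x y hxy => hpgen x y hxy
  have hpHsurj : Function.Surjective pH := Finite.injective_iff_surjective.mp hpHinj
  -- choose for every g an element of H with the same image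
  have hrep : ∀ g : G, ∃ x : H, ∃ n ∈ N, g = n * x := by
    intro g
    obtain ⟨⟨n, x⟩, hnx⟩ := hcompl.2 g
    exact ⟨x, n, n.2, hnx.symm⟩
  set C : Subgroup H := (Subgroup.centralizer (N : Set G)).subgroupOf H with hCdef
  set C' : Subgroup H := C.map pH with hC'def
  have hCc : Nat.card C' = c := by
    rw [hC'def, ← Nat.card_congr (C.equivMapOfInjective pH hpHinj).toEquiv, ← hHC, inf_comm,
      ← Subgroup.subgroupOf_map_subtype]
    exact Nat.card_congr (Subgroup.equivMapOfInjective _ _ H.subtype_injective).toEquiv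
  have hpD : ∀ g ∈ Subgroup.centralizer (N : Set G), p g ∈ C' := by
    intro g hg
    obtain ⟨x, n, hn, rfl⟩ := hrep g
    rw [map_mul, hpn n hn, one_mul]
    refine ⟨x, ?_, rfl⟩
    rw [hCdef]
    change (x : G) ∈ Subgroup.centralizer (N : Set G)
    have h5 := (Subgroup.centralizer (N : Set G)).mul_mem
      ((Subgroup.centralizer (N : Set G)).inv_mem (cent_le hq N hNc hn)) hg
    rwa [inv_mul_cancel_left] at h5
  -- induced maps
  have hind : ∀ α : MulAut G, ∃ ζ : H →* H, (∀ g, ζ (p g) = p (α g)) ∧ Function.Injective ζ := by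
    intro α
    let ePH := MulEquiv.ofBijective pH ⟨hpHinj, hpHsurj⟩
    refine ⟨(bar α).comp ePH.symm.toMonoidHom, ?_, ?_⟩
    · intro g
      obtain ⟨x, n, hn, rfl⟩ := hrep g
      have h5 : p (n * x) = ePH x := by
        rw [map_mul, hpn n hn, one_mul]
        rfl
      rw [h5]
      change p (α ((ePH.symm (ePH x) : H) : G)) = _
      rw [MulEquiv.symm_apply_apply, map_mul α, map_mul p, hpn _ (hchar α n hn), one_mul]
    · rw [injective_iff_map_eq_one]
      intro y hy
      obtain ⟨x, rfl⟩ := ePH.surjective y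
      have h5 : p (α (x : G)) = 1 := by
        have h6 : p (α ((ePH.symm (ePH x) : H) : G)) = 1 := hy
        rwa [MulEquiv.symm_apply_apply] at h6
      rw [hpN] at h5
      have h6 : (x : G) ∈ N := hchar' α _ h5
      have h7 := (Subgroup.disjoint_def.mp hcompl.disjoint) h6 x.2
      have h8 : x = 1 := Subtype.ext h7
      rw [h8, map_one]
  have hBD : ∀ α ∈ B, ∀ g, α g * g⁻¹ ∈ Subgroup.centralizer (N : Set G) := by
    intro α hα g
    rw [hBmem] at hα
    have h7 : g⁻¹ * α g ∈ Subgroup.centralizer (N : Set G) := by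
      rw [Subgroup.mem_centralizer_iff]
      intro v hv
      have h8 := hα _ (hN.conj_mem v hv g)
      rw [map_mul, map_mul, map_inv, hα v hv] at h8
      have h9 := congrArg (fun y => g⁻¹ * y * α g) h8
      simp only [mul_assoc, inv_mul_cancel, mul_one, inv_mul_cancel_left] at h9
      rw [mul_assoc, h9]
    have h8 := (Subgroup.normal_centralizer (H := N)).conj_mem _ h7 g
    have h9 : g * (g⁻¹ * α g) * g⁻¹ = α g * g⁻¹ := by group
    rwa [h9] at h8
  have hinner : ∀ α ∈ B, (∀ g, p (α g) = p g) → α ∈ NA := by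
    intro α hα hg
    obtain ⟨n, hn, rfl⟩ := inner_of N h0 hx hcx hab α ((hBmem α).mp hα) (fun g => by
      rw [← hpN, map_mul, hg, ← map_mul, mul_inv_cancel, map_one])
    exact ⟨n, hn, rfl⟩
  have hζC : ∀ α ∈ B, ∀ ζ : H →* H, (∀ g, ζ (p g) = p (α g)) → ∀ m, ζ m * m⁻¹ ∈ C' := by
    intro α hα ζ hζ m
    obtain ⟨g, rfl⟩ := hps m
    rw [hζ, ← map_inv, ← map_mul]
    exact hpD _ (hBD α hα g)
  have hdC : ∀ m : H, m ^ d ∈ C' := by
    intro m
    obtain ⟨g, rfl⟩ := hps m
    rw [← map_pow]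
    apply hpD
    rw [← hDi]
    exact Subgroup.pow_index_mem _ g
  -- the dichotomy
  have hdich : B ≤ NA ∨ ((∀ α ∈ B, ∀ β ∈ B, α ∉ NA → β ∉ NA → α * β ∈ NA) ∧
      (q = 3 ∨ q = 5 ∨ q = 7)) := by
    have hne : ∀ α ∈ B, ∀ ζ : H →* H, (∀ g, ζ (p g) = p (α g)) → α ∉ NA → ∃ m, ζ m ≠ m := by
      intro α hα ζ hζ hαn
      by_contra hcon
      push Not at hcon
      exact hαn (hinner α hα (fun g => by rw [← hζ, hcon]))
    have htriv : (c = 1 ∨ (c = 2 ∧ d % 2 = 1)) → B ≤ NA := by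
      intro h5 α hα
      obtain ⟨ζ, hζ, hζi⟩ := hind α
      apply hinner α hα
      intro g
      rw [← hζ]
      exact gam_triv C' hdC ζ hζi (hζC α hα ζ hζ) (by rw [hCc]; exact h5) _
    have htwo : c = 2 → (∀ α ∈ B, ∀ β ∈ B, α ∉ NA → β ∉ NA → α * β ∈ NA) := by
      intro h5 α hα β hβ hαn hβn
      obtain ⟨ζ, hζ, hζi⟩ := hind α
      obtain ⟨ξ, hξ, hξi⟩ := hind β
      apply hinner _ (B.mul_mem hα hβ)
      intro g
      -- a generator modulo the centraliser
      let κ : G →* MulAut N := MulAut.conjNormal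
      obtain ⟨b, hb⟩ := IsCyclic.exists_generator (α := κ.range)
      obtain ⟨x, hx'⟩ := κ.rangeRestrict_surjective b
      have hgen : ∀ m : H, ∃ k : ℤ, m * (p x) ^ k ∈ C' := by
        intro m
        obtain ⟨y, rfl⟩ := hps m
        obtain ⟨k, hk⟩ := Subgroup.mem_zpowers_iff.mp (hb (κ.rangeRestrict y))
        refine ⟨-k, ?_⟩
        rw [← map_zpow, ← map_mul]
        apply hpD
        rw [cent_eq_ker]
        have h6 : κ.rangeRestrict (y * x ^ (-k)) = 1 := by
          rw [map_mul, map_zpow, hx', zpow_neg, hk, mul_inv_cancel]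
        exact congrArg Subtype.val h6
      change p (α (β g)) = p g
      rw [← hζ, ← hξ]
      exact gam_two C' (by rw [hCc, h5]) (p x) hgen ζ ξ hζi hξi (hζC α hα ζ hζ) (hζC β hβ ξ hξ)
        (hne α hα ζ hζ hαn) (hne β hβ ξ hξ hβn) _
    have hthr : (c = 3 ∨ c = 4) → c.Coprime d → IsCyclic C' →
        (∀ α ∈ B, ∀ β ∈ B, α ∉ NA → β ∉ NA → α * β ∈ NA) := by
      intro h5 hcop hcyc α hα β hβ hαn hβn
      obtain ⟨ζ, hζ, hζi⟩ := hind α
      obtain ⟨ξ, hξ, hξi⟩ := hind β
      apply hinner _ (B.mul_mem hα hβ)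
      intro g
      change p (α (β g)) = p g
      rw [← hζ, ← hξ]
      exact gam_two' C' hdC (by rw [hCc]; exact hcop) (by rw [hCc]; exact h5) hcyc ζ ξ hζi hξi
        (hζC α hα ζ hζ) (hζC β hβ ξ hξ) (hne α hα ζ hζ hαn) (hne β hβ ξ hξ hβn) _
    rcases hP with ⟨rfl, h⟩ | ⟨rfl, h, hd2⟩ | ⟨rfl, h⟩ | ⟨rfl, rfl, rfl⟩ | ⟨rfl, rfl⟩ |
      ⟨rfl, rfl, rfl⟩
    · exact Or.inl (htriv (Or.inl rfl))
    · exact Or.inl (htriv (Or.inr ⟨rfl, hd2⟩))
    · exact Or.inr ⟨htwo rfl, h⟩
    · haveI := h4 rfl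
      exact Or.inr ⟨hthr (Or.inr rfl) (by norm_num) inferInstance, by norm_num⟩
    · have h3 : IsCyclic C' := cyc_of_le3 (by rw [hCc])
      refine Or.inr ⟨hthr (Or.inl rfl) ?_ h3, by norm_num⟩
      exact Nat.Coprime.coprime_dvd_right hdq (by norm_num)
    · have h3 : IsCyclic C' := cyc_of_le3 (by rw [hCc])
      exact Or.inr ⟨hthr (Or.inl rfl) (by norm_num) h3, by norm_num⟩
  -- order of B
  have hBc : ∃ c', Nat.card B = q * c' ∧ (c' = 1 ∨ (c' = 2 ∧ (q = 3 ∨ q = 5 ∨ q = 7))) := by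
    by_cases hle : B ≤ NA
    · have : B = NA := le_antisymm hle hNAB
      exact ⟨1, by rw [this, hNAc, mul_one], Or.inl rfl⟩
    · rcases hdich with h5 | ⟨h5, h6⟩
      · exact absurd h5 hle
      · obtain ⟨a, haB, haN⟩ := SetLike.not_le_iff_exists.mp hle
        have h7 : NA.relIndex B = 2 := by
          rw [Subgroup.relIndex_eq_two_iff]
          refine ⟨a, haB, fun b hb => ?_⟩
          by_cases hbN : b ∈ NA
          · right
            refine ⟨hbN, fun h8 => haN ?_⟩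
            have h9 := NA.mul_mem (NA.inv_mem hbN) h8
            rwa [inv_mul_cancel_left] at h9
          · left
            exact ⟨h5 b hb a haB hbN haN, hbN⟩
        refine ⟨2, ?_, Or.inr ⟨rfl, h6⟩⟩
        have h8 := Subgroup.relIndex_mul_relIndex ⊥ NA B bot_le hNAB
        rw [Subgroup.relIndex_bot_left, Subgroup.relIndex_bot_left, hNAc, h7] at h8
        exact h8.symm
  obtain ⟨c', hBc, hc'⟩ := hBc
  have hBcen : ∀ α ∈ B, ∀ β : MulAut G, β * α * β⁻¹ * α⁻¹ ∈ NA := by
    intro α hα β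
    haveI hBn : B.Normal := by rw [hBker]; infer_instance
    by_cases hαN : α ∈ NA
    · exact NA.mul_mem (hNAn.conj_mem _ hαN β) (NA.inv_mem hαN)
    · rcases hdich with h5 | ⟨h5, _⟩
      · exact absurd (h5 hα) hαN
      · apply h5 _ (hBn.conj_mem _ hα β) _ (B.inv_mem hα)
        · intro h6
          have h7 := hNAn.conj_mem _ h6 β⁻¹
          have h8 : β⁻¹ * (β * α * β⁻¹) * β⁻¹⁻¹ = α := by group
          rw [h8] at h7
          exact hαN h7
        · intro h6
          exact hαN (inv_mem_iff.mp h6)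
  -- commutativity of the quotient
  let f : MulAut G ⧸ NA →* MulAut N := QuotientGroup.lift NA ρ (by
    intro α hα
    have : α ∈ B := hNAB hα
    rw [hBker] at this
    exact this)
  have hfk : f.ker ≤ Subgroup.center (MulAut G ⧸ NA) := by
    intro x hx
    obtain ⟨α, rfl⟩ := QuotientGroup.mk'_surjective NA x
    have hα : α ∈ B := by
      rw [hBker]
      exact hx
    rw [Subgroup.mem_center_iff]
    intro y
    obtain ⟨β, rfl⟩ := QuotientGroup.mk'_surjective NA y
    have h5 := (QuotientGroup.eq_one_iff (N := NA) _).mpr (hBcen α hα β)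
    have h6 : QuotientGroup.mk' NA β * QuotientGroup.mk' NA α * (QuotientGroup.mk' NA β)⁻¹ *
        (QuotientGroup.mk' NA α)⁻¹ = 1 := h5
    have h7 := mul_inv_eq_one.mp h6
    exact mul_inv_eq_iff_eq_mul.mp h7
  have hqc : ∀ x y : MulAut G ⧸ NA, x * y = y * x :=
    fun x y => commutative_of_cyclic_center_quotient f hfk x y
  letI hcg' : CommGroup (MulAut G ⧸ NA) :=
    { (inferInstance : Group (MulAut G ⧸ NA)) with mul_comm := hqc }
  have hBi : 1 < B.index := by
    have h5 : B.index ≠ 0 := Subgroup.index_ne_zero_of_finite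
    have h6 : B.index ≠ 1 := by
      intro h7
      rw [Subgroup.index_eq_one] at h7
      apply hh0
      rw [Subgroup.mem_centralizer_iff]
      intro n hn
      have h8 : MulAut.conj h0 ∈ B := h7 ▸ Subgroup.mem_top _
      rw [hBmem] at h8
      have h9 : h0 * n * h0⁻¹ = n := h8 n hn
      exact (mul_inv_eq_iff_eq_mul.mp h9).symm
    omega
  apply int_meta
  refine ⟨q, c', B.index, MulAut G ⧸ NA, hcg', QuotientGroup.mk' NA, hq, ?_, ?_, ?_, hBi, ?_, ?_⟩
  · rw [QuotientGroup.ker_mk', hNAc]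
  · rw [QuotientGroup.ker_mk', ← hB, hBc]
  · rw [← B.card_mul_index, hBc]
  · rcases hc' with h5 | ⟨h5, h6⟩
    · exact Or.inl ⟨h5, params_q hP⟩
    · exact Or.inr (Or.inr (Or.inl ⟨h5, h6⟩))
  · intro h5
    omega

end Pool.Agent.SHAF
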