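import Mathlib
import Pool.Agent.SHAF.ListAut3

set_option autoImplicit false

/-!
The list is closed under automorphism groups.
-/

namespace Pool.Agent.SHAF

open Pool.Agent.SHA

lemma perm4_ord8 {G : Type} [Group G] [Finite G] (f : G →* Equiv.Perm (Fin 4))
    (hf : Function.Injective f) (h8 : Nat.card G = 8) : Nonempty (G ≃* DihedralGroup 4) := by
  haveI : Fact (Nat.Prime 2) := ⟨Nat.prime_two⟩
  obtain ⟨g, hg⟩ := dih4_embed
  have hD : Nat.card (DihedralGroup 4) = 8 := by
    rw [Nat.card_eq_fintype_card, DihedralGroup.card]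
  have hrc : Nat.card f.range = 8 := by
    rw [← h8]
    exact (Nat.card_congr (MonoidHom.ofInjective hf).toEquiv).symm
  have hgc : Nat.card g.range = 8 := by
    rw [← hD]
    exact (Nat.card_congr (MonoidHom.ofInjective hg).toEquiv).symm
  have key : ∀ R : Subgroup (Equiv.Perm (Fin 4)), Nat.card R = 8 →
      ∃ P : Sylow 2 (Equiv.Perm (Fin 4)), (P : Subgroup (Equiv.Perm (Fin 4))) = R := by
    intro R hR
    have h1 : IsPGroup 2 R := IsPGroup.of_card (n := 3) (by rw [hR]; norm_num)
    have h2 : R.index = 3 := by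
      have := R.card_mul_index
      rw [hR, perm4_card] at this
      omega
    exact ⟨h1.toSylow (by rw [h2]; norm_num), rfl⟩
  obtain ⟨P, hP⟩ := key _ hrc
  obtain ⟨P', hP'⟩ := key _ hgc
  have e1 : G ≃* f.range := MonoidHom.ofInjective hf
  have e2 : DihedralGroup 4 ≃* g.range := MonoidHom.ofInjective hg
  have e3 : P ≃* P' := Sylow.equiv P P'
  exact ⟨(e1.trans (MulEquiv.subgroupCongr hP.symm)).trans (e3.trans
    ((MulEquiv.subgroupCongr hP').trans e2.symm))⟩

lemma small_aut {G : Type} [Group G] (h : Nat.card (MulAut G) ≤ 7) [Finite G] :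
    SolList (MulAut G) := small_list h

theorem aut_perm4 {G : Type} [Group G] [Finite G] (f : G →* Equiv.Perm (Fin 4))
    (hf : Function.Injective f) : SolList (MulAut G) := by
  have hdvd : Nat.card G ∣ 24 := perm4_card ▸ Subgroup.card_dvd_of_injective f hf
  have hpos : 0 < Nat.card G := Nat.card_pos
  have hcases : Nat.card G ≤ 3 ∨ Nat.card G = 4 ∨ Nat.card G = 6 ∨ Nat.card G = 8 ∨
      Nat.card G = 12 ∨ Nat.card G = 24 := by
    have key : ∀ m ≤ 24, m ∣ 24 → m ≤ 3 ∨ m = 4 ∨ m = 6 ∨ m = 8 ∨ m = 12 ∨ m = 24 := by decide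
    exact key _ (Nat.le_of_dvd (by norm_num) hdvd) hdvd
  have hrc : Nat.card f.range = Nat.card G :=
    (Nat.card_congr (MonoidHom.ofInjective hf).toEquiv).symm
  rcases hcases with h | h | h | h | h | h
  · have hc := cyc_of_le3 h
    apply aut_cyc hc
    have : Nat.card G = 1 ∨ Nat.card G = 2 ∨ Nat.card G = 3 := by omega
    rcases this with h1 | h1 | h1 <;> rw [h1]
    exacts [good_1, good_2, good_3]
  · apply small_list
    have := Nat.le_of_dvd (by norm_num) (card_mulAut_four h)
    omega
  · by_cases hc : IsCyclic G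
    · exact aut_cyc hc (h ▸ good_6)
    · exact ⟨inferInstance, Or.inr (Or.inr (Or.inr (Or.inr (Or.inr (Or.inr
        (meta_aut (meta_six h hc)))))))⟩
  · obtain ⟨e⟩ := perm4_ord8 f hf h
    exact aut_equiv e aut_dih4
  · have h1 : f.range.index = 2 := by
      have h2 := f.range.card_mul_index
      rw [hrc, h, perm4_card] at h2
      omega
    have h2 := Equiv.Perm.eq_alternatingGroup_of_index_eq_two h1
    exact aut_equiv ((MonoidHom.ofInjective hf).trans (MulEquiv.subgroupCongr h2)) aut_a4
  · have hb : Function.Bijective f :=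
      Function.Injective.bijective_of_nat_card_le hf (by rw [perm4_card, h])
    exact aut_equiv (MulEquiv.ofBijective f hb) aut_s4

lemma q8_cen2 : ∀ t : QuaternionGroup 2, (∀ s, s * t = t * s) → t * t = 1 := by decide

theorem aut_bintet {G : Type} [Group G] (h : BinTet G) : SolList (MulAut G) := by
  obtain ⟨Q, z, x, hQn, ⟨e⟩, hQc, hQi, hzQ, hz1, hz2, hsq, hinv, hcm, hzc, hx, hC⟩ := bt_data h
  haveI : Finite G := Nat.finite_of_card_ne_zero (by rw [h.1]; norm_num)
  have hx3 : x ^ 3 = 1 := by rw [← hx]; exact pow_orderOf_eq_one x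
  have hxQ : x ∉ Q := by
    intro hxm
    have h5 := Subgroup.orderOf_dvd_natCard Q hxm
    rw [hx, hQc] at h5
    norm_num at h5
  have hchar : ∀ (α : MulAut G), ∀ s ∈ Q, α s ∈ Q := by
    intro α s hs
    have h3 : orderOf (α s) ∣ 8 := by
      have : orderOf (α s) = orderOf s := orderOf_injective α.toMonoidHom α.injective s
      rw [this, ← hQc]
      exact Subgroup.orderOf_dvd_natCard Q hs
    have h4 : orderOf (QuotientGroup.mk' Q (α s)) ∣ 8 := (orderOf_map_dvd _ _).trans h3
    have h5 : orderOf (QuotientGroup.mk' Q (α s)) ∣ 3 := by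
      rw [← hQi]
      exact orderOf_dvd_natCard _
    have h6 : orderOf (QuotientGroup.mk' Q (α s)) = 1 :=
      Nat.Coprime.eq_one_of_dvd (Nat.Coprime.coprime_dvd_left h4 (by norm_num)) h5
    rw [orderOf_eq_one_iff] at h6
    exact (QuotientGroup.eq_one_iff _).mp h6
  let ρ : MulAut G →* MulAut Q :=
    { toFun := fun α =>
        { toFun := fun n => ⟨α n, hchar α n n.2⟩
          invFun := fun n => ⟨α.symm n, hchar α.symm n n.2⟩
          left_inv := fun n => by simp
          right_inv := fun n => by simp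
          map_mul' := fun a b => Subtype.ext (by simp) }
      map_one' := rfl
      map_mul' := fun _ _ => rfl }
  refine list_sub ρ ?_ (aut_equiv e aut_q8)
  rw [injective_iff_map_eq_one]
  intro α hα
  have hfix : ∀ s ∈ Q, α s = s := fun s hs =>
    congrArg Subtype.val (DFunLike.congr_fun hα ⟨s, hs⟩)
  have hαx : α x = x := by
    have h7 : x⁻¹ * α x ∈ Subgroup.centralizer (Q : Set G) := by
      rw [Subgroup.mem_centralizer_iff]
      intro v hv
      have h8 := hfix _ (hQn.conj_mem v hv x)
      rw [map_mul, map_mul, map_inv, hfix v hv] at h8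
      have h9 := congrArg (fun y => x⁻¹ * y * α x) h8
      simp only [mul_assoc, inv_mul_cancel, mul_one, inv_mul_cancel_left] at h9
      rw [mul_assoc, h9]
    have h8 : x⁻¹ * α x ∈ Q := hC h7
    have h9 : (x⁻¹ * α x) * (x⁻¹ * α x) = 1 := by
      have h10 := q8_cen2 (e ⟨_, h8⟩) (by
        intro s
        obtain ⟨s', rfl⟩ := e.surjective s
        rw [← map_mul, ← map_mul]
        congr 1
        exact Subtype.ext ((Subgroup.mem_centralizer_iff.mp h7) s' s'.2))
      rw [← map_mul, ← map_one e] at h10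
      exact congrArg Subtype.val (e.injective h10)
    rcases hinv _ h8 h9 with h10 | h10
    · exact (inv_mul_eq_one.mp h10).symm
    · exfalso
      have h11 : α x = x * z := by rw [← h10, mul_inv_cancel_left]
      have h12 : (α x) ^ 3 = 1 := by rw [← map_pow, hx3, map_one]
      have h13 : Commute x z := hzc x
      rw [h11, h13.mul_pow, hx3, one_mul] at h12
      have h14 : z ^ 3 = z * z * z := by
        simp only [pow_succ, pow_zero, one_mul]
      rw [h14, hz2, one_mul] at h12
      exact hz1 h12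
  let F : Subgroup G := MonoidHom.eqLocus α.toMonoidHom (MonoidHom.id G)
  have hQF : Q ≤ F := fun s hs => hfix s hs
  have hxF : x ∈ F := hαx
  have hFi : F.index ∣ 3 := hQi ▸ Subgroup.index_dvd_of_le hQF
  rcases (Nat.dvd_prime Nat.prime_three).mp hFi with h5 | h5
  · refine MulEquiv.ext fun g => ?_
    have h6 : g ∈ F := by
      rw [Subgroup.index_eq_one.mp h5]
      exact Subgroup.mem_top g
    exact h6
  · exfalso
    have h6 : Q = F := by
      apply Subgroup.eq_of_le_of_card_ge hQF
      have h7 := F.card_mul_index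
      have h8 := Q.card_mul_index
      rw [h5] at h7
      rw [hQi] at h8
      omega
    exact hxQ (h6 ▸ hxF)

/-- closure of the list under automorphism groups -/
theorem list_aut {G : Type} [Group G] (h : SolList G) : SolList (MulAut G) := by
  obtain ⟨hfin, h⟩ := h
  rcases h with ⟨h1, h2⟩ | ⟨⟨e⟩⟩ | ⟨⟨e⟩⟩ | ⟨f, hf⟩ | ⟨⟨e⟩⟩ | h | h
  · exact aut_cyc h1 h2
  · exact aut_equiv e aut_c24
  · exact aut_equiv e aut_c26
  · exact aut_perm4 f hf
  · exact aut_equiv e aut_q8
  · exact aut_bintet h
  · exact ⟨inferInstance, Or.inr (Or.inr (Or.inr (Or.inr (Or.inr (Or.inr (meta_aut h))))))⟩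

/-- the list is closed -/
theorem list_closed : SHAClosed SolList where
  sub _ _ _ _ f hf h := list_sub f hf h
  quo _ _ _ _ f hf h := list_quo f hf h
  aut _ _ h := list_aut h

lemma e3_card : Nat.card (E 3) = 8 := by
  rw [Nat.card_eq_fintype_card]
  decide

/-- the elementary abelian group of order 8 is not in the list -/
theorem list_e3 : ¬ SolList (E 3) := by
  rintro ⟨_, h⟩
  have hsq : ∀ x : E 3, x * x = 1 := by decide
  have hcom : ∀ x y : E 3, x * y = y * x := fun x y => mul_comm x y
  rcases h with ⟨h1, h2⟩ | ⟨⟨e⟩⟩ | ⟨⟨e⟩⟩ | ⟨f, hf⟩ | ⟨⟨e⟩⟩ | h | h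
  · obtain ⟨g, hg⟩ := IsCyclic.exists_ofOrder_eq_natCard (α := E 3)
    have h3 : orderOf g ∣ 2 := orderOf_dvd_of_pow_eq_one (by rw [pow_two, hsq])
    rw [hg, e3_card] at h3
    norm_num at h3
  · have h3 : ∀ y : Multiplicative (ZMod 2 × ZMod 4), y * y = 1 := by
      intro y
      obtain ⟨x, rfl⟩ := e.surjective y
      rw [← map_mul, hsq, map_one]
    exact absurd h3 (by decide)
  · have h3 := card_c26 e
    rw [e3_card] at h3
    norm_num at h3
  · obtain ⟨e⟩ := perm4_ord8 f hf e3_card
    have h3 : ∀ x y : DihedralGroup 4, x * y = y * x := by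
      intro x y
      obtain ⟨x, rfl⟩ := e.surjective x
      obtain ⟨y, rfl⟩ := e.surjective y
      rw [← map_mul, hcom, map_mul]
    exact absurd h3 (by decide)
  · have h3 : ∀ x y : QuaternionGroup 2, x * y = y * x := by
      intro x y
      obtain ⟨x, rfl⟩ := e.surjective x
      obtain ⟨y, rfl⟩ := e.surjective y
      rw [← map_mul, hcom, map_mul]
    exact absurd h3 (by decide)
  · have h3 := h.1
    rw [e3_card] at h3
    norm_num at h3
  · obtain ⟨q, c, d, A, hA, π, hq, hNc, hDc, hGc, hd, hP, h4⟩ := meta_int h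
    rw [e3_card] at hGc
    have h3 : q ∣ 2 ^ 3 := ⟨c * d, by rw [← mul_assoc]; exact hGc⟩
    have h5 := (Nat.prime_dvd_prime_iff_eq hq Nat.prime_two).mp (hq.dvd_of_dvd_pow h3)
    have h6 := goodPP_odd (params_q hP)
    omega

end Pool.Agent.SHAF
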