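import Mathlib
import Pool.Agent.SHAF.ListAut4

set_option autoImplicit false

/-!
All groups in the list are soluble.
-/

namespace Pool.Agent.SHAF

open Pool.Agent.SHA

lemma sol_two {G : Type} [Group G] [Finite G] {n : ℕ} (h : Nat.card G = 2 ^ n) :
    Group.IsSolvable G := by
  haveI : Fact (Nat.Prime 2) := ⟨Nat.prime_two⟩
  haveI : Group.IsNilpotent G := (IsPGroup.of_card (n := n) h).isNilpotent
  infer_instance

lemma sol_cyc {G : Type} [Group G] (h : IsCyclic G) : Group.IsSolvable G := by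
  letI := IsCyclic.commGroup (α := G)
  exact Group.isSolvable_of_comm (fun a b => mul_comm a b)

lemma sol_int {G : Type} [Group G] (h : MetaInt G) : Group.IsSolvable G := by
  obtain ⟨q, c, d, A, hA, π, hq, hNc, hDc, hGc, hd, hP, h4⟩ := h
  haveI : Group.IsSolvable π.ker := sol_cyc (prime_cyc hq _ hNc)
  refine Group.isSolvable_of_ker_le_range π.ker.subtype π ?_
  rw [Subgroup.range_subtype]

lemma sol_six {G : Type} [Group G] [Finite G] (h : Nat.card G ∣ 6) : Group.IsSolvable G := by
  have hpos : 0 < Nat.card G := Nat.card_pos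
  have key : ∀ m ≤ 6, m ∣ 6 → m ≤ 3 ∨ m = 6 := by decide
  rcases key _ (Nat.le_of_dvd (by norm_num) h) h with h1 | h1
  · exact sol_cyc (cyc_of_le3 h1)
  · by_cases hc : IsCyclic G
    · exact sol_cyc hc
    · exact sol_int (meta_int (meta_six h1 hc))

lemma sol_klein {G : Type} [Group G] [Finite G] (V : Subgroup G) [V.Normal]
    (h4 : Nat.card V = 4) (hC : Subgroup.centralizer (V : Set G) ≤ V) : Group.IsSolvable G := by
  haveI : Group.IsSolvable V := sol_two (n := 2) (by rw [h4]; norm_num)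
  haveI : Group.IsSolvable (MulAut V) := sol_six (card_mulAut_four h4)
  refine Group.isSolvable_of_ker_le_range V.subtype (MulAut.conjNormal : G →* MulAut V) ?_
  rw [Subgroup.range_subtype, ← cent_eq_ker]
  exact hC

/-- the normal subgroup of order 4 in the symmetric group of degree 4 -/
def kv4 : Subgroup (Equiv.Perm (Fin 4)) where
  carrier := {v | KV v}
  mul_mem' := by
    have h : ∀ a b : Equiv.Perm (Fin 4), KV a → KV b → KV (a * b) := by decide +kernel
    exact fun {a b} ha hb => h a b ha hb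
  one_mem' := ⟨one_mul 1, fun g => by simp⟩
  inv_mem' := by
    rintro v ⟨h1, h2⟩
    have e1 : v⁻¹ = v := inv_eq_of_mul_eq_one_left h1
    change KV v⁻¹
    rw [e1]
    exact ⟨h1, h2⟩

lemma sol_s4 : Group.IsSolvable (Equiv.Perm (Fin 4)) := by
  haveI hVn : kv4.Normal := by
    constructor
    rintro v ⟨h1, h2⟩ g
    refine ⟨?_, fun k => ?_⟩
    · have : g * v * g⁻¹ * (g * v * g⁻¹) = g * (v * v) * g⁻¹ := by group
      rw [this, h1, mul_one, mul_inv_cancel]
    · have h3 := h2 (g⁻¹ * k * g)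
      calc g * v * g⁻¹ * (k * (g * v * g⁻¹) * k⁻¹)
          = g * (v * ((g⁻¹ * k * g) * v * (g⁻¹ * k * g)⁻¹)) * g⁻¹ := by group
        _ = g * ((g⁻¹ * k * g) * v * (g⁻¹ * k * g)⁻¹ * v) * g⁻¹ := by rw [h3]
        _ = k * (g * v * g⁻¹) * k⁻¹ * (g * v * g⁻¹) := by group
  refine sol_klein kv4 ?_ ?_
  · have : Nat.card kv4 = Nat.card {v : Equiv.Perm (Fin 4) // KV v} := rfl
    rw [this, Nat.card_eq_fintype_card]
    decide +kernel
  · have h : ∀ g : Equiv.Perm (Fin 4), (∀ v, KV v → v * g = g * v) → KV g := by decide +kernel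
    intro g hg
    rw [Subgroup.mem_centralizer_iff] at hg
    exact h g (fun v hv => hg v hv)

/-- all groups in the list are soluble -/
theorem list_sol {G : Type} [Group G] (h : SolList G) : Group.IsSolvable G := by
  obtain ⟨hfin, h⟩ := h
  rcases h with ⟨h1, h2⟩ | ⟨⟨e⟩⟩ | ⟨⟨e⟩⟩ | ⟨f, hf⟩ | ⟨⟨e⟩⟩ | ⟨h24, Q, hQn, ⟨e⟩, hC⟩ | h
  · exact sol_cyc h1
  · exact Group.isSolvable_of_comm (fun a b => e.injective (by rw [map_mul, map_mul, mul_comm]))
  · exact Group.isSolvable_of_comm (fun a b => e.injective (by rw [map_mul, map_mul, mul_comm]))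
  · haveI := sol_s4
    exact Group.isSolvable_of_isSolvable_injective hf
  · apply sol_two (n := 3)
    rw [Nat.card_congr e.toEquiv, Nat.card_eq_fintype_card, QuaternionGroup.card]
    norm_num
  · have hQc : Nat.card Q = 8 := by
      rw [Nat.card_congr e.toEquiv, Nat.card_eq_fintype_card, QuaternionGroup.card]
    haveI : Group.IsSolvable Q := sol_two (n := 3) (by rw [hQc]; norm_num)
    haveI : Finite (G ⧸ Q) := inferInstance
    have hi : Nat.card (G ⧸ Q) = 3 := by
      have h1 := Q.card_mul_index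
      rw [hQc, h24] at h1
      have : Q.index = 3 := by omega
      exact this
    haveI : Group.IsSolvable (G ⧸ Q) := sol_cyc (cyc_of_le3 (by rw [hi]))
    refine Group.isSolvable_of_ker_le_range Q.subtype (QuotientGroup.mk' Q) ?_
    rw [Subgroup.range_subtype, QuotientGroup.ker_mk']
  · exact sol_int (meta_int h)

end Pool.Agent.SHAF
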