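import Mathlib
import Pool.Agent.SHAF.ListSol

set_option autoImplicit false

/-!
Sylow 2-subgroups of the nonsoluble members.
-/

namespace Pool.Agent.SHAF

open Pool.Agent.SHA

variable {K : (G : Type) → [Group G] → Prop}

lemma perm4_tau : ∀ τ σ : Equiv.Perm (Fin 4), (∀ i, τ i ≠ i) → τ * τ = 1 → σ * τ = τ * σ →
    σ ^ 4 = 1 := by decide +kernel

/-- automorphisms of `C_2 × C_4` have order dividing 4 -/
lemma aut_c24_pow (α : MulAut C24) : α ^ 4 = 1 := by
  have hinv : ∀ (α : MulAut C24) (g : C24), g * g ≠ 1 → α g * α g ≠ 1 := by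
    intro α g hg h
    apply hg
    apply α.injective
    rw [map_mul, h, map_one]
  have hgen : ∀ g : C24, g * g ≠ 1 ∨ ∃ a b, a * a ≠ 1 ∧ b * b ≠ 1 ∧ g = a * b := by decide
  have hcard : Nat.card {g : C24 // g * g ≠ 1} = 4 := by
    rw [Nat.card_eq_fintype_card]
    decide
  let e := Finite.equivFinOfCardEq hcard
  let φ : MulAut C24 →* Equiv.Perm (Fin 4) :=
    (Equiv.permCongrHom e).toMonoidHom.comp (subAct (fun g : C24 => g * g ≠ 1) hinv)
  have hφ : Function.Injective φ := by
    refine (Equiv.permCongrHom e).injective.comp ?_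
    rw [injective_iff_map_eq_one]
    intro α hα
    have h1 : ∀ g, g * g ≠ 1 → α g = g := fun g hg =>
      congrArg Subtype.val (Equiv.congr_fun hα ⟨g, hg⟩)
    refine MulEquiv.ext fun g => ?_
    change α g = g
    rcases hgen g with h2 | ⟨a, b, ha, hb, rfl⟩
    · exact h1 g h2
    · rw [map_mul, h1 a ha, h1 b hb]
  let ι : MulAut C24 :=
    { toFun := fun g => g⁻¹
      invFun := fun g => g⁻¹
      left_inv := fun g => inv_inv g
      right_inv := fun g => inv_inv g
      map_mul' := fun a b => by rw [mul_inv] }
  have hι : ι * ι = 1 := by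
    refine MulEquiv.ext fun g => ?_
    change (g⁻¹)⁻¹ = g
    exact inv_inv g
  have hcomm : α * ι = ι * α := by
    refine MulEquiv.ext fun g => ?_
    change α g⁻¹ = (α g)⁻¹
    exact map_inv α g
  apply hφ
  rw [map_pow, map_one]
  refine perm4_tau (φ ι) (φ α) ?_ ?_ ?_
  · intro i hi
    have h1 : (subAct (fun g : C24 => g * g ≠ 1) hinv ι) (e.symm i) = e.symm i := by
      apply e.injective
      rw [e.apply_symm_apply]
      exact hi
    have h2 : (((e.symm i).1)⁻¹ : C24) = (e.symm i).1 := congrArg Subtype.val h1
    apply (e.symm i).2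
    nth_rewrite 1 [← h2]
    exact inv_mul_cancel _
  · rw [← map_mul, hι, map_one]
  · rw [← map_mul, ← map_mul, hcomm]

/-- nonsoluble members have Sylow 2-subgroups of order 4 (not cyclic) or nonabelian of order 8 -/
theorem nonsol_sylow (hK : SHAClosed K) (hE : ¬ K (E 3)) {G : Type} [Group G] [Finite G]
    (hG : K G) (hns : ¬ Group.IsSolvable G) (P : Sylow 2 G) :
    (Nat.card P = 4 ∧ ¬ IsCyclic P) ∨ Nonempty (P ≃* DihedralGroup 4) ∨
      Nonempty (P ≃* QuaternionGroup 2) := by
  haveI : Fact (Nat.Prime 2) := ⟨Nat.prime_two⟩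
  have hKP : K P := hK.sub _ _ P.1.subtype P.1.subtype_injective hG
  have hnc : ¬ IsCyclic P := by
    intro h
    apply hns
    haveI := isZGroup_of_two hK hE hG P h
    infer_instance
  have hcard : Nat.card P ≤ 8 := by
    rcases two_groups hK hE hKP P.2 with h | ⟨_, h⟩
    · exact h
    · exact absurd h hnc
  obtain ⟨n, hn⟩ := IsPGroup.iff_card.mp P.2
  have hn3 : n ≤ 3 := by
    by_contra hlt
    have : 2 ^ 4 ≤ 2 ^ n := Nat.pow_le_pow_right (by norm_num) (by omega)
    rw [← hn] at this
    omega
  interval_cases n
  · exact absurd (cyc_of_le3 (by rw [hn]; norm_num)) hnc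
  · exact absurd (cyc_of_le3 (by rw [hn]; norm_num)) hnc
  · exact Or.inl ⟨by rw [hn]; norm_num, hnc⟩
  · right
    have h8 : Nat.card P = 8 := by rw [hn]; norm_num
    have hex : ∃ x : P, x * x ≠ 1 := by
      by_contra hall
      push Not at hall
      exact hE (K_E3_of_exp hK hKP hall (by rw [h8]))
    rcases ord8_class h8 hnc hex with ⟨⟨e⟩⟩ | h | h
    · exfalso
      -- a normal complement exists
      have hPab : ∀ x ∈ P, ∀ y ∈ P, x * y = y * x := by
        intro x hx y hy
        have : (⟨x, hx⟩ : P) * ⟨y, hy⟩ = ⟨y, hy⟩ * ⟨x, hx⟩ :=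
          e.injective (by rw [map_mul, map_mul, mul_comm])
        exact congrArg Subtype.val this
      have hle : (Subgroup.normalizer ((P : Subgroup G) : Set G)) ≤
          Subgroup.centralizer ((P : Subgroup G) : Set G) := by
        intro g hg
        let κ := (P : Subgroup G).normalizerMonoidHom
        set g' : Subgroup.normalizer ((P : Subgroup G) : Set G) := ⟨g, hg⟩ with hg'
        have h4 : (κ g') ^ 4 = 1 := by
          apply (MulAut.congr e).injective
          rw [map_pow, map_one]
          exact aut_c24_pow _
        -- the index of P in the normaliser is odd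
        haveI hPn : ((P : Subgroup G).subgroupOf
            (Subgroup.normalizer ((P : Subgroup G) : Set G))).Normal := inferInstance
        set m := ((P : Subgroup G).subgroupOf
            (Subgroup.normalizer ((P : Subgroup G) : Set G))).index with hm
        have hmodd : ¬ 2 ∣ m := by
          intro h2
          apply P.not_dvd_index
          refine h2.trans ?_
          exact Subgroup.relIndex_dvd_index_of_le Subgroup.le_normalizer
        have hgm : g' ^ m ∈ ((P : Subgroup G).subgroupOf
            (Subgroup.normalizer ((P : Subgroup G) : Set G))) := Subgroup.pow_index_mem _ g'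
        have hκm : (κ g') ^ m = 1 := by
          rw [← map_pow]
          have h5 : g' ^ m ∈ κ.ker := by
            rw [Subgroup.normalizerMonoidHom_ker, Subgroup.mem_subgroupOf,
              Subgroup.mem_centralizer_iff]
            intro y hy
            exact hPab y hy _ hgm
          exact h5
        have hco : orderOf (κ g') = 1 := by
          have h5 : orderOf (κ g') ∣ 4 := orderOf_dvd_of_pow_eq_one h4
          have h6 : orderOf (κ g') ∣ m := orderOf_dvd_of_pow_eq_one hκm
          have h7 : Nat.Coprime 4 m := by
            have : Nat.Coprime (2 ^ 2) m :=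
              Nat.Coprime.pow_left 2 ((Nat.Prime.coprime_iff_not_dvd Nat.prime_two).mpr hmodd)
            exact this
          exact Nat.Coprime.eq_one_of_dvd (h7.coprime_dvd_left h5) h6
        have h8' : g' ∈ κ.ker := orderOf_eq_one_iff.mp hco
        rw [Subgroup.normalizerMonoidHom_ker] at h8'
        exact h8'
      apply hns
      let M := (MonoidHom.transferSylow P hle).ker
      have hMo : ¬ 2 ∣ Nat.card M := MonoidHom.not_dvd_card_ker_transferSylow P hle
      have hKM : K M := hK.sub _ _ M.subtype M.subtype_injective hG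
      haveI : IsZGroup M := odd_isZGroup hK hE hKM hMo
      haveI : Group.IsSolvable M := inferInstance
      haveI : Group.IsSolvable P := sol_two (n := 3) hn
      refine Group.isSolvable_of_ker_le_range M.subtype (MonoidHom.transferSylow P hle) ?_
      rw [Subgroup.range_subtype]
    · exact Or.inl h
    · exact Or.inr h

end Pool.Agent.SHAF
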