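import Mathlib
import Pool.Agent.SHA.Final
import Pool.Agent.SHAF.Nonsol

set_option autoImplicit false

/-!
The main theorems on finite members.
-/

namespace Pool.Agent.SHAF

open Pool.Agent.SHA

variable {K : (G : Type) → [Group G] → Prop}

lemma adm_of_e3 (hK : SHAClosed K) (hE : ¬ K (E 3)) : Admissible K :=
  ⟨hK, E 3, inferInstance, Finite.to_countable, hE⟩

lemma locSol_hyper {G : Type} [Group G] (h : LocallySoluble G) : HyperLSF G := by
  intro Q _ f hf hQ
  refine ⟨⊤, inferInstance, top_ne_bot, Or.inr ?_⟩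
  have h1 : LocallySoluble Q := h.of_surjective f hf
  exact h1.of_injective (⊤ : Subgroup Q).subtype (Subgroup.subtype_injective _)

lemma hyper_finite (hK : SHAClosed K) (hE : ¬ K (E 3)) {G : Type} [Group G] (hG : K G)
    (h : HyperLSF G) : Finite G := by
  by_contra hinf
  rw [not_finite_iff_infinite] at hinf
  exact hE (contains_finite_or_cyclic (adm_of_e3 hK hE) ⟨G, inferInstance, hG, h, hinf⟩ (E 3)
    (Or.inl inferInstance))

lemma locSol_finite {G : Type} [Group G] [Finite G] (h : LocallySoluble G) :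
    Group.IsSolvable G := by
  have h1 : (⊤ : Subgroup G).FG := Group.fg_def.mp inferInstance
  haveI := h ⊤ h1
  exact Group.isSolvable_of_surjective (f := (⊤ : Subgroup G).subtype)
    (fun g => ⟨⟨g, Subgroup.mem_top g⟩, rfl⟩)

theorem locSol_class (hK : SHAClosed K) (h : ∀ (G : Type) [Group G], K G → LocallySoluble G)
    (G : Type) [Group G] (hG : K G) : SolList G := by
  have hE : ¬ K (E 3) := by
    intro hE
    have h1 := all_finite hK hE (Equiv.Perm (Fin 5))
    exact Equiv.Perm.not_isSolvable_fin_5 (locSol_finite (h _ h1))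
  have h1 := h G hG
  haveI := hyper_finite hK hE hG (locSol_hyper h1)
  haveI := locSol_finite h1
  exact sol_forward hK hE G hG

theorem hyper_members (hK : SHAClosed K) (hE : ¬ K (E 3)) (G : Type) [Group G] (hG : K G)
    (h : HyperLSF G) : Finite G ∧ (Group.IsSolvable G → SolList G) ∧
      (∀ p : ℕ, p.Prime → p ≠ 2 → ∀ P : Sylow p G, IsCyclic P) ∧
      (¬ Group.IsSolvable G → ∀ P : Sylow 2 G, (Nat.card P = 4 ∧ ¬ IsCyclic P) ∨
        Nonempty (P ≃* DihedralGroup 4) ∨ Nonempty (P ≃* QuaternionGroup 2)) := by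
  haveI := hyper_finite hK hE hG h
  refine ⟨inferInstance, fun hs => ?_, fun p hp hp2 P => ?_, fun hns P => ?_⟩
  · haveI := hs
    exact sol_forward hK hE G hG
  · exact odd_p_groups hK hE hp hp2 (hK.sub _ _ P.1.subtype P.1.subtype_injective hG) P.2
  · exact nonsol_sylow hK hE hG hns P

end Pool.Agent.SHAF
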